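import Pool.Agent.N976.GD.Stm

/-!
Assembly of the project GD.
-/

set_option autoImplicit false

open MeasureTheory Set Filter Topology
open scoped ContDiff

namespace Pool.Agent.N976.GD

open H459R3.NS Pool.Agent.N977.Q

namespace AS

/-- data with a global smooth solution, square integrable in time -/
def Good (ν : ℝ) (V₀ : V → V) : Prop :=
  SPV V₀ ∧ Dv V₀ ∧ fv V₀ 0 = 0 ∧ ∃ (u : ℝ → V → V) (q : ℝ → V → ℝ), u 0 = V₀ ∧
    (∀ T, IsSol ν T u q) ∧ (∃ Q, ∀ τ, 0 ≤ τ → ∫ t in (0:ℝ)..τ, An (fv (u t)) ^ 2 ≤ Q) ∧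
    ∃ B, ∀ t, 0 ≤ t → An (fv (u t)) ≤ B

/-! ### Fourier coefficients -/

theorem isCompact_cube : IsCompact cube := isCompact_Icc

theorem ee_cont (k : K3) : Continuous (ee k) := by
  unfold ee ph
  fun_prop

theorem int_ok {f : V → ℝ} (hf : Continuous f) (k : K3) :
    IntegrableOn (fun x => ee (-k) x * ((f x : ℝ) : ℂ)) cube := by
  apply ContinuousOn.integrableOn_compact isCompact_cube
  exact ((ee_cont _).mul (Complex.continuous_ofReal.comp hf)).continuousOn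

theorem comp_cont {v : V → V} (hv : SPV v) (i : Fin 3) : Continuous fun x => v x i :=
  (continuous_apply i).comp hv.1.continuous

theorem fv_add {v w : V → V} (hv : SPV v) (hw : SPV w) : fv (v + w) = fv v + fv w := by
  funext k i
  simp only [fv, fr, fc, Pi.add_apply]
  rw [← integral_add (int_ok (comp_cont hv i) k) (int_ok (comp_cont hw i) k)]
  congr 1
  funext x
  push_cast
  ring

theorem fv_zero : fv (0 : V → V) = 0 := by
  funext k i
  simp [fv, fr, fc]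

theorem SPV.add' {v w : V → V} (hv : SPV v) (hw : SPV w) : SPV (v + w) := by
  refine ⟨hv.1.add hw.1, fun i x => ?_⟩
  simp only [Pi.add_apply]
  rw [hv.2 i x, hw.2 i x]

theorem SPV.zero' : SPV (0 : V → V) := ⟨contDiff_const, fun i x => rfl⟩

theorem comp_diff {v : V → V} (hv : SPV v) (i : Fin 3) : Differentiable ℝ fun x => v x i := by
  have h1 : ContDiff ℝ ∞ fun x => v x i := (contDiff_apply ℝ ℝ i).comp hv.1
  exact h1.differentiable (by simp)

theorem Dv.add' {v w : V → V} (hv : SPV v) (hw : SPV w) (h1 : Dv v) (h2 : Dv w) : Dv (v + w) := by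
  intro x
  have h3 : ∀ i, pd i (fun y => (v + w) y i) x = pd i (fun y => v y i) x + pd i (fun y => w y i) x := by
    intro i
    unfold pd
    have h4 : (fun y => (v + w) y i) = (fun y => v y i) + fun y => w y i := rfl
    rw [h4, fderiv_add (comp_diff hv i x) (comp_diff hw i x)]
    rfl
  simp only [h3, Finset.sum_add_distrib]
  rw [h1 x, h2 x, add_zero]

theorem Dv.zero' : Dv (0 : V → V) := by
  intro x
  apply Finset.sum_eq_zero
  intro i _
  unfold pd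
  have : (fun y : V => (0 : V → V) y i) = fun _ => (0 : ℝ) := rfl
  rw [this]
  simp

theorem mean_of {v : V → V} (hv : SPV v) (h : fv v 0 = 0) (i : Fin 3) : ∫ x in cube, v x i = 0 := by
  have h1 : fv v 0 i = 0 := by rw [h]; rfl
  have h2 : fv v 0 i = ((∫ x in cube, v x i : ℝ) : ℂ) := by
    simp only [fv, fr, fc]
    rw [← integral_complex_ofReal]
    congr 1
    funext x
    simp [ee, ph]
  rw [h2] at h1
  exact_mod_cast h1

theorem of_mean {v : V → V} (h : ∀ i, ∫ x in cube, v x i = 0) : fv v 0 = 0 := by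
  funext i
  have h2 : fv v 0 i = ((∫ x in cube, v x i : ℝ) : ℂ) := by
    simp only [fv, fr, fc]
    rw [← integral_complex_ofReal]
    congr 1
    funext x
    simp [ee, ph]
  rw [h2, h i]
  simp

theorem spv_sol {ν T : ℝ} {u : ℝ → V → V} {q : ℝ → V → ℝ} (h : IsSol ν T u q) {t : ℝ}
    (ht : t ∈ Ico 0 T) : SPV (u t) := by
  refine ⟨?_, h.per_u t ht⟩
  have h1 : ContDiffOn ℝ ∞ (fun x : V => ((t, x) : ℝ × V)) univ := by
    apply ContDiff.contDiffOn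
    exact contDiff_const.prodMk contDiff_id
  have h2 := h.smooth_u.comp h1 (fun x _ => ⟨ht, mem_univ _⟩)
  exact contDiffOn_univ.1 h2

/-! ### the continuation argument -/

theorem core (hFOU : S_FOU) (hENG : S_ENG) (hSUP : S_SUP) (hLEX : S_LEX) {ν : ℝ} (hν : 0 < ν)
    {F : V → V} (h1 : SPV F) (h2 : Dv F) (h3 : fv F 0 = 0) {Q' : ℝ}
    (hQ : ∀ (T : ℝ) (u : ℝ → V → V) (q : ℝ → V → ℝ), 0 < T → IsSol ν T u q → u 0 = F →
      ∀ τ ∈ Ico 0 T, ∫ t in (0:ℝ)..τ, An (fv (u t)) ^ 2 ≤ Q') : Good ν F := by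
  obtain ⟨CE, hCE, hE⟩ := hENG ν hν
  obtain ⟨CS, hCS, hS⟩ := hSUP
  obtain ⟨u, q, hu0, hu⟩ := hLEX ν hν F h1 h2
  have hmean : ∀ i, ∫ x in cube, u 0 x i = 0 := by
    intro i
    rw [hu0]
    exact mean_of h1 h3 i
  rcases hu with hg | ⟨T, hT, hs, hn⟩
  · refine ⟨h1, h2, h3, u, q, hu0, hg, ⟨Q', fun τ hτ => ?_⟩, CS * (Real.exp (CE * Q') * Hn 3 0 (u 0)),
      fun t ht => ?_⟩
    · exact hQ (τ + 1) u q (by linarith) (hg _) hu0 τ ⟨hτ, by linarith⟩
    · have htI : t ∈ Ico 0 (t + 1) := ⟨ht, by linarith⟩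
      have h4 := hE (t + 1) Q' u q (hg _) hmean
        (fun τ hτ => hQ (t + 1) u q (by linarith) (hg _) hu0 τ hτ) t htI
      have h5 := (hS (u t) (spv_sol (hg (t + 1)) htI)
        ((hFOU ν (t + 1) u q hν (hg _) hmean).zero t htI)).2
      exact h5.trans (mul_le_mul_of_nonneg_left h4 hCS)
  · exfalso
    apply hn
    exact ⟨Real.exp (CE * Q') * Hn 3 0 (u 0), fun t ht => hE T Q' u q hs hmean
      (fun τ hτ => hQ T u q hT hs hu0 τ hτ) t ht⟩

/-! ### one packet -/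

theorem step (hFOU : S_FOU) (hENG : S_ENG) (hSUP : S_SUP) (hLEX : S_LEX) (hMOD : S_MOD)
    (hMIN : S_MIN) (hZIN : S_ZIN) (hGRW : S_GRW) (hNNB : S_NNB) (hSTB : S_STB) (hTCF : S_TCF)
    (hNTC : S_NTC) (hPKF : S_PKF) (hPKN : S_PKN) {ν : ℝ} (hν : 0 < ν) {V₀ : V → V}
    (hV : Good ν V₀) {k p : K3} (hk : k ≠ 0) (hp : p ≠ 0) (hkp : ∑ j, k j * p j = 0) (α s : ℝ) :
    ∃ N₀ : ℕ, ∀ N, N₀ ≤ N → Good ν (V₀ + EP ν k p α s + WP N k p α s) := by
  obtain ⟨hV1, hV2, hV3, uv, qv, hv0, hvs, hvQ, hvB⟩ := hV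
  have hΛ : 0 < 4 * Real.pi ^ 2 * ν := by positivity
  obtain ⟨C₁, w, g, hP, hw⟩ := hPKF hNNB hTCF hNTC ν hν k p hk hp hkp α s
  have hmv : ∀ i, ∫ x in cube, uv 0 x i = 0 := by
    intro i
    rw [hv0]
    exact mean_of hV1 hV3 i
  obtain ⟨N₀, η, Q', hη, hst⟩ := hSTB hMOD hMIN hZIN hGRW hNNB (4 * Real.pi ^ 2 * ν) hΛ
    (fun t => fv (uv t)) (fun T => hFOU ν T uv qv hν (hvs T) hmv) hvQ hvB C₁ w g _ hP
  obtain ⟨hPW, hPE⟩ := hPKN hTCF k p hk hp hkp α s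
  refine ⟨max N₀ 1, fun N hN => ?_⟩
  have hN1 : 1 ≤ N := (le_max_right _ _).trans hN
  obtain ⟨hW1, hW2, hW3, hW4, hW5⟩ := hPW N hN1
  obtain ⟨hE1, hE2, hE3, hE4⟩ := hPE ν
  have hF1 : SPV (V₀ + EP ν k p α s + WP N k p α s) := SPV.add' (SPV.add' hV1 hE1) hW1
  have hF2 : Dv (V₀ + EP ν k p α s + WP N k p α s) :=
    Dv.add' (SPV.add' hV1 hE1) hW1 (Dv.add' hV1 hE1 hV2 hE2) hW2
  have hfv : fv (V₀ + EP ν k p α s + WP N k p α s) = fv V₀ + fv (EP ν k p α s) + fv (WP N k p α s) := by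
    rw [fv_add (SPV.add' hV1 hE1) hW1, fv_add hV1 hE1]
  have hF3 : fv (V₀ + EP ν k p α s + WP N k p α s) 0 = 0 := by
    rw [hfv]
    simp only [Pi.add_apply, hV3, hE3, hW3, add_zero]
  refine core hFOU hENG hSUP hLEX hν hF1 hF2 hF3 (Q' := Q') ?_
  intro T u q hT hu hu0
  have hmu : ∀ i, ∫ x in cube, u 0 x i = 0 := by
    intro i
    rw [hu0]
    exact mean_of hF1 hF3 i
  refine hst N ((le_max_left _ _).trans hN) T (fun t => fv (u t)) hT (hFOU ν T u q hν hu hmu) ?_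
  have h0 : (fun l => fv (u 0) l - (fv (uv 0) l + fv (EP ν k p α s) l + w N 0 l)) = 0 := by
    funext l
    rw [hu0, hfv, hv0, hw N hN1]
    simp
  have h1 : An (fun l => fv (u 0) l - (fv (uv 0) l + fv (EP ν k p α s) l + w N 0 l)) = 0 := by
    rw [h0]
    simp [An]
  rw [h1]
  exact hη.le

/-! ### small data -/

theorem NN_zero (k : K3) : NN 0 0 k = 0 := by
  have h : cvv (0 : Cf) 0 k = 0 := by
    funext i
    simp [cvv]
  unfold NN
  rw [h]
  funext i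
  simp [prj]

theorem small (hFOU : S_FOU) (hENG : S_ENG) (hSUP : S_SUP) (hLEX : S_LEX) (hMOD : S_MOD)
    (hMIN : S_MIN) (hZIN : S_ZIN) (hGRW : S_GRW) (hNNB : S_NNB) (hSTB : S_STB) {ν : ℝ}
    (hν : 0 < ν) : ∃ η : ℝ, 0 < η ∧ ∀ R : V → V, SPV R → Dv R → fv R 0 = 0 → An (fv R) ≤ η →
      Good ν R := by
  have hΛ : 0 < 4 * Real.pi ^ 2 * ν := by positivity
  have hA0 : An 0 = 0 := by simp [An]
  have hP : Pkt (4 * Real.pi ^ 2 * ν) 0 (fun _ _ => 0) (fun _ _ => 0) 0 := by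
    refine ⟨le_rfl, fun N _ t k => by simp, fun N _ => ⟨0, le_rfl, fun t k => by simp, fun _ _ => 0,
      fun k => continuous_const, ⟨∅, fun _ _ _ => rfl⟩, fun _ _ => le_rfl, fun t _ k => ?_,
      fun t _ => by simp⟩, fun N _ => by simp, by simp, fun N _ => rfl, rfl, fun N _ t _ => ?_,
      fun N _ t _ => ?_⟩
    · rw [NN_zero]
      simp
    · rw [hA0]; simp
    · rw [hA0]; simp
  obtain ⟨N₀, η, Q', hη, hst⟩ := hSTB hMOD hMIN hZIN hGRW hNNB (4 * Real.pi ^ 2 * ν) hΛ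
    (fun _ => 0) (fun T => ⟨fun k => continuousOn_const, fun t _ k => by
      have h1 := hasDerivAt_const t (0 : C3)
      have h2 : (-((4 * Real.pi ^ 2 * ν * len k ^ 2) • (0 : Cf) k) - NN 0 0 k) = 0 := by
        rw [NN_zero]; simp
      simpa [h2, NN_zero] using h1, fun T' _ => ⟨fun _ => 0, summable_zero, fun t _ k => by simp⟩,
      fun t _ => rfl⟩) ⟨0, fun τ _ => by simp [hA0]⟩ ⟨0, fun t _ => by rw [hA0]⟩ 0 _ _ 0 hP
  refine ⟨η, hη, fun R h1 h2 h3 h4 => core hFOU hENG hSUP hLEX hν h1 h2 h3 (Q' := Q') ?_⟩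
  intro T u q hT hu hu0
  have hmu : ∀ i, ∫ x in cube, u 0 x i = 0 := by
    intro i
    rw [hu0]
    exact mean_of h1 h3 i
  refine hst N₀ le_rfl T (fun t => fv (u t)) hT (hFOU ν T u q hν hu hmu) ?_
  have h5 : (fun l => fv (u 0) l - ((0 : Cf) l + (0 : Cf) l + (0 : Cf) l)) = fv R := by
    funext l
    rw [hu0]
    simp
  rw [h5]
  exact h4

end AS

end Pool.Agent.N976.GD
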