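import Pool.Agent.N976.GD.Asm

/-!
Assembly of the project GD, second part: many packets.
-/

set_option autoImplicit false

open MeasureTheory Set Filter Topology
open scoped ContDiff

namespace Pool.Agent.N976.GD

open H459R3.NS Pool.Agent.N977.Q

/-- The sum of the absolute values of the Fourier coefficients of `exp (t Δ) v`. -/
noncomputable def HA (t : ℝ) (v : V → V) : ℝ :=
  ∑' k, Real.exp (-(4 * Real.pi ^ 2 * len k ^ 2 * t)) * ‖fv v k‖

namespace AS

/-- the parts of the proof -/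
structure HH : Prop where
  FOU : S_FOU
  ENG : S_ENG
  SUP : S_SUP
  LEX : S_LEX
  MOD : S_MOD
  MIN : S_MIN
  ZIN : S_ZIN
  GRW : S_GRW
  NNB : S_NNB
  STB : S_STB
  TCF : S_TCF
  NTC : S_NTC
  PKF : S_PKF
  PKN : S_PKN
  DEC : S_DEC
  LAC : S_LAC

theorem sum_HA {v : V → V} (hs : Summable fun k => ‖fv v k‖) {t : ℝ} (ht : 0 ≤ t) :
    Summable fun k => Real.exp (-(4 * Real.pi ^ 2 * len k ^ 2 * t)) * ‖fv v k‖ := by
  refine Summable.of_nonneg_of_le (fun k => by positivity) (fun k => ?_) hs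
  have h1 : Real.exp (-(4 * Real.pi ^ 2 * len k ^ 2 * t)) ≤ 1 := by
    rw [Real.exp_le_one_iff]
    have : 0 ≤ 4 * Real.pi ^ 2 * len k ^ 2 * t := by positivity
    linarith
  exact mul_le_of_le_one_left (norm_nonneg _) h1

theorem HA_nonneg (t : ℝ) (v : V → V) : 0 ≤ HA t v := tsum_nonneg fun k => by positivity

theorem HA_add {v w : V → V} (hv : SPV v) (hw : SPV w) (h1 : Summable fun k => ‖fv v k‖)
    (h2 : Summable fun k => ‖fv w k‖) {t : ℝ} (ht : 0 ≤ t) : HA t (v + w) ≤ HA t v + HA t w := by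
  unfold HA
  rw [← (sum_HA h1 ht).tsum_add (sum_HA h2 ht)]
  have h3 : ∀ k, ‖fv (v + w) k‖ ≤ ‖fv v k‖ + ‖fv w k‖ := by
    intro k
    rw [fv_add hv hw]
    exact norm_add_le _ _
  have h4 : ∀ k, Real.exp (-(4 * Real.pi ^ 2 * len k ^ 2 * t)) * ‖fv (v + w) k‖
      ≤ Real.exp (-(4 * Real.pi ^ 2 * len k ^ 2 * t)) * ‖fv v k‖
        + Real.exp (-(4 * Real.pi ^ 2 * len k ^ 2 * t)) * ‖fv w k‖ := by
    intro k
    rw [← mul_add]
    exact mul_le_mul_of_nonneg_left (h3 k) (Real.exp_pos _).le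
  exact Summable.tsum_le_tsum h4
    (Summable.of_nonneg_of_le (fun k => by positivity) h4 ((sum_HA h1 ht).add (sum_HA h2 ht)))
    ((sum_HA h1 ht).add (sum_HA h2 ht))

theorem chain (h : HH) {ν : ℝ} (hν : 0 < ν) {δ : ℝ} {V₀ : V → V} (hV : Good ν V₀) :
    ∀ P : List (K3 × K3 × ℝ × ℝ),
    (∀ e ∈ P, e.1 ≠ 0 ∧ e.2.1 ≠ 0 ∧ ∑ j, e.1 j * e.2.1 j = 0) →
    (∀ e ∈ P, |e.2.2.1| * (len e.1 + len e.2.1) * 2 ≤ δ) →
    ∃ (l : List ℕ) (W : V → V), l.length = P.length ∧ l.Pairwise (fun a b => 2 * b ≤ a) ∧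
      (∀ n ∈ l, 1 ≤ n) ∧ SPV W ∧ Dv W ∧ fv W 0 = 0 ∧ (Summable fun k => ‖fv W k‖) ∧
      Good ν (V₀ + (P.map fun e => EP ν e.1 e.2.1 e.2.2.1 e.2.2.2).sum + W) ∧
      ∀ t, 0 ≤ t → HA t W ≤
        δ * (l.map fun n : ℕ => (n : ℝ) * Real.exp (-(4 * Real.pi ^ 2 * n ^ 2 * t))).sum := by
  intro P
  induction P with
  | nil =>
    intro _ _
    refine ⟨[], 0, rfl, List.Pairwise.nil, by simp, SPV.zero', Dv.zero', by rw [fv_zero]; rfl, ?_,
      by simpa using hV, ?_⟩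
    · rw [fv_zero]
      simp only [Pi.zero_apply, norm_zero]
      exact summable_zero
    · intro t _
      unfold HA
      rw [fv_zero]
      simp
  | cons e P ih =>
    intro hP hδ
    obtain ⟨l, W, hl1, hl2, hl3, hW1, hW2, hW3, hW4, hG, hB⟩ :=
      ih (fun e' he' => hP e' (List.mem_cons_of_mem _ he'))
        (fun e' he' => hδ e' (List.mem_cons_of_mem _ he'))
    obtain ⟨he1, he2, he3⟩ := hP e List.mem_cons_self
    have hδe := hδ e List.mem_cons_self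
    obtain ⟨N₀, hN₀⟩ := step h.FOU h.ENG h.SUP h.LEX h.MOD h.MIN h.ZIN h.GRW h.NNB h.STB h.TCF
      h.NTC h.PKF h.PKN hν hG he1 he2 he3 e.2.2.1 e.2.2.2
    have hmx : ∃ m : ℕ, ∀ n ∈ l, n ≤ m := by
      refine ⟨l.sum, fun n hn => ?_⟩
      exact List.single_le_sum (fun x _ => Nat.zero_le x) n hn
    obtain ⟨m, hm⟩ := hmx
    set N : ℕ := max (max N₀ 1) (2 * m) with hN
    have hNN0 : N₀ ≤ N := (le_max_left _ _).trans (le_max_left _ _)
    have hN1 : 1 ≤ N := (le_max_right _ _).trans (le_max_left _ _)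
    have hNm : 2 * m ≤ N := le_max_right _ _
    obtain ⟨hq1, hq2, hq3, hq4, hq5⟩ := (h.PKN h.TCF e.1 e.2.1 he1 he2 he3 e.2.2.1 e.2.2.2).1 N hN1
    refine ⟨N :: l, W + WP N e.1 e.2.1 e.2.2.1 e.2.2.2, by simp [hl1], ?_, ?_,
      SPV.add' hW1 hq1, Dv.add' hW1 hq1 hW2 hq2, ?_, ?_, ?_, ?_⟩
    · refine List.Pairwise.cons (fun b hb => ?_) hl2
      exact (Nat.mul_le_mul_left 2 (hm b hb)).trans hNm
    · intro n hn
      rcases List.mem_cons.1 hn with rfl | hn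
      · exact hN1
      · exact hl3 n hn
    · rw [fv_add hW1 hq1, Pi.add_apply, hW3, hq3, add_zero]
    · rw [fv_add hW1 hq1]
      exact Summable.of_nonneg_of_le (fun k => norm_nonneg _) (fun k => norm_add_le _ _)
        (hW4.add hq4)
    · have h5 := hN₀ N hNN0
      have h6 : V₀ + (P.map fun e => EP ν e.1 e.2.1 e.2.2.1 e.2.2.2).sum + W
          + EP ν e.1 e.2.1 e.2.2.1 e.2.2.2 + WP N e.1 e.2.1 e.2.2.1 e.2.2.2
          = V₀ + ((e :: P).map fun e => EP ν e.1 e.2.1 e.2.2.1 e.2.2.2).sum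
            + (W + WP N e.1 e.2.1 e.2.2.1 e.2.2.2) := by
        rw [List.map_cons, List.sum_cons]
        abel
      rw [← h6]
      exact h5
    · intro t ht
      have h7 := HA_add hW1 hq1 hW4 hq4 ht
      have h8 := hB t ht
      have h9 : HA t (WP N e.1 e.2.1 e.2.2.1 e.2.2.2)
          ≤ δ * ((N : ℝ) * Real.exp (-(4 * Real.pi ^ 2 * N ^ 2 * t))) := by
        refine (hq5 t ht).trans ?_
        have h10 : |e.2.2.1| * N * (len e.1 + len e.2.1) * 2
            * Real.exp (-(4 * Real.pi ^ 2 * N ^ 2 * t))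
            = |e.2.2.1| * (len e.1 + len e.2.1) * 2 * ((N : ℝ)
              * Real.exp (-(4 * Real.pi ^ 2 * N ^ 2 * t))) := by ring
        rw [h10]
        exact mul_le_mul_of_nonneg_right hδe (by positivity)
      rw [List.map_cons, List.sum_cons, mul_add]
      linarith

theorem sum_app (F : K3 × K3 × ℝ × ℝ → V → V) (L : List (K3 × K3 × ℝ × ℝ)) (x : V) (i : Fin 3) :
    (L.map F).sum x i = (L.map fun e => F e x i).sum := by
  induction L with
  | nil => rfl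
  | cons e L ih =>
    simp only [List.map_cons, List.sum_cons, Pi.add_apply]
    rw [ih]

/-- `∫ n t^(-1/2) exp (-4 π² n² t) dt ≤ 1` -/
theorem lint {n : ℕ} (hn : 1 ≤ n) :
    ∫⁻ t in Ioi (0:ℝ), ENNReal.ofReal ((n : ℝ) * (t ^ (-(1/2) : ℝ) *
      Real.exp (-(4 * Real.pi ^ 2 * n ^ 2 * t)))) ≤ 1 := by
  have hn0 : (0:ℝ) < n := by exact_mod_cast hn
  have hr : 0 < 4 * Real.pi ^ 2 * (n : ℝ) ^ 2 := by positivity
  have h1 := Real.integral_rpow_mul_exp_neg_mul_Ioi (a := 1/2) (r := 4 * Real.pi ^ 2 * (n : ℝ) ^ 2)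
    (by norm_num) hr
  have h2 : (1/2 : ℝ) - 1 = -(1/2) := by norm_num
  rw [h2] at h1
  have h3 : (1 / (4 * Real.pi ^ 2 * (n : ℝ) ^ 2)) ^ (1/2 : ℝ) = 1 / (2 * Real.pi * n) := by
    rw [← Real.sqrt_eq_rpow]
    have : 1 / (4 * Real.pi ^ 2 * (n : ℝ) ^ 2) = (1 / (2 * Real.pi * n)) ^ 2 := by
      rw [div_pow]; ring
    rw [this, Real.sqrt_sq (by positivity)]
  rw [h3, Real.Gamma_one_half_eq] at h1
  have hpos : 0 < 1 / (2 * Real.pi * n) * √Real.pi := by positivity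
  have hint : IntegrableOn (fun t : ℝ => t ^ (-(1/2) : ℝ) *
      Real.exp (-(4 * Real.pi ^ 2 * (n:ℝ) ^ 2 * t))) (Ioi 0) := by
    by_contra hc
    have := integral_undef hc
    rw [this] at h1
    exact absurd h1.symm hpos.ne'
  rw [← ofReal_integral_eq_lintegral_ofReal (hint.const_mul _)]
  · rw [integral_const_mul, h1]
    rw [← ENNReal.ofReal_one]
    apply ENNReal.ofReal_le_ofReal
    have h4 : √Real.pi ≤ Real.pi := by
      rw [Real.sqrt_le_left Real.pi_pos.le]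
      nlinarith [Real.pi_gt_three]
    have h5 : (n : ℝ) * (1 / (2 * Real.pi * n) * √Real.pi) = √Real.pi / (2 * Real.pi) := by
      field_simp
    rw [h5, div_le_one (by positivity)]
    linarith [Real.pi_pos]
  · refine (ae_restrict_iff' measurableSet_Ioi).2 (ae_of_all _ fun t ht => ?_)
    have : 0 < t := ht
    positivity

end AS

end Pool.Agent.N976.GD
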