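import Pool.Agent.N976.GD.Asm2

/-!
Assembly of the project GD, third part: the density theorem.
-/

set_option autoImplicit false

open MeasureTheory Set Filter Topology
open scoped ContDiff

namespace Pool.Agent.N976.GD

open H459R3.NS Pool.Agent.N977.Q

namespace AS

theorem sum_flat (L : List (K3 × K3 × ℝ × ℝ)) (m : ℕ) (f : K3 × K3 × ℝ × ℝ → K3 × K3 × ℝ × ℝ)
    (F : K3 × K3 × ℝ × ℝ → ℝ) :
    ((L.flatMap fun e => List.replicate m (f e)).map F).sum = (L.map fun e => m * F (f e)).sum := by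
  induction L with
  | nil => rfl
  | cons e L ih =>
    simp only [List.flatMap_cons, List.map_append, List.sum_append, List.map_cons, List.sum_cons]
    rw [ih]
    simp

theorem len_flat (L : List (K3 × K3 × ℝ × ℝ)) (m : ℕ)
    (f : K3 × K3 × ℝ × ℝ → K3 × K3 × ℝ × ℝ) :
    (L.flatMap fun e => List.replicate m (f e)).length = m * L.length := by
  induction L with
  | nil => simp
  | cons e L ih =>
    simp only [List.flatMap_cons, List.length_append, List.length_replicate, List.length_cons]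
    rw [ih]
    ring

theorem len_pos' {p : K3} (hp : p ≠ 0) : 0 < len p := by
  unfold len
  apply Real.sqrt_pos.2
  by_contra hc
  have h1 : ∑ j, (p j : ℝ) ^ 2 = 0 := le_antisymm (not_lt.1 hc) (Finset.sum_nonneg fun j _ => sq_nonneg _)
  apply hp
  funext j
  have h2 := (Finset.sum_eq_zero_iff_of_nonneg (fun j _ => sq_nonneg ((p j : ℝ)))).1 h1 j
    (Finset.mem_univ j)
  have h3 : (p j : ℝ) = 0 := by simpa using h2
  exact_mod_cast h3

/-- the integral of a lacunary sum -/
theorem lsum (l : List ℕ) (hl : ∀ n ∈ l, 1 ≤ n) :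
    ∫⁻ t in Ioi (0:ℝ), ENNReal.ofReal ((l.map fun n : ℕ => (n : ℝ) * (t ^ (-(1/2) : ℝ) *
      Real.exp (-(4 * Real.pi ^ 2 * n ^ 2 * t)))).sum) ≤ l.length := by
  induction l with
  | nil => simp
  | cons n l ih =>
    have h1 := ih fun n' hn' => hl n' (List.mem_cons_of_mem _ hn')
    have h2 := lint (hl n List.mem_cons_self)
    have h3 : ∀ t ∈ Ioi (0:ℝ), ENNReal.ofReal (((n :: l).map fun n : ℕ => (n : ℝ) * (t ^ (-(1/2) : ℝ) *
        Real.exp (-(4 * Real.pi ^ 2 * n ^ 2 * t)))).sum)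
        = ENNReal.ofReal ((n : ℝ) * (t ^ (-(1/2) : ℝ) * Real.exp (-(4 * Real.pi ^ 2 * n ^ 2 * t))))
          + ENNReal.ofReal ((l.map fun n : ℕ => (n : ℝ) * (t ^ (-(1/2) : ℝ) *
            Real.exp (-(4 * Real.pi ^ 2 * n ^ 2 * t)))).sum) := by
      intro t ht
      have ht' : (0:ℝ) < t := ht
      rw [List.map_cons, List.sum_cons, ENNReal.ofReal_add (by positivity)]
      apply List.sum_nonneg
      intro x hx
      obtain ⟨n', _, rfl⟩ := List.mem_map.1 hx
      positivity
    rw [setLIntegral_congr_fun measurableSet_Ioi h3]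
    rw [lintegral_add_left]
    · refine (add_le_add h2 h1).trans ?_
      rw [List.length_cons]
      push_cast
      rw [add_comm]
    · apply Measurable.ennreal_ofReal
      apply Measurable.const_mul
      apply Measurable.mul
      · exact measurable_id.pow_const _
      · fun_prop

theorem final (h : HH) {ν : ℝ} (hν : 0 < ν) {U : V → V} (hU : SPV U) (hD : Dv U)
    (h0 : fv U 0 = 0) {q ε : ℝ} (hq : 2 < q) (hε : 0 < ε) :
    ∃ u₀ : V → V, SPV u₀ ∧ Dv u₀ ∧ fv u₀ 0 = 0 ∧ (∀ t, 0 < t → √t * HA t (u₀ - U) ≤ ε) ∧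
      (∫⁻ t in Ioi (0:ℝ), ENNReal.ofReal ((√t * HA t (u₀ - U)) ^ q / t) ≤ ENNReal.ofReal ε) ∧
      Good ν u₀ := by
  obtain ⟨η, hη, hsm⟩ := small h.FOU h.ENG h.SUP h.LEX h.MOD h.MIN h.ZIN h.GRW h.NNB h.STB hν
  obtain ⟨L, hL, R, hR1, hR2, hR3, hR4, hUR⟩ := h.DEC h.TCF U hU hD h0 η hη
  have hGR := hsm R hR1 hR2 hR3 hR4
  -- the sizes
  set f : K3 × K3 × ℝ × ℝ → ℝ := fun e =>
    √(8 * Real.pi * ν * len e.2.1 ^ 2 * e.2.2.1) * (len e.1 + len e.2.1) * 2 with hf
  have hlen : ∀ k : K3, 0 ≤ len k := fun k => Real.sqrt_nonneg _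
  have hf0 : ∀ e, 0 ≤ f e := by
    intro e
    have := hlen e.1
    have := hlen e.2.1
    simp only [hf]
    positivity
  set D : ℝ := (L.map f).sum with hDdef
  have hD0 : 0 ≤ D := List.sum_nonneg (by
    intro x hx
    obtain ⟨e, _, rfl⟩ := List.mem_map.1 hx
    exact hf0 e)
  have hfD : ∀ e ∈ L, f e ≤ D := by
    intro e he
    refine List.single_le_sum ?_ _ (List.mem_map.2 ⟨e, he, rfl⟩)
    intro x hx
    obtain ⟨e, _, rfl⟩ := List.mem_map.1 hx
    exact hf0 e
  -- the number of packets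
  have hlim1 : Tendsto (fun m : ℕ => 2 * (D / √(m : ℝ))) atTop (𝓝 0) := by
    have h1 : Tendsto (fun m : ℕ => √(m : ℝ)) atTop atTop :=
      Real.tendsto_sqrt_atTop.comp tendsto_natCast_atTop_atTop
    have h2 := (tendsto_const_nhds (x := D)).div_atTop h1
    simpa using h2.const_mul 2
  have hlim2 : Tendsto (fun m : ℕ => (2 * D) ^ (q - 1) * D * L.length * (m : ℝ) ^ (1 - q / 2)) atTop
      (𝓝 0) := by
    have h1 : Tendsto (fun x : ℝ => x ^ (-(q / 2 - 1))) atTop (𝓝 0) :=
      tendsto_rpow_neg_atTop (by linarith)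
    have h2 := (h1.comp tendsto_natCast_atTop_atTop).const_mul ((2 * D) ^ (q - 1) * D * L.length)
    rw [mul_zero] at h2
    refine h2.congr fun m => ?_
    simp only [Function.comp]
    congr 2
    ring
  obtain ⟨m, hm1, hm2, hm3⟩ := (((tendsto_order.1 hlim1).2 ε hε).and
    (((tendsto_order.1 hlim2).2 ε hε).and (eventually_ge_atTop 1))).exists
  have hm0 : (0:ℝ) < m := by exact_mod_cast hm3
  set δ : ℝ := D / √(m : ℝ) with hδ
  have hδ0 : 0 ≤ δ := by positivity
  set g : K3 × K3 × ℝ × ℝ → K3 × K3 × ℝ × ℝ := fun e =>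
    (e.1, e.2.1, √(8 * Real.pi * ν * len e.2.1 ^ 2 * e.2.2.1) / √(m : ℝ), e.2.2.2) with hg
  set P : List (K3 × K3 × ℝ × ℝ) := L.flatMap fun e => List.replicate m (g e) with hP
  have hPmem : ∀ e ∈ P, ∃ e' ∈ L, e = g e' := by
    intro e he
    obtain ⟨e', he', h1⟩ := List.mem_flatMap.1 he
    exact ⟨e', he', List.eq_of_mem_replicate h1⟩
  have hP1 : ∀ e ∈ P, e.1 ≠ 0 ∧ e.2.1 ≠ 0 ∧ ∑ j, e.1 j * e.2.1 j = 0 := by
    intro e he
    obtain ⟨e', he', rfl⟩ := hPmem e he
    obtain ⟨h1, h2, h3, _⟩ := hL e' he'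
    exact ⟨h1, h2, h3⟩
  have hP2 : ∀ e ∈ P, |e.2.2.1| * (len e.1 + len e.2.1) * 2 ≤ δ := by
    intro e he
    obtain ⟨e', he', rfl⟩ := hPmem e he
    have h1 := hfD e' he'
    simp only [hg]
    rw [abs_of_nonneg (by positivity), hδ]
    have h2 : √(8 * Real.pi * ν * len e'.2.1 ^ 2 * e'.2.2.1) / √(m : ℝ) * (len e'.1 + len e'.2.1) * 2
        = f e' / √(m : ℝ) := by
      simp only [hf]
      ring
    rw [h2]
    exact div_le_div_of_nonneg_right h1 (Real.sqrt_nonneg _)
  obtain ⟨l, W, hl1, hl2, hl3, hW1, hW2, hW3, hW4, hG, hB⟩ := chain h hν hGR P hP1 hP2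
  -- the sum of the elementary fields
  have hsumU : R + (P.map fun e => EP ν e.1 e.2.1 e.2.2.1 e.2.2.2).sum = U := by
    funext x i
    rw [Pi.add_apply, Pi.add_apply, sum_app, sum_flat L m g, hUR x i]
    congr 2
    apply List.map_congr_left
    intro e he
    obtain ⟨h1, h2, h3, h4⟩ := hL e he
    have h5 := len_pos' h2
    simp only [hg, EP]
    rw [div_pow, Real.sq_sqrt (by positivity), Real.sq_sqrt hm0.le]
    field_simp
  have hdiff : U + W - U = W := by abel
  refine ⟨U + W, SPV.add' hU hW1, Dv.add' hU hW1 hD hW2, ?_, ?_, ?_, ?_⟩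
  · rw [fv_add hU hW1, Pi.add_apply, h0, hW3, add_zero]
  · intro t ht
    rw [hdiff]
    have h1 := hB t ht.le
    have h2 := h.LAC l hl2 hl3 (√t) (Real.sqrt_nonneg t)
    have h3 : √t * (δ * (l.map fun n : ℕ => (n : ℝ) * Real.exp (-(4 * Real.pi ^ 2 * n ^ 2 * t))).sum)
        = δ * (l.map fun n : ℕ => (n : ℝ) * √t * Real.exp (-(4 * Real.pi ^ 2 * (n * √t) ^ 2))).sum := by
      rw [mul_left_comm, ← List.sum_map_mul_left]
      congr 2
      apply List.map_congr_left
      intro n _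
      rw [mul_pow, Real.sq_sqrt ht.le]
      have : 4 * Real.pi ^ 2 * ((n : ℝ) ^ 2 * t) = 4 * Real.pi ^ 2 * (n : ℝ) ^ 2 * t := by ring
      rw [this]
      ring
    calc √t * HA t W ≤ √t * (δ * (l.map fun n : ℕ => (n : ℝ) *
          Real.exp (-(4 * Real.pi ^ 2 * n ^ 2 * t))).sum) :=
          mul_le_mul_of_nonneg_left h1 (Real.sqrt_nonneg _)
      _ ≤ δ * 2 := by rw [h3]; exact mul_le_mul_of_nonneg_left h2 hδ0
      _ ≤ ε := by linarith [hm1]
  · rw [hdiff]
    have hpt : ∀ t ∈ Ioi (0:ℝ), ENNReal.ofReal ((√t * HA t W) ^ q / t)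
        ≤ ENNReal.ofReal ((2 * δ) ^ (q - 1) * δ) * ENNReal.ofReal ((l.map fun n : ℕ =>
          (n : ℝ) * (t ^ (-(1/2) : ℝ) * Real.exp (-(4 * Real.pi ^ 2 * n ^ 2 * t)))).sum) := by
      intro t ht
      have ht' : (0:ℝ) < t := ht
      rw [← ENNReal.ofReal_mul (by positivity)]
      apply ENNReal.ofReal_le_ofReal
      have h1 := hB t ht'.le
      set S : ℝ := (l.map fun n : ℕ => (n : ℝ) * √t * Real.exp (-(4 * Real.pi ^ 2 * (n * √t) ^ 2))).sum
        with hS
      have hS2 : S ≤ 2 := h.LAC l hl2 hl3 (√t) (Real.sqrt_nonneg t)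
      have hS0 : 0 ≤ S := by
        apply List.sum_nonneg
        intro x hx
        obtain ⟨n', _, rfl⟩ := List.mem_map.1 hx
        positivity
      have h3 : √t * (δ * (l.map fun n : ℕ => (n : ℝ) * Real.exp (-(4 * Real.pi ^ 2 * n ^ 2 * t))).sum)
          = δ * S := by
        rw [hS, mul_left_comm, ← List.sum_map_mul_left]
        congr 2
        apply List.map_congr_left
        intro n _
        rw [mul_pow, Real.sq_sqrt ht'.le]
        have : 4 * Real.pi ^ 2 * ((n : ℝ) ^ 2 * t) = 4 * Real.pi ^ 2 * (n : ℝ) ^ 2 * t := by ring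
        rw [this]
        ring
      have h4 : √t * HA t W ≤ δ * S := by
        rw [← h3]
        exact mul_le_mul_of_nonneg_left h1 (Real.sqrt_nonneg _)
      have h5 : (l.map fun n : ℕ => (n : ℝ) * (t ^ (-(1/2) : ℝ) *
          Real.exp (-(4 * Real.pi ^ 2 * n ^ 2 * t)))).sum = S / t := by
        rw [hS, div_eq_inv_mul _ t, ← List.sum_map_mul_left]
        congr 1
        apply List.map_congr_left
        intro n _
        have h6 : t ^ (-(1/2) : ℝ) = t⁻¹ * √t := by
          rw [Real.rpow_neg ht'.le, ← Real.sqrt_eq_rpow]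
          have := Real.sqrt_ne_zero'.2 ht'
          field_simp
          rw [Real.sq_sqrt ht'.le]
        rw [h6, mul_pow, Real.sq_sqrt ht'.le]
        have : 4 * Real.pi ^ 2 * ((n : ℝ) ^ 2 * t) = 4 * Real.pi ^ 2 * (n : ℝ) ^ 2 * t := by ring
        rw [this]
        ring
      rw [h5, ← mul_div_assoc]
      apply div_le_div_of_nonneg_right _ ht'.le
      have h7 : 0 ≤ √t * HA t W := mul_nonneg (Real.sqrt_nonneg _) (HA_nonneg _ _)
      rcases h7.eq_or_lt with h8 | h8
      · rw [← h8, Real.zero_rpow (by linarith)]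
        positivity
      · have h9 : (√t * HA t W) ^ q = (√t * HA t W) ^ (q - 1) * (√t * HA t W) := by
          rw [← Real.rpow_add_one h8.ne']
          congr 1
          ring
        rw [h9]
        have h10 : (√t * HA t W) ^ (q - 1) ≤ (2 * δ) ^ (q - 1) := by
          apply Real.rpow_le_rpow h7 _ (by linarith)
          refine h4.trans ?_
          nlinarith
        calc (√t * HA t W) ^ (q - 1) * (√t * HA t W) ≤ (2 * δ) ^ (q - 1) * (δ * S) :=
              mul_le_mul h10 h4 h7 (by positivity)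
          _ = (2 * δ) ^ (q - 1) * δ * S := by ring
    refine (setLIntegral_mono' measurableSet_Ioi hpt).trans ?_
    rw [lintegral_const_mul']
    · refine (mul_le_mul_right (lsum l hl3) _).trans ?_
      have h1 : ((l.length : ℕ) : ENNReal) = ENNReal.ofReal ((m : ℝ) * L.length) := by
        rw [hl1, hP, len_flat, ← ENNReal.ofReal_natCast]
        push_cast
        rfl
      rw [h1, ← ENNReal.ofReal_mul (by positivity)]
      apply ENNReal.ofReal_le_ofReal
      refine le_trans (le_of_eq ?_) hm2.le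
      rcases hD0.eq_or_lt with h2 | h2
      · rw [hδ, ← h2]
        simp
      · have hs : 0 < √(m : ℝ) := Real.sqrt_pos.2 hm0
        have h3 : (2 * δ) ^ (q - 1) = (2 * D) ^ (q - 1) * (√(m:ℝ)) ^ (-(q - 1)) := by
          rw [hδ, Real.rpow_neg hs.le, ← mul_div_assoc, Real.div_rpow (by positivity) hs.le]
          rfl
        have h4 : (√(m:ℝ)) ^ (-(q - 1)) / √(m:ℝ) * m = (m : ℝ) ^ (1 - q / 2) := by
          rw [Real.sqrt_eq_rpow, ← Real.rpow_mul hm0.le, ← Real.rpow_sub hm0]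
          nth_rewrite 2 [← Real.rpow_one (m : ℝ)]
          rw [← Real.rpow_add hm0]
          congr 1
          ring
        rw [h3, ← h4, hδ]
        ring
    · exact ENNReal.ofReal_ne_top
  · rw [← hsumU]
    exact hG

end AS

end Pool.Agent.N976.GD
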