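import Pool.Agent.N976.GD.Stm

/-!
Further statements for the project GD.
-/

set_option autoImplicit false

open MeasureTheory Set Filter Topology
open scoped ContDiff

namespace Pool.Agent.N976.GD

open H459R3.NS Pool.Agent.N977.Q

/-- (STB2) stability, with closeness to the approximate solution -/
def S_STB2 : Prop := S_MOD → S_MIN → S_ZIN → S_GRW → S_NNB → ∀ Λ : ℝ, 0 < Λ → ∀ v : ℝ → Cf,
  (∀ T, FSol Λ T v) → (∃ Q, ∀ τ, 0 ≤ τ → ∫ t in (0:ℝ)..τ, An (v t) ^ 2 ≤ Q) →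
  (∃ B, ∀ t, 0 ≤ t → An (v t) ≤ B) → ∀ (C₁ : ℝ) (w g : ℕ → ℝ → Cf) (E : Cf), Pkt Λ C₁ w g E →
  ∃ Q' : ℝ, ∀ ε : ℝ, 0 < ε → ∃ (N₀ : ℕ) (η : ℝ), 0 < η ∧ ∀ N : ℕ, N₀ ≤ N →
    ∀ (T : ℝ) (u : ℝ → Cf), 0 < T → FSol Λ T u →
    An (fun k => u 0 k - (v 0 k + E k + w N 0 k)) ≤ η →
    ∀ τ ∈ Ico 0 T, ∫ t in (0:ℝ)..τ, An (u t) ^ 2 ≤ Q' ∧
      ∫ t in (0:ℝ)..τ, An (fun k => u t k - (v t k + w N t k + g N t k)) ^ 2 ≤ ε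

/-- (DCY) global smooth solutions are square integrable in time -/
def S_DCY : Prop := ∀ (ν : ℝ) (v : ℝ → V → V) (r : ℝ → V → ℝ), 0 < ν → (∀ T, IsSol ν T v r) →
  (∀ i, ∫ x in cube, v 0 x i = 0) → ∃ Q : ℝ, ∀ τ, 0 ≤ τ → ∫ t in (0:ℝ)..τ, An (fv (v t)) ^ 2 ≤ Q

end Pool.Agent.N976.GD
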