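import Pool.Agent.N976.GD.Asm3
import Pool.Agent.N976.GD.Stm2

/-!
Assembly of the project GD, fourth part: solutions which stay close to a given solution after a
short time.
-/

set_option autoImplicit false

open MeasureTheory Set Filter Topology
open scoped ContDiff

namespace Pool.Agent.N976.GD

open H459R3.NS Pool.Agent.N977.Q

namespace AS

/-- global smooth solutions, square integrable in time -/
structure Gd (ν : ℝ) (V₀ : V → V) (u : ℝ → V → V) (q : ℝ → V → ℝ) : Prop where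
  spv : SPV V₀
  dv : Dv V₀
  mean : fv V₀ 0 = 0
  init : u 0 = V₀
  sol : ∀ T, IsSol ν T u q
  sq : ∃ Q, ∀ τ, 0 ≤ τ → ∫ t in (0:ℝ)..τ, An (fv (u t)) ^ 2 ≤ Q
  bd : ∃ B, ∀ t, 0 ≤ t → An (fv (u t)) ≤ B

/-- the parts of the proof -/
structure H2 : Prop where
  FOU : S_FOU
  ENG : S_ENG
  SUP : S_SUP
  LEX : S_LEX
  MOD : S_MOD
  MIN : S_MIN
  ZIN : S_ZIN
  GRW : S_GRW
  NNB : S_NNB
  STB : S_STB2
  TCF : S_TCF
  NTC : S_NTC
  PKF : S_PKF
  PKN : S_PKN
  DEC : S_DEC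
  LAC : S_LAC

/-! ### continuity in time -/

/-- continuous families, bounded by summable families -/
def CF (c : ℝ → Cf) : Prop := (∀ k, ContinuousOn (fun t => c t k) (Ici 0)) ∧
  ∀ T : ℝ, ∃ M : K3 → ℝ, Summable M ∧ ∀ t ∈ Icc 0 T, ∀ k, ‖c t k‖ ≤ M k

theorem CF.sub {a b : ℝ → Cf} (ha : CF a) (hb : CF b) : CF fun t k => a t k - b t k := by
  refine ⟨fun k => (ha.1 k).sub (hb.1 k), fun T => ?_⟩
  obtain ⟨M, hM, h1⟩ := ha.2 T
  obtain ⟨M', hM', h2⟩ := hb.2 T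
  exact ⟨fun k => M k + M' k, hM.add hM', fun t ht k =>
    (norm_sub_le _ _).trans (add_le_add (h1 t ht k) (h2 t ht k))⟩

theorem CF.add {a b : ℝ → Cf} (ha : CF a) (hb : CF b) : CF fun t k => a t k + b t k := by
  refine ⟨fun k => (ha.1 k).add (hb.1 k), fun T => ?_⟩
  obtain ⟨M, hM, h1⟩ := ha.2 T
  obtain ⟨M', hM', h2⟩ := hb.2 T
  exact ⟨fun k => M k + M' k, hM.add hM', fun t ht k =>
    (norm_add_le _ _).trans (add_le_add (h1 t ht k) (h2 t ht k))⟩

theorem CF.summable {a : ℝ → Cf} (ha : CF a) {t : ℝ} (ht : 0 ≤ t) : Summable fun k => ‖a t k‖ := by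
  obtain ⟨M, hM, h1⟩ := ha.2 t
  exact Summable.of_nonneg_of_le (fun k => norm_nonneg _) (fun k => h1 t ⟨ht, le_rfl⟩ k) hM

theorem CF.cont {a : ℝ → Cf} (ha : CF a) (T : ℝ) : ContinuousOn (fun t => An (a t)) (Icc 0 T) := by
  obtain ⟨M, hM, h1⟩ := ha.2 T
  refine continuousOn_tsum (fun k => ((ha.1 k).mono Icc_subset_Ici_self).norm) hM fun k t ht => ?_
  rw [norm_norm]
  exact h1 t ht k

theorem An_nonneg (a : Cf) : 0 ≤ An a := tsum_nonneg fun k => norm_nonneg _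

theorem An_sub_le {a b c : Cf} (h1 : Summable fun k => ‖a k - b k‖)
    (h2 : Summable fun k => ‖b k - c k‖) : An (a - c) ≤ An (a - b) + An (b - c) := by
  unfold An
  simp only [Pi.sub_apply]
  rw [← h1.tsum_add h2]
  have h3 : ∀ k, ‖a k - c k‖ ≤ ‖a k - b k‖ + ‖b k - c k‖ := fun k => norm_sub_le_norm_sub_add_norm_sub _ _ _
  exact Summable.tsum_le_tsum h3 (Summable.of_nonneg_of_le (fun k => norm_nonneg _) h3 (h1.add h2))
    (h1.add h2)

theorem cf_of {Λ : ℝ} {c : ℝ → Cf} (h : ∀ T, FSol Λ T c) : CF c := by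
  refine ⟨fun k t ht => ?_, fun T => ?_⟩
  · have ht0 : (0:ℝ) ≤ t := ht
    have h1 := (h (t + 1)).cont k t ⟨ht0, by linarith⟩
    refine h1.mono_of_mem_nhdsWithin ?_
    have h2 : Iio (t + 1) ∈ 𝓝 t := Iio_mem_nhds (by linarith)
    filter_upwards [self_mem_nhdsWithin, mem_nhdsWithin_of_mem_nhds h2] with x hx hx2
    exact ⟨hx, hx2⟩
  · exact (h (T + 1)).dec T (by linarith)

theorem ii_of {f : ℝ → ℝ} {a b T : ℝ} (hf : ContinuousOn f (Icc 0 T)) (ha : 0 ≤ a) (hab : a ≤ b)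
    (hb : b ≤ T) : IntervalIntegrable f volume a b := by
  apply ContinuousOn.intervalIntegrable
  rw [uIcc_of_le hab]
  exact hf.mono (Icc_subset_Icc ha hb)

/-- triangle inequality -/
theorem tri {a b c : ℝ → Cf} (ha : CF a) (hb : CF b) (hc : CF c) {s τ : ℝ} (hs : 0 ≤ s)
    (hsτ : s ≤ τ) : ∫ t in s..τ, An (a t - c t) ^ 2
      ≤ 2 * (∫ t in s..τ, An (a t - b t) ^ 2) + 2 * ∫ t in s..τ, An (b t - c t) ^ 2 := by
  have e1 : ContinuousOn (fun t => An (a t - b t)) (Icc 0 τ) := (CF.sub ha hb).cont τ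
  have e2 : ContinuousOn (fun t => An (b t - c t)) (Icc 0 τ) := (CF.sub hb hc).cont τ
  have e3 : ContinuousOn (fun t => An (a t - c t)) (Icc 0 τ) := (CF.sub ha hc).cont τ
  rw [← intervalIntegral.integral_const_mul, ← intervalIntegral.integral_const_mul,
    ← intervalIntegral.integral_add]
  · apply intervalIntegral.integral_mono_on hsτ
    · exact ii_of (e3.pow 2) hs hsτ le_rfl
    · exact (ii_of (((e1.pow 2).const_mul 2)) hs hsτ le_rfl).add
        (ii_of (((e2.pow 2).const_mul 2)) hs hsτ le_rfl)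
    · intro t ht
      have ht0 : 0 ≤ t := hs.trans ht.1
      have h1 := An_sub_le ((CF.sub ha hb).summable ht0) ((CF.sub hb hc).summable ht0)
      have h2 := An_nonneg (a t - c t)
      have h3 := An_nonneg (a t - b t)
      have h4 := An_nonneg (b t - c t)
      nlinarith [sq_nonneg (An (a t - b t) - An (b t - c t))]
  · exact ii_of (((e1.pow 2).const_mul 2)) hs hsτ le_rfl
  · exact ii_of (((e2.pow 2).const_mul 2)) hs hsτ le_rfl

theorem iexp {c : ℝ} (hc : c ≠ 0) {a b : ℝ} :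
    ∫ t in a..b, Real.exp (-c * t) = (Real.exp (-c * a) - Real.exp (-c * b)) / c := by
  have h1 : ∀ x, HasDerivAt (fun t => -(Real.exp (-c * t) / c)) (Real.exp (-c * x)) x := by
    intro x
    have h2 : HasDerivAt (fun t : ℝ => -c * t) (-c) x := by
      simpa using (hasDerivAt_id x).const_mul (-c)
    have h3 := (h2.exp.div_const c).neg
    refine h3.congr_deriv ?_
    field_simp
  rw [intervalIntegral.integral_eq_sub_of_hasDerivAt (fun x _ => h1 x)
    (Continuous.intervalIntegrable (by fun_prop) _ _)]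
  ring

/-! ### the continuation argument -/

theorem core2 (h : H2) {ν : ℝ} (hν : 0 < ν)
    {F : V → V} (h1 : SPV F) (h2 : Dv F) (h3 : fv F 0 = 0) {Q' : ℝ}
    (hQ : ∀ (T : ℝ) (u : ℝ → V → V) (q : ℝ → V → ℝ), 0 < T → IsSol ν T u q → u 0 = F →
      ∀ τ ∈ Ico 0 T, ∫ t in (0:ℝ)..τ, An (fv (u t)) ^ 2 ≤ Q') : ∃ u q, Gd ν F u q := by
  obtain ⟨_, _, _, u, q, a1, a2, a3, a4⟩ := core h.FOU h.ENG h.SUP h.LEX hν h1 h2 h3 hQ
  exact ⟨u, q, h1, h2, h3, a1, a2, a3, a4⟩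

theorem Gd.fsol (h : H2) {ν : ℝ} (hν : 0 < ν) {V₀ : V → V} {u : ℝ → V → V} {q : ℝ → V → ℝ}
    (hu : Gd ν V₀ u q) (T : ℝ) : FSol (4 * Real.pi ^ 2 * ν) T (fun t => fv (u t)) :=
  h.FOU ν T u q hν (hu.sol T) fun i => by rw [hu.init]; exact mean_of hu.spv hu.mean i

/-! ### one packet -/

theorem step2 (h : H2) {ν : ℝ} (hν : 0 < ν) {V₀ : V → V} {v : ℝ → V → V} {r : ℝ → V → ℝ}
    (hV : Gd ν V₀ v r) {k p : K3} (hk : k ≠ 0) (hp : p ≠ 0) (hkp : ∑ j, k j * p j = 0) (α s : ℝ)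
    {ε ε' : ℝ} (hε : 0 < ε) (hε' : 0 < ε') :
    ∃ N₀ : ℕ, ∀ N, N₀ ≤ N → ∃ u q, Gd ν (V₀ + EP ν k p α s + WP N k p α s) u q ∧
      ∀ τ, ε ≤ τ → ∫ t in ε..τ, An (fv (u t) - fv (v t)) ^ 2 ≤ ε' := by
  have hΛ : 0 < 4 * Real.pi ^ 2 * ν := by positivity
  set Λ : ℝ := 4 * Real.pi ^ 2 * ν with hΛd
  obtain ⟨C₁, w, g, hP, hw⟩ := h.PKF h.NNB h.TCF h.NTC ν hν k p hk hp hkp α s
  obtain ⟨Q', hst⟩ := h.STB h.MOD h.MIN h.ZIN h.GRW h.NNB Λ hΛ
    (fun t => fv (v t)) (fun T => hV.fsol h hν T) hV.sq hV.bd C₁ w g _ hP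
  obtain ⟨N₀, η, hη, hst⟩ := hst (ε' / 4) (by positivity)
  obtain ⟨hPW, hPE⟩ := h.PKN h.TCF k p hk hp hkp α s
  -- the packet is small after the time ε
  have hlim : Tendsto (fun N : ℕ => (2 * C₁ * N) ^ 2 * (1 / (2 * Λ * N ^ 2)) *
      Real.exp (-(2 * Λ * N ^ 2 * ε))) atTop (𝓝 0) := by
    have h1 : Tendsto (fun N : ℕ => Real.exp (-(2 * Λ * (N:ℝ) ^ 2 * ε))) atTop (𝓝 0) := by
      apply Real.tendsto_exp_neg_atTop_nhds_zero.comp
      have h2 : Tendsto (fun N : ℕ => (N : ℝ) ^ 2) atTop atTop :=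
        (tendsto_pow_atTop (by norm_num)).comp tendsto_natCast_atTop_atTop
      have h3 := h2.const_mul_atTop (show 0 < 2 * Λ * ε by positivity)
      refine h3.congr fun N => ?_
      ring
    have h2 : Tendsto (fun N : ℕ => (4 * C₁ ^ 2 / (2 * Λ)) * Real.exp (-(2 * Λ * (N:ℝ) ^ 2 * ε)))
        atTop (𝓝 0) := by simpa using h1.const_mul (4 * C₁ ^ 2 / (2 * Λ))
    refine h2.congr' ?_
    filter_upwards [eventually_ge_atTop 1] with N hN
    have hN0 : (N : ℝ) ≠ 0 := by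
      have : (1:ℝ) ≤ N := by exact_mod_cast hN
      positivity
    congr 1
    field_simp
    ring
  obtain ⟨N₁, hN₁⟩ := eventually_atTop.1 ((tendsto_order.1 hlim).2 (ε' / 4) (by positivity))
  refine ⟨max (max N₀ N₁) 1, fun N hN => ?_⟩
  have hNN0 : N₀ ≤ N := ((le_max_left _ _).trans (le_max_left _ _)).trans hN
  have hNN1 : N₁ ≤ N := ((le_max_right _ _).trans (le_max_left _ _)).trans hN
  have hN1 : 1 ≤ N := (le_max_right _ _).trans hN
  obtain ⟨hW1, hW2, hW3, hW4, hW5⟩ := hPW N hN1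
  obtain ⟨hE1, hE2, hE3, hE4⟩ := hPE ν
  have hF1 : SPV (V₀ + EP ν k p α s + WP N k p α s) := SPV.add' (SPV.add' hV.spv hE1) hW1
  have hF2 : Dv (V₀ + EP ν k p α s + WP N k p α s) :=
    Dv.add' (SPV.add' hV.spv hE1) hW1 (Dv.add' hV.spv hE1 hV.dv hE2) hW2
  have hfv : fv (V₀ + EP ν k p α s + WP N k p α s) = fv V₀ + fv (EP ν k p α s) + fv (WP N k p α s) := by
    rw [fv_add (SPV.add' hV.spv hE1) hW1, fv_add hV.spv hE1]
  have hF3 : fv (V₀ + EP ν k p α s + WP N k p α s) 0 = 0 := by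
    rw [hfv]
    simp only [Pi.add_apply, hV.mean, hE3, hW3, add_zero]
  have key : ∀ (T : ℝ) (u : ℝ → V → V) (q : ℝ → V → ℝ), 0 < T → IsSol ν T u q →
      u 0 = V₀ + EP ν k p α s + WP N k p α s → ∀ τ ∈ Ico 0 T,
      ∫ t in (0:ℝ)..τ, An (fv (u t)) ^ 2 ≤ Q' ∧
      ∫ t in (0:ℝ)..τ, An (fun l => fv (u t) l - (fv (v t) l + w N t l + g N t l)) ^ 2 ≤ ε' / 4 := by
    intro T u q hT hu hu0
    have hmu : ∀ i, ∫ x in cube, u 0 x i = 0 := by
      intro i
      rw [hu0]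
      exact mean_of hF1 hF3 i
    refine hst N hNN0 T (fun t => fv (u t)) hT (h.FOU ν T u q hν hu hmu) ?_
    have h0 : (fun l => fv (u 0) l - (fv (v 0) l + fv (EP ν k p α s) l + w N 0 l)) = 0 := by
      funext l
      rw [hu0, hfv, hV.init, hw N hN1]
      simp
    have h1 : An (fun l => fv (u 0) l - (fv (v 0) l + fv (EP ν k p α s) l + w N 0 l)) = 0 := by
      rw [h0]
      simp [An]
    rw [h1]
    exact hη.le
  obtain ⟨u, q, hu⟩ := core2 h hν hF1 hF2 hF3 (fun T u q hT hu hu0 τ hτ => (key T u q hT hu hu0 τ hτ).1)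
  refine ⟨u, q, hu, fun τ hτ => ?_⟩
  have hτ0 : 0 ≤ τ := hε.le.trans hτ
  have hcu : CF fun t => fv (u t) := cf_of fun T => hu.fsol h hν T
  have hcv : CF fun t => fv (v t) := cf_of fun T => hV.fsol h hν T
  have hcw : CF (w N) := by
    refine ⟨fun l => ?_, fun T => ⟨fun l => ‖w N 0 l‖, ?_, fun t ht l => ?_⟩⟩
    · have h1 : (fun t => w N t l) = fun t => Real.exp (-(Λ * len l ^ 2 * t)) • w N 0 l := by
        funext t
        exact hP.w_eq N hN1 t l
      rw [h1]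
      fun_prop
    · have h1 := hP.wfin N hN1
      apply summable_of_finite_support
      refine h1.subset fun l hl => ?_
      simpa using hl
    · rw [hP.w_eq N hN1 t l, norm_smul, Real.norm_of_nonneg (Real.exp_pos _).le]
      apply mul_le_of_le_one_left (norm_nonneg _)
      rw [Real.exp_le_one_iff]
      have h1 := ht.1
      have : 0 ≤ Λ * len l ^ 2 * t := by positivity
      linarith
  have hcg : CF (g N) := by
    obtain ⟨μ, hμ, h2, -⟩ := hP.g_eq N hN1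
    refine ⟨fun l => ?_, fun T => ⟨fun l => ‖fv (EP ν k p α s) l‖, hE4, fun t ht l => ?_⟩⟩
    · have h1 : (fun t => g N t l) = fun t => Real.exp (-((μ + Λ * len l ^ 2) * t)) •
          fv (EP ν k p α s) l := by
        funext t
        exact h2 t l
      rw [h1]
      fun_prop
    · rw [h2 t l, norm_smul, Real.norm_of_nonneg (Real.exp_pos _).le]
      apply mul_le_of_le_one_left (norm_nonneg _)
      rw [Real.exp_le_one_iff]
      have h1 := ht.1
      have : 0 ≤ (μ + Λ * len l ^ 2) * t := by positivity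
      linarith
  have hcm : CF fun t l => fv (v t) l + w N t l + g N t l := (hcv.add hcw).add hcg
  have h3 := tri hcu hcm hcv hε.le hτ
  -- first part
  have h4 : ∫ t in ε..τ, An (fv (u t) - fun l => fv (v t) l + w N t l + g N t l) ^ 2 ≤ ε' / 4 := by
    have h5 := (key (τ + 1) u q (by linarith) (hu.sol _) hu.init τ ⟨hτ0, by linarith⟩).2
    have h6 : ContinuousOn (fun t => An (fv (u t) - fun l => fv (v t) l + w N t l + g N t l)) (Icc 0 τ) :=
      (hcu.sub hcm).cont τ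
    have h7 : (∫ t in (0:ℝ)..ε, An (fv (u t) - fun l => fv (v t) l + w N t l + g N t l) ^ 2)
        + (∫ t in ε..τ, An (fv (u t) - fun l => fv (v t) l + w N t l + g N t l) ^ 2)
        = ∫ t in (0:ℝ)..τ, An (fv (u t) - fun l => fv (v t) l + w N t l + g N t l) ^ 2 :=
      intervalIntegral.integral_add_adjacent_intervals
        (ii_of (h6.pow 2) le_rfl hε.le hτ) (ii_of (h6.pow 2) hε.le hτ le_rfl)
    have h8 : 0 ≤ ∫ t in (0:ℝ)..ε, An (fv (u t) - fun l => fv (v t) l + w N t l + g N t l) ^ 2 :=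
      intervalIntegral.integral_nonneg hε.le fun t _ => sq_nonneg _
    have h9 : ∫ t in (0:ℝ)..τ, An (fv (u t) - fun l => fv (v t) l + w N t l + g N t l) ^ 2 ≤ ε' / 4 := h5
    linarith
  -- second part
  have h5 : ∫ t in ε..τ, An ((fun l => fv (v t) l + w N t l + g N t l) - fv (v t)) ^ 2 ≤ ε' / 4 := by
    have h6 : ContinuousOn (fun t => An ((fun l => fv (v t) l + w N t l + g N t l) - fv (v t)))
        (Icc 0 τ) := (hcm.sub hcv).cont τ
    have hN0 : (1:ℝ) ≤ N := by exact_mod_cast hN1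
    have h7 : ∀ t ∈ Icc ε τ, An ((fun l => fv (v t) l + w N t l + g N t l) - fv (v t)) ^ 2
        ≤ (2 * C₁ * N) ^ 2 * Real.exp (-(2 * Λ * N ^ 2) * t) := by
      intro t ht
      have ht0 : 0 ≤ t := hε.le.trans ht.1
      have h8 : (fun l => fv (v t) l + w N t l + g N t l) - fv (v t) = fun l => w N t l + g N t l := by
        funext l
        simp only [Pi.sub_apply]
        abel
      rw [h8]
      have h9 : An (fun l => w N t l + g N t l) ≤ An (w N t) + An (g N t) := by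
        unfold An
        rw [← (hcw.summable ht0).tsum_add (hcg.summable ht0)]
        have h10 : ∀ l, ‖w N t l + g N t l‖ ≤ ‖w N t l‖ + ‖g N t l‖ := fun l => norm_add_le _ _
        exact Summable.tsum_le_tsum h10 (Summable.of_nonneg_of_le (fun l => norm_nonneg _) h10
          ((hcw.summable ht0).add (hcg.summable ht0))) ((hcw.summable ht0).add (hcg.summable ht0))
      have h10 := hP.wA N hN1 t ht0
      have h11 := hP.gA N hN1 t ht0
      have h12 : C₁ * Real.exp (-(Λ * N ^ 2 * t)) ≤ C₁ * N * Real.exp (-(Λ * N ^ 2 * t)) := by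
        apply mul_le_mul_of_nonneg_right _ (Real.exp_pos _).le
        exact le_mul_of_one_le_right hP.C0 hN0
      have h13 : An (fun l => w N t l + g N t l) ≤ 2 * C₁ * N * Real.exp (-(Λ * N ^ 2 * t)) := by
        linarith
      have h14 := pow_le_pow_left₀ (An_nonneg _) h13 2
      refine h14.trans (le_of_eq ?_)
      rw [mul_pow, ← Real.exp_nat_mul]
      congr 2
      push_cast
      ring
    have h8 : ∫ t in ε..τ, An ((fun l => fv (v t) l + w N t l + g N t l) - fv (v t)) ^ 2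
        ≤ ∫ t in ε..τ, (2 * C₁ * N) ^ 2 * Real.exp (-(2 * Λ * N ^ 2) * t) := by
      apply intervalIntegral.integral_mono_on hτ (ii_of (h6.pow 2) hε.le hτ le_rfl) _ h7
      apply Continuous.intervalIntegrable
      fun_prop
    refine h8.trans ?_
    have hc : (2 * Λ * (N:ℝ) ^ 2) ≠ 0 := by positivity
    have hc0 : 0 < (2 * Λ * (N:ℝ) ^ 2) := by positivity
    rw [intervalIntegral.integral_const_mul, iexp hc]
    have h9 := (hN₁ N hNN1).le
    refine le_trans ?_ h9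
    have h10 := Real.exp_pos (-(2 * Λ * (N:ℝ) ^ 2) * τ)
    have h11 : -(2 * Λ * (N:ℝ) ^ 2) * ε = -(2 * Λ * (N:ℝ) ^ 2 * ε) := by ring
    have h12 : (Real.exp (-(2 * Λ * (N:ℝ) ^ 2) * ε) - Real.exp (-(2 * Λ * (N:ℝ) ^ 2) * τ)) /
        (2 * Λ * (N:ℝ) ^ 2) ≤ 1 / (2 * Λ * (N:ℝ) ^ 2) * Real.exp (-(2 * Λ * (N:ℝ) ^ 2 * ε)) := by
      rw [div_mul_eq_mul_div, one_mul]
      apply div_le_div_of_nonneg_right _ hc0.le
      rw [h11]
      linarith
    calc (2 * C₁ * (N:ℝ)) ^ 2 * ((Real.exp (-(2 * Λ * (N:ℝ) ^ 2) * ε) -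
          Real.exp (-(2 * Λ * (N:ℝ) ^ 2) * τ)) / (2 * Λ * (N:ℝ) ^ 2))
        ≤ (2 * C₁ * (N:ℝ)) ^ 2 * (1 / (2 * Λ * (N:ℝ) ^ 2) * Real.exp (-(2 * Λ * (N:ℝ) ^ 2 * ε))) :=
          mul_le_mul_of_nonneg_left h12 (by positivity)
      _ = (2 * C₁ * (N:ℝ)) ^ 2 * (1 / (2 * Λ * (N:ℝ) ^ 2)) * Real.exp (-(2 * Λ * (N:ℝ) ^ 2 * ε)) := by
          ring
  have h3' : ∫ t in ε..τ, An (fv (u t) - fv (v t)) ^ 2
      ≤ 2 * (∫ t in ε..τ, An (fv (u t) - fun l => fv (v t) l + w N t l + g N t l) ^ 2)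
        + 2 * ∫ t in ε..τ, An ((fun l => fv (v t) l + w N t l + g N t l) - fv (v t)) ^ 2 := h3
  linarith

end AS

end Pool.Agent.N976.GD
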