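import Pool.Agent.N976.GD.Asm4

/-!
Assembly of the project GD, fifth part.
-/

set_option autoImplicit false

open MeasureTheory Set Filter Topology
open scoped ContDiff

namespace Pool.Agent.N976.GD

open H459R3.NS Pool.Agent.N977.Q

namespace AS

theorem small2 (h : H2) {ν : ℝ} (hν : 0 < ν) {V₀ : V → V} {v : ℝ → V → V} {r : ℝ → V → ℝ}
    (hV : Gd ν V₀ v r) {ε' : ℝ} (hε' : 0 < ε') : ∃ η : ℝ, 0 < η ∧ ∀ R : V → V, SPV R → Dv R →
      fv R 0 = 0 → An (fv R) ≤ η → ∃ u q, Gd ν (V₀ + R) u q ∧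
        ∀ τ, 0 ≤ τ → ∫ t in (0:ℝ)..τ, An (fv (u t) - fv (v t)) ^ 2 ≤ ε' := by
  have hΛ : 0 < 4 * Real.pi ^ 2 * ν := by positivity
  have hA0 : An 0 = 0 := by simp [An]
  have hP : Pkt (4 * Real.pi ^ 2 * ν) 0 (fun _ _ => 0) (fun _ _ => 0) 0 := by
    refine ⟨le_rfl, fun N _ t k => by simp, fun N _ => ⟨0, le_rfl, fun t k => by simp, fun _ _ => 0,
      fun k => continuous_const, ⟨∅, fun _ _ _ => rfl⟩, fun _ _ => le_rfl, fun t _ k => ?_,
      fun t _ => by simp⟩, fun N _ => by simp, by simp, fun N _ => rfl, rfl, fun N _ t _ => ?_,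
      fun N _ t _ => ?_⟩
    · rw [NN_zero]
      simp
    · rw [hA0]; simp
    · rw [hA0]; simp
  obtain ⟨Q', hst⟩ := h.STB h.MOD h.MIN h.ZIN h.GRW h.NNB (4 * Real.pi ^ 2 * ν) hΛ
    (fun t => fv (v t)) (fun T => hV.fsol h hν T) hV.sq hV.bd 0 _ _ 0 hP
  obtain ⟨N₀, η, hη, hst⟩ := hst ε' hε'
  refine ⟨η, hη, fun R h1 h2 h3 h4 => ?_⟩
  have hF1 : SPV (V₀ + R) := SPV.add' hV.spv h1
  have hF2 : Dv (V₀ + R) := Dv.add' hV.spv h1 hV.dv h2
  have hfv : fv (V₀ + R) = fv V₀ + fv R := fv_add hV.spv h1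
  have hF3 : fv (V₀ + R) 0 = 0 := by rw [hfv, Pi.add_apply, hV.mean, h3, add_zero]
  have key : ∀ (T : ℝ) (u : ℝ → V → V) (q : ℝ → V → ℝ), 0 < T → IsSol ν T u q → u 0 = V₀ + R →
      ∀ τ ∈ Ico 0 T, ∫ t in (0:ℝ)..τ, An (fv (u t)) ^ 2 ≤ Q' ∧
      ∫ t in (0:ℝ)..τ, An (fun l => fv (u t) l - (fv (v t) l + (0 : Cf) l + (0 : Cf) l)) ^ 2 ≤ ε' := by
    intro T u q hT hu hu0
    have hmu : ∀ i, ∫ x in cube, u 0 x i = 0 := by
      intro i
      rw [hu0]
      exact mean_of hF1 hF3 i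
    refine hst N₀ le_rfl T (fun t => fv (u t)) hT (h.FOU ν T u q hν hu hmu) ?_
    have h5 : (fun l => fv (u 0) l - (fv (v 0) l + (0 : Cf) l + (0 : Cf) l)) = fv R := by
      funext l
      rw [hu0, hfv, hV.init]
      simp
    rw [h5]
    exact h4
  obtain ⟨u, q, hu⟩ := core2 h hν hF1 hF2 hF3 (fun T u q hT hu hu0 τ hτ => (key T u q hT hu hu0 τ hτ).1)
  refine ⟨u, q, hu, fun τ hτ => ?_⟩
  have h5 := (key (τ + 1) u q (by linarith) (hu.sol _) hu.init τ ⟨hτ, by linarith⟩).2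
  have h6 : ∀ t, (fun l => fv (u t) l - (fv (v t) l + (0 : Cf) l + (0 : Cf) l)) = fv (u t) - fv (v t) := by
    intro t
    funext l
    simp
  simp only [h6] at h5
  exact h5

/-- packets have no low frequencies -/
theorem wp_low (h : H2) {k p : K3} (hk : k ≠ 0) (hp : p ≠ 0) (hkp : ∑ j, k j * p j = 0)
    (α s : ℝ) {N : ℕ} (hN : 1 ≤ N) {l : K3} (hl : len l < N) : fv (WP N k p α s) l = 0 := by
  obtain ⟨_, _, _, h4, h5⟩ := (h.PKN h.TCF k p hk hp hkp α s).1 N hN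
  have hl0 : 0 ≤ len l := Real.sqrt_nonneg _
  have h1 : ∀ t : ℝ, 0 ≤ t → ‖fv (WP N k p α s) l‖ ≤ |α| * N * (len k + len p) * 2 *
      Real.exp (-(4 * Real.pi ^ 2 * (N ^ 2 - len l ^ 2) * t)) := by
    intro t ht
    have h6 := (sum_HA h4 ht).le_tsum l (fun j _ => by positivity)
    have h7 := h6.trans (h5 t ht)
    have h8 : Real.exp (-(4 * Real.pi ^ 2 * N ^ 2 * t))
        = Real.exp (-(4 * Real.pi ^ 2 * len l ^ 2 * t)) *
          Real.exp (-(4 * Real.pi ^ 2 * (N ^ 2 - len l ^ 2) * t)) := by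
      rw [← Real.exp_add]
      congr 1
      ring
    rw [h8] at h7
    have h9 := Real.exp_pos (-(4 * Real.pi ^ 2 * len l ^ 2 * t))
    have h10 : Real.exp (-(4 * Real.pi ^ 2 * len l ^ 2 * t)) * ‖fv (WP N k p α s) l‖
        ≤ Real.exp (-(4 * Real.pi ^ 2 * len l ^ 2 * t)) * (|α| * N * (len k + len p) * 2 *
          Real.exp (-(4 * Real.pi ^ 2 * (N ^ 2 - len l ^ 2) * t))) := by
      refine h7.trans (le_of_eq ?_)
      ring
    exact le_of_mul_le_mul_left h10 h9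
  have hc : 0 < 4 * Real.pi ^ 2 * ((N : ℝ) ^ 2 - len l ^ 2) := by
    have : len l ^ 2 < (N : ℝ) ^ 2 := pow_lt_pow_left₀ hl hl0 (by norm_num)
    have hpi := Real.pi_pos
    apply mul_pos (by positivity)
    linarith
  have h2 : Tendsto (fun t : ℝ => |α| * N * (len k + len p) * 2 *
      Real.exp (-(4 * Real.pi ^ 2 * (N ^ 2 - len l ^ 2) * t))) atTop (𝓝 0) := by
    have h3 : Tendsto (fun t : ℝ => Real.exp (-(4 * Real.pi ^ 2 * ((N:ℝ) ^ 2 - len l ^ 2) * t))) atTop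
        (𝓝 0) := Real.tendsto_exp_neg_atTop_nhds_zero.comp (tendsto_id.const_mul_atTop hc)
    simpa using h3.const_mul (|α| * N * (len k + len p) * 2)
  have h3 : ‖fv (WP N k p α s) l‖ ≤ 0 := by
    refine ge_of_tendsto h2 ?_
    filter_upwards [eventually_ge_atTop 0] with t ht
    exact h1 t ht
  exact norm_le_zero_iff.1 h3

theorem sup_bd (hLAC : S_LAC) {l : List ℕ} (hl2 : l.Pairwise (fun a b => 2 * b ≤ a))
    (hl3 : ∀ n ∈ l, 1 ≤ n) {δ ε : ℝ} (hδ0 : 0 ≤ δ) (hm1 : 2 * δ ≤ ε) {W : V → V}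
    (hB : ∀ t, 0 ≤ t → HA t W ≤
      δ * (l.map fun n : ℕ => (n : ℝ) * Real.exp (-(4 * Real.pi ^ 2 * n ^ 2 * t))).sum)
    {t : ℝ} (ht : 0 < t) : √t * HA t W ≤ ε := by
  have h1 := hB t ht.le
  have h2 := hLAC l hl2 hl3 (√t) (Real.sqrt_nonneg t)
  have h3 : √t * (δ * (l.map fun n : ℕ => (n : ℝ) * Real.exp (-(4 * Real.pi ^ 2 * n ^ 2 * t))).sum)
      = δ * (l.map fun n : ℕ => (n : ℝ) * √t * Real.exp (-(4 * Real.pi ^ 2 * (n * √t) ^ 2))).sum := by
    rw [mul_left_comm, ← List.sum_map_mul_left]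
    congr 2
    apply List.map_congr_left
    intro n _
    rw [mul_pow, Real.sq_sqrt ht.le]
    have : 4 * Real.pi ^ 2 * ((n : ℝ) ^ 2 * t) = 4 * Real.pi ^ 2 * (n : ℝ) ^ 2 * t := by ring
    rw [this]
    ring
  calc √t * HA t W ≤ √t * (δ * (l.map fun n : ℕ => (n : ℝ) *
        Real.exp (-(4 * Real.pi ^ 2 * n ^ 2 * t))).sum) :=
        mul_le_mul_of_nonneg_left h1 (Real.sqrt_nonneg _)
    _ ≤ δ * 2 := by rw [h3]; exact mul_le_mul_of_nonneg_left h2 hδ0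
    _ ≤ ε := by linarith [hm1]

theorem int_bd (hLAC : S_LAC) {l : List ℕ} (hl2 : l.Pairwise (fun a b => 2 * b ≤ a))
    (hl3 : ∀ n ∈ l, 1 ≤ n) {δ q : ℝ} (hδ0 : 0 ≤ δ) (hq : 2 < q) {W : V → V}
    (hB : ∀ t, 0 ≤ t → HA t W ≤
      δ * (l.map fun n : ℕ => (n : ℝ) * Real.exp (-(4 * Real.pi ^ 2 * n ^ 2 * t))).sum) :
    ∫⁻ t in Ioi (0:ℝ), ENNReal.ofReal ((√t * HA t W) ^ q / t)
      ≤ ENNReal.ofReal ((2 * δ) ^ (q - 1) * δ) * l.length := by
  have hpt : ∀ t ∈ Ioi (0:ℝ), ENNReal.ofReal ((√t * HA t W) ^ q / t)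
      ≤ ENNReal.ofReal ((2 * δ) ^ (q - 1) * δ) * ENNReal.ofReal ((l.map fun n : ℕ =>
        (n : ℝ) * (t ^ (-(1/2) : ℝ) * Real.exp (-(4 * Real.pi ^ 2 * n ^ 2 * t)))).sum) := by
    intro t ht
    have ht' : (0:ℝ) < t := ht
    rw [← ENNReal.ofReal_mul (by positivity)]
    apply ENNReal.ofReal_le_ofReal
    have h1 := hB t ht'.le
    set S : ℝ := (l.map fun n : ℕ => (n : ℝ) * √t * Real.exp (-(4 * Real.pi ^ 2 * (n * √t) ^ 2))).sum
      with hS
    have hS2 : S ≤ 2 := hLAC l hl2 hl3 (√t) (Real.sqrt_nonneg t)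
    have hS0 : 0 ≤ S := by
      apply List.sum_nonneg
      intro x hx
      obtain ⟨n', _, rfl⟩ := List.mem_map.1 hx
      positivity
    have h3 : √t * (δ * (l.map fun n : ℕ => (n : ℝ) * Real.exp (-(4 * Real.pi ^ 2 * n ^ 2 * t))).sum)
        = δ * S := by
      rw [hS, mul_left_comm, ← List.sum_map_mul_left]
      congr 2
      apply List.map_congr_left
      intro n _
      rw [mul_pow, Real.sq_sqrt ht'.le]
      have : 4 * Real.pi ^ 2 * ((n : ℝ) ^ 2 * t) = 4 * Real.pi ^ 2 * (n : ℝ) ^ 2 * t := by ring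
      rw [this]
      ring
    have h4 : √t * HA t W ≤ δ * S := by
      rw [← h3]
      exact mul_le_mul_of_nonneg_left h1 (Real.sqrt_nonneg _)
    have h5 : (l.map fun n : ℕ => (n : ℝ) * (t ^ (-(1/2) : ℝ) *
        Real.exp (-(4 * Real.pi ^ 2 * n ^ 2 * t)))).sum = S / t := by
      rw [hS, div_eq_inv_mul _ t, ← List.sum_map_mul_left]
      congr 1
      apply List.map_congr_left
      intro n _
      have h6 : t ^ (-(1/2) : ℝ) = t⁻¹ * √t := by
        rw [Real.rpow_neg ht'.le, ← Real.sqrt_eq_rpow]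
        have := Real.sqrt_ne_zero'.2 ht'
        field_simp
        rw [Real.sq_sqrt ht'.le]
      rw [h6, mul_pow, Real.sq_sqrt ht'.le]
      have : 4 * Real.pi ^ 2 * ((n : ℝ) ^ 2 * t) = 4 * Real.pi ^ 2 * (n : ℝ) ^ 2 * t := by ring
      rw [this]
      ring
    rw [h5, ← mul_div_assoc]
    apply div_le_div_of_nonneg_right _ ht'.le
    have h7 : 0 ≤ √t * HA t W := mul_nonneg (Real.sqrt_nonneg _) (HA_nonneg _ _)
    rcases h7.eq_or_lt with h8 | h8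
    · rw [← h8, Real.zero_rpow (by linarith)]
      positivity
    · have h9 : (√t * HA t W) ^ q = (√t * HA t W) ^ (q - 1) * (√t * HA t W) := by
        rw [← Real.rpow_add_one h8.ne']
        congr 1
        ring
      rw [h9]
      have h10 : (√t * HA t W) ^ (q - 1) ≤ (2 * δ) ^ (q - 1) := by
        apply Real.rpow_le_rpow h7 _ (by linarith)
        refine h4.trans ?_
        nlinarith
      calc (√t * HA t W) ^ (q - 1) * (√t * HA t W) ≤ (2 * δ) ^ (q - 1) * (δ * S) :=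
            mul_le_mul h10 h4 h7 (by positivity)
        _ = (2 * δ) ^ (q - 1) * δ * S := by ring
  refine (setLIntegral_mono' measurableSet_Ioi hpt).trans ?_
  rw [lintegral_const_mul' _ _ ENNReal.ofReal_ne_top]
  exact mul_le_mul_right (lsum l hl3) _

theorem chain2 (h : H2) {ν : ℝ} (hν : 0 < ν) {δ ε : ℝ} (hε : 0 < ε) (K : ℕ) {V₀ : V → V}
    {v : ℝ → V → V} {r : ℝ → V → ℝ} (hV : Gd ν V₀ v r) :
    ∀ P : List (K3 × K3 × ℝ × ℝ),
    (∀ e ∈ P, e.1 ≠ 0 ∧ e.2.1 ≠ 0 ∧ ∑ j, e.1 j * e.2.1 j = 0) →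
    (∀ e ∈ P, |e.2.2.1| * (len e.1 + len e.2.1) * 2 ≤ δ) → ∀ ε' : ℝ, 0 < ε' →
    ∃ (l : List ℕ) (W : V → V), l.length = P.length ∧ l.Pairwise (fun a b => 2 * b ≤ a) ∧
      (∀ n ∈ l, 1 ≤ n) ∧ SPV W ∧ Dv W ∧ fv W 0 = 0 ∧ (Summable fun k => ‖fv W k‖) ∧
      (∀ k, len k < K → fv W k = 0) ∧
      (∃ u q, Gd ν (V₀ + (P.map fun e => EP ν e.1 e.2.1 e.2.2.1 e.2.2.2).sum + W) u q ∧
        ∀ τ, ε ≤ τ → ∫ t in ε..τ, An (fv (u t) - fv (v t)) ^ 2 ≤ ε') ∧
      ∀ t, 0 ≤ t → HA t W ≤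
        δ * (l.map fun n : ℕ => (n : ℝ) * Real.exp (-(4 * Real.pi ^ 2 * n ^ 2 * t))).sum := by
  intro P
  induction P with
  | nil =>
    intro _ _ ε' hε'
    refine ⟨[], 0, rfl, List.Pairwise.nil, by simp, SPV.zero', Dv.zero', by rw [fv_zero]; rfl, ?_,
      fun k _ => by rw [fv_zero]; rfl, ⟨v, r, by simpa using hV, fun τ hτ => ?_⟩, ?_⟩
    · rw [fv_zero]
      simp only [Pi.zero_apply, norm_zero]
      exact summable_zero
    · have hA0 : An 0 = 0 := by simp [An]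
      simp [hA0, hε'.le]
    · intro t _
      unfold HA
      rw [fv_zero]
      simp
  | cons e P ih =>
    intro hP hδ ε' hε'
    obtain ⟨l, W, hl1, hl2, hl3, hW1, hW2, hW3, hW4, hW5, ⟨u₁, q₁, hG, hcl⟩, hB⟩ :=
      ih (fun e' he' => hP e' (List.mem_cons_of_mem _ he'))
        (fun e' he' => hδ e' (List.mem_cons_of_mem _ he')) (ε' / 4) (by positivity)
    obtain ⟨he1, he2, he3⟩ := hP e List.mem_cons_self
    have hδe := hδ e List.mem_cons_self
    obtain ⟨N₀, hN₀⟩ := step2 h hν hG he1 he2 he3 e.2.2.1 e.2.2.2 hε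
      (show 0 < ε' / 4 by positivity)
    have hmx : ∃ m : ℕ, ∀ n ∈ l, n ≤ m := by
      refine ⟨l.sum, fun n hn => ?_⟩
      exact List.single_le_sum (fun x _ => Nat.zero_le x) n hn
    obtain ⟨m, hm⟩ := hmx
    set N : ℕ := max (max N₀ (max 1 K)) (2 * m) with hN
    have hNN0 : N₀ ≤ N := (le_max_left _ _).trans (le_max_left _ _)
    have hN1 : 1 ≤ N := ((le_max_left _ _).trans (le_max_right _ _)).trans (le_max_left _ _)
    have hNK : K ≤ N := ((le_max_right _ _).trans (le_max_right _ _)).trans (le_max_left _ _)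
    have hNm : 2 * m ≤ N := le_max_right _ _
    obtain ⟨hq1, hq2, hq3, hq4, hq5⟩ := (h.PKN h.TCF e.1 e.2.1 he1 he2 he3 e.2.2.1 e.2.2.2).1 N hN1
    refine ⟨N :: l, W + WP N e.1 e.2.1 e.2.2.1 e.2.2.2, by simp [hl1], ?_, ?_,
      SPV.add' hW1 hq1, Dv.add' hW1 hq1 hW2 hq2, ?_, ?_, ?_, ?_, ?_⟩
    · refine List.Pairwise.cons (fun b hb => ?_) hl2
      exact (Nat.mul_le_mul_left 2 (hm b hb)).trans hNm
    · intro n hn
      rcases List.mem_cons.1 hn with rfl | hn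
      · exact hN1
      · exact hl3 n hn
    · rw [fv_add hW1 hq1, Pi.add_apply, hW3, hq3, add_zero]
    · rw [fv_add hW1 hq1]
      exact Summable.of_nonneg_of_le (fun k => norm_nonneg _) (fun k => norm_add_le _ _)
        (hW4.add hq4)
    · intro k hk
      rw [fv_add hW1 hq1, Pi.add_apply, hW5 k hk, zero_add]
      refine wp_low h he1 he2 he3 _ _ hN1 (hk.trans_le ?_)
      exact_mod_cast hNK
    · obtain ⟨u₂, q₂, h5, hcl2⟩ := hN₀ N hNN0
      have h6 : V₀ + (P.map fun e => EP ν e.1 e.2.1 e.2.2.1 e.2.2.2).sum + W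
          + EP ν e.1 e.2.1 e.2.2.1 e.2.2.2 + WP N e.1 e.2.1 e.2.2.1 e.2.2.2
          = V₀ + ((e :: P).map fun e => EP ν e.1 e.2.1 e.2.2.1 e.2.2.2).sum
            + (W + WP N e.1 e.2.1 e.2.2.1 e.2.2.2) := by
        rw [List.map_cons, List.sum_cons]
        abel
      rw [← h6]
      refine ⟨u₂, q₂, h5, fun τ hτ => ?_⟩
      have c1 : CF fun t => fv (u₁ t) := cf_of fun T => hG.fsol h hν T
      have c2 : CF fun t => fv (u₂ t) := cf_of fun T => h5.fsol h hν T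
      have c0 : CF fun t => fv (v t) := cf_of fun T => hV.fsol h hν T
      have h7 := tri c2 c1 c0 hε.le hτ
      have h8 := hcl τ hτ
      have h9 := hcl2 τ hτ
      linarith
    · intro t ht
      have h7 := HA_add hW1 hq1 hW4 hq4 ht
      have h8 := hB t ht
      have h9 : HA t (WP N e.1 e.2.1 e.2.2.1 e.2.2.2)
          ≤ δ * ((N : ℝ) * Real.exp (-(4 * Real.pi ^ 2 * N ^ 2 * t))) := by
        refine (hq5 t ht).trans ?_
        have h10 : |e.2.2.1| * N * (len e.1 + len e.2.1) * 2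
            * Real.exp (-(4 * Real.pi ^ 2 * N ^ 2 * t))
            = |e.2.2.1| * (len e.1 + len e.2.1) * 2 * ((N : ℝ)
              * Real.exp (-(4 * Real.pi ^ 2 * N ^ 2 * t))) := by ring
        rw [h10]
        exact mul_le_mul_of_nonneg_right hδe (by positivity)
      rw [List.map_cons, List.sum_cons, mul_add]
      linarith

theorem SPV.sub' {v w : V → V} (hv : SPV v) (hw : SPV w) : SPV (v - w) := by
  refine ⟨hv.1.sub hw.1, fun i x => ?_⟩
  simp only [Pi.sub_apply]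
  rw [hv.2 i x, hw.2 i x]

theorem Dv.sub' {v w : V → V} (hv : SPV v) (hw : SPV w) (h1 : Dv v) (h2 : Dv w) : Dv (v - w) := by
  intro x
  have h3 : ∀ i, pd i (fun y => (v - w) y i) x = pd i (fun y => v y i) x - pd i (fun y => w y i) x := by
    intro i
    unfold pd
    have h4 : (fun y => (v - w) y i) = (fun y => v y i) - fun y => w y i := rfl
    rw [h4, fderiv_sub (comp_diff hv i x) (comp_diff hw i x)]
    rfl
  simp only [h3, Finset.sum_sub_distrib]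
  rw [h1 x, h2 x, sub_zero]

theorem final2 (h : H2) {ν : ℝ} (hν : 0 < ν) {U : V → V} (hU : SPV U) (hD : Dv U)
    (h0 : fv U 0 = 0) {v : ℝ → V → V} {r : ℝ → V → ℝ} (hvg : Gd ν (v 0) v r)
    {q ε : ℝ} (hq : 2 < q) (hε : 0 < ε) (K : ℕ) :
    ∃ u₀ : V → V, SPV u₀ ∧ Dv u₀ ∧ (∀ k, len k < K → fv (u₀ - U) k = 0) ∧
      (∀ t, 0 < t → √t * HA t (u₀ - U) ≤ ε) ∧
      (∫⁻ t in Ioi (0:ℝ), ENNReal.ofReal ((√t * HA t (u₀ - U)) ^ q / t) ≤ ENNReal.ofReal ε) ∧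
      ∃ (u : ℝ → V → V) (p : ℝ → V → ℝ), u 0 = u₀ ∧ (∀ T, IsSol ν T u p) ∧
        ∀ τ, ε ≤ τ → ∫ t in ε..τ, An (fv (u t) - fv (v t)) ^ 2 ≤ ε := by
  have hVspv : SPV (v 0) := hvg.spv
  have hVdv : Dv (v 0) := hvg.dv
  have hVm : fv (v 0) 0 = 0 := hvg.mean
  obtain ⟨η, hη, hsm⟩ := small2 h hν hvg (show 0 < ε / 4 by positivity)
  have hd1 : SPV (U - v 0) := SPV.sub' hU hVspv
  have hd2 : Dv (U - v 0) := Dv.sub' hU hVspv hD hVdv
  have hd3 : fv (U - v 0) 0 = 0 := by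
    have h1 : fv (U - v 0 + v 0) = fv (U - v 0) + fv (v 0) := fv_add hd1 hVspv
    rw [sub_add_cancel] at h1
    have h2 : fv U 0 = (fv (U - v 0) + fv (v 0)) 0 := by rw [← h1]
    rw [Pi.add_apply, h0, hVm, add_zero] at h2
    exact h2.symm
  obtain ⟨L, hL, R, hR1, hR2, hR3, hR4, hUR⟩ := h.DEC h.TCF (U - v 0) hd1 hd2 hd3 η hη
  obtain ⟨uR, qR, hGR, hclR⟩ := hsm R hR1 hR2 hR3 hR4
  -- the sizes
  set f : K3 × K3 × ℝ × ℝ → ℝ := fun e =>
    √(8 * Real.pi * ν * len e.2.1 ^ 2 * e.2.2.1) * (len e.1 + len e.2.1) * 2 with hf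
  have hlen : ∀ k : K3, 0 ≤ len k := fun k => Real.sqrt_nonneg _
  have hf0 : ∀ e, 0 ≤ f e := by
    intro e
    have := hlen e.1
    have := hlen e.2.1
    simp only [hf]
    positivity
  set D : ℝ := (L.map f).sum with hDdef
  have hD0 : 0 ≤ D := List.sum_nonneg (by
    intro x hx
    obtain ⟨e, _, rfl⟩ := List.mem_map.1 hx
    exact hf0 e)
  have hfD : ∀ e ∈ L, f e ≤ D := by
    intro e he
    refine List.single_le_sum ?_ _ (List.mem_map.2 ⟨e, he, rfl⟩)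
    intro x hx
    obtain ⟨e, _, rfl⟩ := List.mem_map.1 hx
    exact hf0 e
  -- the number of packets
  have hlim1 : Tendsto (fun m : ℕ => 2 * (D / √(m : ℝ))) atTop (𝓝 0) := by
    have h1 : Tendsto (fun m : ℕ => √(m : ℝ)) atTop atTop :=
      Real.tendsto_sqrt_atTop.comp tendsto_natCast_atTop_atTop
    have h2 := (tendsto_const_nhds (x := D)).div_atTop h1
    simpa using h2.const_mul 2
  have hlim2 : Tendsto (fun m : ℕ => (2 * D) ^ (q - 1) * D * L.length * (m : ℝ) ^ (1 - q / 2)) atTop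
      (𝓝 0) := by
    have h1 : Tendsto (fun x : ℝ => x ^ (-(q / 2 - 1))) atTop (𝓝 0) :=
      tendsto_rpow_neg_atTop (by linarith)
    have h2 := (h1.comp tendsto_natCast_atTop_atTop).const_mul ((2 * D) ^ (q - 1) * D * L.length)
    rw [mul_zero] at h2
    refine h2.congr fun m => ?_
    simp only [Function.comp]
    congr 2
    ring
  obtain ⟨m, hm1, hm2, hm3⟩ := (((tendsto_order.1 hlim1).2 ε hε).and
    (((tendsto_order.1 hlim2).2 ε hε).and (eventually_ge_atTop 1))).exists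
  have hm0 : (0:ℝ) < m := by exact_mod_cast hm3
  set δ : ℝ := D / √(m : ℝ) with hδ
  have hδ0 : 0 ≤ δ := by positivity
  set g : K3 × K3 × ℝ × ℝ → K3 × K3 × ℝ × ℝ := fun e =>
    (e.1, e.2.1, √(8 * Real.pi * ν * len e.2.1 ^ 2 * e.2.2.1) / √(m : ℝ), e.2.2.2) with hg
  set P : List (K3 × K3 × ℝ × ℝ) := L.flatMap fun e => List.replicate m (g e) with hP
  have hPmem : ∀ e ∈ P, ∃ e' ∈ L, e = g e' := by
    intro e he
    obtain ⟨e', he', h1⟩ := List.mem_flatMap.1 he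
    exact ⟨e', he', List.eq_of_mem_replicate h1⟩
  have hP1 : ∀ e ∈ P, e.1 ≠ 0 ∧ e.2.1 ≠ 0 ∧ ∑ j, e.1 j * e.2.1 j = 0 := by
    intro e he
    obtain ⟨e', he', rfl⟩ := hPmem e he
    obtain ⟨h1, h2, h3, _⟩ := hL e' he'
    exact ⟨h1, h2, h3⟩
  have hP2 : ∀ e ∈ P, |e.2.2.1| * (len e.1 + len e.2.1) * 2 ≤ δ := by
    intro e he
    obtain ⟨e', he', rfl⟩ := hPmem e he
    have h1 := hfD e' he'
    simp only [hg]
    rw [abs_of_nonneg (by positivity), hδ]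
    have h2 : √(8 * Real.pi * ν * len e'.2.1 ^ 2 * e'.2.2.1) / √(m : ℝ) * (len e'.1 + len e'.2.1) * 2
        = f e' / √(m : ℝ) := by
      simp only [hf]
      ring
    rw [h2]
    exact div_le_div_of_nonneg_right h1 (Real.sqrt_nonneg _)
  obtain ⟨l, W, hl1, hl2, hl3, hW1, hW2, hW3, hW4, hW5, ⟨uu, qq, hG, hclW⟩, hB⟩ :=
    chain2 h hν hε K hGR P hP1 hP2 (ε / 4) (by positivity)
  -- the sum of the elementary fields
  have hsumU : v 0 + R + (P.map fun e => EP ν e.1 e.2.1 e.2.2.1 e.2.2.2).sum = U := by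
    have h1 : R + (P.map fun e => EP ν e.1 e.2.1 e.2.2.1 e.2.2.2).sum = U - v 0 := by
      funext x i
      rw [Pi.add_apply, Pi.add_apply, sum_app, sum_flat L m g, hUR x i]
      congr 2
      apply List.map_congr_left
      intro e he
      obtain ⟨h1, h2, h3, h4⟩ := hL e he
      have h5 := len_pos' h2
      simp only [hg, EP]
      rw [div_pow, Real.sq_sqrt (by positivity), Real.sq_sqrt hm0.le]
      field_simp
    rw [add_assoc, h1]
    abel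
  have hdiff : U + W - U = W := by abel
  refine ⟨U + W, SPV.add' hU hW1, Dv.add' hU hW1 hD hW2, ?_, ?_, ?_, uu, qq, ?_, hG.sol, ?_⟩
  · rw [hdiff]
    exact hW5
  · intro t ht
    rw [hdiff]
    exact sup_bd h.LAC hl2 hl3 hδ0 hm1.le hB ht
  · rw [hdiff]
    refine (int_bd h.LAC hl2 hl3 hδ0 hq hB).trans ?_
    have h1 : ((l.length : ℕ) : ENNReal) = ENNReal.ofReal ((m : ℝ) * L.length) := by
      rw [hl1, hP, len_flat, ← ENNReal.ofReal_natCast]
      push_cast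
      rfl
    rw [h1, ← ENNReal.ofReal_mul (by positivity)]
    apply ENNReal.ofReal_le_ofReal
    refine le_trans (le_of_eq ?_) hm2.le
    rcases hD0.eq_or_lt with h2 | h2
    · rw [hδ, ← h2]
      simp
    · have hs : 0 < √(m : ℝ) := Real.sqrt_pos.2 hm0
      have h3 : (2 * δ) ^ (q - 1) = (2 * D) ^ (q - 1) * (√(m:ℝ)) ^ (-(q - 1)) := by
        rw [hδ, Real.rpow_neg hs.le, ← mul_div_assoc, Real.div_rpow (by positivity) hs.le]
        rfl
      have h4 : (√(m:ℝ)) ^ (-(q - 1)) / √(m:ℝ) * m = (m : ℝ) ^ (1 - q / 2) := by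
        rw [Real.sqrt_eq_rpow, ← Real.rpow_mul hm0.le, ← Real.rpow_sub hm0]
        nth_rewrite 2 [← Real.rpow_one (m : ℝ)]
        rw [← Real.rpow_add hm0]
        congr 1
        ring
      rw [h3, ← h4, hδ]
      ring
  · rw [hG.init, hsumU]
  · intro τ hτ
    have c1 : CF fun t => fv (uu t) := cf_of fun T => hG.fsol h hν T
    have c2 : CF fun t => fv (uR t) := cf_of fun T => hGR.fsol h hν T
    have c0 : CF fun t => fv (v t) := cf_of fun T => hvg.fsol h hν T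
    have h7 := tri c1 c2 c0 hε.le hτ
    have h8 := hclW τ hτ
    have h9 := hclR τ (hε.le.trans hτ)
    have h6 : ContinuousOn (fun t => An (fv (uR t) - fv (v t))) (Icc 0 τ) := (c2.sub c0).cont τ
    have h10 : (∫ t in (0:ℝ)..ε, An (fv (uR t) - fv (v t)) ^ 2)
        + (∫ t in ε..τ, An (fv (uR t) - fv (v t)) ^ 2)
        = ∫ t in (0:ℝ)..τ, An (fv (uR t) - fv (v t)) ^ 2 :=
      intervalIntegral.integral_add_adjacent_intervals
        (ii_of (h6.pow 2) le_rfl hε.le hτ) (ii_of (h6.pow 2) hε.le hτ le_rfl)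
    have h11 : 0 ≤ ∫ t in (0:ℝ)..ε, An (fv (uR t) - fv (v t)) ^ 2 :=
      intervalIntegral.integral_nonneg hε.le fun t _ => sq_nonneg _
    linarith

/-- the target: a global smooth solution -/
theorem gd_of (h : H2) (hDCY : S_DCY) {ν : ℝ} (hν : 0 < ν) {v : ℝ → V → V} {r : ℝ → V → ℝ}
    (hv : ∀ T, IsSol ν T v r) (hv0 : ∀ i, ∫ x in cube, v 0 x i = 0) : Gd ν (v 0) v r := by
  have hVspv : SPV (v 0) := spv_sol (hv 1) ⟨le_rfl, by norm_num⟩
  have hVdv : Dv (v 0) := (hv 1).divfree 0 ⟨le_rfl, by norm_num⟩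
  have hVm : fv (v 0) 0 = 0 := of_mean hv0
  obtain ⟨Q, hQ⟩ := hDCY ν v r hν hv hv0
  obtain ⟨CE, hCE, hE⟩ := h.ENG ν hν
  obtain ⟨CS, hCS, hS⟩ := h.SUP
  refine ⟨hVspv, hVdv, hVm, rfl, hv, ⟨Q, hQ⟩, CS * (Real.exp (CE * Q) * Hn 3 0 (v 0)),
    fun t ht => ?_⟩
  have htI : t ∈ Ico 0 (t + 1) := ⟨ht, by linarith⟩
  have h4 := hE (t + 1) Q v r (hv _) hv0 (fun τ hτ => hQ τ hτ.1) t htI
  have h5 := (hS (v t) (spv_sol (hv (t + 1)) htI)
    ((h.FOU ν (t + 1) v r hν (hv _) hv0).zero t htI)).2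
  exact h5.trans (mul_le_mul_of_nonneg_left h4 hCS)

/-- the fluid at rest -/
theorem gd_zero {ν : ℝ} : Gd ν 0 (fun _ => 0) (fun _ _ => 0) := by
  have hA0 : An (fv 0) = 0 := by rw [fv_zero]; simp [An]
  refine ⟨SPV.zero', Dv.zero', by rw [fv_zero]; rfl, rfl, fun T => ?_,
    ⟨0, fun τ _ => by simp [hA0]⟩, ⟨0, fun t _ => by rw [hA0]⟩⟩
  have hpd : ∀ j : Fin 3, pd j (fun _ : V => (0 : ℝ)) = fun _ => 0 := by
    intro j
    funext x
    simp [pd]
  refine ⟨contDiffOn_const, contDiffOn_const, fun t _ => SPV.zero'.2, fun t _ i x => rfl,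
    fun t _ => Dv.zero', fun t _ x i => ?_⟩
  simp only [Pi.zero_apply, hpd]
  simp

end AS

end Pool.Agent.N976.GD
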