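import Pool.Agent.N976.GD.Stm

/-!
Further statements for the project GD: Galilean transformations.
-/

set_option autoImplicit false

open MeasureTheory Set Filter Topology
open scoped ContDiff

namespace Pool.Agent.N976.GD

open H459R3.NS Pool.Agent.N977.Q

/-- Galilean transformation of a velocity field -/
def gal (m : V) (u : ℝ → V → V) : ℝ → V → V := fun t x => u t (x - t • m) + m

/-- Galilean transformation of a pressure -/
def galp (m : V) (p : ℝ → V → ℝ) : ℝ → V → ℝ := fun t x => p t (x - t • m)

/-- (GAL) Galilean invariance, invariance of the norm `An` under translations, fields minus their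
mean values -/
def S_GAL : Prop :=
  (∀ (ν T : ℝ) (m : V) (u : ℝ → V → V) (p : ℝ → V → ℝ), IsSol ν T u p →
    IsSol ν T (gal m u) (galp m p)) ∧
  (∀ (v w : V → V) (m y : V), SPV v → SPV w →
    An (fv (fun x => v (x - y) + m) - fv (fun x => w (x - y) + m)) = An (fv v - fv w)) ∧
  ∀ (v : V → V) (m : V), SPV v → Dv v → (∀ i, ∫ x in cube, v x i = m i) →
    SPV (fun x => v x - m) ∧ Dv (fun x => v x - m) ∧ (∀ i, ∫ x in cube, (v x - m) i = 0) ∧
    fv (fun x => v x - m) 0 = 0

end Pool.Agent.N976.GD
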