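import Pool.Agent.N976.GD.Asm5
import Pool.Agent.N976.GD.Stm3

/-!
Assembly of the project GD, sixth part: fields with arbitrary mean values.
-/

set_option autoImplicit false

open MeasureTheory Set Filter Topology
open scoped ContDiff

namespace Pool.Agent.N976.GD

open H459R3.NS Pool.Agent.N977.Q

namespace AS

theorem final3 (h : H2) (hDCY : S_DCY) (hGAL : S_GAL) {ν : ℝ} (hν : 0 < ν) {U : V → V}
    (hU : SPV U) (hD : Dv U) {v : ℝ → V → V} {r : ℝ → V → ℝ} (hv : ∀ T, IsSol ν T v r)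
    (hm : ∀ i, ∫ x in cube, v 0 x i = ∫ x in cube, U x i) {q ε : ℝ} (hq : 2 < q) (hε : 0 < ε)
    (K : ℕ) :
    ∃ u₀ : V → V, SPV u₀ ∧ Dv u₀ ∧ (∀ k, len k < K → fv (u₀ - U) k = 0) ∧
      (∀ t, 0 < t → √t * HA t (u₀ - U) ≤ ε) ∧
      (∫⁻ t in Ioi (0:ℝ), ENNReal.ofReal ((√t * HA t (u₀ - U)) ^ q / t) ≤ ENNReal.ofReal ε) ∧
      ∃ (u : ℝ → V → V) (p : ℝ → V → ℝ), u 0 = u₀ ∧ (∀ T, IsSol ν T u p) ∧
        ∀ τ, ε ≤ τ → ∫ t in ε..τ, An (fv (u t) - fv (v t)) ^ 2 ≤ ε := by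
  obtain ⟨g1, g2, g3⟩ := hGAL
  set m : V := fun i => ∫ x in cube, U x i with hmd
  obtain ⟨a1, a2, a3, a4⟩ := g3 U m hU hD fun i => rfl
  have hv0 : SPV (v 0) := spv_sol (hv 1) ⟨le_rfl, by norm_num⟩
  have hvd : Dv (v 0) := (hv 1).divfree 0 ⟨le_rfl, by norm_num⟩
  obtain ⟨b1, b2, b3, b4⟩ := g3 (v 0) m hv0 hvd fun i => hm i
  have e0 : gal (-m) v 0 = fun x => v 0 x - m := by
    funext x
    simp [gal, sub_eq_add_neg]
  have hv' : ∀ T, IsSol ν T (gal (-m) v) (galp (-m) r) := fun T => g1 ν T (-m) v r (hv T)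
  have hvm : ∀ i, ∫ x in cube, gal (-m) v 0 x i = 0 := by
    intro i
    rw [e0]
    exact b3 i
  have hgd := gd_of h hDCY hν hv' hvm
  obtain ⟨u₀, c1, c2, c3, c4, c5, u, p, c6, c7, c8⟩ := final2 h hν a1 a2 a4 hgd hq hε K
  have hc1 : SPV (fun x => u₀ x + m) := by
    refine ⟨c1.1.add contDiff_const, fun i x => ?_⟩
    show u₀ (x + Pi.single i 1) + m = u₀ x + m
    rw [c1.2 i x]
  have hdiff : (fun x => u₀ x + m) - U = u₀ - fun x => U x - m := by
    funext x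
    simp only [Pi.sub_apply]
    abel
  refine ⟨fun x => u₀ x + m, hc1, ?_, ?_, ?_, ?_, gal m u, galp m p, ?_,
    fun T => g1 ν T m u p (c7 T), ?_⟩
  · intro x
    have h1 := c2 x
    refine Eq.trans ?_ h1
    apply Finset.sum_congr rfl
    intro i _
    unfold pd
    have h2 : (fun y : V => (u₀ y + m) i) = fun y => u₀ y i + m i := rfl
    rw [h2, fderiv_add_const]
  · rw [hdiff]
    exact c3
  · rw [hdiff]
    exact c4
  · rw [hdiff]
    exact c5
  · funext x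
    simp [gal, c6]
  · intro τ hτ
    refine le_trans (le_of_eq ?_) (c8 τ hτ)
    apply intervalIntegral.integral_congr
    intro t ht
    rw [uIcc_of_le hτ] at ht
    have ht0 : 0 ≤ t := hε.le.trans ht.1
    have htI : t ∈ Ico 0 (t + 1) := ⟨ht0, by linarith⟩
    have h1 : v t = fun x => gal (-m) v t (x - t • m) + m := by
      funext x
      simp [gal]
    have h2 : gal m u t = fun x => u t (x - t • m) + m := rfl
    have h3 := g2 (u t) (gal (-m) v t) m (t • m) (spv_sol (c7 (t + 1)) htI)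
      (spv_sol (hv' (t + 1)) htI)
    show An (fv (gal m u t) - fv (v t)) ^ 2 = An (fv (u t) - fv (gal (-m) v t)) ^ 2
    rw [← h3, h1, h2]

end AS

end Pool.Agent.N976.GD
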