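import Pool.Agent.N976.GD.Stm2
import Pool.Agent.H459R3.NS.Gen

/-!
GD/DCY: global smooth solutions are square integrable in time (helper398).
-/

set_option autoImplicit false

open MeasureTheory Set Filter Topology
open scoped ContDiff

namespace Pool.Agent.N976.GD

namespace DY

open H459R3.NS

/-- the `ℓ¹` norm of the Fourier coefficients of a function with mean zero -/
theorem sum_fr_le {f : V → ℝ} (hf : SP f) (h0 : fr f 0 = 0) :
    ∑' k, ‖fr f k‖ ≤ Real.sqrt C4 * nrm (lap f) := by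
  have hr := rap_fr hf
  have hl := rap_fr hf.lap
  have hbd : ∀ k, ‖fr f k‖ ≤
      Real.sqrt (if k = 0 then (0 : ℝ) else 1 / (H459R3.NS.N k : ℝ) ^ 4) * ‖fr (lap f) k‖ := by
    intro k
    by_cases hk : k = 0
    · rw [if_pos hk, hk, h0]
      simp
    · rw [if_neg hk]
      have hN : 1 ≤ H459R3.NS.N k := Nat.one_le_iff_ne_zero.2 fun h => hk (N_eq_zero.1 h)
      have hN' : (0 : ℝ) < H459R3.NS.N k := by exact_mod_cast hN
      have e1 : fr (lap f) k = -(((2 * Real.pi) ^ 2 * ∑ j, (k j : ℝ) ^ 2 : ℝ) : ℂ) * fr f k := by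
        unfold lap
        rw [fr_sum fun j _ => (hf.pd j).pd j]
        push_cast
        rw [Finset.mul_sum, ← Finset.sum_neg_distrib, Finset.sum_mul]
        refine Finset.sum_congr rfl fun j _ => ?_
        rw [fr_pd (hf.pd j), fr_pd hf, H459R3.NS.D, H459R3.NS.D]
        have := Complex.I_sq
        linear_combination ((2 * Real.pi : ℂ) ^ 2 * (k j : ℂ) ^ 2 * fr f k) * this
      have e2 : (H459R3.NS.N k : ℝ) ^ 2 * ‖fr f k‖ ≤ ‖fr (lap f) k‖ := by
        rw [e1, norm_mul, norm_neg, Complex.norm_real, Real.norm_eq_abs,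
          abs_of_nonneg (by positivity)]
        refine mul_le_mul_of_nonneg_right ?_ (norm_nonneg _)
        have a1 := N_sq_le k
        have a2 : (1 : ℝ) ≤ (2 * Real.pi) ^ 2 := by nlinarith [Real.pi_gt_three]
        have a3 : (0 : ℝ) ≤ ∑ j, (k j : ℝ) ^ 2 := by positivity
        nlinarith
      have e3 : Real.sqrt (1 / (H459R3.NS.N k : ℝ) ^ 4) = 1 / (H459R3.NS.N k : ℝ) ^ 2 := by
        rw [show (1 : ℝ) / (H459R3.NS.N k : ℝ) ^ 4 = (1 / (H459R3.NS.N k : ℝ) ^ 2) ^ 2 by
          rw [div_pow, one_pow, ← pow_mul], Real.sqrt_sq (by positivity)]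
      rw [e3, div_mul_eq_mul_div, one_mul, le_div_iff₀ (by positivity), mul_comm]
      exact e2
  have sq1 : Summable fun k : K3 =>
      (Real.sqrt (if k = 0 then (0 : ℝ) else 1 / (H459R3.NS.N k : ℝ) ^ 4)) ^ 2 := by
    refine summable_N4.congr fun k => ?_
    rw [Real.sq_sqrt (by split_ifs <;> positivity)]
  have sq2 := summable_sq hl.summable
  have s2 : Summable fun k : K3 =>
      Real.sqrt (if k = 0 then (0 : ℝ) else 1 / (H459R3.NS.N k : ℝ) ^ 4) * ‖fr (lap f) k‖ := by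
    refine Summable.of_nonneg_of_le (fun k => by positivity) (fun k => ?_) (sq1.add sq2)
    nlinarith [sq_nonneg (Real.sqrt (if k = 0 then (0 : ℝ) else 1 / (H459R3.NS.N k : ℝ) ^ 4)
      - ‖fr (lap f) k‖),
      sq_nonneg (Real.sqrt (if k = 0 then (0 : ℝ) else 1 / (H459R3.NS.N k : ℝ) ^ 4)),
      sq_nonneg ‖fr (lap f) k‖]
  refine (hr.summable.norm.tsum_le_tsum hbd s2).trans ?_
  refine s2.tsum_le_of_sum_le fun F => ?_
  have b1 := Finset.sum_mul_sq_le_sq_mul_sq F
    (fun k : K3 => Real.sqrt (if k = 0 then (0 : ℝ) else 1 / (H459R3.NS.N k : ℝ) ^ 4))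
    (fun k => ‖fr (lap f) k‖)
  have b2 : ∑ k ∈ F, (Real.sqrt (if k = 0 then (0 : ℝ) else 1 / (H459R3.NS.N k : ℝ) ^ 4)) ^ 2
      ≤ C4 := by
    have : ∑' k : K3, (Real.sqrt (if k = 0 then (0 : ℝ) else 1 / (H459R3.NS.N k : ℝ) ^ 4)) ^ 2
        = C4 := tsum_congr fun k => Real.sq_sqrt (by split_ifs <;> positivity)
    rw [← this]
    exact sq1.sum_le_tsum F fun _ _ => sq_nonneg _
  have b3 : ∑ k ∈ F, ‖fr (lap f) k‖ ^ 2 ≤ nrm (lap f) ^ 2 := by
    rw [nrm_sq, ← n2_fr hf.lap, n2_sq]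
    exact sq2.sum_le_tsum F fun _ _ => sq_nonneg _
  have b4 : (∑ k ∈ F, Real.sqrt (if k = 0 then (0 : ℝ) else 1 / (H459R3.NS.N k : ℝ) ^ 4)
      * ‖fr (lap f) k‖) ^ 2 ≤ (Real.sqrt C4 * nrm (lap f)) ^ 2 := by
    rw [mul_pow, Real.sq_sqrt C4_nonneg]
    refine b1.trans ?_
    exact mul_le_mul b2 b3 (Finset.sum_nonneg fun _ _ => sq_nonneg _) C4_nonneg
  exact (pow_le_pow_iff_left₀ (Finset.sum_nonneg fun _ _ => by positivity)
    (mul_nonneg (Real.sqrt_nonneg _) (nrm_nonneg _)) (by norm_num)).1 b4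

section field

variable {w : V → V}

theorem fv_summable (hw : ∀ i, SP (fun x => w x i)) : Summable fun k => ‖fv w k‖ := by
  have h1 : Summable fun k => ∑ i, ‖fr (fun x => w x i) k‖ :=
    summable_sum fun i _ => (rap_fr (hw i)).summable.norm
  refine Summable.of_nonneg_of_le (fun k => norm_nonneg _) (fun k => ?_) h1
  rw [pi_norm_le_iff_of_nonneg (Finset.sum_nonneg fun i _ => norm_nonneg _)]
  intro i
  exact Finset.single_le_sum (f := fun i => ‖fr (fun x => w x i) k‖)
    (fun i _ => norm_nonneg _) (Finset.mem_univ i)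

theorem An_nonneg (a : Cf) : 0 ≤ An a := tsum_nonneg fun _ => norm_nonneg _

/-- the `ℓ¹` norm of the Fourier coefficients and the palinstrophy -/
theorem An_sq_le (hw : ∀ i, SP (fun x => w x i)) (h0 : fv w 0 = 0) :
    An (fv w) ^ 2 ≤ 3 * C4 * palin w := by
  have h1 : An (fv w) ≤ ∑ i, Real.sqrt C4 * nrm (lap fun x => w x i) := by
    have s1 : ∀ i ∈ Finset.univ, Summable fun k => ‖fr (fun x => w x i) k‖ :=
      fun i _ => (rap_fr (hw i)).summable.norm
    have h2 : An (fv w) ≤ ∑' k, ∑ i, ‖fr (fun x => w x i) k‖ := by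
      refine (fv_summable hw).tsum_le_tsum (fun k => ?_) (summable_sum s1)
      rw [pi_norm_le_iff_of_nonneg (Finset.sum_nonneg fun i _ => norm_nonneg _)]
      intro i
      exact Finset.single_le_sum (f := fun i => ‖fr (fun x => w x i) k‖)
        (fun i _ => norm_nonneg _) (Finset.mem_univ i)
    refine h2.trans ?_
    rw [Summable.tsum_finsetSum (f := fun (i : Fin 3) (k : K3) => ‖fr (fun x => w x i) k‖) s1]
    exact Finset.sum_le_sum fun i _ => sum_fr_le (hw i) (congrFun h0 i)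
  have h2 := pow_le_pow_left₀ (An_nonneg _) h1 2
  refine h2.trans ?_
  have h3 : (∑ i : Fin 3, Real.sqrt C4 * nrm (lap fun x => w x i)) ^ 2 ≤
      3 * ∑ i : Fin 3, (Real.sqrt C4 * nrm (lap fun x => w x i)) ^ 2 := by
    have := sq_sum_le_card_mul_sum_sq (s := (Finset.univ : Finset (Fin 3)))
      (f := fun i => Real.sqrt C4 * nrm (lap fun x => w x i))
    simpa using this
  refine h3.trans (le_of_eq ?_)
  have e : ∀ i : Fin 3, (Real.sqrt C4 * nrm (lap fun x => w x i)) ^ 2 =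
      C4 * ∫ x in cube, lap (fun x => w x i) x ^ 2 := by
    intro i
    rw [mul_pow, Real.sq_sqrt C4_nonneg, nrm_sq]
  rw [Finset.sum_congr rfl fun i _ => e i, ← Finset.mul_sum, mul_assoc]
  rfl

theorem sup_le_An (hw : ∀ i, SP (fun x => w x i)) (i : Fin 3) (x : V) : |w x i| ≤ An (fv w) := by
  have hr := rap_fr (hw i)
  have h1 := norm_S_le hr.summable x
  rw [S_fr (hw i), Complex.norm_real, Real.norm_eq_abs] at h1
  exact h1.trans (hr.summable.norm.tsum_le_tsum (fun k => norm_le_pi_norm (fv w k) i)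
    (fv_summable hw))

/-- the stretching term -/
theorem cub_le (hw : ∀ i, SP (fun x => w x i)) :
    |cub (fun i y => w y i)| ≤ 54 * (An (fv w) * (√(enstrophy w) * √(palin w))) := by
  have h : GH2 (fun i y => w y i) (√(enstrophy w)) (√(palin w)) :=
    { sp := hw
      g0 := Real.sqrt_nonneg _
      h0 := Real.sqrt_nonneg _
      g := by
        rw [Real.sq_sqrt (enstrophy_nonneg w)]
        exact le_rfl
      h := by
        rw [Real.sq_sqrt (palin_nonneg w)]
        exact le_rfl }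
  have h1 := abs_C3_1 (s := fun i y => w y i) hw (fun i x => sup_le_An hw i x) h.gh h.gh
  rw [← cub_eq] at h1
  refine h1.trans (le_of_eq ?_)
  ring

end field

theorem main {ν : ℝ} {v : ℝ → V → V} {r : ℝ → V → ℝ} (hν : 0 < ν) (hs : ∀ T, IsSol ν T v r)
    (hc : ∀ T, FSol (4 * Real.pi ^ 2 * ν) T (fun t => fv (v t))) :
    ∃ Q : ℝ, ∀ τ, 0 ≤ τ → ∫ t in (0:ℝ)..τ, An (fv (v t)) ^ 2 ≤ Q := by
  set a : ℝ → ℝ := fun t => An (fv (v t)) with ha
  set y : ℝ → ℝ := fun t => enstrophy (v t) with hy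
  have hsp : ∀ t, 0 ≤ t → ∀ i, SP (fun x => v t x i) := fun t ht i =>
    (hs (t + 1)).sp ⟨ht, by linarith⟩ i
  have hz0 : ∀ t, 0 ≤ t → fv (v t) 0 = 0 := fun t ht => (hc (t + 1)).zero t ⟨ht, by linarith⟩
  have hy0 : ∀ t, 0 ≤ y t := fun t => enstrophy_nonneg _
  have hycont : ∀ b, ContinuousOn y (Icc 0 b) := fun b =>
    (hs (b + 1)).enstrophy_continuousOn.mono fun s hs => ⟨hs.1, by linarith [hs.2]⟩
  have hacont : ∀ b, ContinuousOn a (Icc 0 b) := by
    intro b
    obtain ⟨M, hM, hMb⟩ := (hc (b + 1)).dec b (by linarith)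
    refine continuousOn_tsum (fun k => (((hc (b + 1)).cont k).mono fun s hs =>
      ⟨hs.1, by linarith [hs.2]⟩).norm) hM fun k t ht => ?_
    rw [norm_norm]
    exact hMb t ht k
  set A : ℝ := 3 * C4 + 1 with hA
  have hA0 : 0 < A := by
    have := C4_nonneg
    positivity
  have haz : ∀ t, 0 ≤ t → a t ^ 2 ≤ A * palin (v t) := by
    intro t ht
    have h1 := An_sq_le (hsp t ht) (hz0 t ht)
    have h2 := palin_nonneg (v t)
    have h3 : A * palin (v t) = 3 * C4 * palin (v t) + palin (v t) := by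
      rw [hA]
      ring
    rw [h3]
    exact h1.trans (le_add_of_nonneg_right h2)
  set δ : ℝ := ν ^ 2 / (108 ^ 2 * A) with hδ
  have hδ0 : 0 < δ := by positivity
  -- the differential inequality
  have hdiff : ∀ t, 0 ≤ t → y t ≤ δ →
      -(2 * ν * palin (v t)) - 2 * cub (fun i x => v t x i) ≤ -(ν / A * a t ^ 2) := by
    intro t ht hyt
    have h1 := neg_le_of_abs_le (cub_le (hsp t ht))
    set H := √(palin (v t)) with hH
    set G := √(enstrophy (v t)) with hG
    have hH2 : H ^ 2 = palin (v t) := Real.sq_sqrt (palin_nonneg _)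
    have hG2 : G ^ 2 = y t := Real.sq_sqrt (hy0 t)
    have hH0 : 0 ≤ H := Real.sqrt_nonneg _
    have hG0 : 0 ≤ G := Real.sqrt_nonneg _
    have hsA : √A ^ 2 = A := Real.sq_sqrt hA0.le
    have hsA0 : 0 ≤ √A := Real.sqrt_nonneg _
    have ha1 : a t ≤ √A * H := by
      apply le_of_sq_le_sq _ (by positivity)
      rw [mul_pow, hsA, hH2]
      exact haz t ht
    have hG1 : 108 * (√A * G) ≤ ν := by
      apply le_of_sq_le_sq _ hν.le
      rw [mul_pow, mul_pow, hsA, hG2]
      rw [hδ, le_div_iff₀ (by positivity)] at hyt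
      linarith
    have h2 : 2 * (54 * (a t * (G * H))) ≤ ν * H ^ 2 := by
      calc 2 * (54 * (a t * (G * H))) ≤ 2 * (54 * ((√A * H) * (G * H))) := by gcongr
        _ = 108 * (√A * G) * H ^ 2 := by ring
        _ ≤ ν * H ^ 2 := mul_le_mul_of_nonneg_right hG1 (sq_nonneg _)
    have h3 : ν / A * a t ^ 2 ≤ ν * H ^ 2 := by
      rw [hH2, div_mul_eq_mul_div, div_le_iff₀ hA0]
      calc ν * a t ^ 2 ≤ ν * (A * palin (v t)) := mul_le_mul_of_nonneg_left (haz t ht) hν.le
        _ = ν * palin (v t) * A := by ring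
    have h4 : 2 * ν * palin (v t) = ν * H ^ 2 + ν * H ^ 2 := by
      rw [hH2]
      ring
    have h5 : An (fv (v t)) = a t := rfl
    rw [h5] at h1
    linarith
  -- the enstrophy is small at some time
  obtain ⟨t₁, ht₁, hyt₁⟩ : ∃ t, 0 < t ∧ y t < δ := by
    by_contra hcon
    push Not at hcon
    set τ : ℝ := energy (v 0) / (2 * ν) / δ + 1 with hτ
    have hE := energy_nonneg (v 0)
    have hτ0 : 0 < τ := by positivity
    have h1 := (hs (τ + 1)).int_enstrophy hν (t := τ) ⟨hτ0.le, by linarith⟩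
    have h2 : ∫ s in (0:ℝ)..τ, δ ≤ ∫ s in (0:ℝ)..τ, y s := by
      refine intervalIntegral.integral_mono_on_of_le_Ioo hτ0.le intervalIntegrable_const
        ((hycont τ).intervalIntegrable_of_Icc hτ0.le) fun s hs => hcon s hs.1
    rw [intervalIntegral.integral_const, smul_eq_mul, sub_zero] at h2
    have h3 : τ * δ = energy (v 0) / (2 * ν) + δ := by
      rw [hτ, add_mul, one_mul, div_mul_cancel₀ _ hδ0.ne']
    have h4 : τ * δ ≤ energy (v 0) / (2 * ν) := h2.trans h1
    linarith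
  -- it remains small
  have hder : ∀ t, 0 < t → HasDerivAt y (-(2 * ν * palin (v t)) - 2 * cub (fun i x => v t x i)) t :=
    fun t ht => (hs (t + 1)).enstrophy_hasDerivAt ⟨ht, by linarith⟩
  have hsmall : ∀ b, t₁ ≤ b → y b ≤ δ := by
    intro b hb
    rcases hb.eq_or_lt with h | h
    · rw [← h]
      exact hyt₁.le
    set ε : ℝ := (δ - y t₁) / (b - t₁) with hε
    have hbt : 0 < b - t₁ := sub_pos.2 h
    have hε0 : 0 < ε := div_pos (sub_pos.2 hyt₁) hbt
    have hεb : ε * (b - t₁) = δ - y t₁ := div_mul_cancel₀ _ hbt.ne'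
    have key := image_le_of_deriv_right_lt_deriv_boundary (f := y)
      (f' := fun t => -(2 * ν * palin (v t)) - 2 * cub (fun i x => v t x i)) (a := t₁) (b := b)
      ((hycont b).mono (Icc_subset_Icc_left ht₁.le))
      (fun t ht => (hder t (ht₁.trans_le ht.1)).hasDerivWithinAt)
      (B := fun t => y t₁ + ε * (t - t₁)) (B' := fun _ => ε) (by simp)
      (fun t => by
        have := ((hasDerivAt_id t).sub_const t₁).const_mul ε
        have h2 := this.const_add (y t₁)
        simpa using h2) (fun t ht hyt => ?_) (x := b) ⟨hb, le_rfl⟩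
    · linarith
    · have h1 : ε * (t - t₁) ≤ ε * (b - t₁) :=
        mul_le_mul_of_nonneg_left (by linarith [ht.2]) hε0.le
      have h2 : y t ≤ δ := by linarith
      have h3 := hdiff t (ht₁.le.trans ht.1) h2
      have h4 : 0 ≤ ν / A * a t ^ 2 := by positivity
      linarith
  -- the tail of the integral
  have htail : ∀ b, t₁ ≤ b → ∫ t in t₁..b, a t ^ 2 ≤ A / ν * δ := by
    intro b hb
    have hsub : Icc t₁ b ⊆ Icc 0 b := Icc_subset_Icc_left ht₁.le
    have hφ : ContinuousOn (fun t => -(ν / A * a t ^ 2)) (Icc t₁ b) :=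
      (continuousOn_const.mul (((hacont b).mono hsub).pow 2)).neg
    have h1 := intervalIntegral.sub_le_integral_of_hasDeriv_right_of_le hb
      ((hycont b).mono hsub) (fun t ht => (hder t (ht₁.trans ht.1)).hasDerivWithinAt)
      hφ.integrableOn_Icc
      (fun t ht => hdiff t (ht₁.trans ht.1).le (hsmall t ht.1.le))
    rw [intervalIntegral.integral_neg, intervalIntegral.integral_const_mul] at h1
    have h2 := hy0 b
    have h3 : ν / A * ∫ t in t₁..b, a t ^ 2 ≤ δ := by linarith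
    calc ∫ t in t₁..b, a t ^ 2 = A / ν * (ν / A * ∫ t in t₁..b, a t ^ 2) := by
          field_simp
      _ ≤ A / ν * δ := mul_le_mul_of_nonneg_left h3 (by positivity)
  have hint : ∀ b c, 0 ≤ b → b ≤ c → IntervalIntegrable (fun t => a t ^ 2) volume b c := by
    intro b c hb hbc
    exact (((hacont c).mono (Icc_subset_Icc_left hb)).pow 2).intervalIntegrable_of_Icc hbc
  refine ⟨(∫ t in (0:ℝ)..t₁, a t ^ 2) + A / ν * δ, fun τ hτ => ?_⟩
  have hpos : 0 ≤ A / ν * δ := by positivity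
  rcases le_total τ t₁ with h | h
  · have h1 : (∫ t in (0:ℝ)..τ, a t ^ 2) + ∫ t in τ..t₁, a t ^ 2 = ∫ t in (0:ℝ)..t₁, a t ^ 2 :=
      intervalIntegral.integral_add_adjacent_intervals (hint 0 τ le_rfl hτ) (hint τ t₁ hτ h)
    have h2 : 0 ≤ ∫ t in τ..t₁, a t ^ 2 :=
      intervalIntegral.integral_nonneg h fun t _ => sq_nonneg _
    linarith
  · have h1 : (∫ t in (0:ℝ)..t₁, a t ^ 2) + ∫ t in t₁..τ, a t ^ 2 = ∫ t in (0:ℝ)..τ, a t ^ 2 :=
      intervalIntegral.integral_add_adjacent_intervals (hint 0 t₁ le_rfl ht₁.le)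
        (hint t₁ τ ht₁.le h)
    have h2 := htail τ h
    linarith

end DY

open H459R3.NS in
/-- GD/DCY -/
theorem t_DCY : S_FOU → S_NNB → S_DCY := by
  intro hF _ ν v r hν hs h0
  exact DY.main hν hs fun T => hF ν T v r hν (hs T) h0

end Pool.Agent.N976.GD
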