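import Pool.Agent.N976.GD.Stm
import Pool.Agent.N977.S.Four
import Pool.Agent.N977.Q.Th2

/-!
# GD/DEC (helper706 for helper976): decomposition of a smooth field
-/

set_option autoImplicit false

open MeasureTheory Set Filter Topology
open scoped ContDiff ComplexConjugate

namespace Pool.Agent.N976.GD

namespace DC

open H459R3.NS Pool.Agent.N977.Q

/-- admissible terms -/
def Ok (e : K3 × K3 × ℝ × ℝ) : Prop :=
  e.1 ≠ 0 ∧ e.2.1 ≠ 0 ∧ ∑ j, e.1 j * e.2.1 j = 0 ∧ 0 ≤ e.2.2.1

/-- finite sums of admissible terms -/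
def Rep (W : V → V) : Prop := ∃ L : List (K3 × K3 × ℝ × ℝ), (∀ e ∈ L, Ok e) ∧
  ∀ x i, W x i = (L.map fun e =>
    e.2.2.1 * Real.cos (2 * Real.pi * ph e.1 x + e.2.2.2) * (e.2.1 i : ℝ)).sum

theorem rep_zero : Rep (fun _ _ => 0) := ⟨[], by simp, by simp⟩

theorem rep_add {W W' : V → V} (h : Rep W) (h' : Rep W') : Rep (fun x i => W x i + W' x i) := by
  obtain ⟨L, h1, h2⟩ := h
  obtain ⟨L', h3, h4⟩ := h'
  refine ⟨L ++ L', ?_, ?_⟩
  · intro e he
    rcases List.mem_append.1 he with h | h
    · exact h1 e h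
    · exact h3 e h
  · intro x i
    change W x i + W' x i = _
    rw [h2, h4, List.map_append, List.sum_append]

theorem rep_one {k p : K3} (hk : k ≠ 0) (hp : p ≠ 0) (hkp : ∑ j, k j * p j = 0) (c s : ℝ) :
    Rep (fun x i => c * Real.cos (2 * Real.pi * ph k x + s) * (p i : ℝ)) := by
  rcases le_total 0 c with hc | hc
  · refine ⟨[(k, p, c, s)], ?_, ?_⟩
    · intro e he
      rw [List.mem_singleton.1 he]
      exact ⟨hk, hp, hkp, hc⟩
    · intro x i
      simp
  · refine ⟨[(k, p, -c, s + Real.pi)], ?_, ?_⟩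
    · intro e he
      rw [List.mem_singleton.1 he]
      exact ⟨hk, hp, hkp, neg_nonneg.2 hc⟩
    · intro x i
      simp only [List.map_cons, List.map_nil, List.sum_cons, List.sum_nil, add_zero]
      rw [← add_assoc, Real.cos_add_pi]
      ring

theorem basis {k : K3} (hk : k ≠ 0) : ∃ p q : K3, p ≠ 0 ∧ q ≠ 0 ∧ ∑ j, k j * p j = 0 ∧
    ∑ j, k j * q j = 0 ∧ ∀ y : Fin 3 → ℝ, ∑ j, (k j : ℝ) * y j = 0 →
      ∃ c d : ℝ, ∀ i, y i = c * (p i : ℝ) + d * (q i : ℝ) := by
  obtain ⟨j, hj⟩ : ∃ j, k j ≠ 0 := by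
    by_contra hcon
    push Not at hcon
    exact hk (funext hcon)
  have hj' : (k j : ℝ) ≠ 0 := by exact_mod_cast hj
  fin_cases j
  · simp only [Fin.zero_eta, Fin.isValue] at hj hj'
    refine ⟨![k 1, -k 0, 0], ![k 2, 0, -k 0], ?_, ?_, ?_, ?_, ?_⟩
    · intro h
      have := congrFun h 1
      simp at this
      exact hj this
    · intro h
      have := congrFun h 2
      simp at this
      exact hj this
    · simp [Fin.sum_univ_three]; ring
    · simp [Fin.sum_univ_three]; ring
    · intro y hy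
      rw [Fin.sum_univ_three] at hy
      refine ⟨-y 1 / k 0, -y 2 / k 0, ?_⟩
      intro i
      fin_cases i
      · simp
        field_simp
        linear_combination hy
      · simp
        field_simp
      · simp
        field_simp
  · simp only [Fin.mk_one, Fin.isValue] at hj hj'
    refine ⟨![-k 1, k 0, 0], ![0, k 2, -k 1], ?_, ?_, ?_, ?_, ?_⟩
    · intro h
      have := congrFun h 0
      simp at this
      exact hj this
    · intro h
      have := congrFun h 2
      simp at this
      exact hj this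
    · simp [Fin.sum_univ_three]; ring
    · simp [Fin.sum_univ_three]; ring
    · intro y hy
      rw [Fin.sum_univ_three] at hy
      refine ⟨-y 0 / k 1, -y 2 / k 1, ?_⟩
      intro i
      fin_cases i
      · simp
        field_simp
      · simp
        field_simp
        linear_combination hy
      · simp
        field_simp
  · simp only [Fin.reduceFinMk, Fin.isValue] at hj hj'
    refine ⟨![-k 2, 0, k 0], ![0, -k 2, k 1], ?_, ?_, ?_, ?_, ?_⟩
    · intro h
      have := congrFun h 0
      simp at this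
      exact hj this
    · intro h
      have := congrFun h 1
      simp at this
      exact hj this
    · simp [Fin.sum_univ_three]; ring
    · simp [Fin.sum_univ_three]; ring
    · intro y hy
      rw [Fin.sum_univ_three] at hy
      refine ⟨-y 0 / k 2, -y 1 / k 2, ?_⟩
      intro i
      fin_cases i
      · simp
        field_simp
      · simp
        field_simp
      · simp
        field_simp
        linear_combination hy

theorem rep_cp {k : K3} (hk : k ≠ 0) (s : ℝ) {y : Fin 3 → ℝ} (hy : ∑ j, (k j : ℝ) * y j = 0) :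
    Rep (CP k s y) := by
  obtain ⟨p, q, hp, hq, hkp, hkq, h⟩ := basis hk
  obtain ⟨c, d, hcd⟩ := h y hy
  obtain ⟨L, h1, h2⟩ := rep_add (rep_one hk hp hkp c s) (rep_one hk hq hkq d s)
  refine ⟨L, h1, fun x i => ?_⟩
  rw [← h2]
  unfold CP
  rw [hcd i]
  ring

/-- a field with its Fourier coefficients -/
structure Gd (W : V → V) (a : Cf) : Prop where
  spv : SPV W
  dv : Dv W
  co : fv W = a
  rep : Rep W

theorem pd_add' {f g : V → ℝ} (hf : SP f) (hg : SP g) (j : Fin 3) (x : V) :
    pd j (fun y => f y + g y) x = pd j f x + pd j g x := by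
  unfold pd
  have h : HasFDerivAt (fun y => f y + g y) _ x := (hf.diff x).hasFDerivAt.add (hg.diff x).hasFDerivAt
  rw [h.fderiv]
  simp

theorem gd_zero : Gd (fun _ _ => 0) 0 where
  spv := ⟨contDiff_const, fun _ _ => rfl⟩
  dv := fun x => by simp [pd]
  co := by
    funext k i
    simp [fv, fr, fc]
  rep := rep_zero

theorem gd_add {W W' : V → V} {a a' : Cf} (h : Gd W a) (h' : Gd W' a') :
    Gd (fun x i => W x i + W' x i) (a + a') where
  spv := ⟨h.spv.1.add h'.spv.1, fun j x => by
    funext i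
    change W (x + Pi.single j 1) i + W' (x + Pi.single j 1) i = W x i + W' x i
    rw [h.spv.2 j x, h'.spv.2 j x]⟩
  dv := fun x => by
    have e : ∀ i, pd i (fun y => W y i + W' y i) x = pd i (fun y => W y i) x + pd i (fun y => W' y i) x :=
      fun i => pd_add' (spv_sp h.spv i) (spv_sp h'.spv i) i x
    simp only [e, Finset.sum_add_distrib]
    rw [h.dv x, h'.dv x, add_zero]
  co := by
    rw [← h.co, ← h'.co]
    funext k i
    exact fr_add (spv_sp h.spv i).cont (spv_sp h'.spv i).cont k
  rep := rep_add h.rep h'.rep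

theorem gd_sum {F : Finset K3} {W : K3 → V → V} {a : K3 → Cf} (h : ∀ k ∈ F, Gd (W k) (a k)) :
    Gd (fun x i => ∑ k ∈ F, W k x i) (∑ k ∈ F, a k) := by
  classical
  induction F using Finset.induction_on with
  | empty =>
    simp only [Finset.sum_empty]
    exact gd_zero
  | insert k F hk ih =>
    have h1 := gd_add (h k (Finset.mem_insert_self _ _))
      (ih fun l hl => h l (Finset.mem_insert_of_mem hl))
    simp only [Finset.sum_insert hk]
    exact h1

theorem gd_cp (hT : S_TCF) {k : K3} (hk : k ≠ 0) (s : ℝ) {y : Fin 3 → ℝ}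
    (hy : ∑ j, (k j : ℝ) * y j = 0) : Gd (CP k s y) (tc k s y) where
  spv := (hT k s y).1
  dv := (hT k s y).2.2 hy
  co := (hT k s y).2.1 hk
  rep := rep_cp hk s hy

theorem tc_add (k : K3) (v : C3) : tc k 0 (fun i => (v i).re) + tc k (Real.pi / 2) (fun i => (v i).im)
    = Pi.single k (fun i => v i / 2) + Pi.single (-k) (fun i => conj (v i) / 2) := by
  have e1 : Complex.exp (((Real.pi / 2 : ℝ) : ℂ) * Complex.I) = Complex.I := by
    push_cast
    exact Complex.exp_pi_div_two_mul_I
  have e2 : Complex.exp (-(((Real.pi / 2 : ℝ) : ℂ) * Complex.I)) = -Complex.I := by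
    push_cast
    rw [← neg_mul]
    have := Complex.exp_neg_pi_div_two_mul_I
    rw [← this]
    congr 1
    ring
  unfold tc
  rw [e1, e2]
  have h1 : ∀ i, (v i) = ((v i).re : ℂ) + (v i).im * Complex.I := fun i => (Complex.re_add_im _).symm
  have h2 : ∀ i, conj (v i) = ((v i).re : ℂ) - (v i).im * Complex.I := fun i => by
    apply Complex.ext <;> simp
  have h3 : (Pi.single k (fun i => v i / 2) : Cf) =
      Pi.single k (fun i => Complex.exp (((0 : ℝ) : ℂ) * Complex.I) / 2 * ((v i).re : ℂ)) +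
      Pi.single k (fun i => Complex.I / 2 * ((v i).im : ℂ)) := by
    rw [← Pi.single_add]
    congr 1
    funext i
    simp only [Pi.add_apply]
    rw [show v i / 2 = (((v i).re : ℂ) + (v i).im * Complex.I) / 2 from by rw [← h1 i],
      Complex.ofReal_zero, zero_mul, Complex.exp_zero]
    ring
  have h4 : (Pi.single (-k) (fun i => conj (v i) / 2) : Cf) =
      Pi.single (-k) (fun i => Complex.exp (-(((0 : ℝ) : ℂ) * Complex.I)) / 2 * ((v i).re : ℂ)) +
      Pi.single (-k) (fun i => -Complex.I / 2 * ((v i).im : ℂ)) := by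
    rw [← Pi.single_add]
    congr 1
    funext i
    simp only [Pi.add_apply]
    rw [h2 i, Complex.ofReal_zero, zero_mul, neg_zero, Complex.exp_zero]
    ring
  rw [h3, h4]
  abel

theorem fv_div {U : V → V} (hU : SPV U) (hD : Dv U) (k : K3) :
    ∑ i, (k i : ℂ) * fv U k i = 0 := by
  have h1 : fr (fun x => ∑ i, pd i (fun y => U y i) x) k = 0 := by
    have : (fun x => ∑ i, pd i (fun y => U y i) x) = fun _ => (0 : ℝ) := funext hD
    rw [this]
    simp [fr, fc]
  have h2 : fr (fun x => ∑ i, pd i (fun y => U y i) x) k = ∑ i, fr (pd i (fun y => U y i)) k := by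
    unfold fr fc
    have hint : ∀ i ∈ (Finset.univ : Finset (Fin 3)),
        IntegrableOn (fun x => ee (-k) x * ((pd i (fun y => U y i) x : ℝ) : ℂ)) cube := fun i _ =>
      integrableOn_cube ((ee_continuous _).mul
        (Complex.continuous_ofReal.comp ((spv_sp hU i).pd i).cont))
    have h := integral_finsetSum Finset.univ hint
    rw [← h]
    congr 1
    funext x
    push_cast
    rw [Finset.mul_sum]
  rw [h2] at h1
  have h3 : ∀ i, fr (pd i (fun y => U y i)) k = 2 * Real.pi * Complex.I * (k i : ℂ) * fv U k i :=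
    fun i => fr_pd' (spv_sp hU i) i k
  simp only [h3] at h1
  have h4 : (2 * Real.pi * Complex.I) * ∑ i, (k i : ℂ) * fv U k i = 0 := by
    rw [← h1, Finset.mul_sum]
    exact Finset.sum_congr rfl fun i _ => by ring
  have h5 : (2 * (Real.pi : ℂ) * Complex.I) ≠ 0 := by
    have : (Real.pi : ℂ) ≠ 0 := by exact_mod_cast Real.pi_ne_zero
    simp [this, Complex.I_ne_zero]
  exact (mul_eq_zero.1 h4).resolve_left h5

theorem fv_summable {U : V → V} (hU : SPV U) : Summable fun k => ‖fv U k‖ := by
  refine Summable.of_nonneg_of_le (fun k => norm_nonneg _) (fun k => ?_)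
    (Pool.Agent.N977.S.un_summable hU)
  exact (pi_norm_le_iff_of_nonneg (un_nonneg U k)).2 fun i => fr_le_un U k i

end DC

open DC H459R3.NS Pool.Agent.N977.Q in
theorem t_DEC : S_DEC := by
  classical
  intro hT U hU hD h0 η hη
  set a : Cf := fv U with ha
  have hs : Summable fun k => ‖a k‖ := fv_summable hU
  have hneg : ∀ k i, a (-k) i = conj (a k i) := fun k i => fr_neg' (spv_sp hU i).cont k
  have hdv : ∀ k, ∑ i, (k i : ℂ) * a k i = 0 := fv_div hU hD
  -- the finite set
  obtain ⟨F0, hF0⟩ : ∃ F0 : Finset K3, ∀ F, F0 ⊆ F → |∑ k ∈ F, ‖a k‖ - ∑' k, ‖a k‖| < η := by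
    have h := Metric.tendsto_atTop.1 hs.hasSum η hη
    obtain ⟨F0, h⟩ := h
    exact ⟨F0, fun F hF => h F hF⟩
  set F : Finset K3 := (F0 ∪ F0.image fun k => -k).erase 0 with hF
  have hF1 : ∀ k, k ∈ F ↔ -k ∈ F := by
    intro k
    simp only [hF, Finset.mem_erase, Finset.mem_union, Finset.mem_image, neg_inj, exists_eq_right,
      neg_eq_zero, ne_eq]
    constructor
    · rintro ⟨h1, h2 | ⟨l, hl, rfl⟩⟩
      · exact ⟨h1, Or.inr h2⟩
      · exact ⟨h1, Or.inl (by simpa using hl)⟩
    · rintro ⟨h1, h2 | h2⟩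
      · exact ⟨h1, Or.inr ⟨-k, h2, neg_neg k⟩⟩
      · exact ⟨h1, Or.inl h2⟩
  have hF2 : (0 : K3) ∉ F := by simp [hF]
  have hF3 : ∑' k, ‖a k‖ - ∑ k ∈ F, ‖a k‖ < η := by
    have h1 := hF0 (F0 ∪ F0.image fun k => -k) Finset.subset_union_left
    have h2 : ∑ k ∈ F, ‖a k‖ = ∑ k ∈ F0 ∪ F0.image (fun k => -k), ‖a k‖ := by
      by_cases h : (0 : K3) ∈ F0 ∪ F0.image fun k => -k
      · rw [← Finset.add_sum_erase _ _ h]
        simp only [h0, norm_zero, zero_add, hF]
      · rw [hF, Finset.erase_eq_of_notMem h]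
    rw [h2]
    have h3 := abs_lt.1 h1
    linarith [h3.1]
  -- the field
  have hre : ∀ k, ∑ j, (k j : ℝ) * (a k j).re = 0 := by
    intro k
    have h := congrArg Complex.re (hdv k)
    rw [Complex.re_sum] at h
    simpa using h
  have him : ∀ k, ∑ j, (k j : ℝ) * (a k j).im = 0 := by
    intro k
    have h := congrArg Complex.im (hdv k)
    rw [Complex.im_sum] at h
    simpa using h
  have hG : Gd (fun x i => ∑ k ∈ F, (CP k 0 (fun i => (a k i).re) x i +
      CP k (Real.pi / 2) (fun i => (a k i).im) x i))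
      (∑ k ∈ F, (tc k 0 (fun i => (a k i).re) + tc k (Real.pi / 2) (fun i => (a k i).im))) := by
    refine gd_sum fun k hk => ?_
    have hk0 : k ≠ 0 := fun h => hF2 (h ▸ hk)
    exact gd_add (gd_cp hT hk0 0 (hre k)) (gd_cp hT hk0 _ (him k))
  set P : V → V := fun x i => ∑ k ∈ F, (CP k 0 (fun i => (a k i).re) x i +
      CP k (Real.pi / 2) (fun i => (a k i).im) x i) with hP
  have hPc : ∀ l, fv P l = if l ∈ F then a l else 0 := by
    intro l
    rw [hG.co]
    have h1 : ∀ k ∈ F, (tc k 0 (fun i => (a k i).re) + tc k (Real.pi / 2) (fun i => (a k i).im) : Cf)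
        = Pi.single k (fun i => a k i / 2) + Pi.single (-k) (fun i => a (-k) i / 2) := by
      intro k _
      rw [tc_add]
      simp only [hneg]
    rw [Finset.sum_congr rfl h1, Finset.sum_add_distrib, Pi.add_apply, Finset.sum_apply,
      Finset.sum_apply]
    have h2 : ∑ k ∈ F, (Pi.single k (fun i => a k i / 2) : Cf) l =
        if l ∈ F then (fun i => a l i / 2) else 0 := by
      simp only [Pi.single_apply]
      rw [Finset.sum_ite_eq]
    have h3 : ∑ k ∈ F, (Pi.single (-k) (fun i => a (-k) i / 2) : Cf) l =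
        if l ∈ F then (fun i => a l i / 2) else 0 := by
      have e : ∀ k ∈ F, (Pi.single (-k) (fun i => a (-k) i / 2) : Cf) l =
          if -l = k then (fun i => a l i / 2) else 0 := by
        intro k _
        rw [Pi.single_apply]
        by_cases h : l = -k
        · rw [if_pos h, if_pos (by rw [h, neg_neg]), h]
        · rw [if_neg h, if_neg (fun h' => h (by rw [← h', neg_neg]))]
      rw [Finset.sum_congr rfl e, Finset.sum_ite_eq]
      by_cases h : l ∈ F
      · rw [if_pos h, if_pos ((hF1 l).1 h)]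
      · rw [if_neg h, if_neg (fun h' => h ((hF1 l).2 h'))]
    rw [h2, h3]
    split_ifs
    · funext i
      simp only [Pi.add_apply]
      ring
    · simp
  set R : V → V := fun x i => U x i - P x i with hR
  have hRs : SPV R := ⟨hU.1.sub hG.spv.1, fun j x => by
    funext i
    have h1 := hU.2 j x
    have h2 := hG.spv.2 j x
    simp only [hR]
    rw [h1, h2]⟩
  have hRc : ∀ l, fv R l = if l ∈ F then 0 else a l := by
    intro l
    have h1 : fv R l = fv U l - fv P l := by
      funext i
      exact fr_sub (spv_sp hU i).cont (spv_sp hG.spv i).cont l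
    rw [h1, hPc]
    split_ifs
    · rw [← ha, sub_self]
    · rw [← ha, sub_zero]
  obtain ⟨L, hL1, hL2⟩ := hG.rep
  refine ⟨L, hL1, R, hRs, ?_, ?_, ?_, ?_⟩
  · intro x
    have e : ∀ i, pd i (fun y => R y i) x = pd i (fun y => U y i) x - pd i (fun y => P y i) x :=
      fun i => pd_sub' (spv_sp hU i) (spv_sp hG.spv i) i x
    simp only [e, Finset.sum_sub_distrib]
    rw [hD x, hG.dv x, sub_zero]
  · rw [hRc, if_neg hF2, h0]
  · unfold An
    have h1 : HasSum (fun k => if k ∈ F then ‖a k‖ else 0) (∑ k ∈ F, ‖a k‖) := by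
      have h : HasSum (fun k => if k ∈ F then ‖a k‖ else 0)
          (∑ k ∈ F, if k ∈ F then ‖a k‖ else 0) :=
        hasSum_sum_of_ne_finset_zero (fun k hk => if_neg hk)
      rwa [Finset.sum_congr rfl (fun k hk => if_pos hk)] at h
    have h2 := hs.hasSum.sub h1
    have h3 : (fun k => ‖fv R k‖) = fun k => ‖a k‖ - (if k ∈ F then ‖a k‖ else 0) := by
      funext k
      rw [hRc]
      split_ifs <;> simp
    rw [h3, h2.tsum_eq]
    exact hF3.le
  · intro x i
    have h1 := hL2 x i
    have h2 : U x i = R x i + P x i := by simp only [hR]; ring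
    rw [h2, ← h1]

end Pool.Agent.N976.GD

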