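import Pool.Agent.N976.GD.Stm
import Pool.Agent.N977.Q.Nrm

/-!
GD/ENG: the energy estimate of third order (helper27).
-/

set_option autoImplicit false

open MeasureTheory Set Filter Topology
open scoped ContDiff

namespace Pool.Agent.N976.GD

namespace EG

open H459R3.NS Pool.Agent.N977.Q

theorem len_sq' (k : K3) : len k ^ 2 = ∑ j, (k j : ℝ) ^ 2 :=
  Real.sq_sqrt (Finset.sum_nonneg fun _ _ => sq_nonneg _)

theorem len_zero' : len (0 : K3) = 0 := by unfold len; simp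

theorem len_add_le' (k l : K3) : len (k + l) ≤ len k + len l := by
  have hk := len_nonneg k
  have hl := len_nonneg l
  apply Real.sqrt_le_iff.2
  refine ⟨by positivity, ?_⟩
  have h1 := Finset.sum_mul_sq_le_sq_mul_sq Finset.univ (fun j => (k j : ℝ)) (fun j => (l j : ℝ))
  rw [← len_sq' k, ← len_sq' l, ← mul_pow] at h1
  have h2 := abs_le_of_sq_le_sq' h1 (by positivity) |>.2
  have h3 : ∑ j, (((k + l) j : ℤ) : ℝ) ^ 2
      = (∑ j, (k j : ℝ) ^ 2) + 2 * (∑ j, (k j : ℝ) * (l j : ℝ)) + ∑ j, (l j : ℝ) ^ 2 := by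
    rw [Finset.mul_sum, ← Finset.sum_add_distrib, ← Finset.sum_add_distrib]
    refine Finset.sum_congr rfl fun j _ => ?_
    rw [Pi.add_apply]
    push_cast
    ring
  rw [h3, ← len_sq' k, ← len_sq' l]
  nlinarith

theorem len3_le (k l : K3) : len k ^ 3 ≤ 4 * (len l ^ 3 + len (k - l) ^ 3) := by
  have h1 := len_add_le' l (k - l)
  rw [add_sub_cancel] at h1
  have h0 := len_nonneg k
  have hl := len_nonneg l
  have hm := len_nonneg (k - l)
  calc len k ^ 3 ≤ (len l + len (k - l)) ^ 3 := pow_le_pow_left₀ h0 h1 3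
    _ ≤ _ := by nlinarith [mul_nonneg (add_nonneg hl hm) (sq_nonneg (len l - len (k - l)))]

/-- `|k|³ |a_k|` -/
noncomputable def a3 (a : Cf) (l : K3) : ℝ := len l ^ 3 * ‖a l‖

theorem a3_nonneg (a : Cf) (l : K3) : 0 ≤ a3 a l :=
  mul_nonneg (pow_nonneg (len_nonneg l) _) (norm_nonneg _)

/-- the convolution of `|k|³ |a_k|` and `|a_k|` -/
noncomputable def DD (a : Cf) (k : K3) : ℝ := ∑' l, a3 a l * ‖a (k - l)‖

variable {a : Cf}

theorem nrm_le_An (ha : Summable fun k => ‖a k‖) (k : K3) : ‖a k‖ ≤ An a :=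
  ha.le_tsum k fun _ _ => norm_nonneg _

theorem An_nonneg (a : Cf) : 0 ≤ An a := tsum_nonneg fun _ => norm_nonneg _

theorem DD_nonneg (a : Cf) (k : K3) : 0 ≤ DD a k :=
  tsum_nonneg fun _ => mul_nonneg (a3_nonneg _ _) (norm_nonneg _)

theorem sum_D {f : K3 → ℝ} (ha : Summable fun k => ‖a k‖) (h3 : Summable f) (h0 : ∀ l, 0 ≤ f l)
    (k : K3) : Summable fun l => f l * ‖a (k - l)‖ :=
  Summable.of_nonneg_of_le (fun l => mul_nonneg (h0 l) (norm_nonneg _))
    (fun l => mul_le_mul_of_nonneg_left (nrm_le_An ha _) (h0 l)) (h3.mul_right (An a))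

theorem cn_le (ha : Summable fun k => ‖a k‖) (h3 : Summable (a3 a)) (k : K3) :
    len k ^ 3 * cn a a k ≤ 8 * DD a k := by
  have hs := sum_D ha h3 (a3_nonneg a) k
  have hs' : Summable fun l => a3 a (k - l) * ‖a l‖ := by
    have h := (Equiv.subLeft k).summable_iff.2 hs
    refine h.congr fun l => ?_
    simp only [Function.comp, Equiv.subLeft_apply, sub_sub_cancel]
  have e' : ∑' l, a3 a (k - l) * ‖a l‖ = DD a k := by
    unfold DD
    rw [← (Equiv.subLeft k).tsum_eq]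
    refine tsum_congr fun l => ?_
    simp only [Equiv.subLeft_apply, sub_sub_cancel]
  unfold cn
  rw [← tsum_mul_left]
  have hs0 : Summable fun l => ‖a l‖ * ‖a (k - l)‖ := sum_D ha ha (fun l => norm_nonneg _) k
  calc ∑' l, len k ^ 3 * (‖a l‖ * ‖a (k - l)‖)
      ≤ ∑' l, (4 * (a3 a l * ‖a (k - l)‖) + 4 * (a3 a (k - l) * ‖a l‖)) := by
        refine (hs0.mul_left _).tsum_le_tsum (fun l => ?_) ((hs.mul_left 4).add (hs'.mul_left 4))
        have h1 := mul_le_mul_of_nonneg_right (len3_le k l)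
          (mul_nonneg (norm_nonneg (a l)) (norm_nonneg (a (k - l))))
        refine h1.trans (le_of_eq ?_)
        unfold a3
        ring
    _ = 8 * DD a k := by
        rw [(hs.mul_left 4).tsum_add (hs'.mul_left 4), tsum_mul_left, tsum_mul_left, e']
        unfold DD
        ring

/-- Cauchy-Schwarz -/
theorem cs {f g : K3 → ℝ} (hg : ∀ l, 0 ≤ g l) (h1 : Summable g)
    (h2 : Summable fun l => f l * g l) (h3 : Summable fun l => f l ^ 2 * g l) :
    (∑' l, f l * g l) ^ 2 ≤ (∑' l, g l) * ∑' l, f l ^ 2 * g l := by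
  set S := ∑' l, g l with hS
  set P := ∑' l, f l * g l with hP
  set R := ∑' l, f l ^ 2 * g l with hR
  have hS0 : 0 ≤ S := tsum_nonneg hg
  have key : 0 ≤ S ^ 2 * R - 2 * S * P * P + P ^ 2 * S := by
    have h : HasSum (fun l => S ^ 2 * (f l ^ 2 * g l) - 2 * S * P * (f l * g l) + P ^ 2 * g l)
        (S ^ 2 * R - 2 * S * P * P + P ^ 2 * S) :=
      ((h3.hasSum.mul_left _).sub (h2.hasSum.mul_left _)).add (h1.hasSum.mul_left _)
    refine h.nonneg fun l => ?_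
    have : S ^ 2 * (f l ^ 2 * g l) - 2 * S * P * (f l * g l) + P ^ 2 * g l =
        g l * (S * f l - P) ^ 2 := by ring
    rw [this]
    exact mul_nonneg (hg l) (sq_nonneg _)
  rcases hS0.eq_or_lt with h | h
  · have hg0 : ∀ l, g l = 0 := by
      intro l
      have := h1.le_tsum l fun j _ => hg j
      rw [← hS, ← h] at this
      exact le_antisymm this (hg l)
    have hP0 : P = 0 := by
      rw [hP]
      simp [hg0]
    rw [hP0, ← h]
    simp
  · have h4 : 0 ≤ S * (S * R - P ^ 2) := by nlinarith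
    have h5 := nonneg_of_mul_nonneg_right h4 h
    linarith

/-- Young's inequality -/
theorem young (ha : Summable fun k => ‖a k‖) (h3 : Summable (a3 a)) (F : Finset K3) :
    ∑ k ∈ F, DD a k ^ 2 ≤ An a ^ 2 * ∑' l, a3 a l ^ 2 := by
  have hsq : Summable fun l => a3 a l ^ 2 := sq_summable h3 (a3_nonneg a)
  have hsh : ∀ k : K3, Summable fun l => ‖a (k - l)‖ := fun k => by
    have h := (Equiv.subLeft k).summable_iff.2 ha
    exact h.congr fun l => rfl
  have hshe : ∀ k : K3, ∑' l, ‖a (k - l)‖ = An a := fun k => by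
    unfold An
    rw [← (Equiv.subLeft k).tsum_eq (fun l => ‖a l‖)]
    exact tsum_congr fun l => rfl
  have h1 : ∀ k, DD a k ^ 2 ≤ An a * ∑' l, a3 a l ^ 2 * ‖a (k - l)‖ := by
    intro k
    have h := cs (f := a3 a) (g := fun l => ‖a (k - l)‖) (fun l => norm_nonneg _) (hsh k)
      (sum_D ha h3 (a3_nonneg a) k) (sum_D ha hsq (fun l => sq_nonneg _) k)
    rw [hshe k] at h
    exact h
  calc ∑ k ∈ F, DD a k ^ 2 ≤ ∑ k ∈ F, An a * ∑' l, a3 a l ^ 2 * ‖a (k - l)‖ :=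
        Finset.sum_le_sum fun k _ => h1 k
    _ = An a * ∑' l, ∑ k ∈ F, a3 a l ^ 2 * ‖a (k - l)‖ := by
        rw [← Finset.mul_sum, Summable.tsum_finsetSum fun k _ =>
          sum_D ha hsq (fun l => sq_nonneg _) k]
    _ ≤ An a * ∑' l, a3 a l ^ 2 * An a := by
        refine mul_le_mul_of_nonneg_left ?_ (An_nonneg a)
        have hs1 : Summable fun l => ∑ k ∈ F, a3 a l ^ 2 * ‖a (k - l)‖ :=
          summable_sum fun k _ => sum_D ha hsq (fun l => sq_nonneg _) k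
        refine hs1.tsum_le_tsum (fun l => ?_) (hsq.mul_right _)
        rw [← Finset.mul_sum]
        refine mul_le_mul_of_nonneg_left ?_ (sq_nonneg _)
        have h4 : Summable fun k => ‖a (k - l)‖ := by
          have h := (Equiv.subRight l).summable_iff.2 ha
          exact h.congr fun k => rfl
        have h5 : ∑' k, ‖a (k - l)‖ = An a := by
          unfold An
          rw [← (Equiv.subRight l).tsum_eq (fun k => ‖a k‖)]
          exact tsum_congr fun k => rfl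
        rw [← h5]
        exact h4.sum_le_tsum F fun k _ => norm_nonneg _
    _ = _ := by
        rw [tsum_mul_right]
        ring

theorem nrm_sq_le (v : C3) : ‖v‖ ^ 2 ≤ ∑ i, ‖v i‖ ^ 2 := by
  obtain ⟨i, hi⟩ : ∃ i, ‖v‖ = ‖v i‖ := by
    obtain ⟨i, _, hi⟩ := Finset.exists_mem_eq_sup' (s := Finset.univ) Finset.univ_nonempty
      (fun i => ‖v i‖)
    refine ⟨i, le_antisymm ?_ (norm_le_pi_norm v i)⟩
    rw [← hi]
    refine (pi_norm_le_iff_of_nonneg ?_).2 fun j => Finset.le_sup' (fun i => ‖v i‖) (Finset.mem_univ j)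
    rw [hi]
    exact norm_nonneg _
  rw [hi]
  exact Finset.single_le_sum (f := fun i => ‖v i‖ ^ 2) (fun _ _ => sq_nonneg _) (Finset.mem_univ i)

/-- the evolution of one mode -/
theorem mode {Λ T C₀ : ℝ} {c : ℝ → Cf} (hΛ : 0 < Λ) (hC : 0 ≤ C₀) (hc : FSol Λ T c)
    (hN : ∀ t ∈ Ico 0 T, ∀ k, ‖NN (c t) (c t) k‖ ≤ C₀ * (len k * cn (c t) (c t) k))
    {τ : ℝ} (hτ : τ ∈ Ico 0 T)
    (hs : ∀ t ∈ Icc 0 τ, (Summable fun k => ‖c t k‖) ∧ Summable (a3 (c t))) (k : K3) (hD : ContinuousOn (fun s => DD (c s) k) (Icc 0 τ)) :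
    len k ^ 6 * ∑ i, ‖c τ k i‖ ^ 2 ≤ len k ^ 6 * ∑ i, ‖c 0 k i‖ ^ 2 +
      ∫ s in (0:ℝ)..τ, 288 * C₀ ^ 2 / Λ * DD (c s) k ^ 2 := by
  have hsub : Icc 0 τ ⊆ Ico 0 T := fun s hs' => ⟨hs'.1, hs'.2.trans_lt hτ.2⟩
  have hcont : ContinuousOn (fun s => len k ^ 6 * ∑ i, ‖c s k i‖ ^ 2) (Icc 0 τ) := by
    refine continuousOn_const.mul (continuousOn_finsetSum _ fun i _ => ?_)
    exact (((continuousOn_pi.1 ((hc.cont k).mono hsub)) i).norm).pow 2
  have hφ : ContinuousOn (fun s => 288 * C₀ ^ 2 / Λ * DD (c s) k ^ 2) (Icc 0 τ) :=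
    continuousOn_const.mul (hD.pow 2)
  have hder : ∀ t ∈ Ioo 0 τ, HasDerivAt (fun s => len k ^ 6 * ∑ i, ‖c s k i‖ ^ 2)
      (len k ^ 6 * ∑ i, 2 * inner ℝ (c t k i)
        ((-((Λ * len k ^ 2) • c t k) - NN (c t) (c t) k) i)) t := by
    intro t ht
    have htT : t ∈ Ioo 0 T := ⟨ht.1, ht.2.trans hτ.2⟩
    have h1 := hasDerivAt_pi.1 (hc.der t htT k)
    exact (HasDerivAt.fun_sum fun i _ => (h1 i).norm_sq).const_mul _
  have hmain := intervalIntegral.sub_le_integral_of_hasDeriv_right_of_le hτ.1 hcont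
    (fun t ht => (hder t ht).hasDerivWithinAt) (hφ.integrableOn_Icc) ?_
  · linarith
  intro t ht
  have htT : t ∈ Ico 0 T := ⟨ht.1.le, ht.2.trans hτ.2⟩
  obtain ⟨hs1, hs2⟩ := hs t ⟨ht.1.le, ht.2.le⟩
  have hl := len_nonneg k
  have hDn := DD_nonneg (c t) k
  have hNk := hN t htT k
  have hcn := cn_le hs1 hs2 k
  have hi : ∀ i, 2 * inner ℝ (c t k i) ((-((Λ * len k ^ 2) • c t k) - NN (c t) (c t) k) i) ≤
      -(2 * Λ * len k ^ 2) * ‖c t k i‖ ^ 2 + 2 * (‖c t k‖ * ‖NN (c t) (c t) k‖) := by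
    intro i
    have e1 : (-((Λ * len k ^ 2) • c t k) - NN (c t) (c t) k) i =
        -((Λ * len k ^ 2) • c t k i) - NN (c t) (c t) k i := rfl
    rw [e1, inner_sub_right, inner_neg_right, inner_smul_right, real_inner_self_eq_norm_sq]
    have h2 : |inner ℝ (c t k i) (NN (c t) (c t) k i)| ≤ ‖c t k i‖ * ‖NN (c t) (c t) k i‖ :=
      abs_real_inner_le_norm _ _
    have h3 : ‖c t k i‖ * ‖NN (c t) (c t) k i‖ ≤ ‖c t k‖ * ‖NN (c t) (c t) k‖ :=
      mul_le_mul (norm_le_pi_norm _ i) (norm_le_pi_norm _ i) (norm_nonneg _) (norm_nonneg _)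
    have h4 := neg_le_of_abs_le h2
    linarith
  have hsum : ∑ i, 2 * inner ℝ (c t k i) ((-((Λ * len k ^ 2) • c t k) - NN (c t) (c t) k) i) ≤
      -(2 * Λ * len k ^ 2) * ‖c t k‖ ^ 2 + 6 * (‖c t k‖ * ‖NN (c t) (c t) k‖) := by
    refine (Finset.sum_le_sum fun i _ => hi i).trans ?_
    rw [Finset.sum_add_distrib, ← Finset.mul_sum, Finset.sum_const, Finset.card_univ,
      Fintype.card_fin]
    have h5 := nrm_sq_le (c t k)
    have h6 : 0 ≤ 2 * Λ * len k ^ 2 := by positivity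
    have h7 := mul_le_mul_of_nonneg_left h5 h6
    rw [nsmul_eq_mul]
    push_cast
    linarith
  have hcc : len k ^ 6 * (‖c t k‖ * ‖NN (c t) (c t) k‖) ≤
      8 * C₀ * ((len k ^ 4 * ‖c t k‖) * DD (c t) k) := by
    calc len k ^ 6 * (‖c t k‖ * ‖NN (c t) (c t) k‖)
        ≤ len k ^ 6 * (‖c t k‖ * (C₀ * (len k * cn (c t) (c t) k))) := by gcongr
      _ = C₀ * (len k ^ 4 * ‖c t k‖) * (len k ^ 3 * cn (c t) (c t) k) := by ring
      _ ≤ C₀ * (len k ^ 4 * ‖c t k‖) * (8 * DD (c t) k) :=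
          mul_le_mul_of_nonneg_left hcn (by positivity)
      _ = _ := by ring
  have hfin : len k ^ 6 * (-(2 * Λ * len k ^ 2) * ‖c t k‖ ^ 2) +
      6 * (8 * C₀ * ((len k ^ 4 * ‖c t k‖) * DD (c t) k)) ≤ 288 * C₀ ^ 2 / Λ * DD (c t) k ^ 2 := by
    have e : 288 * C₀ ^ 2 / Λ * DD (c t) k ^ 2 - (len k ^ 6 * (-(2 * Λ * len k ^ 2) * ‖c t k‖ ^ 2) +
      6 * (8 * C₀ * ((len k ^ 4 * ‖c t k‖) * DD (c t) k))) =
        2 * Λ * (len k ^ 4 * ‖c t k‖ - 12 * C₀ * DD (c t) k / Λ) ^ 2 := by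
      field_simp
      ring
    have h8 : 0 ≤ 2 * Λ * (len k ^ 4 * ‖c t k‖ - 12 * C₀ * DD (c t) k / Λ) ^ 2 := by positivity
    linarith
  have h9 := mul_le_mul_of_nonneg_left hsum (pow_nonneg hl 6)
  have h10 : len k ^ 6 * (-(2 * Λ * len k ^ 2) * ‖c t k‖ ^ 2 + 6 * (‖c t k‖ * ‖NN (c t) (c t) k‖)) =
      len k ^ 6 * (-(2 * Λ * len k ^ 2) * ‖c t k‖ ^ 2) +
        6 * (len k ^ 6 * (‖c t k‖ * ‖NN (c t) (c t) k‖)) := by ring
  rw [h10] at h9
  linarith

/-- the energy of third order -/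
noncomputable def Y3 (a : Cf) : ℝ := ∑' k, len k ^ 6 * ∑ i, ‖a k i‖ ^ 2

theorem Y3_term_nonneg (a : Cf) (k : K3) : 0 ≤ len k ^ 6 * ∑ i, ‖a k i‖ ^ 2 := by
  have := len_nonneg k
  positivity

theorem a3_sq_le (a : Cf) (k : K3) : a3 a k ^ 2 ≤ len k ^ 6 * ∑ i, ‖a k i‖ ^ 2 := by
  unfold a3
  rw [mul_pow, ← pow_mul]
  exact mul_le_mul_of_nonneg_left (nrm_sq_le _) (pow_nonneg (len_nonneg k) _)

theorem term_le (a : Cf) (k : K3) : len k ^ 6 * ∑ i, ‖a k i‖ ^ 2 ≤ 3 * a3 a k ^ 2 := by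
  unfold a3
  rw [mul_pow, ← pow_mul]
  have h : ∑ i, ‖a k i‖ ^ 2 ≤ 3 * ‖a k‖ ^ 2 := by
    refine (Finset.sum_le_sum fun i _ => pow_le_pow_left₀ (norm_nonneg _)
      (norm_le_pi_norm (a k) i) 2).trans (le_of_eq ?_)
    rw [Finset.sum_const, Finset.card_univ, Fintype.card_fin, nsmul_eq_mul]
    push_cast
    ring
  have h2 := mul_le_mul_of_nonneg_left h (pow_nonneg (len_nonneg k) (3 * 2))
  calc len k ^ 6 * ∑ i, ‖a k i‖ ^ 2 ≤ len k ^ (3 * 2) * (3 * ‖a k‖ ^ 2) := h2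
    _ = _ := by ring

/-- an integral inequality of Gronwall's type -/
theorem gron {τ K y₀ : ℝ} {y g : ℝ → ℝ} (hτ : 0 ≤ τ) (hK : 0 ≤ K)
    (hy : ContinuousOn y (Icc 0 τ)) (hg : ContinuousOn g (Icc 0 τ)) (hg0 : ∀ t ∈ Icc 0 τ, 0 ≤ g t)
    (h : ∀ t ∈ Icc 0 τ, y t ≤ y₀ + ∫ s in (0:ℝ)..t, K * (g s * y s)) :
    y τ ≤ y₀ * Real.exp (K * ∫ s in (0:ℝ)..τ, g s) := by
  set Z : ℝ → ℝ := fun t => y₀ + ∫ s in (0:ℝ)..t, K * (g s * y s) with hZ
  set G : ℝ → ℝ := fun t => ∫ s in (0:ℝ)..t, g s with hG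
  have hky : ContinuousOn (fun s => K * (g s * y s)) (Icc 0 τ) := continuousOn_const.mul (hg.mul hy)
  have hint : ∀ f : ℝ → ℝ, ContinuousOn f (Icc 0 τ) →
      ContinuousOn (fun t => ∫ s in (0:ℝ)..t, f s) (Icc 0 τ) ∧
      ∀ t ∈ Ioo 0 τ, HasDerivAt (fun t => ∫ s in (0:ℝ)..t, f s) (f t) t := by
    intro f hf
    have hii : IntervalIntegrable f volume 0 τ := by
      apply ContinuousOn.intervalIntegrable
      rwa [uIcc_of_le hτ]
    constructor
    · have := intervalIntegral.continuousOn_primitive_interval' hii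
        (by rw [uIcc_of_le hτ]; exact ⟨le_rfl, hτ⟩ : (0:ℝ) ∈ uIcc 0 τ)
      rwa [uIcc_of_le hτ] at this
    · intro t ht
      have hnh : Icc 0 τ ∈ 𝓝 t := Icc_mem_nhds ht.1 ht.2
      refine intervalIntegral.integral_hasDerivAt_right ?_ ?_ (hf.continuousAt hnh)
      · apply ContinuousOn.intervalIntegrable
        rw [uIcc_of_le ht.1.le]
        exact hf.mono (Icc_subset_Icc_right ht.2.le)
      · exact (hf.mono Ioo_subset_Icc_self).stronglyMeasurableAtFilter isOpen_Ioo t ht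
  obtain ⟨hZc, hZd⟩ := hint _ hky
  obtain ⟨hGc, hGd⟩ := hint _ hg
  set W : ℝ → ℝ := fun t => Z t * Real.exp (-(K * G t)) with hW
  have hWc : ContinuousOn W (Icc 0 τ) :=
    (continuousOn_const.add hZc).mul ((continuousOn_const.mul hGc).neg.rexp)
  have hWd : ∀ t ∈ Ioo 0 τ, HasDerivAt W (K * (g t * y t) * Real.exp (-(K * G t)) +
      Z t * (Real.exp (-(K * G t)) * (-(K * g t)))) t := by
    intro t ht
    have h1 : HasDerivAt Z (K * (g t * y t)) t := (hZd t ht).const_add y₀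
    have h2 : HasDerivAt (fun t => -(K * G t)) (-(K * g t)) t := ((hGd t ht).const_mul K).neg
    exact h1.mul h2.exp
  have hanti : AntitoneOn W (Icc 0 τ) := by
    apply antitoneOn_of_deriv_nonpos (convex_Icc 0 τ) hWc
    · intro t ht
      rw [interior_Icc] at ht
      exact (hWd t ht).differentiableAt.differentiableWithinAt
    · intro t ht
      rw [interior_Icc] at ht
      rw [(hWd t ht).deriv]
      have h1 := h t (Ioo_subset_Icc_self ht)
      have h2 := hg0 t (Ioo_subset_Icc_self ht)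
      have h3 : K * (g t * y t) * Real.exp (-(K * G t)) +
          Z t * (Real.exp (-(K * G t)) * (-(K * g t))) =
          -(K * g t * Real.exp (-(K * G t)) * (Z t - y t)) := by ring
      rw [h3]
      have h4 : 0 ≤ Z t - y t := sub_nonneg.2 h1
      have := Real.exp_pos (-(K * G t))
      have : 0 ≤ K * g t * Real.exp (-(K * G t)) * (Z t - y t) := by positivity
      linarith
  have h1 := hanti ⟨le_rfl, hτ⟩ ⟨hτ, le_rfl⟩ hτ
  have h2 : W 0 = y₀ := by
    simp [hW, hZ, hG]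
  rw [h2] at h1
  have h3 : Z τ ≤ y₀ * Real.exp (K * G τ) := by
    have h4 := mul_le_mul_of_nonneg_right h1 (Real.exp_pos (K * G τ)).le
    have h5 : W τ * Real.exp (K * G τ) = Z τ := by
      simp only [hW]
      rw [mul_assoc, ← Real.exp_add, neg_add_cancel, Real.exp_zero, mul_one]
    rwa [h5] at h4
  exact (h τ ⟨hτ, le_rfl⟩).trans h3

/-- the energy estimate for Fourier coefficients -/
theorem energy_cf {Λ T C₀ Q : ℝ} {c : ℝ → Cf} (hΛ : 0 < Λ) (hC : 0 ≤ C₀) (hc : FSol Λ T c)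
    (hN : ∀ t ∈ Ico 0 T, ∀ k, ‖NN (c t) (c t) k‖ ≤ C₀ * (len k * cn (c t) (c t) k))
    (hM : ∀ T', T' < T → ∃ M : K3 → ℝ, (∀ k, 0 ≤ M k) ∧ Summable M ∧
      Summable (fun k => len k ^ 3 * M k) ∧ ∀ t ∈ Icc 0 T', ∀ k, ‖c t k‖ ≤ M k)
    (hQ : ∀ τ ∈ Ico 0 T, ∫ t in (0:ℝ)..τ, An (c t) ^ 2 ≤ Q) {τ : ℝ} (hτ : τ ∈ Ico 0 T) :
    Y3 (c τ) ≤ Y3 (c 0) * Real.exp (288 * C₀ ^ 2 / Λ * Q) := by
  obtain ⟨M, hM0, hMs, hM3, hMb⟩ := hM τ hτ.2
  have hsub : Icc 0 τ ⊆ Ico 0 T := fun s hs' => ⟨hs'.1, hs'.2.trans_lt hτ.2⟩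
  set K := 288 * C₀ ^ 2 / Λ with hKdef
  have hK : 0 ≤ K := by positivity
  have hs : ∀ t ∈ Icc 0 τ, (Summable fun k => ‖c t k‖) ∧ Summable (a3 (c t)) := by
    intro t ht
    constructor
    · exact Summable.of_nonneg_of_le (fun k => norm_nonneg _) (hMb t ht) hMs
    · exact Summable.of_nonneg_of_le (fun k => a3_nonneg _ k) (fun k =>
        mul_le_mul_of_nonneg_left (hMb t ht k) (pow_nonneg (len_nonneg k) _)) hM3
  have hcc : ∀ k, ContinuousOn (fun t => c t k) (Icc 0 τ) := fun k => (hc.cont k).mono hsub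
  have hAc : ContinuousOn (fun t => An (c t)) (Icc 0 τ) := by
    refine continuousOn_tsum (fun k => (hcc k).norm) hMs fun k t ht => ?_
    rw [norm_norm]
    exact hMb t ht k
  have hMle : ∀ k, M k ≤ ∑' j, M j := fun k => hMs.le_tsum k fun j _ => hM0 j
  have hDc : ∀ k, ContinuousOn (fun t => DD (c t) k) (Icc 0 τ) := by
    intro k
    refine continuousOn_tsum (u := fun l => (len l ^ 3 * M l) * ∑' j, M j)
      (fun l => ((continuousOn_const.mul (hcc l).norm)).mul (hcc (k - l)).norm)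
      (hM3.mul_right _) fun l t ht => ?_
    have hl := len_nonneg l
    rw [Real.norm_of_nonneg (mul_nonneg (a3_nonneg _ _) (norm_nonneg _))]
    unfold a3
    have h1 := hMb t ht l
    have h2 := (hMb t ht (k - l)).trans (hMle (k - l))
    have := hM0 l
    gcongr
  have hYs : ∀ t ∈ Icc 0 τ, Summable fun k => len k ^ 6 * ∑ i, ‖c t k i‖ ^ 2 := fun t ht =>
    Summable.of_nonneg_of_le (fun k => Y3_term_nonneg _ k) (fun k => term_le _ k)
      ((sq_summable (hs t ht).2 (a3_nonneg _)).mul_left 3)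
  have hYc : ContinuousOn (fun t => Y3 (c t)) (Icc 0 τ) := by
    refine continuousOn_tsum (u := fun k => 3 * (len k ^ 3 * M k) ^ 2) (fun k => ?_) ?_
      fun k t ht => ?_
    · refine continuousOn_const.mul (continuousOn_finsetSum _ fun i _ => ?_)
      exact ((continuousOn_pi.1 (hcc k) i).norm).pow 2
    · exact (sq_summable hM3 fun k => mul_nonneg (pow_nonneg (len_nonneg k) _) (hM0 k)).mul_left 3
    · rw [Real.norm_of_nonneg (Y3_term_nonneg _ k)]
      refine (term_le _ k).trans ?_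
      have := len_nonneg k
      have h1 := hMb t ht k
      unfold a3
      gcongr
  have hineq : ∀ t ∈ Icc 0 τ, Y3 (c t) ≤ Y3 (c 0) + ∫ s in (0:ℝ)..t, K * (An (c s) ^ 2 * Y3 (c s)) := by
    intro t ht
    have htT := hsub ht
    have hIcc : Icc 0 t ⊆ Icc 0 τ := Icc_subset_Icc_right ht.2
    refine (hYs t ht).tsum_le_of_sum_le fun F => ?_
    have hm : ∀ k ∈ F, len k ^ 6 * ∑ i, ‖c t k i‖ ^ 2 ≤ len k ^ 6 * ∑ i, ‖c 0 k i‖ ^ 2 +
        ∫ s in (0:ℝ)..t, K * DD (c s) k ^ 2 := by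
      intro k _
      exact mode hΛ hC hc hN htT (fun s hs' => hs s (hIcc hs')) k ((hDc k).mono hIcc)
    refine (Finset.sum_le_sum hm).trans ?_
    rw [Finset.sum_add_distrib]
    have hDi : ∀ k ∈ F, IntervalIntegrable (fun s => K * DD (c s) k ^ 2) volume 0 t := by
      intro k _
      apply ContinuousOn.intervalIntegrable
      rw [uIcc_of_le ht.1]
      exact continuousOn_const.mul (((hDc k).mono hIcc).pow 2)
    rw [← intervalIntegral.integral_finsetSum hDi]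
    refine add_le_add ((hYs 0 ⟨le_rfl, hτ.1⟩).sum_le_tsum F fun k _ => Y3_term_nonneg _ k) ?_
    refine intervalIntegral.integral_mono_on ht.1 ?_ ?_ fun s hs' => ?_
    · apply ContinuousOn.intervalIntegrable
      rw [uIcc_of_le ht.1]
      exact continuousOn_finsetSum _ fun k _ => continuousOn_const.mul (((hDc k).mono hIcc).pow 2)
    · apply ContinuousOn.intervalIntegrable
      rw [uIcc_of_le ht.1]
      exact continuousOn_const.mul (((hAc.mono hIcc).pow 2).mul (hYc.mono hIcc))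
    · rw [← Finset.mul_sum]
      refine mul_le_mul_of_nonneg_left ?_ hK
      obtain ⟨h1, h2⟩ := hs s (hIcc hs')
      refine (young h1 h2 F).trans (mul_le_mul_of_nonneg_left ?_ (sq_nonneg _))
      exact (sq_summable h2 (a3_nonneg _)).tsum_le_tsum (fun k => a3_sq_le _ k) (hYs s (hIcc hs'))
  have hg := gron (τ := τ) (K := K) (y₀ := Y3 (c 0)) (y := fun t => Y3 (c t))
    (g := fun t => An (c t) ^ 2) hτ.1 hK hYc (hAc.pow 2) (fun t _ => sq_nonneg _) hineq
  refine hg.trans (mul_le_mul_of_nonneg_left ?_ (tsum_nonneg fun k => Y3_term_nonneg _ k))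
  exact Real.exp_le_exp.2 (mul_le_mul_of_nonneg_left (hQ τ hτ) hK)

theorem wt_three (k : K3) : Pool.Agent.N977.Q.wt 3 0 k = len k ^ 3 := by
  unfold Pool.Agent.N977.Q.wt
  split_ifs with hk
  · rw [hk, len_zero']
    simp
  · rw [Real.rpow_zero, mul_one]
    exact_mod_cast Real.rpow_natCast (len k) 3

theorem Hn_three (v : V → V) : Hn 3 0 v = √(Y3 (fv v)) := by
  unfold Hn Y3
  congr 1
  refine tsum_congr fun k => ?_
  rw [Finset.mul_sum]
  refine Finset.sum_congr rfl fun i _ => ?_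
  rw [wt_three, mul_pow, ← pow_mul]
  rfl

/-- uniform majorants on compact time intervals -/
theorem maj {ν T : ℝ} {u : ℝ → V → V} {q : ℝ → V → ℝ} (hs : IsSol ν T u q)
    (hz : ∀ t ∈ Ico 0 T, fv (u t) 0 = 0) {T' : ℝ} (hT' : T' < T) :
    ∃ M : K3 → ℝ, (∀ k, 0 ≤ M k) ∧ Summable M ∧
      Summable (fun k => len k ^ 3 * M k) ∧ ∀ t ∈ Icc 0 T', ∀ k, ‖fv (u t) k‖ ≤ M k := by
  classical
  have hfi : ∀ i : Fin 3, ContDiffOn ℝ ∞ (fun z : ℝ × V => u z.1 z.2 i) (Ico 0 T ×ˢ univ) :=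
    fun i => (contDiffOn_pi.1 hs.smooth_u) i
  have hex : ∀ i : Fin 3, ∃ B, 0 ≤ B ∧ ∀ t ∈ Icc 0 T', Fb 7 B (fun x => u t x i) := fun i =>
    decay_time (f := fun t x => u t x i) (hfi i)
      (fun t ht j x => by simp only [hs.per_u t ht j x]) hT' 7
  choose B hB0 hB using hex
  set D := ∑ i, B i with hD
  have hD0 : 0 ≤ D := Finset.sum_nonneg fun i _ => hB0 i
  refine ⟨fun k => if k = 0 then 0 else D / (H459R3.NS.N k : ℝ) ^ 7, fun k => ?_, ?_, ?_, ?_⟩
  · dsimp only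
    split_ifs
    · exact le_rfl
    · positivity
  · refine Summable.of_nonneg_of_le (fun k => ?_) (fun k => ?_) (summable_N4.mul_left D)
    · split_ifs
      · exact le_rfl
      · positivity
    · split_ifs with hk
      · simp
      · have hN := one_le_N hk
        rw [mul_one_div]
        have h1 : (H459R3.NS.N k : ℝ) ^ 4 ≤ (H459R3.NS.N k : ℝ) ^ 7 :=
          pow_le_pow_right₀ hN (by norm_num)
        exact div_le_div_of_nonneg_left hD0 (by positivity) h1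
  · refine Summable.of_nonneg_of_le (fun k => ?_) (fun k => ?_) (summable_N4.mul_left (8 * D))
    · have := len_nonneg k
      dsimp only
      split_ifs
      · simp
      · positivity
    · dsimp only
      split_ifs with hk
      · simp
      · have hN := one_le_N hk
        have h1 : len k ^ 3 ≤ (2 * (H459R3.NS.N k : ℝ)) ^ 3 :=
          pow_le_pow_left₀ (len_nonneg k) (len_le_N k) 3
        calc len k ^ 3 * (D / (H459R3.NS.N k : ℝ) ^ 7)
            ≤ (2 * (H459R3.NS.N k : ℝ)) ^ 3 * (D / (H459R3.NS.N k : ℝ) ^ 7) :=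
              mul_le_mul_of_nonneg_right h1 (by positivity)
          _ = 8 * D * (1 / (H459R3.NS.N k : ℝ) ^ 4) := by
              field_simp
              ring
  · intro t ht k
    dsimp only
    split_ifs with hk
    · rw [hk, hz t ⟨ht.1, ht.2.trans_lt hT'⟩, norm_zero]
    · have hN := one_le_N hk
      rw [pi_norm_le_iff_of_nonneg (by positivity)]
      intro i
      rw [le_div_iff₀ (by positivity), mul_comm]
      exact (hB i t ht k).trans (Finset.single_le_sum (fun i _ => hB0 i) (Finset.mem_univ i))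

end EG

open EG H459R3.NS Pool.Agent.N977.Q in
/-- GD/ENG -/
theorem t_ENG : S_FOU → S_NNB → S_ENG := by
  intro hF hNB ν hν
  obtain ⟨C₀, hC0, hN, -⟩ := hNB
  set Λ := 4 * Real.pi ^ 2 * ν with hΛ
  have hΛ0 : 0 < Λ := by positivity
  refine ⟨144 * C₀ ^ 2 / Λ, by positivity, fun T Q u q hs h0 hQ t ht => ?_⟩
  have hc := hF ν T u q hν hs h0
  have hM : ∀ T', T' < T → ∃ M : K3 → ℝ, (∀ k, 0 ≤ M k) ∧ Summable M ∧
      Summable (fun k => len k ^ 3 * M k) ∧ ∀ t ∈ Icc 0 T', ∀ k, ‖fv (u t) k‖ ≤ M k :=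
    fun T' hT' => maj hs hc.zero hT'
  have hN' : ∀ t ∈ Ico 0 T, ∀ k, ‖NN (fv (u t)) (fv (u t)) k‖ ≤
      C₀ * (len k * cn (fv (u t)) (fv (u t)) k) := by
    intro t ht k
    obtain ⟨M, -, hMs, -, hMb⟩ := hM t ht.2
    have hsm : Summable fun k => ‖fv (u t) k‖ :=
      Summable.of_nonneg_of_le (fun k => norm_nonneg _) (hMb t ⟨ht.1, le_rfl⟩) hMs
    exact (hN _ _ hsm hsm).2.2.2.2 k
  have h := energy_cf hΛ0 hC0.le hc hN' hM hQ ht
  rw [Hn_three, Hn_three]
  have e : Real.exp (288 * C₀ ^ 2 / Λ * Q) = Real.exp (144 * C₀ ^ 2 / Λ * Q) ^ 2 := by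
    rw [← Real.exp_nat_mul]
    congr 1
    push_cast
    ring
  have h2 := Real.sqrt_le_sqrt h
  rw [e, Real.sqrt_mul' _ (sq_nonneg _), Real.sqrt_sq (Real.exp_pos _).le, mul_comm] at h2
  exact h2

end Pool.Agent.N976.GD
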