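import Pool.Agent.N976.GD.Stm
import Pool.Agent.N977.S.Mode

/-!
(FOU) The Fourier coefficients of a smooth solution of the Navier-Stokes equations (helper341).
-/

set_option autoImplicit false

open MeasureTheory Set Filter Topology
open scoped ContDiff

namespace Pool.Agent.N976.GD

open H459R3.NS Pool.Agent.N977.Q
open Pool.Agent.N977.K (SolK)

namespace FO

variable {ν T : ℝ} {u : ℝ → V → V} {q : ℝ → V → ℝ}

theorem toK (h : IsSol ν T u q) : SolK ν T (fun _ _ _ => 0) u q where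
  smooth_u := h.smooth_u
  smooth_p := h.smooth_p
  per_u := h.per_u
  per_p := h.per_p
  divfree := h.divfree
  momentum := fun t ht x i => by
    rw [h.momentum t ht x i]
    simp

theorem spv (h : IsSol ν T u q) {t : ℝ} (ht : t ∈ Ico 0 T) : SPV (u t) := by
  have h1 := fun i => sol_sp (toK h) ht i
  exact ⟨contDiff_pi.2 fun i => (h1 i).smooth, h.per_u t ht⟩

theorem fr_hasDeriv {f : ℝ → V → ℝ} {g : V → ℝ}
    (hf : ContDiffOn ℝ ∞ (fun z : ℝ × V => f z.1 z.2) (Ico 0 T ×ˢ univ)) {t : ℝ}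
    (ht : t ∈ Ioo 0 T) (hd : ∀ x, HasDerivAt (fun s => f s x) (g x) t) (hg : Continuous g)
    (k : K3) : HasDerivAt (fun s => fr (f s) k) (fr g k) t := by
  have h1 := (Pool.Agent.N977.S.re_deriv hf ht hd hg k).ofReal_comp
  have h2 := (Pool.Agent.N977.S.im_deriv hf ht hd hg k).ofReal_comp.mul_const Complex.I
  have h3 := h1.add h2
  refine (h3.congr_of_eventuallyEq (Filter.Eventually.of_forall fun s =>
    (Complex.re_add_im _).symm)).congr_deriv (Complex.re_add_im _)

theorem fr_contOn {f : ℝ → V → ℝ}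
    (hf : ContDiffOn ℝ ∞ (fun z : ℝ × V => f z.1 z.2) (Ico 0 T ×ˢ univ)) (k : K3) :
    ContinuousOn (fun s => fr (f s) k) (Ico 0 T) := by
  have h1 := Complex.continuous_ofReal.comp_continuousOn (Pool.Agent.N977.S.re_cont hf k)
  have h2 := (Complex.continuous_ofReal.comp_continuousOn
    (Pool.Agent.N977.S.im_cont hf k)).mul (continuousOn_const (c := Complex.I))
  exact (h1.add h2).congr fun s _ => (Complex.re_add_im _).symm

/-- the right hand side of the equation -/
noncomputable def gg (ν : ℝ) (v : V → V) (P : V → ℝ) (i : Fin 3) (x : V) : ℝ :=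
  ν * lap (fun y => v y i) x - conv (fun i y => v y i) i x - pd i P x

theorem gg_cont {v : V → V} (hv : SPV v) {P : V → ℝ} (hP : SP P) (i : Fin 3) :
    Continuous (gg ν v P i) :=
  ((continuous_const.mul (Pool.Agent.N977.Q.spv_sp hv i).lap.cont).sub
    (sp_conv (Pool.Agent.N977.Q.spv_sp hv) i).cont).sub (hP.pd i).cont

theorem fr_gg {v : V → V} (hv : SPV v) {P : V → ℝ} (hP : SP P) (i : Fin 3) (k : K3) :
    fr (gg ν v P i) k = -((4 * Real.pi ^ 2 * ν * len k ^ 2 : ℝ) : ℂ) * fr (fun x => v x i) k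
      - fr (conv (fun i y => v y i) i) k - 2 * Real.pi * Complex.I * (k i : ℂ) * fr P k := by
  have c1 : Continuous fun x => ν * lap (fun y => v y i) x :=
    continuous_const.mul (Pool.Agent.N977.Q.spv_sp hv i).lap.cont
  have c2 : Continuous fun x => ν * lap (fun y => v y i) x - conv (fun i y => v y i) i x :=
    c1.sub (sp_conv (Pool.Agent.N977.Q.spv_sp hv) i).cont
  have e : gg ν v P i = fun x => (ν * lap (fun y => v y i) x
    - conv (fun i y => v y i) i x) - pd i P x := rfl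
  rw [e, fr_sub c2 (hP.pd i).cont,
    fr_sub c1 (sp_conv (Pool.Agent.N977.Q.spv_sp hv) i).cont, fr_smul,
    fr_lap (Pool.Agent.N977.Q.spv_sp hv i), fr_pd' hP]
  push_cast
  ring

theorem comp_deriv (h : IsSol ν T u q) {t : ℝ} (ht : t ∈ Ioo 0 T) (i : Fin 3) (k : K3) :
    HasDerivAt (fun s => fr (fun x => u s x i) k) (fr (gg ν (u t) (q t) i) k) t := by
  have htI := Ioo_subset_Ico_self ht
  refine fr_hasDeriv (f := fun s x => u s x i) (smooth_c (toK h) i) ht (fun x => ?_)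
    (gg_cont (spv h htI) (sol_sp_p (toK h) htI) i) k
  refine (sol_hasDerivAt (toK h) ht i x).congr_deriv ?_
  unfold gg
  simp

theorem sum_gg (h : IsSol ν T u q) {t : ℝ} (ht : t ∈ Ioo 0 T) (k : K3) :
    ∑ j, (k j : ℂ) * fr (gg ν (u t) (q t) j) k = 0 := by
  have h1 : HasDerivAt (fun s => ∑ j, (k j : ℂ) * fr (fun x => u s x j) k)
      (∑ j, (k j : ℂ) * fr (gg ν (u t) (q t) j) k) t :=
    HasDerivAt.fun_sum fun j _ => (comp_deriv h ht j k).const_mul _
  have h2 : (fun s => ∑ j, (k j : ℂ) * fr (fun x => u s x j) k) =ᶠ[𝓝 t] fun _ => (0 : ℂ) := by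
    filter_upwards [Ioo_mem_nhds ht.1 ht.2] with s hs
    have hsI := Ioo_subset_Ico_self hs
    exact sum_k_fr (spv h hsI) (h.divfree s hsI) k
  have h3 : HasDerivAt (fun s => ∑ j, (k j : ℂ) * fr (fun x => u s x j) k) 0 t :=
    (hasDerivAt_const t (0 : ℂ)).congr_of_eventuallyEq h2
  exact h1.unique h3

theorem cvv_eq {v : V → V} (hv : SPV v) (hdiv : ∀ x, ∑ i, pd i (fun y => v y i) x = 0)
    (k : K3) (i : Fin 3) : cvv (fv v) (fv v) k i = fr (conv (fun i y => v y i) i) k :=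
  (Pool.Agent.N977.S.fr_conv hv hdiv i k).tsum_eq

theorem len_sq_ne {k : K3} (hk : k ≠ 0) : len k ^ 2 ≠ 0 := by
  rw [len_sq]
  intro h0
  apply hk
  funext j
  have h1 := (Finset.sum_eq_zero_iff_of_nonneg (fun i _ => sq_nonneg ((k i : ℝ)))).1 h0 j
    (Finset.mem_univ j)
  have h2 : (k j : ℝ) = 0 := by
    exact pow_eq_zero_iff (two_ne_zero) |>.1 h1
  exact_mod_cast h2

theorem comp_eq (h : IsSol ν T u q) {t : ℝ} (ht : t ∈ Ioo 0 T) (i : Fin 3) (k : K3) :
    fr (gg ν (u t) (q t) i) k = -(((4 * Real.pi ^ 2 * ν * len k ^ 2 : ℝ) : ℂ)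
      * fr (fun x => u t x i) k) - NN (fv (u t)) (fv (u t)) k i := by
  have htI := Ioo_subset_Ico_self ht
  have hv := spv h htI
  have hdiv := h.divfree t htI
  have hP := sol_sp_p (toK h) htI
  have e1 := fun j => fr_gg (ν := ν) hv hP j k
  have e2 := sum_gg h ht k
  have e3 := sum_k_fr hv hdiv k
  have hN : NN (fv (u t)) (fv (u t)) k i = fr (conv (fun i y => u t y i) i) k
      - (k i : ℂ) * (∑ j, (k j : ℂ) * fr (conv (fun i y => u t y i) j) k)
        / ((len k ^ 2 : ℝ) : ℂ) := by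
    unfold NN prj
    simp_rw [cvv_eq hv hdiv]
  rw [hN, e1 i]
  by_cases hk : k = 0
  · subst hk
    simp
  · have hL : ((len k ^ 2 : ℝ) : ℂ) ≠ 0 := by
      exact_mod_cast len_sq_ne hk
    have hL2 : ((len k ^ 2 : ℝ) : ℂ) = ∑ j, (k j : ℂ) * (k j : ℂ) := by
      rw [len_sq]
      push_cast
      exact Finset.sum_congr rfl fun j _ => by ring
    simp_rw [e1] at e2
    set L : ℂ := ((len k ^ 2 : ℝ) : ℂ) with hLd
    set A : Fin 3 → ℂ := fun j => fr (conv (fun i y => u t y i) j) k with hA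
    set Q := fr (q t) k with hQ
    have e4 : ∑ j, (k j : ℂ) * (-((4 * Real.pi ^ 2 * ν * len k ^ 2 : ℝ) : ℂ)
        * fr (fun x => u t x j) k - fr (conv (fun i y => u t y i) j) k
        - 2 * Real.pi * Complex.I * (k j : ℂ) * Q)
        = -((4 * Real.pi ^ 2 * ν * len k ^ 2 : ℝ) : ℂ) * (∑ j, (k j : ℂ) *
          fr (fun x => u t x j) k) - (∑ j, (k j : ℂ) * A j)
          - 2 * Real.pi * Complex.I * Q * ∑ j, (k j : ℂ) * (k j : ℂ) := by
      simp only [Fin.sum_univ_three, hA]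
      ring
    rw [e4, e3, ← hL2] at e2
    have e5 : 2 * Real.pi * Complex.I * Q = -(∑ j, (k j : ℂ) * A j) / L := by
      rw [eq_div_iff hL]
      linear_combination -e2
    have e6 : (2 * Real.pi * Complex.I * (k i : ℂ) * Q : ℂ)
        = (k i : ℂ) * (-(∑ j, (k j : ℂ) * A j) / L) := by
      rw [← e5]; ring
    rw [e6]
    ring

theorem der (h : IsSol ν T u q) {t : ℝ} (ht : t ∈ Ioo 0 T) (k : K3) :
    HasDerivAt (fun s => fv (u s) k) (-((4 * Real.pi ^ 2 * ν * len k ^ 2) • fv (u t) k)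
      - NN (fv (u t)) (fv (u t)) k) t := by
  rw [hasDerivAt_pi]
  intro i
  have h1 := comp_deriv h ht i k
  rw [comp_eq h ht i k] at h1
  refine h1.congr_deriv ?_
  simp only [Pi.sub_apply, Pi.neg_apply, Pi.smul_apply, Complex.real_smul]
  rfl

theorem const_of_deriv {f : ℝ → ℂ} {t : ℝ} (ht : 0 < t) (hc : ContinuousOn f (Icc 0 t))
    (hd : ∀ s ∈ Ioo 0 t, HasDerivAt f 0 s) : f t = f 0 := by
  apply Complex.ext
  · have h1 : ContinuousOn (fun s => (f s).re) (Icc 0 t) :=
      Complex.continuous_re.comp_continuousOn hc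
    have h2 : ∀ s ∈ Ioo 0 t, HasDerivAt (fun s => (f s).re) ((fun _ => (0 : ℝ)) s) s := by
      intro s hs
      have := Complex.reCLM.hasFDerivAt.comp_hasDerivAt s (hd s hs)
      rw [map_zero] at this
      exact this
    obtain ⟨c, _, hc'⟩ := exists_hasDerivAt_eq_slope _ _ ht h1 h2
    have h3 : t - 0 ≠ 0 := by linarith
    have hc'' : ((f t).re - (f 0).re) / (t - 0) = 0 := hc'.symm
    rw [div_eq_zero_iff] at hc''
    rcases hc'' with h4 | h4
    · linarith
    · exact absurd h4 h3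
  · have h1 : ContinuousOn (fun s => (f s).im) (Icc 0 t) :=
      Complex.continuous_im.comp_continuousOn hc
    have h2 : ∀ s ∈ Ioo 0 t, HasDerivAt (fun s => (f s).im) ((fun _ => (0 : ℝ)) s) s := by
      intro s hs
      have := Complex.imCLM.hasFDerivAt.comp_hasDerivAt s (hd s hs)
      rw [map_zero] at this
      exact this
    obtain ⟨c, _, hc'⟩ := exists_hasDerivAt_eq_slope _ _ ht h1 h2
    have h3 : t - 0 ≠ 0 := by linarith
    have hc'' : ((f t).im - (f 0).im) / (t - 0) = 0 := hc'.symm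
    rw [div_eq_zero_iff] at hc''
    rcases hc'' with h4 | h4
    · linarith
    · exact absurd h4 h3

theorem contOn (h : IsSol ν T u q) (k : K3) (i : Fin 3) :
    ContinuousOn (fun t => fr (fun x => u t x i) k) (Ico 0 T) :=
  fr_contOn (f := fun t x => u t x i) (smooth_c (toK h) i) k

theorem NN_zero (a b : Cf) : NN a b 0 = 0 := by
  funext i
  have e : cvv a b 0 = 0 := by
    funext i
    unfold cvv
    simp
  unfold NN prj
  rw [e]
  simp

theorem init {v : V → V} (h0 : ∀ i, ∫ x in cube, v x i = 0) (i : Fin 3) :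
    fr (fun x => v x i) 0 = 0 := by
  unfold fr fc
  have e : ∀ x : V, ee (-0) x * ((v x i : ℝ) : ℂ) = ((v x i : ℝ) : ℂ) := by
    intro x
    rw [neg_zero, ee_zero, one_mul]
  simp_rw [e]
  have h1 : ∫ x in cube, ((v x i : ℝ) : ℂ) = ((∫ x in cube, v x i : ℝ) : ℂ) :=
    integral_ofReal
  rw [h1, h0 i]
  simp

theorem zero (h : IsSol ν T u q) (h0 : ∀ i, ∫ x in cube, u 0 x i = 0) {t : ℝ}
    (ht : t ∈ Ico 0 T) : fv (u t) 0 = 0 := by
  funext i
  have hi := init h0 i
  change fr (fun x => u t x i) 0 = 0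
  rcases ht.1.eq_or_lt with h1 | h1
  · rw [← h1]; exact hi
  · rw [← hi]
    refine const_of_deriv (f := fun t => fr (fun x => u t x i) 0) h1
      ((contOn h 0 i).mono fun s hs => ⟨hs.1, hs.2.trans_lt ht.2⟩) ?_
    intro s hs
    have hsI : s ∈ Ioo 0 T := ⟨hs.1, hs.2.trans ht.2⟩
    have h2 := comp_deriv h hsI i 0
    rw [comp_eq h hsI i 0, NN_zero] at h2
    refine h2.congr_deriv ?_
    have : len 0 ^ 2 = 0 := by rw [len_sq]; simp
    rw [this]
    simp

theorem dec (h : IsSol ν T u q) {T' : ℝ} (hT : T' < T) :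
    ∃ M : K3 → ℝ, Summable M ∧ ∀ t ∈ Icc 0 T', ∀ k, ‖fv (u t) k‖ ≤ M k := by
  have hp : ∀ i : Fin 3, ∀ t ∈ Ico 0 T, Per (fun x => u t x i) := fun i t ht j x => by
    simp only [h.per_u t ht j x]
  choose B hB0 hB using fun i => decay_time (f := fun t x => u t x i) (smooth_c (toK h) i)
    (hp i) hT 4
  choose B' hB0' hB' using fun i => decay_time (f := fun t x => u t x i) (smooth_c (toK h) i)
    (hp i) hT 0
  have hS : ∀ i, B i ≤ ∑ j, B j := fun i =>
    Finset.single_le_sum (fun j _ => hB0 j) (Finset.mem_univ i)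
  have hS' : ∀ i, B' i ≤ ∑ j, B' j := fun i =>
    Finset.single_le_sum (fun j _ => hB0' j) (Finset.mem_univ i)
  have hS0 : 0 ≤ ∑ j, B j := Finset.sum_nonneg fun j _ => hB0 j
  have hS0' : 0 ≤ ∑ j, B' j := Finset.sum_nonneg fun j _ => hB0' j
  refine ⟨fun k => (if k = 0 then ∑ j, B' j else 0)
    + (∑ j, B j) * (if k = 0 then (0 : ℝ) else 1 / (H459R3.NS.N k : ℝ) ^ 4),
    (hasSum_ite_eq 0 (∑ j, B' j)).summable.add (summable_N4.mul_left _), ?_⟩
  intro t ht k
  have hnn : 0 ≤ (if k = 0 then ∑ j, B' j else 0)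
    + (∑ j, B j) * (if k = 0 then (0 : ℝ) else 1 / (H459R3.NS.N k : ℝ) ^ 4) := by
    split_ifs <;> positivity
  rw [pi_norm_le_iff_of_nonneg hnn]
  intro i
  change ‖fr (fun x => u t x i) k‖ ≤ _
  by_cases hk : k = 0
  · rw [if_pos hk, if_pos hk, mul_zero, add_zero]
    have h1 := hB' i t ht k
    simp only [pow_zero, one_mul] at h1
    exact h1.trans (hS' i)
  · rw [if_neg hk, if_neg hk, zero_add]
    have h1 := hB i t ht k
    have hN : (0 : ℝ) < (H459R3.NS.N k : ℝ) := by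
      exact_mod_cast Nat.pos_of_ne_zero fun h => hk (N_eq_zero.1 h)
    have hN4 : (0 : ℝ) < (H459R3.NS.N k : ℝ) ^ 4 := pow_pos hN 4
    rw [mul_one_div, le_div_iff₀ hN4, mul_comm]
    exact h1.trans (hS i)

end FO

theorem t_FOU : S_FOU := by
  intro ν T u q _ h h0
  refine ⟨?_, ?_, ?_, ?_⟩
  · intro k
    rw [continuousOn_pi]
    intro i
    exact FO.contOn h k i
  · intro t ht k
    exact FO.der h ht k
  · intro T' hT
    exact FO.dec h hT
  · intro t ht
    exact FO.zero h h0 ht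

end Pool.Agent.N976.GD
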