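import Pool.Agent.N976.GD.Stm

/-!
Project GD: a nonlinear inequality of Gronwall's type.
-/

set_option autoImplicit false

open MeasureTheory Set Filter Topology

namespace Pool.Agent.N976.GD

namespace GW

/-- the a priori bound -/
lemma step (κ A σ τ : ℝ) (a ρ : ℝ → ℝ) (ha : Continuous a) (hρ : Continuous ρ) (hκ : 0 < κ)
    (hσ : 0 ≤ σ) (hτ : 0 ≤ τ) (hA : ∫ t in (0:ℝ)..τ, a t ^ 2 ≤ A)
    (hy : ∀ s ∈ Icc 0 τ, √(∫ t in (0:ℝ)..s, ρ t ^ 2)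
      ≤ κ * (σ + ∫ t in (0:ℝ)..s, (2 * (a t * ρ t) + ρ t ^ 2)))
    (h4 : √(∫ t in (0:ℝ)..τ, ρ t ^ 2) ≤ 1 / (4 * κ)) :
    √(∫ t in (0:ℝ)..τ, ρ t ^ 2) ≤ (2 * κ + 3 * κ * Real.exp (36 * κ ^ 2 * A)) * σ := by
  obtain ⟨Y, hY⟩ : ∃ Y : ℝ → ℝ, ∀ s, Y s = ∫ t in (0:ℝ)..s, ρ t ^ 2 := ⟨_, fun _ => rfl⟩
  obtain ⟨G, hG⟩ : ∃ G : ℝ → ℝ, ∀ s, G s = ∫ t in (0:ℝ)..s, a t * ρ t := ⟨_, fun _ => rfl⟩
  obtain ⟨P, hP⟩ : ∃ P : ℝ → ℝ, ∀ s, P s = ∫ t in (0:ℝ)..s, a t ^ 2 := ⟨_, fun _ => rfl⟩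
  obtain ⟨J, hJ⟩ : ∃ J : ℝ → ℝ, ∀ s, J s = ∫ t in (0:ℝ)..s, a t ^ 2 * G t ^ 2 := ⟨_, fun _ => rfl⟩
  have dY : ∀ s, HasDerivAt Y (ρ s ^ 2) s := by
    intro s
    rw [show Y = fun s => ∫ t in (0:ℝ)..s, ρ t ^ 2 from funext hY]
    exact ((hρ.pow 2).integral_hasStrictDerivAt 0 s).hasDerivAt
  have dG : ∀ s, HasDerivAt G (a s * ρ s) s := by
    intro s
    rw [show G = fun s => ∫ t in (0:ℝ)..s, a t * ρ t from funext hG]
    exact ((ha.mul hρ).integral_hasStrictDerivAt 0 s).hasDerivAt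
  have dP : ∀ s, HasDerivAt P (a s ^ 2) s := by
    intro s
    rw [show P = fun s => ∫ t in (0:ℝ)..s, a t ^ 2 from funext hP]
    exact ((ha.pow 2).integral_hasStrictDerivAt 0 s).hasDerivAt
  have cG : Continuous G := continuous_iff_continuousAt.2 fun s => (dG s).continuousAt
  have dJ : ∀ s, HasDerivAt J (a s ^ 2 * G s ^ 2) s := by
    intro s
    rw [show J = fun s => ∫ t in (0:ℝ)..s, a t ^ 2 * G t ^ 2 from funext hJ]
    exact (((ha.pow 2).mul (cG.pow 2)).integral_hasStrictDerivAt 0 s).hasDerivAt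
  have Y0 : Y 0 = 0 := by rw [hY, intervalIntegral.integral_same]
  have G0 : G 0 = 0 := by rw [hG, intervalIntegral.integral_same]
  have P0 : P 0 = 0 := by rw [hP, intervalIntegral.integral_same]
  have J0 : J 0 = 0 := by rw [hJ, intervalIntegral.integral_same]
  have mY : Monotone Y := monotone_of_deriv_nonneg (fun s => (dY s).differentiableAt) fun s => by
    rw [(dY s).deriv]
    positivity
  have hY0 : ∀ s, 0 ≤ s → 0 ≤ Y s := fun s hs => Y0 ▸ mY hs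
  -- the bound for `y`
  have hy2 : ∀ s ∈ Icc 0 τ, √(Y s) ≤ 4 / 3 * κ * σ + 8 / 3 * κ * |G s| := by
    intro s hs
    have h1 := hy s hs
    have h2 : ∫ t in (0:ℝ)..s, (2 * (a t * ρ t) + ρ t ^ 2) = 2 * G s + Y s := by
      rw [intervalIntegral.integral_add (f := fun t => 2 * (a t * ρ t)) (g := fun t => ρ t ^ 2)
        ((continuous_const.mul (ha.mul hρ)).intervalIntegrable _ _)
        ((hρ.pow 2).intervalIntegrable _ _), intervalIntegral.integral_const_mul, hG, hY]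
    rw [h2, ← hY] at h1
    have h3 : √(Y s) ≤ 1 / (4 * κ) := by
      refine (Real.sqrt_le_sqrt (mY hs.2)).trans ?_
      rw [hY]
      exact h4
    have h5 : κ * Y s ≤ √(Y s) / 4 := by
      have h6 : Y s = √(Y s) * √(Y s) := (Real.mul_self_sqrt (hY0 s hs.1)).symm
      have h7 : κ * √(Y s) ≤ 1 / 4 := by
        calc κ * √(Y s) ≤ κ * (1 / (4 * κ)) := mul_le_mul_of_nonneg_left h3 hκ.le
          _ = 1 / 4 := by field_simp
      have h8 := mul_le_mul_of_nonneg_right h7 (Real.sqrt_nonneg (Y s))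
      calc κ * Y s = κ * √(Y s) * √(Y s) := by rw [mul_assoc, ← h6]
        _ ≤ 1 / 4 * √(Y s) := h8
        _ = √(Y s) / 4 := by ring
    have h9 : κ * G s ≤ κ * |G s| := mul_le_mul_of_nonneg_left (le_abs_self _) hκ.le
    nlinarith
  have hy3 : ∀ s ∈ Icc 0 τ, Y s ≤ 8 * κ ^ 2 * σ ^ 2 + 18 * κ ^ 2 * G s ^ 2 := by
    intro s hs
    have h1 := hy2 s hs
    have h2 : Y s = √(Y s) ^ 2 := (Real.sq_sqrt (hY0 s hs.1)).symm
    have h3 : √(Y s) ^ 2 ≤ (4 / 3 * κ * σ + 8 / 3 * κ * |G s|) ^ 2 :=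
      pow_le_pow_left₀ (Real.sqrt_nonneg _) h1 2
    have h4 : |G s| ^ 2 = G s ^ 2 := sq_abs _
    have h5 : (4 / 3 * κ * σ + 8 / 3 * κ * |G s|) ^ 2 ≤
        8 * κ ^ 2 * σ ^ 2 + 18 * κ ^ 2 * |G s| ^ 2 := by
      nlinarith [sq_nonneg (4 / 3 * κ * σ - 8 / 3 * κ * |G s|), sq_nonneg (κ * σ),
        sq_nonneg (κ * |G s|)]
    rw [h4] at h5
    rw [h2]
    exact h3.trans h5
  -- the bound for `G`
  have hD : ∀ s, 0 ≤ s → G s ^ 2 ≤ Y s / (36 * κ ^ 2) + 36 * κ ^ 2 * J s := by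
    have dD : ∀ s, HasDerivAt (fun s => Y s / (36 * κ ^ 2) + 36 * κ ^ 2 * J s - G s ^ 2)
        (ρ s ^ 2 / (36 * κ ^ 2) + 36 * κ ^ 2 * (a s ^ 2 * G s ^ 2) -
          2 * G s * (a s * ρ s)) s := by
      intro s
      have h1 := (((dY s).div_const (36 * κ ^ 2)).add ((dJ s).const_mul (36 * κ ^ 2))).sub
        ((dG s).pow 2)
      have h2 : HasDerivAt (fun s => Y s / (36 * κ ^ 2) + 36 * κ ^ 2 * J s - G s ^ 2) _ s := h1
      exact h2.congr_deriv (by norm_num)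
    have mD : Monotone (fun s => Y s / (36 * κ ^ 2) + 36 * κ ^ 2 * J s - G s ^ 2) :=
      monotone_of_deriv_nonneg (fun s => (dD s).differentiableAt) fun s => by
        rw [(dD s).deriv]
        have h1 : ρ s ^ 2 / (36 * κ ^ 2) + 36 * κ ^ 2 * (a s ^ 2 * G s ^ 2) -
          2 * G s * (a s * ρ s) = (ρ s / (6 * κ) - 6 * κ * (a s * G s)) ^ 2 := by
          field_simp
          ring
        rw [h1]
        positivity
    intro s hs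
    have h1 := mD hs
    simp only [Y0, J0, G0] at h1
    norm_num at h1
    linarith
  have hG2 : ∀ s ∈ Icc 0 τ, G s ^ 2 ≤ σ ^ 2 + 72 * κ ^ 2 * J s := by
    intro s hs
    have h1 := hD s hs.1
    have h2 := hy3 s hs
    have h3 : Y s / (36 * κ ^ 2) ≤ 8 / 36 * σ ^ 2 + 1 / 2 * G s ^ 2 := by
      rw [div_le_iff₀ (by positivity)]
      nlinarith
    nlinarith [sq_nonneg σ]
  have hE : AntitoneOn (fun s => (σ ^ 2 + 72 * κ ^ 2 * J s) * Real.exp (-(72 * κ ^ 2 * P s)))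
      (Icc 0 τ) := by
    have dE : ∀ s, HasDerivAt
        (fun s => (σ ^ 2 + 72 * κ ^ 2 * J s) * Real.exp (-(72 * κ ^ 2 * P s)))
        ((72 * κ ^ 2 * (a s ^ 2 * G s ^ 2)) * Real.exp (-(72 * κ ^ 2 * P s)) +
          (σ ^ 2 + 72 * κ ^ 2 * J s) *
            (Real.exp (-(72 * κ ^ 2 * P s)) * -(72 * κ ^ 2 * a s ^ 2))) s := by
      intro s
      exact (((dJ s).const_mul (72 * κ ^ 2)).const_add (σ ^ 2)).mul
        ((((dP s).const_mul (72 * κ ^ 2)).neg).exp)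
    refine antitoneOn_of_deriv_nonpos (convex_Icc 0 τ)
      (fun s _ => (dE s).continuousAt.continuousWithinAt)
      (fun s _ => (dE s).differentiableAt.differentiableWithinAt) fun s hs => ?_
    rw [interior_Icc] at hs
    rw [(dE s).deriv]
    have h1 := hG2 s ⟨hs.1.le, hs.2.le⟩
    have h2 : (72 * κ ^ 2 * (a s ^ 2 * G s ^ 2)) * Real.exp (-(72 * κ ^ 2 * P s)) +
          (σ ^ 2 + 72 * κ ^ 2 * J s) *
            (Real.exp (-(72 * κ ^ 2 * P s)) * -(72 * κ ^ 2 * a s ^ 2)) =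
        72 * κ ^ 2 * a s ^ 2 * Real.exp (-(72 * κ ^ 2 * P s)) *
          (G s ^ 2 - (σ ^ 2 + 72 * κ ^ 2 * J s)) := by ring
    rw [h2]
    exact mul_nonpos_of_nonneg_of_nonpos (by positivity) (by linarith)
  have hH : σ ^ 2 + 72 * κ ^ 2 * J τ ≤ σ ^ 2 * Real.exp (72 * κ ^ 2 * A) := by
    have h1 := hE (left_mem_Icc.2 hτ) (right_mem_Icc.2 hτ) hτ
    simp only [J0, P0] at h1
    norm_num at h1
    have h2 : σ ^ 2 + 72 * κ ^ 2 * J τ = (σ ^ 2 + 72 * κ ^ 2 * J τ) *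
        Real.exp (-(72 * κ ^ 2 * P τ)) * Real.exp (72 * κ ^ 2 * P τ) := by
      rw [mul_assoc (σ ^ 2 + 72 * κ ^ 2 * J τ), ← Real.exp_add, neg_add_cancel, Real.exp_zero,
        mul_one]
    rw [h2]
    have h3 : P τ ≤ A := by rw [hP]; exact hA
    refine mul_le_mul h1 ?_ (Real.exp_pos _).le (sq_nonneg σ)
    exact Real.exp_le_exp.2 (mul_le_mul_of_nonneg_left h3 (by positivity))
  have hGτ : |G τ| ≤ σ * Real.exp (36 * κ ^ 2 * A) := by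
    refine abs_le_of_sq_le_sq ?_ (by positivity)
    refine ((hG2 τ (right_mem_Icc.2 hτ)).trans hH).trans (le_of_eq ?_)
    rw [mul_pow, sq (Real.exp _), ← Real.exp_add]
    ring_nf
  have h1 := hy2 τ (right_mem_Icc.2 hτ)
  rw [← hY]
  have h2 : κ * |G τ| ≤ κ * (σ * Real.exp (36 * κ ^ 2 * A)) :=
    mul_le_mul_of_nonneg_left hGτ hκ.le
  have h3 : 0 ≤ κ * σ := by positivity
  have h4 : 0 ≤ κ * (σ * Real.exp (36 * κ ^ 2 * A)) := by positivity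
  nlinarith

/-- continuous functions on the line -/
lemma main (κ A σ τ : ℝ) (a ρ : ℝ → ℝ) (ha : Continuous a) (hρ : Continuous ρ) (hκ : 0 < κ)
    (hσ : 0 ≤ σ) (hσ₀ : σ ≤ 1 / (8 * κ * ((2 * κ + 3 * κ * Real.exp (36 * κ ^ 2 * A)) + 1)))
    (hτ : 0 ≤ τ) (hA : ∀ s ∈ Icc 0 τ, ∫ t in (0:ℝ)..s, a t ^ 2 ≤ A)
    (hy : ∀ s ∈ Icc 0 τ, √(∫ t in (0:ℝ)..s, ρ t ^ 2)
      ≤ κ * (σ + ∫ t in (0:ℝ)..s, (2 * (a t * ρ t) + ρ t ^ 2))) :
    √(∫ t in (0:ℝ)..τ, ρ t ^ 2) ≤ (2 * κ + 3 * κ * Real.exp (36 * κ ^ 2 * A)) * σ := by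
  obtain ⟨C, hC⟩ : ∃ C, C = 2 * κ + 3 * κ * Real.exp (36 * κ ^ 2 * A) := ⟨_, rfl⟩
  have hC0 : 0 ≤ C := by rw [hC]; positivity
  have hCσ : C * σ ≤ 1 / (8 * κ) := by
    rw [← hC] at hσ₀
    calc C * σ ≤ (C + 1) * σ := mul_le_mul_of_nonneg_right (by linarith) hσ
      _ ≤ (C + 1) * (1 / (8 * κ * (C + 1))) := mul_le_mul_of_nonneg_left hσ₀ (by linarith)
      _ = 1 / (8 * κ) := by
        have h1 : C + 1 ≠ 0 := by linarith
        field_simp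
  have hstep : ∀ s ∈ Icc 0 τ, √(∫ t in (0:ℝ)..s, ρ t ^ 2) ≤ 1 / (4 * κ) →
      √(∫ t in (0:ℝ)..s, ρ t ^ 2) ≤ C * σ := by
    intro s hs h1
    rw [hC]
    exact step κ A σ s a ρ ha hρ hκ hσ hs.1 (hA s hs)
      (fun s' hs' => hy s' ⟨hs'.1, hs'.2.trans hs.2⟩) h1
  have hlt : 1 / (8 * κ) < 1 / (4 * κ) := by
    apply one_div_lt_one_div_of_lt <;> linarith
  rw [← hC]
  by_cases h4 : √(∫ t in (0:ℝ)..τ, ρ t ^ 2) ≤ 1 / (4 * κ)
  · exact hstep τ (right_mem_Icc.2 hτ) h4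
  · exfalso
    have hcont : Continuous fun s => √(∫ t in (0:ℝ)..s, ρ t ^ 2) := by
      refine Real.continuous_sqrt.comp ?_
      exact continuous_iff_continuousAt.2 fun s =>
        ((hρ.pow 2).integral_hasStrictDerivAt 0 s).hasDerivAt.continuousAt
    have h5 := intermediate_value_Icc hτ hcont.continuousOn
    obtain ⟨s, hs, hs2⟩ := h5 (show 1 / (4 * κ) ∈ Icc _ _ from ⟨by
      rw [intervalIntegral.integral_same, Real.sqrt_zero]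
      positivity, (not_le.1 h4).le⟩)
    have hs3 : √(∫ t in (0:ℝ)..s, ρ t ^ 2) = 1 / (4 * κ) := hs2
    have h6 := hstep s hs hs3.le
    rw [hs3] at h6
    linarith

end GW

theorem t_GRW : S_GRW := by
  intro κ A hκ hA0
  refine ⟨1 / (8 * κ * ((2 * κ + 3 * κ * Real.exp (36 * κ ^ 2 * A)) + 1)),
    2 * κ + 3 * κ * Real.exp (36 * κ ^ 2 * A), by positivity, by positivity, ?_⟩
  intro T σ a ρ ha hρ ha0 hρ0 hσ hσ₀ hA hy τ hτ
  have hsub : Icc 0 τ ⊆ Ico 0 T := fun s hs => ⟨hs.1, hs.2.trans_lt hτ.2⟩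
  have hext : ∀ f : ℝ → ℝ, ContinuousOn f (Ico 0 T) → ∃ g : ℝ → ℝ, Continuous g ∧
      ∀ s ∈ Icc 0 τ, g s = f s := by
    intro f hf
    have h1 : Continuous fun x : Icc (0 : ℝ) τ => f x :=
      continuousOn_iff_continuous_domRestrict.1 (hf.mono hsub)
    exact ⟨IccExtend hτ.1 fun x : Icc (0 : ℝ) τ => f x, h1.Icc_extend', fun s hs =>
      IccExtend_of_mem hτ.1 _ hs⟩
  obtain ⟨a', ca, ea⟩ := hext a ha
  obtain ⟨ρ', cρ, eρ⟩ := hext ρ hρ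
  have huIcc : ∀ s ∈ Icc 0 τ, ∀ t ∈ uIcc 0 s, t ∈ Icc 0 τ := by
    intro s hs t ht
    rw [uIcc_of_le hs.1] at ht
    exact ⟨ht.1, ht.2.trans hs.2⟩
  have i1 : ∀ s ∈ Icc 0 τ, ∫ t in (0:ℝ)..s, ρ' t ^ 2 = ∫ t in (0:ℝ)..s, ρ t ^ 2 := fun s hs =>
    intervalIntegral.integral_congr fun t ht => by
      show ρ' t ^ 2 = ρ t ^ 2
      rw [eρ t (huIcc s hs t ht)]
  have i2 : ∀ s ∈ Icc 0 τ, ∫ t in (0:ℝ)..s, a' t ^ 2 = ∫ t in (0:ℝ)..s, a t ^ 2 := fun s hs =>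
    intervalIntegral.integral_congr fun t ht => by
      show a' t ^ 2 = a t ^ 2
      rw [ea t (huIcc s hs t ht)]
  have i3 : ∀ s ∈ Icc 0 τ, ∫ t in (0:ℝ)..s, (2 * (a' t * ρ' t) + ρ' t ^ 2) =
      ∫ t in (0:ℝ)..s, (2 * (a t * ρ t) + ρ t ^ 2) := fun s hs =>
    intervalIntegral.integral_congr fun t ht => by
      show 2 * (a' t * ρ' t) + ρ' t ^ 2 = 2 * (a t * ρ t) + ρ t ^ 2
      rw [ea t (huIcc s hs t ht), eρ t (huIcc s hs t ht)]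
  rw [← i1 τ (right_mem_Icc.2 hτ.1)]
  exact GW.main κ A σ τ a' ρ' ca cρ hκ hσ hσ₀ hτ.1
    (fun s hs => by rw [i2 s hs]; exact hA s (hsub hs))
    (fun s hs => by rw [i1 s hs, i3 s hs]; exact hy s (hsub hs))

end Pool.Agent.N976.GD
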