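import Pool.Agent.N976.GD.Stm
import Pool.Agent.N353.NSP.Maxb
import Pool.Agent.N977.S.Four
import Pool.Agent.N977.Q.Hel

set_option autoImplicit false

open MeasureTheory Set Filter Topology
open scoped ContDiff

namespace Pool.Agent.N976.GD.LX

open H459R3.NS Pool.Agent.N977.Q

theorem N_le_len (k : K3) : (H459R3.NS.N k : ℝ) ≤ len k := by
  obtain ⟨j, -, hj⟩ := Finset.exists_mem_eq_sup Finset.univ Finset.univ_nonempty
    fun j => (k j).natAbs
  have h : H459R3.NS.N k = (k j).natAbs := hj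
  rw [h, Nat.cast_natAbs, Int.cast_abs]
  exact abs_le_len k j

noncomputable def gg (k : K3) : ℝ := if k = 0 then 0 else (len k ^ 3)⁻¹

theorem gg_nonneg (k : K3) : 0 ≤ gg k := by
  unfold gg
  split_ifs
  · exact le_rfl
  · exact inv_nonneg.2 (pow_nonneg (len_nonneg k) 3)

theorem gg_summable : Summable fun k => gg k ^ 2 := by
  refine Summable.of_nonneg_of_le (fun k => sq_nonneg _) (fun k => ?_) summable_N4
  unfold gg
  by_cases hk : k = 0
  · simp [hk]
  · rw [if_neg hk, if_neg hk]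
    have h1 := one_le_N hk
    have h2 := N_le_len k
    have h3 : (H459R3.NS.N k : ℝ) ^ 4 ≤ (len k ^ 3) ^ 2 := by
      calc (H459R3.NS.N k : ℝ) ^ 4 ≤ (H459R3.NS.N k : ℝ) ^ 6 := pow_le_pow_right₀ h1 (by norm_num)
        _ ≤ len k ^ 6 := pow_le_pow_left₀ (by linarith) h2 6
        _ = (len k ^ 3) ^ 2 := by ring
    rw [inv_pow, one_div]
    exact inv_anti₀ (by positivity) h3

theorem norm_le {v : V → V} (h0 : fv v 0 = 0) (k : K3) :
    ‖fv v k‖ ≤ gg k * (wt 3 0 k * un v k) := by
  by_cases hk : k = 0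
  · subst hk
    rw [h0, norm_zero]
    simp [gg]
  · have hl := len_pos hk
    have hw : wt 3 0 k = len k ^ 3 := by
      unfold Pool.Agent.N977.Q.wt
      rw [if_neg hk, Real.rpow_zero, mul_one]
      exact_mod_cast Real.rpow_natCast (len k) 3
    rw [hw]
    unfold gg
    rw [if_neg hk, ← mul_assoc, inv_mul_cancel₀ (by positivity), one_mul,
      pi_norm_le_iff_of_nonneg (un_nonneg v k)]
    exact fun i => fr_le_un v k i

end Pool.Agent.N976.GD.LX

namespace Pool.Agent.N976.GD

open H459R3.NS Pool.Agent.N977.Q LX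

theorem t_SUP : S_SUP := by
  refine ⟨√(∑' k, gg k ^ 2), Real.sqrt_nonneg _, fun v hv h0 => ?_⟩
  have hs : Summable fun k => ‖fv v k‖ := by
    refine Summable.of_nonneg_of_le (fun k => norm_nonneg _) (fun k => ?_)
      (Pool.Agent.N977.S.un_summable hv)
    rw [pi_norm_le_iff_of_nonneg (un_nonneg v k)]
    exact fun i => fr_le_un v k i
  refine ⟨hs, ?_⟩
  have h2 : (2 : ℝ).HolderConjugate 2 := by
    constructor <;> norm_num
  have hf : Summable fun k => gg k ^ (2 : ℝ) := by
    simpa only [Real.rpow_two] using gg_summable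
  have hg : Summable fun k => (wt 3 0 k * un v k) ^ (2 : ℝ) := by
    simpa only [Real.rpow_two] using wun_summable hv 3 0
  have hwn : ∀ k, 0 ≤ wt 3 0 k * un v k := fun k => mul_nonneg (wt_nonneg _ _ _) (un_nonneg _ _)
  have hcs := Real.summable_and_inner_le_Lp_mul_Lq_tsum_of_nonneg h2 gg_nonneg hwn hf hg
  have e1 : (∑' k, gg k ^ (2 : ℝ)) ^ (1 / (2 : ℝ)) = √(∑' k, gg k ^ 2) := by
    rw [Real.sqrt_eq_rpow]
    simp only [Real.rpow_two]
  have e2 : (∑' k, (wt 3 0 k * un v k) ^ (2 : ℝ)) ^ (1 / (2 : ℝ)) = Hn 3 0 v := by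
    rw [← Real.sqrt_eq_rpow]
    simp only [Real.rpow_two]
    rw [← Hn_sq_un, Real.sqrt_sq (Hn_nonneg _ _ _)]
  rw [e1, e2] at hcs
  exact (hs.tsum_le_tsum (norm_le h0) hcs.1).trans hcs.2

theorem t_LEX : S_LEX := by
  intro ν hν v hv hdv
  have hK : Pool.Agent.N977.S.LowE 2 0 0 (fun _ _ _ => (0 : V)) := by
    constructor
    · intro u v _ _
      exact ⟨contDiff_const, fun i x => rfl⟩
    · intro u u' v _ _ _
      funext x
      exact (add_zero _).symm
    · intro u v v' _ _ _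
      funext x
      exact (add_zero _).symm
    · intro r u v _ _
      funext x
      exact (smul_zero _).symm
    · intro r u v _ _
      funext x
      exact (smul_zero _).symm
    · intro a u v _ _
      rfl
    · intro a u v _ _
      rfl
    · intro u v _ _ x
      simp [pd]
    · intro u v _ _
      simp
    · intro u v w _ _ _ s₁ s₂ s₃ a₁ a₂ a₃ _ _ _ _ _
      simp
  obtain ⟨u, q, h0, h⟩ := Pool.Agent.N353.NSP.maxb 0 0 (fun _ _ _ => (0 : V)) le_rfl hK ν hν v hv hdv
  have conv : ∀ T, Pool.Agent.N977.K.SolK ν T (fun _ _ _ => (0 : V)) u q → IsSol ν T u q := by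
    intro T h
    refine ⟨h.smooth_u, h.smooth_p, h.per_u, h.per_p, h.divfree, fun t ht x i => ?_⟩
    have h1 := h.momentum t ht x i
    rw [Pi.zero_apply, add_zero] at h1
    exact h1
  refine ⟨u, q, h0, ?_⟩
  rcases h with h | ⟨T, hT, h1, h2⟩
  · exact Or.inl fun T => conv T (h T)
  · exact Or.inr ⟨T, hT, conv T h1, h2⟩

end Pool.Agent.N976.GD
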