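import Pool.Agent.N976.GD.Stm

/-!
# Project GD: Minkowski's inequality for series of functions (`S_MIN`) and one mode (`S_MOD`)
-/

set_option autoImplicit false

open MeasureTheory Set Filter Topology

namespace Pool.Agent.N976.GD.MM

open H459R3.NS Pool.Agent.N977.Q Pool.Agent.N976.GD

/-! ### Cauchy-Schwarz -/

theorem ii {τ : ℝ} (hτ : 0 ≤ τ) {f : ℝ → ℝ} (hf : ContinuousOn f (Icc 0 τ)) :
    IntervalIntegrable f volume 0 τ :=
  hf.intervalIntegrable_of_Icc hτ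

theorem cs {τ : ℝ} (hτ : 0 ≤ τ) {f g : ℝ → ℝ} (hf : ContinuousOn f (Icc 0 τ))
    (hg : ContinuousOn g (Icc 0 τ)) :
    ∫ t in (0:ℝ)..τ, f t * g t ≤ √(∫ t in (0:ℝ)..τ, f t ^ 2) * √(∫ t in (0:ℝ)..τ, g t ^ 2) := by
  set A := ∫ t in (0:ℝ)..τ, f t ^ 2 with hA
  set B := ∫ t in (0:ℝ)..τ, f t * g t with hB
  set D := ∫ t in (0:ℝ)..τ, g t ^ 2 with hD
  have h : ∀ x : ℝ, 0 ≤ A * (x * x) + (-(2 * B)) * x + D := by
    intro x
    have h1 : 0 ≤ ∫ t in (0:ℝ)..τ, (x * f t - g t) ^ 2 :=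
      intervalIntegral.integral_nonneg hτ fun t _ => sq_nonneg _
    have h2 : ∫ t in (0:ℝ)..τ, (x * f t - g t) ^ 2 =
        ∫ t in (0:ℝ)..τ, ((x ^ 2 * f t ^ 2 - 2 * x * (f t * g t)) + g t ^ 2) := by
      refine intervalIntegral.integral_congr fun t _ => ?_
      ring
    have i1 : IntervalIntegrable (fun t => x ^ 2 * f t ^ 2) volume 0 τ :=
      ii hτ (continuousOn_const.mul (hf.pow 2))
    have i2 : IntervalIntegrable (fun t => 2 * x * (f t * g t)) volume 0 τ :=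
      ii hτ (continuousOn_const.mul (hf.mul hg))
    have i3 : IntervalIntegrable (fun t => g t ^ 2) volume 0 τ := ii hτ (hg.pow 2)
    have i12 : IntervalIntegrable (fun t => x ^ 2 * f t ^ 2 - 2 * x * (f t * g t)) volume 0 τ :=
      i1.sub i2
    rw [h2, intervalIntegral.integral_add i12 i3, intervalIntegral.integral_sub i1 i2,
      intervalIntegral.integral_const_mul,
      intervalIntegral.integral_const_mul, ← hA, ← hB, ← hD] at h1
    nlinarith
  have h3 := discrim_le_zero h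
  unfold discrim at h3
  have hA0 : 0 ≤ A := intervalIntegral.integral_nonneg hτ fun t _ => sq_nonneg _
  have hD0 : 0 ≤ D := intervalIntegral.integral_nonneg hτ fun t _ => sq_nonneg _
  rw [← Real.sqrt_mul hA0]
  refine Real.le_sqrt_of_sq_le ?_
  nlinarith

theorem countK3 : Countable K3 := by
  unfold K3
  infer_instance

theorem min_aux {ι : Type} [Countable ι] (τ : ℝ) (f : ι → ℝ → ℝ) (M : ι → ℝ) (hτ : 0 ≤ τ)
    (hM : Summable M) (hc : ∀ k, ContinuousOn (f k) (Icc 0 τ))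
    (hb : ∀ k, ∀ t ∈ Icc 0 τ, 0 ≤ f k t ∧ f k t ≤ M k) :
    (Summable fun k => √(∫ t in (0:ℝ)..τ, f k t ^ 2)) ∧
    √(∫ t in (0:ℝ)..τ, (∑' k, f k t) ^ 2) ≤ ∑' k, √(∫ t in (0:ℝ)..τ, f k t ^ 2) := by
  have hM0 : ∀ k, 0 ≤ M k := fun k =>
    (hb k 0 (left_mem_Icc.2 hτ)).1.trans (hb k 0 (left_mem_Icc.2 hτ)).2
  have hsum : Summable fun k => √(∫ t in (0:ℝ)..τ, f k t ^ 2) := by
    refine Summable.of_nonneg_of_le (fun k => Real.sqrt_nonneg _) (fun k => ?_)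
      (hM.mul_right √τ)
    have h1 : ∫ t in (0:ℝ)..τ, f k t ^ 2 ≤ ∫ _t in (0:ℝ)..τ, M k ^ 2 := by
      refine intervalIntegral.integral_mono_on hτ (ii hτ ((hc k).pow 2))
        (ii hτ continuousOn_const) fun t ht => ?_
      exact pow_le_pow_left₀ (hb k t ht).1 (hb k t ht).2 2
    rw [intervalIntegral.integral_const, sub_zero, smul_eq_mul] at h1
    calc √(∫ t in (0:ℝ)..τ, f k t ^ 2) ≤ √(τ * M k ^ 2) := Real.sqrt_le_sqrt h1
      _ = M k * √τ := by rw [Real.sqrt_mul hτ, Real.sqrt_sq (hM0 k), mul_comm]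
  refine ⟨hsum, ?_⟩
  have hfs : ∀ t ∈ Icc 0 τ, Summable fun k => f k t := fun t ht =>
    Summable.of_nonneg_of_le (fun k => (hb k t ht).1) (fun k => (hb k t ht).2) hM
  have hg : ContinuousOn (fun t => ∑' k, f k t) (Icc 0 τ) := by
    refine continuousOn_tsum hc hM fun k t ht => ?_
    rw [Real.norm_eq_abs, abs_of_nonneg (hb k t ht).1]
    exact (hb k t ht).2
  have hgb : ∀ t ∈ Icc 0 τ, 0 ≤ ∑' k, f k t ∧ ∑' k, f k t ≤ ∑' k, M k := fun t ht =>
    ⟨tsum_nonneg fun k => (hb k t ht).1, (hfs t ht).tsum_le_tsum (fun k => (hb k t ht).2) hM⟩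
  have hIo : ∀ t, t ∈ uIoc (0:ℝ) τ → t ∈ Icc 0 τ := by
    intro t ht
    rw [uIoc_of_le hτ] at ht
    exact Ioc_subset_Icc_self ht
  have hH : HasSum (fun k => ∫ t in (0:ℝ)..τ, f k t * ∑' k, f k t)
      (∫ t in (0:ℝ)..τ, (∑' k, f k t) ^ 2) := by
    refine intervalIntegral.hasSum_integral_of_dominated_convergence
      (fun k _ => M k * ∑' k, M k) (fun k => ?_) (fun k => ?_) ?_ ?_ ?_
    · rw [uIoc_of_le hτ]
      exact (((hc k).mul hg).mono Ioc_subset_Icc_self).aestronglyMeasurable measurableSet_Ioc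
    · refine Eventually.of_forall fun t ht => ?_
      have h1 := hb k t (hIo t ht)
      have h2 := hgb t (hIo t ht)
      rw [norm_mul, Real.norm_eq_abs, Real.norm_eq_abs, abs_of_nonneg h1.1, abs_of_nonneg h2.1]
      exact mul_le_mul h1.2 h2.2 h2.1 (hM0 k)
    · exact Eventually.of_forall fun t _ => hM.mul_right _
    · exact intervalIntegrable_const
    · refine Eventually.of_forall fun t ht => ?_
      rw [pow_two]
      exact ((hfs t (hIo t ht)).hasSum).mul_right _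
  set D := ∫ t in (0:ℝ)..τ, (∑' k, f k t) ^ 2 with hD
  have hD0 : 0 ≤ D := intervalIntegral.integral_nonneg hτ fun t _ => sq_nonneg _
  have h1 : D ≤ (∑' k, √(∫ t in (0:ℝ)..τ, f k t ^ 2)) * √D := by
    rw [← tsum_mul_right]
    calc D = ∑' k, ∫ t in (0:ℝ)..τ, f k t * ∑' k, f k t := hH.tsum_eq.symm
      _ ≤ ∑' k, √(∫ t in (0:ℝ)..τ, f k t ^ 2) * √D :=
          hH.summable.tsum_le_tsum (fun k => cs hτ (hc k) hg) (hsum.mul_right _)
  have h0 : 0 ≤ ∑' k, √(∫ t in (0:ℝ)..τ, f k t ^ 2) := tsum_nonneg fun k => Real.sqrt_nonneg _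
  rcases (Real.sqrt_nonneg D).eq_or_lt with h2 | h2
  · rw [← h2]
    exact h0
  · refine le_of_mul_le_mul_right ?_ h2
    rw [Real.mul_self_sqrt hD0]
    exact h1

theorem mod_aux (lam C τ : ℝ) (r F : ℝ → ℂ) (G : ℝ → ℝ) (hlam : 0 < lam) (hC : 0 ≤ C) (hτ : 0 ≤ τ)
    (hr : ContinuousOn r (Icc 0 τ))
    (hd : ∀ t ∈ Ioo 0 τ, HasDerivAt r (-((lam : ℂ) * r t) + F t) t)
    (hG : ContinuousOn G (Icc 0 τ)) (hG0 : ∀ t ∈ Icc 0 τ, 0 ≤ G t)
    (hF : ∀ t ∈ Ioo 0 τ, ‖F t‖ ≤ C * G t) :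
    √(∫ t in (0:ℝ)..τ, ‖r t‖ ^ 2) ≤ (‖r 0‖ + 2 * C * ∫ t in (0:ℝ)..τ, G t) / √(2 * lam) := by
  have hrn : ContinuousOn (fun t => ‖r t‖ ^ 2) (Icc 0 τ) := hr.norm.pow 2
  have hGr : ContinuousOn (fun t => G t * ‖r t‖) (Icc 0 τ) := hG.mul hr.norm
  -- the basic inequality
  have key : ∀ t ∈ Icc 0 τ, ‖r t‖ ^ 2 + 2 * lam * ∫ s in (0:ℝ)..t, ‖r s‖ ^ 2 ≤
      ‖r 0‖ ^ 2 + 2 * C * ∫ s in (0:ℝ)..t, G s * ‖r s‖ := by
    intro t ht
    have hsub : Icc 0 t ⊆ Icc 0 τ := Icc_subset_Icc_right ht.2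
    have h1 := intervalIntegral.sub_le_integral_of_hasDeriv_right_of_le (a := 0) (b := t)
      (g := fun s => ‖r s‖ ^ 2) (g' := fun s => 2 * inner ℝ (r s) (-((lam : ℂ) * r s) + F s))
      (φ := fun s => -(2 * lam) * ‖r s‖ ^ 2 + 2 * C * (G s * ‖r s‖)) ht.1 (hrn.mono hsub)
      (fun s hs => ((hd s ⟨hs.1, hs.2.trans_le ht.2⟩).norm_sq).hasDerivWithinAt)
      (((continuousOn_const.mul hrn).add (continuousOn_const.mul hGr)).mono hsub
        |>.integrableOn_Icc) (fun s hs => ?_)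
    · have j1 : IntervalIntegrable (fun s => -(2 * lam) * ‖r s‖ ^ 2) volume 0 t :=
        ii ht.1 (continuousOn_const.mul (hrn.mono hsub))
      have j2 : IntervalIntegrable (fun s => 2 * C * (G s * ‖r s‖)) volume 0 t :=
        ii ht.1 (continuousOn_const.mul (hGr.mono hsub))
      rw [intervalIntegral.integral_add j1 j2, intervalIntegral.integral_const_mul,
        intervalIntegral.integral_const_mul] at h1
      linarith
    · have hs' : s ∈ Ioo 0 τ := ⟨hs.1, hs.2.trans_le ht.2⟩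
      have e1 : inner ℝ (r s) (-((lam : ℂ) * r s) + F s) = -lam * ‖r s‖ ^ 2 + inner ℝ (r s) (F s) := by
        rw [inner_add_right, inner_neg_right]
        have e2 : (lam : ℂ) * r s = lam • r s := by rw [Complex.real_smul]
        rw [e2, real_inner_smul_right, real_inner_self_eq_norm_sq]
        ring
      have h2 : inner ℝ (r s) (F s) ≤ ‖r s‖ * (C * G s) :=
        (real_inner_le_norm _ _).trans (mul_le_mul_of_nonneg_left (hF s hs') (norm_nonneg _))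
      rw [e1]
      nlinarith
  obtain ⟨t1, ht1, hmax⟩ := isCompact_Icc.exists_isMaxOn (nonempty_Icc.2 hτ) hr.norm
  set m := ‖r t1‖ with hm
  have hm0 : 0 ≤ m := norm_nonneg _
  have hle : ∀ t ∈ Icc 0 τ, ‖r t‖ ≤ m := fun t ht => hmax ht
  set I := ∫ t in (0:ℝ)..τ, G t with hI
  have hI0 : 0 ≤ I := intervalIntegral.integral_nonneg hτ hG0
  have hint : ∀ t ∈ Icc 0 τ, ∫ s in (0:ℝ)..t, G s * ‖r s‖ ≤ m * I := by
    intro t ht
    have hsub : Icc 0 t ⊆ Icc 0 τ := Icc_subset_Icc_right ht.2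
    have h1 : ∫ s in (0:ℝ)..t, G s * ‖r s‖ ≤ ∫ s in (0:ℝ)..t, m * G s := by
      refine intervalIntegral.integral_mono_on ht.1 (ii ht.1 (hGr.mono hsub))
        (ii ht.1 (continuousOn_const.mul (hG.mono hsub))) fun s hs => ?_
      rw [mul_comm]
      exact mul_le_mul_of_nonneg_right (hle s (hsub hs)) (hG0 s (hsub hs))
    have h2 : I = (∫ s in (0:ℝ)..t, G s) + ∫ s in t..τ, G s := by
      rw [hI, intervalIntegral.integral_add_adjacent_intervals (ii ht.1 (hG.mono hsub))]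
      exact (hG.mono (Icc_subset_Icc_left ht.1)).intervalIntegrable_of_Icc ht.2
    have h3 : 0 ≤ ∫ s in t..τ, G s :=
      intervalIntegral.integral_nonneg ht.2 fun s hs => hG0 s ⟨ht.1.trans hs.1, hs.2⟩
    rw [intervalIntegral.integral_const_mul] at h1
    refine h1.trans (mul_le_mul_of_nonneg_left ?_ hm0)
    linarith
  have hr0 : ‖r 0‖ ≤ m := hle 0 (left_mem_Icc.2 hτ)
  set K := ‖r 0‖ + 2 * C * I with hK
  have hK0 : 0 ≤ K := by positivity
  have hmK : m ≤ K := by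
    have h1 := key t1 ht1
    have h2 := hint t1 ht1
    have h3 : 0 ≤ ∫ s in (0:ℝ)..t1, ‖r s‖ ^ 2 :=
      intervalIntegral.integral_nonneg ht1.1 fun s _ => sq_nonneg _
    have h4 : m ^ 2 ≤ m * K := by
      have h5 : 2 * C * ∫ s in (0:ℝ)..t1, G s * ‖r s‖ ≤ 2 * C * (m * I) :=
        mul_le_mul_of_nonneg_left h2 (by positivity)
      have h6 : 0 ≤ 2 * lam * ∫ s in (0:ℝ)..t1, ‖r s‖ ^ 2 := by positivity
      have h7 : ‖r 0‖ ^ 2 ≤ m * ‖r 0‖ := by
        rw [pow_two]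
        exact mul_le_mul_of_nonneg_right hr0 (norm_nonneg _)
      rw [hK]
      nlinarith
    rcases hm0.eq_or_lt with h5 | h5
    · rw [← h5]
      exact hK0
    · rw [pow_two] at h4
      exact le_of_mul_le_mul_left h4 h5
  have hfin : 2 * lam * ∫ t in (0:ℝ)..τ, ‖r t‖ ^ 2 ≤ K ^ 2 := by
    have h1 := key τ (right_mem_Icc.2 hτ)
    have h2 := hint τ (right_mem_Icc.2 hτ)
    have h3 : 2 * C * ∫ s in (0:ℝ)..τ, G s * ‖r s‖ ≤ 2 * C * (m * I) :=
      mul_le_mul_of_nonneg_left h2 (by positivity)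
    have h4 : 2 * C * (m * I) ≤ 2 * C * (K * I) := by
      refine mul_le_mul_of_nonneg_left (mul_le_mul_of_nonneg_right hmK hI0) (by positivity)
    have h5 : ‖r 0‖ ≤ K := by
      rw [hK]
      have : 0 ≤ 2 * C * I := by positivity
      linarith
    have h6 : ‖r 0‖ ^ 2 ≤ K * ‖r 0‖ := by
      rw [pow_two]
      exact mul_le_mul_of_nonneg_right h5 (norm_nonneg _)
    have h7 : K ^ 2 = K * ‖r 0‖ + 2 * C * (K * I) := by
      rw [pow_two]
      nth_rewrite 2 [hK]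
      ring
    have h8 : 0 ≤ ‖r τ‖ ^ 2 := sq_nonneg _
    linarith
  have hl : 0 < 2 * lam := by linarith
  refine Real.sqrt_le_iff.2 ⟨by positivity, ?_⟩
  rw [div_pow, Real.sq_sqrt hl.le, le_div_iff₀ hl]
  linarith

end Pool.Agent.N976.GD.MM

namespace Pool.Agent.N976.GD

theorem t_MIN : S_MIN := by
  intro τ f M hτ hM hc hb
  have := MM.countK3
  exact MM.min_aux τ f M hτ hM hc hb

theorem t_MOD : S_MOD := by
  intro lam C τ r F G hlam hC hτ hr hd hG hG0 hF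
  exact MM.mod_aux lam C τ r F G hlam hC hτ hr hd hG hG0 hF

end Pool.Agent.N976.GD
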