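import Pool.Agent.N976.GD.Stm

/-!
Project GD: a lacunary sum (LAC) and the bounds for the nonlinear term (NNB).

Author: helper488.
-/

set_option autoImplicit false

open MeasureTheory Set Filter Topology
open scoped ContDiff

namespace Pool.Agent.N976.GD

open H459R3.NS Pool.Agent.N977.Q

namespace NB

/-! ### The lacunary sum -/

theorem one_term (x : ℝ) (hx : 0 ≤ x) :
    x * Real.exp (-(4 * Real.pi ^ 2 * x ^ 2)) ≤ 4 * x / (1 + 2 * x) - 2 * x / (1 + x) := by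
  have h1 : (0:ℝ) < 1 + 2 * x := by linarith
  have h2 : (0:ℝ) < 1 + x := by linarith
  have e : 4 * x / (1 + 2 * x) - 2 * x / (1 + x) = x * (2 / ((1 + 2 * x) * (1 + x))) := by
    field_simp
    ring
  rw [e]
  refine mul_le_mul_of_nonneg_left ?_ hx
  rw [Real.exp_neg, le_div_iff₀ (mul_pos h1 h2), ← div_eq_inv_mul,
    div_le_iff₀ (Real.exp_pos _)]
  have h3 : 4 * Real.pi ^ 2 * x ^ 2 + 1 ≤ Real.exp (4 * Real.pi ^ 2 * x ^ 2) :=
    Real.add_one_le_exp _
  have h4 : (9:ℝ) ≤ Real.pi ^ 2 := by nlinarith [Real.pi_gt_three]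
  have h5 : 9 * x ^ 2 ≤ Real.pi ^ 2 * x ^ 2 := mul_le_mul_of_nonneg_right h4 (sq_nonneg x)
  nlinarith [sq_nonneg (x - 1 / 10)]

theorem G_mono {x z : ℝ} (hx : 0 ≤ x) (h : x ≤ z) : 4 * x / (1 + 2 * x) ≤ 4 * z / (1 + 2 * z) := by
  rw [div_le_div_iff₀ (by linarith) (by linarith)]
  nlinarith

theorem lac (y : ℝ) (hy : 0 ≤ y) : ∀ l : List ℕ, l.Pairwise (fun a b => 2 * b ≤ a) →
    ∀ X : ℝ, 0 ≤ X → (∀ n ∈ l, (n : ℝ) * y ≤ X) →
    (l.map fun n : ℕ => (n : ℝ) * y * Real.exp (-(4 * Real.pi ^ 2 * (n * y) ^ 2))).sum ≤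
      4 * X / (1 + 2 * X) := by
  intro l
  induction l with
  | nil =>
    intro _ X hX _
    simp only [List.map_nil, List.sum_nil]
    positivity
  | cons n l ih =>
    intro hl X hX hn
    rw [List.pairwise_cons] at hl
    have hny : 0 ≤ (n : ℝ) * y := by positivity
    have h1 := ih hl.2 ((n : ℝ) * y / 2) (by positivity) (by
      intro m hm
      have h2 : (2 * (m : ℝ)) ≤ n := by exact_mod_cast hl.1 m hm
      have h3 := mul_le_mul_of_nonneg_right h2 hy
      linarith)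
    have h2 := one_term ((n : ℝ) * y) hny
    have h3 := G_mono hny (hn n (by simp))
    have e : 4 * ((n : ℝ) * y / 2) / (1 + 2 * ((n : ℝ) * y / 2)) =
        2 * ((n : ℝ) * y) / (1 + (n : ℝ) * y) := by
      congr 1 <;> ring
    rw [e] at h1
    simp only [List.map_cons, List.sum_cons]
    linarith

/-! ### Convolutions -/

/-- the change of variables `(k, l) ↦ (l, k - l)` -/
def shr (G : Type) [AddCommGroup G] : G × G ≃ G × G where
  toFun p := (p.2, p.1 - p.2)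
  invFun p := (p.1 + p.2, p.1)
  left_inv p := by ext <;> simp
  right_inv p := by ext <;> simp

theorem conv_gen {G : Type} [AddCommGroup G] {A B : G → ℝ} (hA0 : ∀ k, 0 ≤ A k)
    (hB0 : ∀ k, 0 ≤ B k) (ha : Summable A) (hb : Summable B) :
    (∀ k, Summable fun l => A l * B (k - l)) ∧ Summable (fun k => ∑' l, A l * B (k - l)) ∧
    ∑' k, ∑' l, A l * B (k - l) = (∑' k, A k) * ∑' k, B k := by
  have hP : Summable fun p : G × G => A p.1 * B p.2 :=
    Summable.mul_of_nonneg ha hb hA0 hB0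
  have hPt : (∑' k, A k) * ∑' k, B k = ∑' p : G × G, A p.1 * B p.2 :=
    ha.tsum_mul_tsum hb hP
  have hQ : Summable ((fun p : G × G => A p.1 * B p.2) ∘ shr G) := (shr G).summable_iff.2 hP
  have hQ' : Summable fun p : G × G => A p.2 * B (p.1 - p.2) := hQ
  have hQt : ∑' p : G × G, A p.2 * B (p.1 - p.2) = ∑' p : G × G, A p.1 * B p.2 :=
    (shr G).tsum_eq fun p => A p.1 * B p.2
  refine ⟨fun k => hQ'.prod_factor k, hQ'.prod, ?_⟩
  rw [hPt, ← hQt]
  exact hQ'.tsum_prod.symm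

/-! ### Bounds -/

theorem len_nonneg (k : K3) : 0 ≤ len k := Real.sqrt_nonneg _

theorem coord_le (k : K3) (j : Fin 3) : ‖(k j : ℂ)‖ ≤ len k := by
  have h1 : ‖(k j : ℂ)‖ = |(k j : ℝ)| := by
    rw [show (k j : ℂ) = ((k j : ℝ) : ℂ) by push_cast; rfl, Complex.norm_real, Real.norm_eq_abs]
  rw [h1]
  apply Real.abs_le_sqrt
  exact Finset.single_le_sum (f := fun j => (k j : ℝ) ^ 2) (fun i _ => sq_nonneg _)
    (Finset.mem_univ j)

theorem dot_le (k : K3) (v : C3) : ‖∑ j, (k j : ℂ) * v j‖ ≤ 3 * (len k * ‖v‖) := by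
  calc ‖∑ j, (k j : ℂ) * v j‖ ≤ ∑ j : Fin 3, ‖(k j : ℂ) * v j‖ := norm_sum_le _ _
    _ ≤ ∑ j : Fin 3, len k * ‖v‖ := by
        refine Finset.sum_le_sum fun j _ => ?_
        rw [norm_mul]
        exact mul_le_mul (coord_le k j) (norm_le_pi_norm v j) (norm_nonneg _) (len_nonneg k)
    _ = 3 * (len k * ‖v‖) := by simp

theorem prj_le (k : K3) (v : C3) : ‖prj k v‖ ≤ 4 * ‖v‖ := by
  rw [pi_norm_le_iff_of_nonneg (by positivity)]
  intro i
  have h1 : ‖(k i : ℂ) * (∑ j, (k j : ℂ) * v j) / ((len k ^ 2 : ℝ) : ℂ)‖ ≤ 3 * ‖v‖ := by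
    rw [norm_div, norm_mul, Complex.norm_real, Real.norm_eq_abs, abs_of_nonneg (sq_nonneg _)]
    rcases (len_nonneg k).eq_or_lt with h0 | h0
    · rw [← h0]
      simp
    · rw [div_le_iff₀ (by positivity)]
      calc ‖(k i : ℂ)‖ * ‖∑ j, (k j : ℂ) * v j‖ ≤ len k * (3 * (len k * ‖v‖)) :=
            mul_le_mul (coord_le k i) (dot_le k v) (norm_nonneg _) (len_nonneg k)
        _ = 3 * ‖v‖ * len k ^ 2 := by ring
  calc ‖prj k v i‖ ≤ ‖v i‖ + ‖(k i : ℂ) * (∑ j, (k j : ℂ) * v j) / ((len k ^ 2 : ℝ) : ℂ)‖ :=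
        norm_sub_le _ _
    _ ≤ ‖v‖ + 3 * ‖v‖ := add_le_add (norm_le_pi_norm v i) h1
    _ = 4 * ‖v‖ := by ring

theorem prj_add (k : K3) (v w : C3) : prj k (v + w) = prj k v + prj k w := by
  funext i
  simp only [prj, Pi.add_apply, mul_add, Finset.sum_add_distrib]
  ring

theorem term_le (a b : Cf) (k l : K3) (i : Fin 3) :
    ‖(2 * Real.pi * Complex.I * ∑ j, (k j : ℂ) * a l j) * b (k - l) i‖ ≤
      20 * len k * (‖a l‖ * ‖b (k - l)‖) := by
  rw [norm_mul, norm_mul]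
  have h0 : ‖(2 * Real.pi * Complex.I : ℂ)‖ = 2 * Real.pi := by
    rw [norm_mul, Complex.norm_I, mul_one, norm_mul, Complex.norm_real, Real.norm_eq_abs,
      abs_of_nonneg Real.pi_pos.le]
    norm_num
  rw [h0]
  have h1 := dot_le k (a l)
  have h2 := norm_le_pi_norm (b (k - l)) i
  have h3 : 2 * Real.pi * ‖∑ j, (k j : ℂ) * a l j‖ ≤ 20 * (len k * ‖a l‖) := by
    have h4 : 0 ≤ len k * ‖a l‖ := mul_nonneg (len_nonneg k) (norm_nonneg _)
    have h5 := Real.pi_lt_d2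
    calc 2 * Real.pi * ‖∑ j, (k j : ℂ) * a l j‖ ≤ 2 * Real.pi * (3 * (len k * ‖a l‖)) :=
          mul_le_mul_of_nonneg_left h1 (by positivity)
      _ ≤ 20 * (len k * ‖a l‖) := by nlinarith
  calc 2 * Real.pi * ‖∑ j, (k j : ℂ) * a l j‖ * ‖b (k - l) i‖
      ≤ 20 * (len k * ‖a l‖) * ‖b (k - l)‖ :=
        mul_le_mul h3 h2 (norm_nonneg _) (mul_nonneg (by norm_num)
          (mul_nonneg (len_nonneg k) (norm_nonneg _)))
    _ = 20 * len k * (‖a l‖ * ‖b (k - l)‖) := by ring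

section

variable {a b : Cf} (ha : Summable fun k => ‖a k‖) (hb : Summable fun k => ‖b k‖)

include ha hb

theorem cn_sum (k : K3) : Summable fun l => ‖a l‖ * ‖b (k - l)‖ :=
  (conv_gen (fun _ => norm_nonneg _) (fun _ => norm_nonneg _) ha hb).1 k

theorem cvv_sum (k : K3) (i : Fin 3) :
    Summable fun l => (2 * Real.pi * Complex.I * ∑ j, (k j : ℂ) * a l j) * b (k - l) i :=
  Summable.of_norm_bounded ((cn_sum ha hb k).mul_left (20 * len k))
    (fun l => term_le a b k l i)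

theorem cvv_le (k : K3) : ‖cvv a b k‖ ≤ 20 * len k * cn a b k := by
  have h0 : 0 ≤ cn a b k := tsum_nonneg fun l => mul_nonneg (norm_nonneg _) (norm_nonneg _)
  rw [pi_norm_le_iff_of_nonneg (mul_nonneg (mul_nonneg (by norm_num) (len_nonneg k)) h0)]
  intro i
  exact tsum_of_norm_bounded ((cn_sum ha hb k).hasSum.mul_left (20 * len k))
    (fun l => term_le a b k l i)

end

theorem cvv_add_left {a a' b : Cf} (ha : Summable fun k => ‖a k‖) (ha' : Summable fun k => ‖a' k‖)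
    (hb : Summable fun k => ‖b k‖) (k : K3) : cvv (a + a') b k = cvv a b k + cvv a' b k := by
  funext i
  have h := (cvv_sum ha hb k i).tsum_add (cvv_sum ha' hb k i)
  rw [Pi.add_apply]
  unfold cvv
  rw [← h]
  refine tsum_congr fun l => ?_
  simp only [Pi.add_apply, mul_add, Finset.sum_add_distrib]
  ring

theorem cvv_add_right {a b b' : Cf} (ha : Summable fun k => ‖a k‖)
    (hb : Summable fun k => ‖b k‖) (hb' : Summable fun k => ‖b' k‖) (k : K3) :
    cvv a (b + b') k = cvv a b k + cvv a b' k := by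
  funext i
  have h := (cvv_sum ha hb k i).tsum_add (cvv_sum ha hb' k i)
  rw [Pi.add_apply]
  unfold cvv
  rw [← h]
  refine tsum_congr fun l => ?_
  simp only [Pi.add_apply, mul_add]

end NB

open NB

theorem t_LAC : S_LAC := by
  intro l hl _ y hy
  obtain ⟨X, hX⟩ : ∃ X : ℝ, 0 ≤ X ∧ ∀ n ∈ l, (n : ℝ) * y ≤ X := by
    refine ⟨(l.map fun n : ℕ => (n : ℝ) * y).sum, ?_, ?_⟩
    · apply List.sum_nonneg
      intro x hx
      obtain ⟨n, -, rfl⟩ := List.mem_map.1 hx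
      positivity
    · intro n hn
      apply List.single_le_sum (fun x hx => ?_) _ (List.mem_map.2 ⟨n, hn, rfl⟩)
      obtain ⟨n, -, rfl⟩ := List.mem_map.1 hx
      positivity
  refine (lac y hy l hl X hX.1 hX.2).trans ?_
  rw [div_le_iff₀ (by linarith [hX.1])]
  linarith

theorem t_NNB : S_NNB := by
  refine ⟨100, by norm_num, ?_, ?_⟩
  · intro a b ha hb
    obtain ⟨h1, h2, h3⟩ := conv_gen (fun _ => norm_nonneg _) (fun _ => norm_nonneg _) ha hb
    have h0 : ∀ k, 0 ≤ cn a b k := fun k =>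
      tsum_nonneg fun l => mul_nonneg (norm_nonneg _) (norm_nonneg _)
    refine ⟨h0, h2, h3, h1, fun k => ?_⟩
    have h4 := prj_le k (cvv a b k)
    have h5 := cvv_le ha hb k
    have h6 : 0 ≤ len k * cn a b k := mul_nonneg (len_nonneg k) (h0 k)
    show ‖prj k (cvv a b k)‖ ≤ 100 * (len k * cn a b k)
    nlinarith
  · intro a a' b ha ha' hb
    refine ⟨fun k => ?_, fun k => ?_⟩
    · unfold NN
      rw [cvv_add_left ha ha' hb, prj_add]
    · unfold NN
      rw [cvv_add_right hb ha ha', prj_add]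

end Pool.Agent.N976.GD
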