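import Pool.Agent.N976.GD.Stm

/-!
Project GD, part PKF: the Fourier coefficients of packets.
-/

set_option autoImplicit false

open MeasureTheory Set Filter Topology
open scoped ContDiff

namespace Pool.Agent.N976.GD

open H459R3.NS Pool.Agent.N977.Q

namespace PF

/-! ### lengths -/

/-- squared length -/
noncomputable def lq (m : K3) : ℝ := ∑ j, (m j : ℝ) ^ 2

theorem lq_nonneg (m : K3) : 0 ≤ lq m := Finset.sum_nonneg fun _ _ => sq_nonneg _

theorem len_sq (m : K3) : len m ^ 2 = lq m := Real.sq_sqrt (lq_nonneg m)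

theorem len_nonneg (m : K3) : 0 ≤ len m := Real.sqrt_nonneg _

theorem len_neg (m : K3) : len (-m) = len m := by
  unfold len
  simp

theorem one_le_lq {m : K3} (hm : m ≠ 0) : 1 ≤ lq m := by
  have h1 : lq m = ((∑ j, (m j) ^ 2 : ℤ) : ℝ) := by unfold lq; push_cast; rfl
  have h2 : (0 : ℤ) ≤ ∑ j, (m j) ^ 2 := Finset.sum_nonneg fun j _ => sq_nonneg _
  have h3 : (∑ j, (m j) ^ 2 : ℤ) ≠ 0 := by
    intro h
    apply hm
    rw [Finset.sum_eq_zero_iff_of_nonneg fun j _ => sq_nonneg _] at h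
    funext j
    exact pow_eq_zero_iff (two_ne_zero) |>.1 (h j (Finset.mem_univ _))
  rw [h1]
  have : (1 : ℤ) ≤ ∑ j, (m j) ^ 2 := by omega
  exact_mod_cast this

theorem ne_zero_of_lq {m : K3} (h : 0 < lq m) : m ≠ 0 := by
  rintro rfl
  simp [lq] at h

/-! ### trigonometric families -/

theorem tc_neg (m : K3) (θ : ℝ) (b : Fin 3 → ℝ) : tc (-m) (-θ) b = tc m θ b := by
  unfold tc
  rw [neg_neg, add_comm]
  congr 2
  · funext i
    congr 2
    push_cast
    ring_nf
  · funext i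
    congr 2
    push_cast
    ring_nf

theorem tc_pi (m : K3) (θ : ℝ) (b : Fin 3 → ℝ) (k : K3) : tc m (θ - Real.pi) b k = -tc m θ b k := by
  have e1 : Complex.exp (((θ - Real.pi : ℝ) : ℂ) * Complex.I) = -Complex.exp (θ * Complex.I) := by
    push_cast
    rw [sub_mul, Complex.exp_sub, Complex.exp_pi_mul_I]
    ring
  have e2 : Complex.exp (-(((θ - Real.pi : ℝ) : ℂ) * Complex.I)) =
      -Complex.exp (-(θ * Complex.I)) := by
    have : -(((θ - Real.pi : ℝ) : ℂ) * Complex.I) = -(θ * Complex.I) + Real.pi * Complex.I := by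
      push_cast
      ring
    rw [this, Complex.exp_add, Complex.exp_pi_mul_I]
    ring
  unfold tc
  rw [e1, e2, Pi.add_apply, Pi.add_apply, neg_add]
  congr 1
  · by_cases h : k = m
    · subst h
      rw [Pi.single_eq_same, Pi.single_eq_same]
      funext i
      rw [Pi.neg_apply]
      ring
    · rw [Pi.single_eq_of_ne h, Pi.single_eq_of_ne h, neg_zero]
  · by_cases h : k = -m
    · subst h
      rw [Pi.single_eq_same, Pi.single_eq_same]
      funext i
      rw [Pi.neg_apply]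
      ring
    · rw [Pi.single_eq_of_ne h, Pi.single_eq_of_ne h, neg_zero]

theorem tc_smul (m : K3) (θ c : ℝ) (b : Fin 3 → ℝ) (k : K3) :
    tc m θ (fun i => c * b i) k = c • tc m θ b k := by
  unfold tc
  rw [Pi.add_apply, Pi.add_apply, smul_add]
  congr 1
  · by_cases h : k = m
    · subst h
      rw [Pi.single_eq_same, Pi.single_eq_same]
      funext i
      rw [Pi.smul_apply, Complex.real_smul]
      push_cast
      ring
    · rw [Pi.single_eq_of_ne h, Pi.single_eq_of_ne h, smul_zero]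
  · by_cases h : k = -m
    · subst h
      rw [Pi.single_eq_same, Pi.single_eq_same]
      funext i
      rw [Pi.smul_apply, Complex.real_smul]
      push_cast
      ring
    · rw [Pi.single_eq_of_ne h, Pi.single_eq_of_ne h, smul_zero]

theorem tc_zero {m : K3} {θ : ℝ} {b : Fin 3 → ℝ} {k : K3} (h1 : k ≠ m) (h2 : k ≠ -m) :
    tc m θ b k = 0 := by
  unfold tc
  rw [Pi.add_apply, Pi.single_eq_of_ne h1, Pi.single_eq_of_ne h2, add_zero]

theorem tc_len {m : K3} {θ : ℝ} {b : Fin 3 → ℝ} {k : K3} (h : tc m θ b k ≠ 0) :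
    len k = len m := by
  by_cases h1 : k = m
  · rw [h1]
  · by_cases h2 : k = -m
    · rw [h2, len_neg]
    · exact absurd (tc_zero h1 h2) h

/-- the heat flow -/
theorem tc_heat (m : K3) (θ c : ℝ) (b : Fin 3 → ℝ) (k : K3) (t : ℝ) :
    Real.exp (-(c * len k ^ 2 * t)) • tc m θ b k = Real.exp (-(c * lq m * t)) • tc m θ b k := by
  by_cases h : tc m θ b k = 0
  · rw [h, smul_zero, smul_zero]
  · rw [tc_len h, len_sq]

theorem norm_amp (x : ℝ) (b : Fin 3 → ℝ) :
    ‖(fun i => Complex.exp (x * Complex.I) / 2 * (b i : ℂ) : C3)‖ ≤ ‖b‖ / 2 := by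
  rw [pi_norm_le_iff_of_nonneg (by positivity)]
  intro i
  rw [norm_mul, norm_div, Complex.norm_exp_ofReal_mul_I, Complex.norm_real]
  have := norm_le_pi_norm b i
  simp only [Complex.norm_ofNat]
  linarith

theorem norm_amp' (x : ℝ) (b : Fin 3 → ℝ) :
    ‖(fun i => Complex.exp (-(x * Complex.I)) / 2 * (b i : ℂ) : C3)‖ ≤ ‖b‖ / 2 := by
  have h := norm_amp (-x) b
  have e : (((-x : ℝ) : ℂ) * Complex.I) = -(x * Complex.I) := by push_cast; ring
  rwa [e] at h

theorem tc_hasSum_le (m : K3) (θ : ℝ) (b : Fin 3 → ℝ) :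
    (Summable fun k => ‖tc m θ b k‖) ∧ An (tc m θ b) ≤ ‖b‖ := by
  set u : C3 := fun i => Complex.exp (θ * Complex.I) / 2 * (b i : ℂ) with hu
  set v : C3 := fun i => Complex.exp (-(θ * Complex.I)) / 2 * (b i : ℂ) with hv
  have h1 : HasSum (fun k : K3 => ‖(Pi.single m u : Cf) k‖) ‖u‖ := by
    have := hasSum_single (f := fun k : K3 => ‖(Pi.single m u : Cf) k‖) m (fun k hk => by
      rw [Pi.single_eq_of_ne hk, norm_zero])
    rwa [Pi.single_eq_same] at this
  have h2 : HasSum (fun k : K3 => ‖(Pi.single (-m) v : Cf) k‖) ‖v‖ := by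
    have := hasSum_single (f := fun k : K3 => ‖(Pi.single (-m) v : Cf) k‖) (-m) (fun k hk => by
      rw [Pi.single_eq_of_ne hk, norm_zero])
    rwa [Pi.single_eq_same] at this
  have h3 := h1.add h2
  have hle : ∀ k, ‖tc m θ b k‖ ≤ ‖(Pi.single m u : Cf) k‖ + ‖(Pi.single (-m) v : Cf) k‖ :=
    fun k => norm_add_le _ _
  have hs : Summable fun k => ‖tc m θ b k‖ :=
    Summable.of_nonneg_of_le (fun k => norm_nonneg _) hle h3.summable
  refine ⟨hs, ?_⟩
  unfold An
  calc ∑' k, ‖tc m θ b k‖ ≤ ‖u‖ + ‖v‖ := by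
        rw [← h3.tsum_eq]
        exact hs.tsum_le_tsum hle h3.summable
    _ ≤ ‖b‖ := by
        have h4 := norm_amp θ b
        have h5 := norm_amp' θ b
        rw [← hu] at h4
        rw [← hv] at h5
        linarith

theorem An_add_le {a b : Cf} (ha : Summable fun k => ‖a k‖) (hb : Summable fun k => ‖b k‖) :
    (Summable fun k => ‖(a + b) k‖) ∧ An (a + b) ≤ An a + An b := by
  have hs : Summable fun k => ‖(a + b) k‖ :=
    Summable.of_nonneg_of_le (fun k => norm_nonneg _) (fun k => norm_add_le _ _) (ha.add hb)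
  refine ⟨hs, ?_⟩
  unfold An
  rw [← ha.tsum_add hb]
  exact hs.tsum_le_tsum (fun k => norm_add_le _ _) (ha.add hb)

/-! ### Fourier coefficients -/

theorem fr_add {f g : V → ℝ} (hf : Continuous f) (hg : Continuous g) (k : K3) :
    fr (fun x => f x + g x) k = fr f k + fr g k := by
  unfold fr fc
  have e : ∀ x, ee (-k) x * ((f x + g x : ℝ) : ℂ) = ee (-k) x * (f x : ℂ) + ee (-k) x * (g x : ℂ) :=
    fun x => by push_cast; ring
  have hee : Continuous (ee (-k)) := by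
    unfold ee ph
    fun_prop
  have hc : ∀ {f : V → ℝ}, Continuous f → IntegrableOn (fun x => ee (-k) x * (f x : ℂ)) cube := by
    intro f hf
    exact (hee.mul (Complex.continuous_ofReal.comp hf)).continuousOn.integrableOn_compact
      isCompact_Icc
  simp_rw [e]
  exact integral_add (hc hf) (hc hg)

theorem fv_add {u v : V → V} (hu : SPV u) (hv : SPV v) :
    fv (fun x => u x + v x) = fv u + fv v := by
  funext k i
  have h1 : Continuous fun x => u x i := (continuous_apply i).comp hu.1.continuous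
  have h2 : Continuous fun x => v x i := (continuous_apply i).comp hv.1.continuous
  exact fr_add h1 h2 k

theorem spv_add {u v : V → V} (hu : SPV u) (hv : SPV v) : SPV (fun x => u x + v x) := by
  refine ⟨hu.1.add hv.1, fun i x => ?_⟩
  simp only
  rw [hu.2 i x, hv.2 i x]

/-! ### frequencies -/

/-- `a ξ + e k` -/
def mm (k p : K3) (a e : ℤ) : K3 := fun j => a * xi k p j + e * k j

theorem xi_zero (k p : K3) : xi k p 0 = k 1 * p 2 - k 2 * p 1 := by simp [xi, cross_apply]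
theorem xi_one (k p : K3) : xi k p 1 = k 2 * p 0 - k 0 * p 2 := by simp [xi, cross_apply]
theorem xi_two (k p : K3) : xi k p 2 = k 0 * p 1 - k 1 * p 0 := by simp [xi, cross_apply]

theorem mm_add (k p : K3) (a e a' e' : ℤ) :
    mm k p a e + mm k p a' e' = mm k p (a + a') (e + e') := by
  funext j
  simp only [mm, Pi.add_apply]
  ring

theorem mm_sub (k p : K3) (a e a' e' : ℤ) :
    mm k p a e - mm k p a' e' = mm k p (a - a') (e - e') := by
  funext j
  simp only [mm, Pi.sub_apply]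
  ring

theorem mm_k (k p : K3) : mm k p 0 1 = k := by
  funext j
  simp [mm]

theorem mm_nk (k p : K3) : mm k p 0 (-1) = -k := by
  funext j
  simp [mm]

theorem dot_p (k p : K3) (h : ∑ j, k j * p j = 0) (a e : ℤ) (c : ℝ) :
    ∑ j, (mm k p a e j : ℝ) * (c * (p j : ℝ)) = 0 := by
  have hr : (k 0 : ℝ) * p 0 + k 1 * p 1 + k 2 * p 2 = 0 := by
    rw [Fin.sum_univ_three] at h
    exact_mod_cast h
  rw [Fin.sum_univ_three]
  simp only [mm, xi_zero, xi_one, xi_two]
  push_cast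
  linear_combination (c * e) * hr

theorem dot_k (k p : K3) (a e : ℤ) (c : ℝ) :
    ∑ j, (mm k p a e j : ℝ) * (c * (k j : ℝ)) = c * e * lq k := by
  unfold lq
  rw [Fin.sum_univ_three, Fin.sum_univ_three]
  simp only [mm, xi_zero, xi_one, xi_two]
  push_cast
  ring

theorem lq_mm (k p : K3) (a e : ℤ) :
    lq (mm k p a e) = (a : ℝ) ^ 2 * lq (xi k p) + (e : ℝ) ^ 2 * lq k := by
  unfold lq
  rw [Fin.sum_univ_three, Fin.sum_univ_three, Fin.sum_univ_three]
  simp only [mm, xi_zero, xi_one, xi_two]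
  push_cast
  ring

theorem lq_xi (k p : K3) (h : ∑ j, k j * p j = 0) : lq (xi k p) = lq k * lq p := by
  have hr : (k 0 : ℝ) * p 0 + k 1 * p 1 + k 2 * p 2 = 0 := by
    rw [Fin.sum_univ_three] at h
    exact_mod_cast h
  unfold lq
  rw [Fin.sum_univ_three, Fin.sum_univ_three, Fin.sum_univ_three]
  simp only [xi_zero, xi_one, xi_two]
  push_cast
  linear_combination (-(k 0 : ℝ) * p 0 - k 1 * p 1 - k 2 * p 2) * hr

theorem ph_mm (k p : K3) (a e : ℤ) (x : V) :
    ph (mm k p a e) x = a * ph (xi k p) x + e * ph k x := by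
  unfold ph
  rw [Finset.mul_sum, Finset.mul_sum, ← Finset.sum_add_distrib]
  refine Finset.sum_congr rfl fun j _ => ?_
  simp only [mm]
  push_cast
  ring

theorem mm_ne (k p : K3) (hk : k ≠ 0) (a e : ℤ) (he : (e : ℝ) ^ 2 = 1) : mm k p a e ≠ 0 := by
  apply ne_zero_of_lq
  rw [lq_mm, he]
  have h1 := one_le_lq hk
  have h2 := lq_nonneg (xi k p)
  have h3 : 0 ≤ (a : ℝ) ^ 2 * lq (xi k p) := by positivity
  linarith

theorem mm_ne0 (k p : K3) (hk : k ≠ 0) (hp : p ≠ 0) (h : ∑ j, k j * p j = 0) (N : ℕ)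
    (hN : 1 ≤ N) : mm k p N 0 ≠ 0 := by
  apply ne_zero_of_lq
  rw [lq_mm, lq_xi k p h]
  have h1 := one_le_lq hk
  have h2 := one_le_lq hp
  have h3 : (0 : ℝ) < N := by exact_mod_cast hN
  push_cast
  have : 0 < (N : ℝ) ^ 2 * (lq k * lq p) := by positivity
  linarith

/-! ### the packet -/

/-- the amplitudes -/
def vk (c : ℝ) (k : K3) : Fin 3 → ℝ := fun i => c * (k i : ℝ)

theorem wp_eq (N : ℕ) (k p : K3) (α s : ℝ) : WP N k p α s =
    fun x => (CP (mm k p N 0) 0 (vk (N * α) k) x +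
      CP (mm k p N 1) (s - Real.pi / 2) (vk (N * α / 2) p) x) +
      CP (mm k p N (-1)) (Real.pi / 2 - s) (vk (N * α / 2) p) x := by
  funext x i
  simp only [WP, CP, Pi.add_apply, ph_mm, vk]
  push_cast
  set A : ℝ := 2 * Real.pi * (N * ph (xi k p) x) with hA
  set B : ℝ := 2 * Real.pi * ph k x + s with hB
  have e1 : 2 * Real.pi * (N * ph (xi k p) x + 0 * ph k x) + 0 = A := by rw [hA]; ring
  have e2 : 2 * Real.pi * (N * ph (xi k p) x + 1 * ph k x) + (s - Real.pi / 2) =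
      (A + B) - Real.pi / 2 := by rw [hA, hB]; ring
  have e3 : 2 * Real.pi * (N * ph (xi k p) x + -1 * ph k x) + (Real.pi / 2 - s) =
      (A - B) + Real.pi / 2 := by rw [hA, hB]; ring
  rw [e1, e2, e3, Real.cos_sub_pi_div_two, Real.cos_add_pi_div_two, Real.sin_add A B,
    Real.sin_sub A B]
  ring

theorem ep_eq (ν : ℝ) (k p : K3) (α s : ℝ) :
    EP ν k p α s = CP k s (vk (α ^ 2 / (8 * Real.pi * ν * lq p)) p) := by
  funext x i
  simp only [EP, CP, vk, len_sq]
  ring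

theorem fv_wp (hT : S_TCF) {k p : K3} (hk : k ≠ 0) (hp : p ≠ 0) (h : ∑ j, k j * p j = 0)
    (α s : ℝ) (N : ℕ) (hN : 1 ≤ N) : fv (WP N k p α s) =
      (tc (mm k p N 0) 0 (vk (N * α) k) +
        tc (mm k p N 1) (s - Real.pi / 2) (vk (N * α / 2) p)) +
        tc (mm k p N (-1)) (Real.pi / 2 - s) (vk (N * α / 2) p) := by
  obtain ⟨a1, a2, -⟩ := hT (mm k p N 0) 0 (vk (N * α) k)
  obtain ⟨b1, b2, -⟩ := hT (mm k p N 1) (s - Real.pi / 2) (vk (N * α / 2) p)
  obtain ⟨c1, c2, -⟩ := hT (mm k p N (-1)) (Real.pi / 2 - s) (vk (N * α / 2) p)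
  rw [wp_eq, fv_add (spv_add a1 b1) c1, fv_add a1 b1, a2 (mm_ne0 k p hk hp h N hN),
    b2 (mm_ne k p hk _ _ (by norm_num)), c2 (mm_ne k p hk _ _ (by norm_num))]

theorem tc_vk (m : K3) (θ c c' : ℝ) (q : K3) (k : K3) :
    tc m θ (vk (c * c') q) k = c • tc m θ (vk c' q) k := by
  rw [← tc_smul]
  congr 2
  funext i
  simp only [vk]
  ring

theorem smul_vk (m : K3) (θ c : ℝ) (q : K3) (k : K3) :
    tc m θ (vk c q) k = c • tc m θ (vk 1 q) k := by
  have := tc_vk m θ c 1 q k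
  rwa [mul_one] at this

theorem norm_vk (c : ℝ) (q : K3) : ‖vk c q‖ = |c| * ‖vk 1 q‖ := by
  have : vk c q = c • vk 1 q := by
    funext i
    simp [vk]
  rw [this, norm_smul, Real.norm_eq_abs]

/-- the packet at the time `t` -/
theorem heat_wp (hT : S_TCF) {k p : K3} (hk : k ≠ 0) (hp : p ≠ 0) (h : ∑ j, k j * p j = 0)
    (α s Λ : ℝ) (N : ℕ) (hN : 1 ≤ N) (t : ℝ) :
    (fun l => Real.exp (-(Λ * len l ^ 2 * t)) • fv (WP N k p α s) l) =
      (tc (mm k p N 0) 0 (vk (Real.exp (-(Λ * lq (mm k p N 0) * t)) * (N * α)) k) +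
        tc (mm k p N 1) (s - Real.pi / 2)
          (vk (Real.exp (-(Λ * lq (mm k p N 1) * t)) * (N * α / 2)) p)) +
        tc (mm k p N (-1)) (Real.pi / 2 - s)
          (vk (Real.exp (-(Λ * lq (mm k p N (-1)) * t)) * (N * α / 2)) p) := by
  funext l
  rw [fv_wp hT hk hp h α s N hN, Pi.add_apply, Pi.add_apply, Pi.add_apply, Pi.add_apply,
    smul_add, smul_add, tc_heat, tc_heat, tc_heat,
    tc_vk _ _ (Real.exp (-(Λ * lq (mm k p N 0) * t))) (N * α),
    tc_vk _ _ (Real.exp (-(Λ * lq (mm k p N 1) * t))) (N * α / 2),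
    tc_vk _ _ (Real.exp (-(Λ * lq (mm k p N (-1)) * t))) (N * α / 2)]

/-! ### the nonlinear term -/

theorem nn_pp (hS : S_NTC) {k p : K3} (h : ∑ j, k j * p j = 0) (a e a' e' : ℤ) (θ θ' c : ℝ)
    (b' : Fin 3 → ℝ) (l : K3) :
    NN (tc (mm k p a e) θ (vk c p)) (tc (mm k p a' e') θ' b') l = 0 :=
  (hS (mm k p a e) (mm k p a' e') θ θ' (vk c p) b' (dot_p k p h a e c)).1
    (dot_p k p h a' e' c) l

theorem nn_00 (hS : S_NTC) {k p : K3} (a a' : ℤ) (θ θ' c : ℝ)
    (b' : Fin 3 → ℝ) (l : K3) :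
    NN (tc (mm k p a 0) θ (vk c k)) (tc (mm k p a' 0) θ' b') l = 0 :=
  (hS (mm k p a 0) (mm k p a' 0) θ θ' (vk c k) b' (by
    have := dot_k k p a 0 c
    rw [Int.cast_zero, mul_zero, zero_mul] at this
    exact this)).1 (by
    have := dot_k k p a' 0 c
    rw [Int.cast_zero, mul_zero, zero_mul] at this
    exact this) l

theorem nn_0p (hS : S_NTC) {k p : K3} (hk : k ≠ 0) (h : ∑ j, k j * p j = 0) (a e : ℤ)
    (he : (e : ℝ) ^ 2 = 1) (θ θ' c c' : ℝ) (l : K3) :
    NN (tc (mm k p a 0) θ (vk c k)) (tc (mm k p a e) θ' (vk c' p)) l =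
      (-(Real.pi * (c * e * lq k))) •
        (tc (mm k p (a + a) e) (θ + θ' - Real.pi / 2) (vk c' p) l +
          tc (mm k p 0 (-e)) (θ - θ' + Real.pi / 2) (vk c' p) l) := by
  have h0 : ∑ j, (mm k p a 0 j : ℝ) * vk c k j = 0 := by
    have := dot_k k p a 0 c
    rw [Int.cast_zero, mul_zero, zero_mul] at this
    exact this
  have e1 : mm k p a 0 + mm k p a e = mm k p (a + a) e := by rw [mm_add, zero_add]
  have e2 : mm k p a 0 - mm k p a e = mm k p 0 (-e) := by rw [mm_sub, sub_self, zero_sub]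
  have h1 := (hS (mm k p a 0) (mm k p a e) θ θ' (vk c k) (vk c' p) h0).2
    (by rw [e1]; exact mm_ne k p hk _ _ he)
    (by rw [e2]; exact mm_ne k p hk _ _ (by push_cast; rw [neg_sq]; exact he))
    (dot_p k p h a 0 c') (dot_p k p h a e c') l
  rw [e1, e2] at h1
  have h2 : ∑ j, (mm k p a e j : ℝ) * vk c k j = c * e * lq k := dot_k k p a e c
  rw [h2] at h1
  exact h1

theorem nn9 (hS : S_NNB) {a b c : Cf} (ha : Summable fun k => ‖a k‖)
    (hb : Summable fun k => ‖b k‖) (hc : Summable fun k => ‖c k‖) (l : K3) :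
    NN (a + b + c) (a + b + c) l = NN a a l + NN a b l + NN a c l + NN b a l + NN b b l +
      NN b c l + NN c a l + NN c b l + NN c c l := by
  obtain ⟨C, -, -, h⟩ := hS
  have hab := (An_add_le ha hb).1
  have habc := (An_add_le hab hc).1
  rw [(h (a + b) c (a + b + c) hab hc habc).1 l, (h a b (a + b + c) ha hb habc).1 l,
    (h (a + b) c a hab hc ha).2 l, (h (a + b) c b hab hc hb).2 l, (h (a + b) c c hab hc hc).2 l,
    (h a b a ha hb ha).2 l, (h a b b ha hb hb).2 l, (h a b c ha hb hc).2 l]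
  abel

/-- the nonlinear term of a packet -/
theorem nn_packet (hB : S_NNB) (hS : S_NTC) {k p : K3} (hk : k ≠ 0) (h : ∑ j, k j * p j = 0)
    (s c0 c1 : ℝ) (N : ℕ) (l : K3) :
    NN ((tc (mm k p N 0) 0 (vk c0 k) + tc (mm k p N 1) (s - Real.pi / 2) (vk c1 p)) +
        tc (mm k p N (-1)) (Real.pi / 2 - s) (vk c1 p))
      ((tc (mm k p N 0) 0 (vk c0 k) + tc (mm k p N 1) (s - Real.pi / 2) (vk c1 p)) +
        tc (mm k p N (-1)) (Real.pi / 2 - s) (vk c1 p)) l =
      (Real.pi * c0 * lq k * c1) • (tc (mm k p (N + N) 1) s (vk 1 p) l +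
        tc (mm k p (N + N) (-1)) (-s) (vk 1 p) l) +
      (2 * (Real.pi * c0 * lq k * c1)) • tc k s (vk 1 p) l := by
  rw [nn9 hB (tc_hasSum_le _ _ _).1 (tc_hasSum_le _ _ _).1 (tc_hasSum_le _ _ _).1,
    nn_00 hS, nn_pp hS h, nn_pp hS h, nn_pp hS h, nn_pp hS h, nn_pp hS h, nn_pp hS h,
    nn_0p hS hk h N 1 (by norm_num), nn_0p hS hk h N (-1) (by norm_num), neg_neg, mm_k, mm_nk]
  have e1 : (0 : ℝ) + (s - Real.pi / 2) - Real.pi / 2 = s - Real.pi := by ring
  have e2 : (0 : ℝ) - (s - Real.pi / 2) + Real.pi / 2 = -(s - Real.pi) := by ring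
  have e3 : (0 : ℝ) + (Real.pi / 2 - s) - Real.pi / 2 = -s := by ring
  have e4 : (0 : ℝ) - (Real.pi / 2 - s) + Real.pi / 2 = s := by ring
  rw [e1, e2, e3, e4, tc_neg, tc_pi, tc_pi, smul_vk _ _ c1 p l, smul_vk _ _ c1 p l,
    smul_vk _ _ c1 p l]
  push_cast
  module

/-- the support of a trigonometric family is finite -/
theorem tc_fin (m : K3) (θ : ℝ) (b : Fin 3 → ℝ) : {l | tc m θ b l ≠ 0}.Finite := by
  refine Set.Finite.subset (Set.toFinite {m, -m}) fun l hl => ?_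
  by_contra h
  rw [Set.mem_insert_iff, Set.mem_singleton_iff, not_or] at h
  exact hl (tc_zero h.1 h.2)

theorem tc_at_zero {m : K3} (hm : m ≠ 0) (θ : ℝ) (b : Fin 3 → ℝ) : tc m θ b 0 = 0 :=
  tc_zero hm.symm (by
    intro h
    exact hm (neg_eq_zero.1 h.symm))

/-- a family supported on large frequencies -/
theorem tc_big {k p : K3} (hk : k ≠ 0) (hp : p ≠ 0) (h : ∑ j, k j * p j = 0) (N : ℕ) (e : ℤ)
    (he : (e : ℝ) ^ 2 = 1) (θ : ℝ) (b : Fin 3 → ℝ) (l : K3) :
    N * ‖tc (mm k p (N + N) e) θ b l‖ ≤ len l * ‖tc (mm k p (N + N) e) θ b l‖ := by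
  by_cases h0 : tc (mm k p (N + N) e) θ b l = 0
  · rw [h0, norm_zero, mul_zero, mul_zero]
  · refine mul_le_mul_of_nonneg_right ?_ (norm_nonneg _)
    rw [tc_len h0]
    unfold len
    apply Real.le_sqrt_of_sq_le
    change (N : ℝ) ^ 2 ≤ lq (mm k p (N + N) e)
    rw [lq_mm, he, lq_xi k p h]
    have h1 := one_le_lq hk
    have h2 := one_le_lq hp
    have h3 : 1 ≤ lq k * lq p := one_le_mul_of_one_le_of_one_le h1 h2
    push_cast
    have h4 : (N : ℝ) ^ 2 * 1 ≤ (N : ℝ) ^ 2 * (lq k * lq p) :=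
      mul_le_mul_of_nonneg_left h3 (by positivity)
    nlinarith

end PF

open PF in
theorem t_PKF : S_PKF := by
  intro hNN hT hS ν hν k p hk hp h α s
  have hk1 := one_le_lq hk
  have hp1 := one_le_lq hp
  have hxi := lq_xi k p h
  have hxi1 : 1 ≤ lq (xi k p) := by
    rw [hxi]
    exact one_le_mul_of_one_le_of_one_le hk1 hp1
  set Λ : ℝ := 4 * Real.pi ^ 2 * ν with hΛ
  have hΛ0 : 0 < Λ := by positivity
  set c : ℝ := α ^ 2 / (8 * Real.pi * ν * lq p) with hc
  have hc0 : 0 ≤ c := by positivity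
  set C₁ : ℝ := |α| * (‖vk 1 k‖ + ‖vk 1 p‖) + Real.pi * α ^ 2 * lq k * ‖vk 1 p‖ + c * ‖vk 1 p‖
    with hC₁
  have n1 : 0 ≤ |α| * (‖vk 1 k‖ + ‖vk 1 p‖) := by positivity
  have n2 : 0 ≤ Real.pi * α ^ 2 * lq k * ‖vk 1 p‖ := by positivity
  have n3 : 0 ≤ c * ‖vk 1 p‖ := by positivity
  have hE : fv (EP ν k p α s) = tc k s (vk c p) := by
    rw [ep_eq, (hT k s (vk (α ^ 2 / (8 * Real.pi * ν * lq p)) p)).2.1 hk]
  have hN0 : ∀ N : ℕ, lq (mm k p N 0) = (N : ℝ) ^ 2 * lq (xi k p) := by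
    intro N
    rw [lq_mm]
    push_cast
    ring
  have hN1 : ∀ N : ℕ, lq (mm k p N 1) = (N : ℝ) ^ 2 * lq (xi k p) + lq k := by
    intro N
    rw [lq_mm]
    push_cast
    ring
  have hN2 : ∀ N : ℕ, lq (mm k p N (-1)) = (N : ℝ) ^ 2 * lq (xi k p) + lq k := by
    intro N
    rw [lq_mm]
    push_cast
    ring
  have hexp : ∀ (N : ℕ) (t : ℝ), 0 ≤ t → ∀ y : ℝ, (N : ℝ) ^ 2 ≤ y →
      Real.exp (-(Λ * y * t)) ≤ Real.exp (-(Λ * (N : ℝ) ^ 2 * t)) := by
    intro N t ht y hy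
    apply Real.exp_le_exp.2
    have : Λ * (N : ℝ) ^ 2 * t ≤ Λ * y * t := by gcongr
    linarith
  have hNx : ∀ N : ℕ, (N : ℝ) ^ 2 ≤ (N : ℝ) ^ 2 * lq (xi k p) := by
    intro N
    have : (N : ℝ) ^ 2 * 1 ≤ (N : ℝ) ^ 2 * lq (xi k p) :=
      mul_le_mul_of_nonneg_left hxi1 (by positivity)
    linarith
  refine ⟨C₁, fun N t l => Real.exp (-(Λ * len l ^ 2 * t)) • fv (WP N k p α s) l,
    fun N t l => Real.exp (-((2 * Λ * lq (xi k p) * (N : ℝ) ^ 2 + Λ * len l ^ 2) * t)) •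
      fv (EP ν k p α s) l, ?_, ?_⟩
  swap
  · intro N hN
    funext l
    simp
  refine
    { C0 := by linarith
      w_eq := ?_
      g_eq := ?_
      wfin := ?_
      Efin := ?_
      w0 := ?_
      E0 := ?_
      wA := ?_
      gA := ?_ }
  · intro N hN t l
    simp
  · intro N hN
    refine ⟨2 * Λ * lq (xi k p) * (N : ℝ) ^ 2, by positivity, fun t l => rfl, ?_⟩
    set D : ℝ → ℝ := fun t => Real.pi * N * α ^ 2 * lq k / 2 *
      (Real.exp (-(Λ * lq (mm k p N 0) * t)) * Real.exp (-(Λ * lq (mm k p N 1) * t))) with hD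
    have hD0 : ∀ t, 0 ≤ D t := by
      intro t
      rw [hD]
      positivity
    set T1 : Cf := tc (mm k p (N + N) 1) s (vk 1 p) with hT1
    set T2 : Cf := tc (mm k p (N + N) (-1)) (-s) (vk 1 p) with hT2
    refine ⟨fun t l => D t * (‖T1 l‖ + ‖T2 l‖), ?_, ?_, ?_, ?_, ?_⟩
    · intro l
      rw [hD]
      fun_prop
    · have f1 := tc_fin (mm k p (N + N) 1) s (vk 1 p)
      have f2 := tc_fin (mm k p (N + N) (-1)) (-s) (vk 1 p)
      refine ⟨(f1.union f2).toFinset, fun t l hl => ?_⟩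
      rw [Set.Finite.mem_toFinset, Set.mem_union, not_or] at hl
      have g1 : T1 l = 0 := by
        by_contra h1
        exact hl.1 h1
      have g2 : T2 l = 0 := by
        by_contra h1
        exact hl.2 h1
      simp only
      rw [g1, g2, norm_zero, add_zero, mul_zero]
    · intro t l
      have := hD0 t
      positivity
    · intro t ht l
      rw [heat_wp hT hk hp h α s Λ N hN t]
      have e12 : lq (mm k p N (-1)) = lq (mm k p N 1) := by rw [hN1, hN2]
      rw [e12, nn_packet hNN hS hk h]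
      set e0 : ℝ := Real.exp (-(Λ * lq (mm k p N 0) * t)) with he0
      set e1 : ℝ := Real.exp (-(Λ * lq (mm k p N 1) * t)) with he1
      have low : (2 * (Real.pi * (e0 * (N * α)) * lq k * (e1 * (N * α / 2)))) •
          tc k s (vk 1 p) l = (2 * Λ * lq (xi k p) * (N : ℝ) ^ 2) •
            (Real.exp (-((2 * Λ * lq (xi k p) * (N : ℝ) ^ 2 + Λ * len l ^ 2) * t)) •
              fv (EP ν k p α s) l) := by
        rw [hE, smul_vk _ _ c p l]
        by_cases h0 : tc k s (vk 1 p) l = 0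
        · rw [h0, smul_zero, smul_zero, smul_zero, smul_zero]
        · rw [tc_len h0, len_sq, smul_smul, smul_smul]
          congr 1
          have e3 : Real.exp (-((2 * Λ * lq (xi k p) * (N : ℝ) ^ 2 + Λ * lq k) * t)) = e0 * e1 := by
            rw [he0, he1, ← Real.exp_add, hN0, hN1]
            congr 1
            ring
          rw [e3, hxi, hc, hΛ]
          field_simp
          ring
      rw [low, add_sub_cancel_right]
      have hcoef : Real.pi * (e0 * (N * α)) * lq k * (e1 * (N * α / 2)) = N * D t := by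
        rw [hD]
        simp only
        ring
      rw [hcoef, norm_smul, Real.norm_eq_abs, abs_of_nonneg (by have := hD0 t; positivity)]
      have t1 := tc_big hk hp h N 1 (by norm_num) s (vk 1 p) l
      have t2 := tc_big hk hp h N (-1) (by norm_num) (-s) (vk 1 p) l
      calc N * D t * ‖T1 l + T2 l‖ ≤ N * D t * (‖T1 l‖ + ‖T2 l‖) := by
            have := hD0 t
            gcongr
            exact norm_add_le _ _
        _ = D t * (N * ‖T1 l‖ + N * ‖T2 l‖) := by ring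
        _ ≤ D t * (len l * ‖T1 l‖ + len l * ‖T2 l‖) :=
            mul_le_mul_of_nonneg_left (add_le_add t1 t2) (hD0 t)
        _ = len l * (D t * (‖T1 l‖ + ‖T2 l‖)) := by ring
    · intro t ht
      obtain ⟨s1, b1⟩ := tc_hasSum_le (mm k p (N + N) 1) s (vk 1 p)
      obtain ⟨s2, b2⟩ := tc_hasSum_le (mm k p (N + N) (-1)) (-s) (vk 1 p)
      have hsum : ∑' l, D t * (‖T1 l‖ + ‖T2 l‖) = D t * (An T1 + An T2) := by
        rw [tsum_mul_left]
        congr 1
        exact s1.tsum_add s2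
      rw [hsum]
      have hb : D t ≤ Real.pi * N * α ^ 2 * lq k / 2 * Real.exp (-(Λ * (N : ℝ) ^ 2 * t)) := by
        rw [hD]
        simp only
        have h1 : Real.exp (-(Λ * lq (mm k p N 0) * t)) ≤ Real.exp (-(Λ * (N : ℝ) ^ 2 * t)) :=
          hexp N t ht _ (by rw [hN0]; exact hNx N)
        have h2 : Real.exp (-(Λ * lq (mm k p N 1) * t)) ≤ 1 := by
          rw [Real.exp_le_one_iff]
          have := lq_nonneg (mm k p N 1)
          have : 0 ≤ Λ * lq (mm k p N 1) * t := by positivity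
          linarith
        have h3 : Real.exp (-(Λ * lq (mm k p N 0) * t)) * Real.exp (-(Λ * lq (mm k p N 1) * t)) ≤
            Real.exp (-(Λ * (N : ℝ) ^ 2 * t)) * 1 :=
          mul_le_mul h1 h2 (Real.exp_pos _).le (Real.exp_pos _).le
        rw [mul_one] at h3
        exact mul_le_mul_of_nonneg_left h3 (by positivity)
      have hD0t := hD0 t
      calc D t * (An T1 + An T2) ≤ D t * (‖vk 1 p‖ + ‖vk 1 p‖) :=
            mul_le_mul_of_nonneg_left (add_le_add b1 b2) hD0t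
        _ ≤ (Real.pi * N * α ^ 2 * lq k / 2 * Real.exp (-(Λ * (N : ℝ) ^ 2 * t))) *
              (‖vk 1 p‖ + ‖vk 1 p‖) := mul_le_mul_of_nonneg_right hb (by positivity)
        _ = (Real.pi * α ^ 2 * lq k * ‖vk 1 p‖) * N * Real.exp (-(Λ * (N : ℝ) ^ 2 * t)) := by ring
        _ ≤ C₁ * N * Real.exp (-(Λ * (N : ℝ) ^ 2 * t)) := by
            have : Real.pi * α ^ 2 * lq k * ‖vk 1 p‖ ≤ C₁ := by linarith
            gcongr
  · intro N hN
    simp only [mul_zero, neg_zero, Real.exp_zero, one_smul]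
    rw [fv_wp hT hk hp h α s N hN]
    refine Set.Finite.subset (((tc_fin (mm k p N 0) 0 (vk (N * α) k)).union
      (tc_fin (mm k p N 1) (s - Real.pi / 2) (vk (N * α / 2) p))).union
      (tc_fin (mm k p N (-1)) (Real.pi / 2 - s) (vk (N * α / 2) p))) fun l hl => ?_
    by_contra h0
    rw [Set.mem_union, Set.mem_union, not_or, not_or] at h0
    apply hl
    have g1 := not_not.1 h0.1.1
    have g2 := not_not.1 h0.1.2
    have g3 := not_not.1 h0.2
    rw [Pi.add_apply, Pi.add_apply, g1, g2, g3, add_zero, add_zero]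
  · rw [hE]
    exact tc_fin _ _ _
  · intro N hN
    simp only [mul_zero, neg_zero, Real.exp_zero, one_smul]
    rw [fv_wp hT hk hp h α s N hN, Pi.add_apply, Pi.add_apply,
      tc_at_zero (mm_ne0 k p hk hp h N hN), tc_at_zero (mm_ne k p hk _ _ (by norm_num)),
      tc_at_zero (mm_ne k p hk _ _ (by norm_num)), add_zero, add_zero]
  · rw [hE]
    exact tc_at_zero hk _ _
  · intro N hN t ht
    rw [heat_wp hT hk hp h α s Λ N hN t]
    obtain ⟨s1, b1⟩ := tc_hasSum_le (mm k p N 0) 0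
      (vk (Real.exp (-(Λ * lq (mm k p N 0) * t)) * (N * α)) k)
    obtain ⟨s2, b2⟩ := tc_hasSum_le (mm k p N 1) (s - Real.pi / 2)
      (vk (Real.exp (-(Λ * lq (mm k p N 1) * t)) * (N * α / 2)) p)
    obtain ⟨s3, b3⟩ := tc_hasSum_le (mm k p N (-1)) (Real.pi / 2 - s)
      (vk (Real.exp (-(Λ * lq (mm k p N (-1)) * t)) * (N * α / 2)) p)
    obtain ⟨s12, b12⟩ := An_add_le s1 s2
    obtain ⟨-, b123⟩ := An_add_le s12 s3
    refine b123.trans ?_
    rw [norm_vk, abs_mul, abs_of_pos (Real.exp_pos _)] at b1 b2 b3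
    have h1 := hexp N t ht (lq (mm k p N 0)) (by rw [hN0]; exact hNx N)
    have h2 := hexp N t ht (lq (mm k p N 1)) (by rw [hN1]; have := hNx N; linarith)
    have h3 := hexp N t ht (lq (mm k p N (-1))) (by rw [hN2]; have := hNx N; linarith)
    set X : ℝ := Real.exp (-(Λ * (N : ℝ) ^ 2 * t)) with hX
    have hX0 : 0 < X := Real.exp_pos _
    have a1 : |(N : ℝ) * α| = N * |α| := by rw [abs_mul, Nat.abs_cast]
    have a2 : |(N : ℝ) * α / 2| = N * |α| / 2 := by
      rw [abs_div, a1, abs_of_pos (by norm_num : (0 : ℝ) < 2)]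
    rw [a1] at b1
    rw [a2] at b2 b3
    have c1 : An (tc (mm k p N 0) 0 (vk (Real.exp (-(Λ * lq (mm k p N 0) * t)) * (N * α)) k)) ≤
        X * (N * |α|) * ‖vk 1 k‖ := b1.trans (by gcongr)
    have c2 : An (tc (mm k p N 1) (s - Real.pi / 2)
        (vk (Real.exp (-(Λ * lq (mm k p N 1) * t)) * (N * α / 2)) p)) ≤
        X * (N * |α| / 2) * ‖vk 1 p‖ := b2.trans (by gcongr)
    have c3 : An (tc (mm k p N (-1)) (Real.pi / 2 - s)
        (vk (Real.exp (-(Λ * lq (mm k p N (-1)) * t)) * (N * α / 2)) p)) ≤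
        X * (N * |α| / 2) * ‖vk 1 p‖ := b3.trans (by gcongr)
    have c4 : X * (N * |α|) * ‖vk 1 k‖ + X * (N * |α| / 2) * ‖vk 1 p‖ +
        X * (N * |α| / 2) * ‖vk 1 p‖ = (|α| * (‖vk 1 k‖ + ‖vk 1 p‖)) * N * X := by ring
    have c5 : (|α| * (‖vk 1 k‖ + ‖vk 1 p‖)) * N * X ≤ C₁ * N * X := by
      have : |α| * (‖vk 1 k‖ + ‖vk 1 p‖) ≤ C₁ := by linarith
      gcongr
    linarith
  · intro N hN t ht
    rw [hE]
    obtain ⟨s1, b1⟩ := tc_hasSum_le k s (vk c p)
    rw [norm_vk, abs_of_nonneg hc0] at b1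
    set X : ℝ := Real.exp (-(Λ * (N : ℝ) ^ 2 * t)) with hX
    have hX0 : 0 < X := Real.exp_pos _
    have hle : ∀ l, ‖Real.exp (-((2 * Λ * lq (xi k p) * (N : ℝ) ^ 2 + Λ * len l ^ 2) * t)) •
        tc k s (vk c p) l‖ ≤ X * ‖tc k s (vk c p) l‖ := by
      intro l
      rw [norm_smul, Real.norm_eq_abs, abs_of_pos (Real.exp_pos _)]
      refine mul_le_mul_of_nonneg_right (Real.exp_le_exp.2 ?_) (norm_nonneg _)
      have h1 : Λ * (N : ℝ) ^ 2 ≤ 2 * Λ * lq (xi k p) * (N : ℝ) ^ 2 + Λ * len l ^ 2 := by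
        have h2 := hNx N
        have h3 : Λ * (N : ℝ) ^ 2 ≤ Λ * ((N : ℝ) ^ 2 * lq (xi k p)) := by gcongr
        have h4 : 0 ≤ Λ * ((N : ℝ) ^ 2 * lq (xi k p)) := by positivity
        have h5 : 0 ≤ Λ * len l ^ 2 := by positivity
        linarith
      have := mul_le_mul_of_nonneg_right h1 ht
      linarith
    unfold An
    have hs : Summable fun l => X * ‖tc k s (vk c p) l‖ := s1.mul_left X
    calc ∑' l, ‖Real.exp (-((2 * Λ * lq (xi k p) * (N : ℝ) ^ 2 + Λ * len l ^ 2) * t)) •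
          tc k s (vk c p) l‖ ≤ ∑' l, X * ‖tc k s (vk c p) l‖ :=
          (Summable.of_nonneg_of_le (fun l => norm_nonneg _) hle hs).tsum_le_tsum hle hs
      _ = X * An (tc k s (vk c p)) := tsum_mul_left
      _ ≤ X * (c * ‖vk 1 p‖) := mul_le_mul_of_nonneg_left b1 hX0.le
      _ ≤ X * C₁ := mul_le_mul_of_nonneg_left (by linarith) hX0.le
      _ = C₁ * X := mul_comm _ _

end Pool.Agent.N976.GD
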