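import Pool.Agent.N976.GD.Stm

/-!
Project GD: packets as fields (PKN), by helper935.
-/

set_option autoImplicit false

open MeasureTheory Set Filter Topology
open scoped ContDiff

namespace Pool.Agent.N976.GD

open H459R3.NS Pool.Agent.N977.Q

namespace PN

/-! ### Additivity -/

theorem comp_diff {u : V → V} (hu : SPV u) (i : Fin 3) : ContDiff ℝ ∞ (fun x => u x i) :=
  contDiff_pi.1 hu.1 i

theorem spv_add {u v : V → V} (hu : SPV u) (hv : SPV v) : SPV (fun x => u x + v x) := by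
  refine ⟨hu.1.add hv.1, fun i x => ?_⟩
  show u (x + Pi.single i 1) + v (x + Pi.single i 1) = u x + v x
  rw [hu.2 i x, hv.2 i x]

theorem dv_add {u v : V → V} (hu : SPV u) (hv : SPV v) (h1 : Dv u) (h2 : Dv v) :
    Dv (fun x => u x + v x) := by
  intro x
  have h : ∀ i, pd i (fun y => (u y + v y) i) x = pd i (fun y => u y i) x + pd i (fun y => v y i) x := by
    intro i
    have e1 : DifferentiableAt ℝ (fun y => u y i) x :=
      (comp_diff hu i).differentiable (by simp) x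
    have e2 : DifferentiableAt ℝ (fun y => v y i) x :=
      (comp_diff hv i).differentiable (by simp) x
    have e3 : fderiv ℝ (fun y => u y i + v y i) x =
        fderiv ℝ (fun y => u y i) x + fderiv ℝ (fun y => v y i) x := fderiv_fun_add e1 e2
    unfold pd
    show fderiv ℝ (fun y => u y i + v y i) x (Pi.single i 1) = _
    rw [e3]
    rfl
  rw [Finset.sum_congr rfl fun i _ => h i, Finset.sum_add_distrib, h1 x, h2 x, add_zero]

theorem ee_cont (k : K3) : Continuous (ee k) := by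
  unfold ee ph
  fun_prop

theorem fv_add {u v : V → V} (hu : SPV u) (hv : SPV v) :
    fv (fun x => u x + v x) = fun k => fv u k + fv v k := by
  funext k i
  have hi : ∀ w : V → V, SPV w → IntegrableOn (fun x => ee (-k) x * ((w x i : ℝ) : ℂ)) cube := by
    intro w hw
    have hc : Continuous fun x => w x i := (comp_diff hw i).continuous
    have hc2 : Continuous (fun x => ee (-k) x * ((w x i : ℝ) : ℂ)) :=
      (ee_cont (-k)).mul (Complex.continuous_ofReal.comp hc)
    exact hc2.continuousOn.integrableOn_compact isCompact_Icc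
  show (∫ x in cube, ee (-k) x * (((u x + v x) i : ℝ) : ℂ)) =
    (∫ x in cube, ee (-k) x * ((u x i : ℝ) : ℂ)) + ∫ x in cube, ee (-k) x * ((v x i : ℝ) : ℂ)
  rw [← integral_add (hi u hu) (hi v hv)]
  congr 1
  funext x
  rw [Pi.add_apply]
  push_cast
  ring

/-! ### Lengths -/

theorem len_sq (k : K3) : len k ^ 2 = ∑ j, (k j : ℝ) ^ 2 := by
  unfold len
  exact Real.sq_sqrt (Finset.sum_nonneg fun j _ => sq_nonneg _)

theorem len_nonneg (k : K3) : 0 ≤ len k := Real.sqrt_nonneg _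

theorem len_neg (k : K3) : len (-k) = len k := by
  unfold len
  congr 1
  refine Finset.sum_congr rfl fun j _ => ?_
  rw [Pi.neg_apply]
  push_cast
  ring

theorem abs_le_len (k : K3) (i : Fin 3) : |(k i : ℝ)| ≤ len k := by
  unfold len
  refine Real.abs_le_sqrt ?_
  exact Finset.single_le_sum (f := fun j => (k j : ℝ) ^ 2) (fun j _ => sq_nonneg _)
    (Finset.mem_univ i)

theorem len_zero : len (0 : K3) = 0 := by
  unfold len
  simp

/-- the square of the length, as an integer -/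
theorem sq_pos {k : K3} (hk : k ≠ 0) : 0 < k 0 ^ 2 + k 1 ^ 2 + k 2 ^ 2 := by
  by_contra h
  push Not at h
  apply hk
  have h0 := sq_nonneg (k 0)
  have h1 := sq_nonneg (k 1)
  have h2 := sq_nonneg (k 2)
  have e0 : k 0 ^ 2 = 0 := by linarith
  have e1 : k 1 ^ 2 = 0 := by linarith
  have e2 : k 2 ^ 2 = 0 := by linarith
  funext i
  fin_cases i
  · exact pow_eq_zero_iff (two_ne_zero) |>.1 e0
  · exact pow_eq_zero_iff (two_ne_zero) |>.1 e1
  · exact pow_eq_zero_iff (two_ne_zero) |>.1 e2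

theorem xi0 (k p : K3) : xi k p 0 = k 1 * p 2 - k 2 * p 1 := by
  simp [xi, cross_apply]

theorem xi1 (k p : K3) : xi k p 1 = k 2 * p 0 - k 0 * p 2 := by
  simp [xi, cross_apply]

theorem xi2 (k p : K3) : xi k p 2 = k 0 * p 1 - k 1 * p 0 := by
  simp [xi, cross_apply]

theorem xi_k (k p : K3) : ∑ j, xi k p j * k j = 0 := by
  rw [Fin.sum_univ_three, xi0, xi1, xi2]
  ring

theorem xi_p (k p : K3) : ∑ j, xi k p j * p j = 0 := by
  rw [Fin.sum_univ_three, xi0, xi1, xi2]
  ring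

theorem xi_sq {k p : K3} (hk : k ≠ 0) (hp : p ≠ 0) (h : ∑ j, k j * p j = 0) :
    1 ≤ ∑ j, xi k p j ^ 2 := by
  have h1 := sq_pos hk
  have h2 := sq_pos hp
  rw [Fin.sum_univ_three] at h
  have e : ∑ j, xi k p j ^ 2 = (k 0 ^ 2 + k 1 ^ 2 + k 2 ^ 2) * (p 0 ^ 2 + p 1 ^ 2 + p 2 ^ 2) -
      (k 0 * p 0 + k 1 * p 1 + k 2 * p 2) ^ 2 := by
    rw [Fin.sum_univ_three, xi0, xi1, xi2]
    ring
  rw [e, h]
  have h3 := mul_pos h1 h2
  omega

/-- frequencies of the packet -/
theorem len_ge {N : ℕ} {ξ k : K3} (hξ : 1 ≤ ∑ j, ξ j ^ 2) (h : ∑ j, ξ j * k j = 0) (c : ℤ) :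
    (N : ℝ) ≤ len (fun j => (N : ℤ) * ξ j + c * k j) := by
  unfold len
  refine Real.le_sqrt_of_sq_le ?_
  have e : ∑ j, (((fun j => (N : ℤ) * ξ j + c * k j) j : ℤ) : ℝ) ^ 2 =
      (N : ℝ) ^ 2 * ((∑ j, ξ j ^ 2 : ℤ) : ℝ) + 2 * N * c * ((∑ j, ξ j * k j : ℤ) : ℝ) +
        (c : ℝ) ^ 2 * ∑ j, (k j : ℝ) ^ 2 := by
    push_cast
    simp only [Fin.sum_univ_three]
    ring
  rw [e, h]
  have h1 : (1 : ℝ) ≤ ((∑ j, ξ j ^ 2 : ℤ) : ℝ) := by exact_mod_cast hξ
  have h2 : (0 : ℝ) ≤ (c : ℝ) ^ 2 * ∑ j, (k j : ℝ) ^ 2 :=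
    mul_nonneg (sq_nonneg _) (Finset.sum_nonneg fun j _ => sq_nonneg _)
  have h3 : (0 : ℝ) ≤ (N : ℝ) ^ 2 := sq_nonneg _
  have h4 := mul_le_mul_of_nonneg_left h1 h3
  push_cast at h4 ⊢
  linarith

theorem ne_zero_of {N : ℕ} (hN : 1 ≤ N) {m : K3} (h : (N : ℝ) ≤ len m) : m ≠ 0 := by
  rintro rfl
  rw [len_zero] at h
  have : (1 : ℝ) ≤ N := by exact_mod_cast hN
  linarith

/-! ### Coefficients -/

/-- bound for the coefficients -/
noncomputable def bd (m : K3) (B : ℝ) (l : K3) : ℝ :=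
  (if l = m then B / 2 else 0) + (if l = -m then B / 2 else 0)

theorem tc_le (m : K3) (θ : ℝ) (b : Fin 3 → ℝ) {B : ℝ} (hB0 : 0 ≤ B) (hB : ∀ i, |b i| ≤ B)
    (l : K3) : ‖tc m θ b l‖ ≤ bd m B l := by
  unfold tc bd
  rw [Pi.add_apply, Pi.single_apply, Pi.single_apply]
  have h1 : ‖(fun i => Complex.exp (θ * Complex.I) / 2 * (b i : ℂ) : C3)‖ ≤ B / 2 := by
    rw [pi_norm_le_iff_of_nonneg (by positivity)]
    intro i
    rw [norm_mul, norm_div, Complex.norm_exp_ofReal_mul_I, Complex.norm_real, Complex.norm_ofNat,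
      Real.norm_eq_abs]
    have := hB i
    linarith
  have h2 : ‖(fun i => Complex.exp (-(θ * Complex.I)) / 2 * (b i : ℂ) : C3)‖ ≤ B / 2 := by
    rw [pi_norm_le_iff_of_nonneg (by positivity)]
    intro i
    have e : (-(θ * Complex.I) : ℂ) = ((-θ : ℝ) : ℂ) * Complex.I := by push_cast; ring
    rw [e, norm_mul, norm_div, Complex.norm_exp_ofReal_mul_I, Complex.norm_real,
      Complex.norm_ofNat, Real.norm_eq_abs]
    have := hB i
    linarith
  refine (norm_add_le _ _).trans (add_le_add ?_ ?_)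
  · split_ifs
    · exact h1
    · rw [norm_zero]
  · split_ifs
    · exact h2
    · rw [norm_zero]

theorem tc_zero {m : K3} (hm : m ≠ 0) (θ : ℝ) (b : Fin 3 → ℝ) : tc m θ b 0 = 0 := by
  unfold tc
  rw [Pi.add_apply, Pi.single_apply, Pi.single_apply, if_neg (Ne.symm hm),
    if_neg (fun h => hm (neg_eq_zero.1 h.symm)), add_zero]

theorem bd_sum (m : K3) (B t : ℝ) :
    HasSum (fun l => Real.exp (-(4 * Real.pi ^ 2 * len l ^ 2 * t)) * bd m B l)
      (Real.exp (-(4 * Real.pi ^ 2 * len m ^ 2 * t)) * B) := by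
  have h1 := hasSum_ite_eq m (Real.exp (-(4 * Real.pi ^ 2 * len m ^ 2 * t)) * (B / 2))
  have h2 := hasSum_ite_eq (-m) (Real.exp (-(4 * Real.pi ^ 2 * len m ^ 2 * t)) * (B / 2))
  have h3 := h1.add h2
  have e1 : Real.exp (-(4 * Real.pi ^ 2 * len m ^ 2 * t)) * (B / 2) +
      Real.exp (-(4 * Real.pi ^ 2 * len m ^ 2 * t)) * (B / 2) =
      Real.exp (-(4 * Real.pi ^ 2 * len m ^ 2 * t)) * B := by ring
  rw [e1] at h3
  have e2 : (fun l => Real.exp (-(4 * Real.pi ^ 2 * len l ^ 2 * t)) * bd m B l) = fun l =>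
      (if l = m then Real.exp (-(4 * Real.pi ^ 2 * len m ^ 2 * t)) * (B / 2) else 0) +
      (if l = -m then Real.exp (-(4 * Real.pi ^ 2 * len m ^ 2 * t)) * (B / 2) else 0) := by
    funext l
    unfold bd
    rw [mul_add]
    congr 1
    · split_ifs with h
      · rw [h]
      · rw [mul_zero]
    · split_ifs with h
      · rw [h, len_neg]
      · rw [mul_zero]
  rw [e2]
  exact h3

theorem bd_summable (m : K3) (B : ℝ) : Summable (bd m B) := by
  have h := (bd_sum m B 0).summable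
  simpa using h

theorem bd_nonneg (m : K3) {B : ℝ} (hB : 0 ≤ B) (l : K3) : 0 ≤ bd m B l := by
  unfold bd
  split_ifs <;> linarith

/-! ### The decomposition -/

/-- the frequencies -/
def mm (N : ℕ) (k p : K3) (c : ℤ) : K3 := fun j => (N : ℤ) * xi k p j + c * k j

theorem ph_mm (N : ℕ) (k p : K3) (c : ℤ) (x : V) :
    ph (mm N k p c) x = N * ph (xi k p) x + c * ph k x := by
  unfold ph mm
  rw [Finset.mul_sum, Finset.mul_sum, ← Finset.sum_add_distrib]
  refine Finset.sum_congr rfl fun j _ => ?_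
  push_cast
  ring

/-- the packet as a sum of three trigonometric fields -/
theorem wp_eq (N : ℕ) (k p : K3) (α s : ℝ) : WP N k p α s = fun x =>
    (CP (mm N k p 0) 0 (fun i => N * α * k i) x +
      CP (mm N k p 1) (s - Real.pi / 2) (fun i => N * α / 2 * p i) x) +
      CP (mm N k p (-1)) (Real.pi / 2 - s) (fun i => N * α / 2 * p i) x := by
  funext x i
  simp only [WP, CP, Pi.add_apply, ph_mm]
  set A : ℝ := 2 * Real.pi * (N * ph (xi k p) x) with hA
  set B : ℝ := 2 * Real.pi * ph k x + s with hB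
  have e0 : 2 * Real.pi * (N * ph (xi k p) x + ((0 : ℤ) : ℝ) * ph k x) + 0 = A := by
    rw [hA]; push_cast; ring
  have e1 : 2 * Real.pi * (N * ph (xi k p) x + ((1 : ℤ) : ℝ) * ph k x) + (s - Real.pi / 2) =
      (A + B) - Real.pi / 2 := by
    rw [hA, hB]; push_cast; ring
  have e2 : 2 * Real.pi * (N * ph (xi k p) x + ((-1 : ℤ) : ℝ) * ph k x) + (Real.pi / 2 - s) =
      (A - B) + Real.pi / 2 := by
    rw [hA, hB]; push_cast; ring
  rw [e0, e1, e2, Real.cos_sub_pi_div_two, Real.cos_add_pi_div_two, Real.sin_add A B,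
    Real.sin_sub A B]
  ring

/-- the mean velocity as a trigonometric field -/
theorem ep_eq (ν : ℝ) (k p : K3) (α s : ℝ) : EP ν k p α s =
    CP k s (fun i => α ^ 2 / (8 * Real.pi * ν * len p ^ 2) * p i) := by
  funext x i
  simp only [EP, CP]
  ring

end PN

theorem t_PKN : S_PKN := by
  intro hT k p hk hp hkp α s
  have hkp' : ∑ j, (k j : ℝ) * (p j : ℝ) = 0 := by exact_mod_cast hkp
  refine ⟨fun N hN => ?_, fun ν => ?_⟩
  · have hξ := PN.xi_sq hk hp hkp
    have hξk := PN.xi_k k p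
    have hξp := PN.xi_p k p
    have hN0 : (0 : ℝ) ≤ N := Nat.cast_nonneg N
    have hlen : ∀ c : ℤ, (N : ℝ) ≤ len (PN.mm N k p c) := fun c => PN.len_ge hξ hξk c
    have hne : ∀ c : ℤ, PN.mm N k p c ≠ 0 := fun c => PN.ne_zero_of hN (hlen c)
    obtain ⟨hs0, hf0, hd0⟩ := hT (PN.mm N k p 0) 0 (fun i => N * α * k i)
    obtain ⟨hs1, hf1, hd1⟩ := hT (PN.mm N k p 1) (s - Real.pi / 2) (fun i => N * α / 2 * p i)
    obtain ⟨hs2, hf2, hd2⟩ := hT (PN.mm N k p (-1)) (Real.pi / 2 - s) (fun i => N * α / 2 * p i)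
    have hd0' := hd0 (by
      have h1 : ((∑ j, xi k p j * k j : ℤ) : ℝ) = 0 := by rw [hξk]; simp
      push_cast at h1
      have h2 : ∑ j, ((PN.mm N k p 0 j : ℤ) : ℝ) * (N * α * k j) =
          N * (N * α) * ∑ j, (xi k p j : ℝ) * (k j : ℝ) := by
        rw [Finset.mul_sum]
        refine Finset.sum_congr rfl fun j _ => ?_
        unfold PN.mm
        push_cast
        ring
      rw [h2, h1, mul_zero])
    have hdp : ∀ c : ℤ, ∑ j, ((PN.mm N k p c j : ℤ) : ℝ) * (N * α / 2 * p j) = 0 := by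
      intro c
      have h1 : ((∑ j, xi k p j * p j : ℤ) : ℝ) = 0 := by rw [hξp]; simp
      push_cast at h1
      have h2 : ∑ j, ((PN.mm N k p c j : ℤ) : ℝ) * (N * α / 2 * p j) =
          N * (N * α / 2) * (∑ j, (xi k p j : ℝ) * (p j : ℝ)) +
            c * (N * α / 2) * ∑ j, (k j : ℝ) * (p j : ℝ) := by
        rw [Finset.mul_sum, Finset.mul_sum, ← Finset.sum_add_distrib]
        refine Finset.sum_congr rfl fun j _ => ?_
        unfold PN.mm
        push_cast
        ring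
      rw [h2, h1, hkp', mul_zero, mul_zero, add_zero]
    have hd1' := hd1 (hdp 1)
    have hd2' := hd2 (hdp (-1))
    have hs01 := PN.spv_add hs0 hs1
    have hfv : fv (WP N k p α s) = fun l =>
        (tc (PN.mm N k p 0) 0 (fun i => N * α * k i) l +
          tc (PN.mm N k p 1) (s - Real.pi / 2) (fun i => N * α / 2 * p i) l) +
          tc (PN.mm N k p (-1)) (Real.pi / 2 - s) (fun i => N * α / 2 * p i) l := by
      rw [PN.wp_eq, PN.fv_add hs01 hs2, PN.fv_add hs0 hs1, hf0 (hne 0), hf1 (hne 1), hf2 (hne (-1))]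
    have hB0 : ∀ i, |(N : ℝ) * α * k i| ≤ N * |α| * len k := by
      intro i
      rw [abs_mul, abs_mul, abs_of_nonneg hN0]
      exact mul_le_mul_of_nonneg_left (PN.abs_le_len k i) (by positivity)
    have hB1 : ∀ i, |(N : ℝ) * α / 2 * p i| ≤ N * |α| / 2 * len p := by
      intro i
      rw [abs_mul, abs_div, abs_mul, abs_of_nonneg hN0, abs_two]
      exact mul_le_mul_of_nonneg_left (PN.abs_le_len p i) (by positivity)
    have hlk := PN.len_nonneg k
    have hlp := PN.len_nonneg p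
    have hnorm : ∀ l, ‖fv (WP N k p α s) l‖ ≤
        (PN.bd (PN.mm N k p 0) (N * |α| * len k) l + PN.bd (PN.mm N k p 1) (N * |α| / 2 * len p) l) +
          PN.bd (PN.mm N k p (-1)) (N * |α| / 2 * len p) l := by
      intro l
      rw [hfv]
      refine (norm_add_le _ _).trans (add_le_add ((norm_add_le _ _).trans (add_le_add ?_ ?_)) ?_)
      · exact PN.tc_le _ _ _ (by positivity) hB0 l
      · exact PN.tc_le _ _ _ (by positivity) hB1 l
      · exact PN.tc_le _ _ _ (by positivity) hB1 l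
    refine ⟨?_, ?_, ?_, ?_, fun t ht => ?_⟩
    · rw [PN.wp_eq]
      exact PN.spv_add hs01 hs2
    · rw [PN.wp_eq]
      exact PN.dv_add hs01 hs2 (PN.dv_add hs0 hs1 hd0' hd1') hd2'
    · rw [hfv]
      simp only [PN.tc_zero (hne 0), PN.tc_zero (hne 1), PN.tc_zero (hne (-1)), add_zero]
    · refine Summable.of_nonneg_of_le (fun l => norm_nonneg _) hnorm ?_
      exact ((PN.bd_summable _ _).add (PN.bd_summable _ _)).add (PN.bd_summable _ _)
    · have h0 := PN.bd_sum (PN.mm N k p 0) (N * |α| * len k) t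
      have h1 := PN.bd_sum (PN.mm N k p 1) (N * |α| / 2 * len p) t
      have h2 := PN.bd_sum (PN.mm N k p (-1)) (N * |α| / 2 * len p) t
      have h3 := (h0.add h1).add h2
      have hle : ∀ l, Real.exp (-(4 * Real.pi ^ 2 * len l ^ 2 * t)) * ‖fv (WP N k p α s) l‖ ≤
          (Real.exp (-(4 * Real.pi ^ 2 * len l ^ 2 * t)) * PN.bd (PN.mm N k p 0) (N * |α| * len k) l +
          Real.exp (-(4 * Real.pi ^ 2 * len l ^ 2 * t)) *
            PN.bd (PN.mm N k p 1) (N * |α| / 2 * len p) l) +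
          Real.exp (-(4 * Real.pi ^ 2 * len l ^ 2 * t)) *
            PN.bd (PN.mm N k p (-1)) (N * |α| / 2 * len p) l := by
        intro l
        rw [← mul_add, ← mul_add]
        exact mul_le_mul_of_nonneg_left (hnorm l) (Real.exp_pos _).le
      have hsum : Summable fun l => Real.exp (-(4 * Real.pi ^ 2 * len l ^ 2 * t)) *
          ‖fv (WP N k p α s) l‖ :=
        Summable.of_nonneg_of_le (fun l => mul_nonneg (Real.exp_pos _).le (norm_nonneg _)) hle
          h3.summable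
      have h4 := hsum.tsum_le_tsum hle h3.summable
      rw [h3.tsum_eq] at h4
      refine h4.trans ?_
      have hexp : ∀ c : ℤ, Real.exp (-(4 * Real.pi ^ 2 * len (PN.mm N k p c) ^ 2 * t)) ≤
          Real.exp (-(4 * Real.pi ^ 2 * N ^ 2 * t)) := by
        intro c
        refine Real.exp_le_exp.2 (neg_le_neg ?_)
        have h5 : (N : ℝ) ^ 2 ≤ len (PN.mm N k p c) ^ 2 :=
          pow_le_pow_left₀ hN0 (hlen c) 2
        have h6 : 0 ≤ 4 * Real.pi ^ 2 := by positivity
        exact mul_le_mul_of_nonneg_right (mul_le_mul_of_nonneg_left h5 h6) ht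
      have hX : 0 ≤ Real.exp (-(4 * Real.pi ^ 2 * N ^ 2 * t)) := (Real.exp_pos _).le
      have hc0 : 0 ≤ N * |α| * len k := by positivity
      have hc1 : 0 ≤ N * |α| / 2 * len p := by positivity
      calc _ ≤ (Real.exp (-(4 * Real.pi ^ 2 * N ^ 2 * t)) * (N * |α| * len k) +
            Real.exp (-(4 * Real.pi ^ 2 * N ^ 2 * t)) * (N * |α| / 2 * len p)) +
            Real.exp (-(4 * Real.pi ^ 2 * N ^ 2 * t)) * (N * |α| / 2 * len p) :=
            add_le_add (add_le_add (mul_le_mul_of_nonneg_right (hexp 0) hc0)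
              (mul_le_mul_of_nonneg_right (hexp 1) hc1))
              (mul_le_mul_of_nonneg_right (hexp (-1)) hc1)
        _ = |α| * N * (len k + len p) * 1 * Real.exp (-(4 * Real.pi ^ 2 * N ^ 2 * t)) := by ring
        _ ≤ |α| * N * (len k + len p) * 2 * Real.exp (-(4 * Real.pi ^ 2 * N ^ 2 * t)) := by
            refine mul_le_mul_of_nonneg_right ?_ hX
            refine mul_le_mul_of_nonneg_left (by norm_num) ?_
            positivity
  · obtain ⟨h1, h2, h3⟩ := hT k s (fun i => α ^ 2 / (8 * Real.pi * ν * len p ^ 2) * p i)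
    rw [PN.ep_eq]
    refine ⟨h1, h3 ?_, ?_, ?_⟩
    · have h4 : ∑ j, (k j : ℝ) * (α ^ 2 / (8 * Real.pi * ν * len p ^ 2) * p j) =
          α ^ 2 / (8 * Real.pi * ν * len p ^ 2) * ∑ j, (k j : ℝ) * (p j : ℝ) := by
        rw [Finset.mul_sum]
        refine Finset.sum_congr rfl fun j _ => ?_
        ring
      rw [h4, hkp', mul_zero]
    · rw [h2 hk, PN.tc_zero hk]
    · rw [h2 hk]
      set c := α ^ 2 / (8 * Real.pi * ν * len p ^ 2) with hc
      refine Summable.of_nonneg_of_le (fun l => norm_nonneg _)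
        (fun l => PN.tc_le k s (fun i => c * p i) (B := |c| * len p) ?_ (fun i => ?_) l)
        (PN.bd_summable _ _)
      · have := PN.len_nonneg p
        positivity
      · rw [abs_mul]
        exact mul_le_mul_of_nonneg_left (PN.abs_le_len p i) (abs_nonneg _)

end Pool.Agent.N976.GD
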