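import Pool.Agent.N976.GD.Stb
import Pool.Agent.N976.GD.Stm2

/-!
The stability theorem with closeness (copy of the proof of helper441 in `Stb.lean`).
-/

set_option autoImplicit false

open MeasureTheory Set Filter Topology

namespace Pool.Agent.N976.GD

open H459R3.NS Pool.Agent.N977.Q

open SB in
theorem t_STB2 : S_STB2 := by
  intro hMOD hMIN hZIN hGRW hNNB Λ hΛ v hv hQe hBe C₁ w g E P
  obtain ⟨Q, hQ⟩ := hQe
  obtain ⟨B, hB⟩ := hBe
  obtain ⟨C, hC, h1, h2⟩ := hNNB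
  have h1 : P1 C := h1
  have h2 : P2 := h2
  obtain ⟨κ, hκ, hZ⟩ := hZIN hMOD hMIN Λ (1 + C) hΛ (by positivity)
  have hC₁ := P.C0
  obtain ⟨Q0, hQ0, hQQ⟩ : ∃ Q0 : ℝ, 0 ≤ Q0 ∧ Q ≤ Q0 := ⟨max Q 0, le_max_right _ _, le_max_left _ _⟩
  obtain ⟨B0, hB0, hBB⟩ : ∃ B0 : ℝ, 0 ≤ B0 ∧ B ≤ B0 := ⟨max B 0, le_max_right _ _, le_max_left _ _⟩
  obtain ⟨A, hA⟩ : ∃ A : ℝ, A = 3 * (Q0 + C₁ ^ 2 / (2 * Λ) + C₁ ^ 2 / (2 * Λ)) := ⟨_, rfl⟩
  have hA0 : 0 ≤ A := by rw [hA]; positivity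
  obtain ⟨σ₀, CG, hσ₀, hCG, hG⟩ := hGRW κ A hκ hA0
  obtain ⟨K, hK⟩ : ∃ K : ℝ, K = C₁ + 4 * B0 * C₁ + 3 * C₁ ^ 2 := ⟨_, rfl⟩
  have hK0 : 0 ≤ K := by rw [hK]; positivity
  refine ⟨2 * A + 2 * (CG * σ₀) ^ 2, fun ε hε => ?_⟩
  obtain ⟨σ₁, hσ₁, hσ₁₀, hσ₁ε⟩ : ∃ σ₁ : ℝ, 0 < σ₁ ∧ σ₁ ≤ σ₀ ∧ (CG * σ₁) ^ 2 ≤ ε := by
    have he : 0 < √ε := Real.sqrt_pos.2 hε
    refine ⟨min σ₀ (√ε / (CG + 1)), lt_min hσ₀ (by positivity), min_le_left _ _, ?_⟩
    have h3 : CG * min σ₀ (√ε / (CG + 1)) ≤ √ε := by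
      calc CG * min σ₀ (√ε / (CG + 1)) ≤ CG * (√ε / (CG + 1)) :=
            mul_le_mul_of_nonneg_left (min_le_right _ _) hCG
        _ ≤ (CG + 1) * (√ε / (CG + 1)) :=
            mul_le_mul_of_nonneg_right (by linarith) (by positivity)
        _ = √ε := by field_simp
    have h4 : 0 ≤ CG * min σ₀ (√ε / (CG + 1)) := mul_nonneg hCG (lt_min hσ₀ (by positivity)).le
    calc (CG * min σ₀ (√ε / (CG + 1))) ^ 2 ≤ √ε ^ 2 := pow_le_pow_left₀ h4 h3 2
      _ = ε := Real.sq_sqrt hε.le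
  obtain ⟨N₀, hN₀⟩ := exists_nat_gt (K / (Λ * (σ₁ / 2)))
  refine ⟨N₀ + 1, σ₁ / 2, by positivity, fun N hN T u hT hu hinit => ?_⟩
  have hN1 : 1 ≤ N := by omega
  have hNr : (1 : ℝ) ≤ N := by exact_mod_cast hN1
  have hN0 : (0 : ℝ) < N := by linarith
  have hKN : K / (Λ * N) ≤ σ₁ / 2 := by
    have h3 : (N₀ : ℝ) ≤ N := by exact_mod_cast (by omega : N₀ ≤ N)
    have h4 : K / (Λ * (σ₁ / 2)) < N := lt_of_lt_of_le hN₀ h3
    rw [div_lt_iff₀ (by positivity)] at h4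
    rw [div_le_iff₀ (by positivity)]
    linarith
  obtain ⟨μ, hμ, hgeq, R, hRc, hRF, hR0, hRww, hRs⟩ := P.g_eq N hN1
  obtain ⟨r, hr⟩ : ∃ r : ℝ → Cf, r = fun t => u t - (v t + w N t + g N t) := ⟨_, rfl⟩
  have hrt : ∀ t, r t = u t - (v t + w N t + g N t) := fun t => by rw [hr]
  have hut : ∀ t, v t + w N t + g N t + r t = u t := fun t => by rw [hrt]; abel
  have hl0 : ∀ k, 0 ≤ Λ * len k ^ 2 := fun k => by positivity
  have mv : ∀ τ, Maj (Icc 0 τ) v := fun τ => maj_sol (hv (τ + 1)) (by linarith)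
  have mw : ∀ τ, Maj (Icc 0 τ) (w N) := fun τ =>
    maj_exp (c := fun k => Λ * len k ^ 2) (P.wfin N hN1) hl0 (P.w_eq N hN1)
  have mg : ∀ τ, Maj (Icc 0 τ) (g N) := fun τ =>
    maj_exp (c := fun k => μ + Λ * len k ^ 2) P.Efin (fun k => add_nonneg hμ (hl0 k)) hgeq
  have mu : ∀ τ, τ < T → Maj (Icc 0 τ) u := fun τ h => maj_sol hu h
  have mua : ∀ τ, Maj (Icc 0 τ) (fun t => v t + w N t + g N t) := fun τ =>
    ((mv τ).add (mw τ)).add (mg τ)
  have mr : ∀ τ, τ < T → Maj (Icc 0 τ) r := fun τ h => by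
    rw [hr]; exact (mu τ h).sub (mua τ)
  have mG : ∀ τ, τ < T → RMaj (Icc 0 τ) (GG R v (w N) (g N) r) := fun τ h =>
    rmaj_GG h1 (rmaj_fin hRc hRF hR0 τ) (mv τ) (mw τ) (mg τ) (mr τ h)
  have hr0 : An (r 0) ≤ σ₁ / 2 := by
    refine le_trans (le_of_eq ?_) hinit
    congr 1
    funext k
    rw [hrt]
    change u 0 k - (v 0 k + w N 0 k + g N 0 k) = u 0 k - (v 0 k + E k + w N 0 k)
    have h3 : g N 0 k = E k := by rw [hgeq]; simp
    rw [h3]
    abel
  -- the inequality for the difference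
  have hzin : ∀ τ ∈ Ico 0 T, √(∫ t in (0:ℝ)..τ, An (r t) ^ 2) ≤
      κ * (An (r 0) + ∫ t in (0:ℝ)..τ, ∑' k, GG R v (w N) (g N) r t k) := by
    intro τ hτ
    obtain ⟨hrc, M, hM, -, hrM⟩ := mr τ hτ.2
    obtain ⟨hGc, M', hM', hGM⟩ := mG τ hτ.2
    refine hZ τ r (fun t k => -(NN (u t) (u t) k - NN (v t) (v t) k - μ • g N t k))
      (GG R v (w N) (g N) r) M M' hτ.1 hM hM' hrM hrc ?_ ?_ hGc hGM ?_
    · intro t ht
      rw [hrt]
      change u t 0 - (v t 0 + w N t 0 + g N t 0) = 0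
      rw [hu.zero t ⟨ht.1, ht.2.trans_lt hτ.2⟩, (hv (t + 1)).zero t ⟨ht.1, by linarith⟩,
        P.w_eq N hN1, hgeq, P.w0 N hN1, P.E0]
      simp
    · intro t ht k
      have d1 := hu.der t ⟨ht.1, ht.2.trans hτ.2⟩ k
      have d2 := (hv (τ + 1)).der t ⟨ht.1, by linarith [ht.2]⟩ k
      have d3 := der_exp (c := fun k => Λ * len k ^ 2) (P.w_eq N hN1) t k
      have d4 := der_exp (c := fun k => μ + Λ * len k ^ 2) hgeq t k
      have d5 := d1.fun_sub ((d2.fun_add d3).fun_add d4)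
      have e1 : (fun s => r s k) = fun s => u s k - (v s k + w N s k + g N s k) := by
        funext s; rw [hrt]; rfl
      rw [e1]
      refine d5.congr_deriv ?_
      have e2 : r t k = u t k - (v t k + w N t k + g N t k) := by rw [hrt]; rfl
      rw [e2]
      simp only [smul_sub, smul_add, add_smul]
      abel
    · intro t ht k
      have ht' : t ∈ Icc 0 τ := ⟨ht.1.le, ht.2.le⟩
      rw [norm_neg]
      have h3 := key h1 hC h2 ((mv τ).summable ht') ((mw τ).summable ht') ((mg τ).summable ht')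
        ((mr τ hτ.2).summable ht') μ (R t k) k (hR0 t k) (hRww t ht.1.le k)
      rw [hut] at h3
      exact h3
  -- the bound for the sum
  have hsum : ∀ τ, τ < T → ∀ t ∈ Icc 0 τ, ∑' k, GG R v (w N) (g N) r t k ≤
      K * (N * Real.exp (-(Λ * N ^ 2 * t))) +
        (2 * (An (v t + w N t + g N t) * An (r t)) + An (r t) ^ 2) := by
    intro τ hτ t ht
    rw [hK]
    have hRsum : Summable (R t) := by
      obtain ⟨F, hF⟩ := hRF
      exact summable_of_ne_finset_zero (s := F) fun k hk => hF t k hk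
    exact sum_bound h1 ((mv τ).summable ht) ((mw τ).summable ht) ((mg τ).summable ht)
      ((mr τ hτ).summable ht) hRsum hC₁ hB0 (Real.exp_pos _).le
      (Real.exp_le_one_iff.2 (by
        have : 0 ≤ Λ * N ^ 2 * t := mul_nonneg (by positivity) ht.1
        linarith)) hNr (hRs t ht.1) ((hB t ht.1).trans hBB) (P.wA N hN1 t ht.1)
      (P.gA N hN1 t ht.1)
  have ca : ∀ τ, ContinuousOn (fun t => An (v t + w N t + g N t)) (Icc 0 τ) := fun τ =>
    (mua τ).continuousOn_An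
  have cr : ∀ τ, τ < T → ContinuousOn (fun t => An (r t)) (Icc 0 τ) := fun τ h =>
    (mr τ h).continuousOn_An
  have hint : ∀ τ ∈ Ico 0 T, ∫ t in (0:ℝ)..τ, ∑' k, GG R v (w N) (g N) r t k ≤ K / (Λ * N) +
      ∫ t in (0:ℝ)..τ, (2 * (An (v t + w N t + g N t) * An (r t)) + An (r t) ^ 2) := by
    intro τ hτ
    have c1 : ContinuousOn (fun t => 2 * (An (v t + w N t + g N t) * An (r t)) + An (r t) ^ 2)
        (Icc 0 τ) := (continuousOn_const.mul ((ca τ).mul (cr τ hτ.2))).add ((cr τ hτ.2).pow 2)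
    have i1 : IntervalIntegrable (fun t => 2 * (An (v t + w N t + g N t) * An (r t)) +
        An (r t) ^ 2) volume 0 τ := c1.intervalIntegrable_of_Icc hτ.1
    have i2 : IntervalIntegrable (fun t : ℝ => K * (N * Real.exp (-(Λ * N ^ 2 * t)))) volume 0 τ :=
      (by fun_prop : Continuous fun t : ℝ =>
        K * (N * Real.exp (-(Λ * N ^ 2 * t)))).intervalIntegrable _ _
    refine (int_le hτ.1 (i2.add i1) ?_ (hsum τ hτ.2)).trans ?_
    · intro t _
      have := An_nonneg (v t + w N t + g N t)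
      have := An_nonneg (r t)
      positivity
    · rw [intervalIntegral.integral_add i2 i1]
      refine add_le_add ?_ le_rfl
      rw [intervalIntegral.integral_const_mul, intervalIntegral.integral_const_mul]
      have h3 := int_exp_le (c := Λ * N ^ 2) (τ := τ) (by positivity)
      calc K * (N * ∫ t in (0:ℝ)..τ, Real.exp (-(Λ * N ^ 2 * t))) ≤ K * (N * (1 / (Λ * N ^ 2))) :=
            mul_le_mul_of_nonneg_left (mul_le_mul_of_nonneg_left h3 hN0.le) hK0
        _ = K / (Λ * N) := by field_simp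
  have hinta : ∀ τ ∈ Ico 0 T, ∫ t in (0:ℝ)..τ, An (v t + w N t + g N t) ^ 2 ≤ A := by
    intro τ hτ
    have cv : ContinuousOn (fun t => An (v t) ^ 2) (Icc 0 τ) := ((mv τ).continuousOn_An).pow 2
    have i1 : IntervalIntegrable (fun t => An (v t) ^ 2) volume 0 τ :=
      cv.intervalIntegrable_of_Icc hτ.1
    have i2 : IntervalIntegrable (fun t : ℝ => C₁ ^ 2 * N ^ 2 * Real.exp (-(2 * Λ * N ^ 2 * t)))
        volume 0 τ := (by fun_prop : Continuous fun t : ℝ =>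
          C₁ ^ 2 * N ^ 2 * Real.exp (-(2 * Λ * N ^ 2 * t))).intervalIntegrable _ _
    have i3 : IntervalIntegrable (fun t : ℝ => C₁ ^ 2 * Real.exp (-(2 * Λ * N ^ 2 * t)))
        volume 0 τ := (by fun_prop : Continuous fun t : ℝ =>
          C₁ ^ 2 * Real.exp (-(2 * Λ * N ^ 2 * t))).intervalIntegrable _ _
    refine (int_le (g := fun t => 3 * (An (v t) ^ 2 +
      C₁ ^ 2 * N ^ 2 * Real.exp (-(2 * Λ * N ^ 2 * t)) +
      C₁ ^ 2 * Real.exp (-(2 * Λ * N ^ 2 * t)))) hτ.1 (((i1.add i2).add i3).const_mul 3)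
      ?_ ?_).trans ?_
    · intro t _
      positivity
    · intro t ht
      have a1 : An (v t + w N t + g N t) ≤ An (v t) + An (w N t) + An (g N t) := by
        have s1 := (mv τ).summable ht
        have s2 := (mw τ).summable ht
        have s3 := (mg τ).summable ht
        exact (An_add_le (summable_add s1 s2) s3).trans (add_le_add (An_add_le s1 s2) le_rfl)
      have a0 := An_nonneg (v t + w N t + g N t)
      have av := An_nonneg (v t)
      have aw := An_nonneg (w N t)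
      have ag := An_nonneg (g N t)
      have a2 := P.wA N hN1 t ht.1
      have a3 := P.gA N hN1 t ht.1
      have ee : Real.exp (-(2 * Λ * N ^ 2 * t)) = Real.exp (-(Λ * N ^ 2 * t)) ^ 2 := by
        rw [← Real.exp_nat_mul]; congr 1; push_cast; ring
      have b1 : An (v t + w N t + g N t) ^ 2 ≤ (An (v t) + An (w N t) + An (g N t)) ^ 2 :=
        pow_le_pow_left₀ a0 a1 2
      have b2 : An (w N t) ^ 2 ≤ C₁ ^ 2 * N ^ 2 * Real.exp (-(2 * Λ * N ^ 2 * t)) := by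
        rw [ee, ← mul_pow, ← mul_pow]
        exact pow_le_pow_left₀ aw a2 2
      have b3 : An (g N t) ^ 2 ≤ C₁ ^ 2 * Real.exp (-(2 * Λ * N ^ 2 * t)) := by
        rw [ee, ← mul_pow]
        exact pow_le_pow_left₀ ag a3 2
      have b4 : (An (v t) + An (w N t) + An (g N t)) ^ 2 ≤
          3 * (An (v t) ^ 2 + An (w N t) ^ 2 + An (g N t) ^ 2) := by
        nlinarith [sq_nonneg (An (v t) - An (w N t)), sq_nonneg (An (v t) - An (g N t)),
          sq_nonneg (An (w N t) - An (g N t))]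
      linarith
    · rw [intervalIntegral.integral_const_mul, intervalIntegral.integral_add (i1.add i2) i3,
        intervalIntegral.integral_add i1 i2, intervalIntegral.integral_const_mul,
        intervalIntegral.integral_const_mul, hA]
      have h3 := int_exp_le (c := 2 * Λ * N ^ 2) (τ := τ) (by positivity)
      have h4 : C₁ ^ 2 * N ^ 2 * ∫ t in (0:ℝ)..τ, Real.exp (-(2 * Λ * N ^ 2 * t)) ≤
          C₁ ^ 2 / (2 * Λ) := by
        calc C₁ ^ 2 * N ^ 2 * ∫ t in (0:ℝ)..τ, Real.exp (-(2 * Λ * N ^ 2 * t)) ≤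
              C₁ ^ 2 * N ^ 2 * (1 / (2 * Λ * N ^ 2)) :=
              mul_le_mul_of_nonneg_left h3 (by positivity)
          _ = C₁ ^ 2 / (2 * Λ) := by field_simp
      have h5 : C₁ ^ 2 * ∫ t in (0:ℝ)..τ, Real.exp (-(2 * Λ * N ^ 2 * t)) ≤
          C₁ ^ 2 / (2 * Λ) := by
        calc C₁ ^ 2 * ∫ t in (0:ℝ)..τ, Real.exp (-(2 * Λ * N ^ 2 * t)) ≤
              C₁ ^ 2 * (1 / (2 * Λ * N ^ 2)) :=
              mul_le_mul_of_nonneg_left h3 (by positivity)
          _ ≤ C₁ ^ 2 * (1 / (2 * Λ)) := by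
              refine mul_le_mul_of_nonneg_left ?_ (by positivity)
              refine one_div_le_one_div_of_le (by positivity) ?_
              have : 1 ≤ (N : ℝ) ^ 2 := one_le_pow₀ hNr
              nlinarith
          _ = C₁ ^ 2 / (2 * Λ) := by ring
      have h6 := hQ τ hτ.1
      have h7 : ∫ t in (0:ℝ)..τ, An (v t) ^ 2 ≤ Q0 := h6.trans hQQ
      linarith
  have hmain := hG T (An (r 0) + K / (Λ * N)) (fun t => An (v t + w N t + g N t))
    (fun t => An (r t)) (contOn_Ico fun τ _ => ca τ) (contOn_Ico cr) (fun t _ => An_nonneg _)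
    (fun t _ => An_nonneg _) (add_nonneg (An_nonneg _) (by positivity)) (by linarith) hinta
    (fun τ hτ => by
      refine (hzin τ hτ).trans (mul_le_mul_of_nonneg_left ?_ hκ.le)
      have := hint τ hτ
      linarith)
  intro τ hτ
  have h3 := hmain τ hτ
  have h4 : √(∫ t in (0:ℝ)..τ, An (r t) ^ 2) ≤ CG * σ₁ :=
    h3.trans (mul_le_mul_of_nonneg_left (by linarith) hCG)
  have h5' : ∫ t in (0:ℝ)..τ, An (r t) ^ 2 ≤ (CG * σ₁) ^ 2 := (Real.sqrt_le_iff.1 h4).2
  have h5 : ∫ t in (0:ℝ)..τ, An (r t) ^ 2 ≤ (CG * σ₀) ^ 2 :=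
    h5'.trans (pow_le_pow_left₀ (mul_nonneg hCG hσ₁.le)
      (mul_le_mul_of_nonneg_left hσ₁₀ hCG) 2)
  have i1 : IntervalIntegrable (fun t => An (v t + w N t + g N t) ^ 2) volume 0 τ :=
    ((ca τ).pow 2).intervalIntegrable_of_Icc hτ.1
  have i2 : IntervalIntegrable (fun t => An (r t) ^ 2) volume 0 τ :=
    ((cr τ hτ.2).pow 2).intervalIntegrable_of_Icc hτ.1
  refine ⟨?_, ?_⟩
  swap
  · have h6 : (fun t => An (r t) ^ 2) =
        fun t => An (fun k => u t k - (v t k + w N t k + g N t k)) ^ 2 := by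
      funext t
      rw [hrt]
      rfl
    rw [h6] at h5'
    exact h5'.trans hσ₁ε
  refine (int_le (g := fun t => 2 * (An (v t + w N t + g N t) ^ 2 + An (r t) ^ 2)) hτ.1
    ((i1.add i2).const_mul 2) (fun t _ => by positivity) ?_).trans ?_
  · intro t ht
    have s1 := (mua τ).summable ht
    have s2 := (mr τ hτ.2).summable ht
    have a1 : An (u t) ≤ An (v t + w N t + g N t) + An (r t) := by
      have := An_add_le s1 s2
      rwa [hut] at this
    have a0 := An_nonneg (u t)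
    have a2 : An (u t) ^ 2 ≤ (An (v t + w N t + g N t) + An (r t)) ^ 2 := pow_le_pow_left₀ a0 a1 2
    nlinarith [sq_nonneg (An (v t + w N t + g N t) - An (r t))]
  · rw [intervalIntegral.integral_const_mul, intervalIntegral.integral_add i1 i2]
    have := hinta τ hτ
    linarith

end Pool.Agent.N976.GD
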