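import Pool.Agent.N976.GD.Stm
import Pool.Agent.H459R3.NS.Four

/-!
Trigonometric fields and their nonlinear term (helper390).
-/

set_option autoImplicit false

open MeasureTheory Set Filter Topology
open scoped ContDiff

namespace Pool.Agent.N976.GD

open H459R3.NS Pool.Agent.N977.Q

namespace TC

/-- indicator -/
noncomputable def d (x y : K3) : ℂ := if x = y then 1 else 0

/-- scalar product -/
noncomputable def dot (k : K3) (b : Fin 3 → ℝ) : ℂ := ∑ j, (k j : ℂ) * (b j : ℂ)

theorem tc_apply (m : K3) (θ : ℝ) (b : Fin 3 → ℝ) (k : K3) (i : Fin 3) :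
    tc m θ b k i = (Complex.exp (θ * Complex.I) / 2 * d k m +
      Complex.exp (-(θ * Complex.I)) / 2 * d k (-m)) * (b i : ℂ) := by
  unfold tc d
  rw [Pi.add_apply, Pi.add_apply, Pi.single_apply, Pi.single_apply]
  have h1 : (if k = m then (fun i => Complex.exp (θ * Complex.I) / 2 * (b i : ℂ)) else 0 : C3) i =
      Complex.exp (θ * Complex.I) / 2 * (if k = m then 1 else 0) * (b i : ℂ) := by
    split_ifs <;> simp
  have h2 : (if k = -m then (fun i => Complex.exp (-(θ * Complex.I)) / 2 * (b i : ℂ)) else 0 :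
      C3) i = Complex.exp (-(θ * Complex.I)) / 2 * (if k = -m then 1 else 0) * (b i : ℂ) := by
    split_ifs <;> simp
  rw [h1, h2]
  ring

/-! ### trigonometric fields -/

theorem hasFDerivAt_ph (k : K3) (x : V) :
    HasFDerivAt (ph k) (∑ i, (k i : ℝ) • (ContinuousLinearMap.proj i : V →L[ℝ] ℝ)) x := by
  unfold ph
  refine HasFDerivAt.fun_sum fun i _ => ?_
  exact ((ContinuousLinearMap.proj (R := ℝ) (φ := fun _ : Fin 3 => ℝ) i).hasFDerivAt
    (x := x)).const_mul (k i : ℝ)

theorem pd_cp (m : K3) (θ c : ℝ) (j : Fin 3) (x : V) :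
    pd j (fun y => Real.cos (2 * Real.pi * ph m y + θ) * c) x =
      -(2 * Real.pi * Real.sin (2 * Real.pi * ph m x + θ)) * (m j * c) := by
  have h := ((((hasFDerivAt_ph m x).const_mul (2 * Real.pi)).add_const θ).cos).mul_const c
  unfold pd
  rw [h.fderiv]
  simp only [smul_apply, sum_apply,
    ContinuousLinearMap.proj_apply, smul_eq_mul, Pi.single_apply]
  rw [Finset.sum_eq_single j (fun b _ hb => by rw [if_neg hb, mul_zero])
    (fun h => absurd (Finset.mem_univ j) h), if_pos rfl]
  ring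

theorem spv (m : K3) (θ : ℝ) (b : Fin 3 → ℝ) : SPV (CP m θ b) := by
  refine ⟨?_, ?_⟩
  · rw [contDiff_pi]
    intro i
    exact (Real.contDiff_cos.comp ((contDiff_const.mul (ph_contDiff m)).add contDiff_const)).mul
      contDiff_const
  · intro i x
    funext j
    unfold CP
    rw [ph_add, ph_single]
    have e : 2 * Real.pi * (ph m x + m i * 1) + θ =
        2 * Real.pi * ph m x + θ + (m i : ℤ) * (2 * Real.pi) := by ring
    rw [e, Real.cos_add_int_mul_two_pi]

theorem dv (m : K3) (θ : ℝ) (b : Fin 3 → ℝ) (h : ∑ j, (m j : ℝ) * b j = 0) :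
    Dv (CP m θ b) := by
  intro x
  have e : ∀ i, pd i (fun y => CP m θ b y i) x =
      -(2 * Real.pi * Real.sin (2 * Real.pi * ph m x + θ)) * (m i * b i) :=
    fun i => pd_cp m θ (b i) i x
  simp only [e]
  rw [← Finset.mul_sum, h, mul_zero]

theorem cos_eq (m : K3) (θ c : ℝ) (x : V) :
    ((Real.cos (2 * Real.pi * ph m x + θ) * c : ℝ) : ℂ) =
      Complex.exp (θ * Complex.I) / 2 * c * ee m x +
        Complex.exp (-(θ * Complex.I)) / 2 * c * ee (-m) x := by
  unfold ee
  rw [ph_neg]
  push_cast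
  have h1 : Complex.exp ((2 * Real.pi * (ph m x : ℂ) + θ) * Complex.I) =
      Complex.exp (θ * Complex.I) * Complex.exp (2 * Real.pi * Complex.I * (ph m x : ℂ)) := by
    rw [← Complex.exp_add]
    congr 1
    ring
  have h2 : Complex.exp (-(2 * Real.pi * (ph m x : ℂ) + θ) * Complex.I) =
      Complex.exp (-(θ * Complex.I)) * Complex.exp (2 * Real.pi * Complex.I * -(ph m x : ℂ)) := by
    rw [← Complex.exp_add]
    congr 1
    ring
  rw [Complex.cos, h1, h2]
  ring

theorem fv_CP (m : K3) (θ : ℝ) (b : Fin 3 → ℝ) : fv (CP m θ b) = tc m θ b := by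
  funext k i
  rw [tc_apply]
  have hi : ∀ (c : ℂ) (l : K3), Integrable (fun x : V => c * ee l x) (volume.restrict cube) :=
    fun c l => integrableOn_cube (continuous_const.mul (ee_continuous l))
  have e1 : fv (CP m θ b) k i = ∫ x in cube,
      (Complex.exp (θ * Complex.I) / 2 * (b i : ℂ) * ee (m + -k) x +
        Complex.exp (-(θ * Complex.I)) / 2 * (b i : ℂ) * ee (-m + -k) x) := by
    unfold fv fr fc
    congr 1
    funext x
    have h := cos_eq m θ (b i) x
    have h' : ((CP m θ b x i : ℝ) : ℂ) = _ := h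
    change ee (-k) x * ((CP m θ b x i : ℝ) : ℂ) = _
    rw [h', ee_add_left, ee_add_left]
    ring
  rw [e1, integral_add (hi _ _) (hi _ _), integral_const_mul, integral_const_mul, integral_ee,
    integral_ee]
  have h1 : (if m + -k = 0 then (1 : ℂ) else 0) = d k m := by
    unfold d
    congr 1
    rw [← sub_eq_add_neg, sub_eq_zero]
    exact propext ⟨fun h => h.symm, fun h => h.symm⟩
  have h2 : (if -m + -k = 0 then (1 : ℂ) else 0) = d k (-m) := by
    unfold d
    congr 1
    rw [← sub_eq_add_neg, sub_eq_zero]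
    exact propext ⟨fun h => h.symm, fun h => h.symm⟩
  rw [h1, h2]
  ring

/-! ### the nonlinear term -/

theorem dot_add (m m' : K3) (b : Fin 3 → ℝ) : dot (m + m') b = dot m b + dot m' b := by
  unfold dot
  rw [← Finset.sum_add_distrib]
  refine Finset.sum_congr rfl fun j _ => ?_
  rw [Pi.add_apply]
  push_cast
  ring

theorem dot_neg (m : K3) (b : Fin 3 → ℝ) : dot (-m) b = -dot m b := by
  unfold dot
  rw [← Finset.sum_neg_distrib]
  refine Finset.sum_congr rfl fun j _ => ?_
  rw [Pi.neg_apply]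
  push_cast
  ring

theorem dot_real {m : K3} {b : Fin 3 → ℝ} : dot m b = ((∑ j, (m j : ℝ) * b j : ℝ) : ℂ) := by
  unfold dot
  push_cast
  rfl

theorem dot_d (k q : K3) (b : Fin 3 → ℝ) : dot k b * d k q = dot q b * d k q := by
  unfold d
  split_ifs with h
  · rw [h]
  · simp

theorem d1 (k m m' : K3) : d (k - m) m' = d k (m + m') := by
  unfold d
  congr 1
  exact propext ⟨fun h => by rw [← h]; abel, fun h => by rw [h]; abel⟩

theorem d2 (k m m' : K3) : d (k - m) (-m') = d k (m - m') := by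
  unfold d
  congr 1
  exact propext ⟨fun h => by rw [sub_eq_add_neg m m', ← h]; abel, fun h => by rw [h]; abel⟩

theorem d3 (k m m' : K3) : d (k + m) m' = d k (-(m - m')) := by
  unfold d
  congr 1
  exact propext ⟨fun h => by rw [← h]; abel, fun h => by rw [h]; abel⟩

theorem d4 (k m m' : K3) : d (k + m) (-m') = d k (-(m + m')) := by
  unfold d
  congr 1
  exact propext ⟨fun h => by rw [neg_add m m', ← h]; abel, fun h => by rw [h]; abel⟩

theorem cvv_tc (m : K3) (θ : ℝ) (b : Fin 3 → ℝ) (B : Cf) (k : K3) (i : Fin 3) :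
    cvv (tc m θ b) B k i = 2 * Real.pi * Complex.I * dot k b *
      (Complex.exp (θ * Complex.I) / 2 * B (k - m) i +
        Complex.exp (-(θ * Complex.I)) / 2 * B (k + m) i) := by
  have h1 : HasSum (fun l => 2 * Real.pi * Complex.I * dot k b *
      (Complex.exp (θ * Complex.I) / 2 * d l m) * B (k - l) i)
      (2 * Real.pi * Complex.I * dot k b *
      (Complex.exp (θ * Complex.I) / 2 * d m m) * B (k - m) i) := by
    refine hasSum_single m fun l hl => ?_
    unfold d
    rw [if_neg hl]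
    ring
  have h2 : HasSum (fun l => 2 * Real.pi * Complex.I * dot k b *
      (Complex.exp (-(θ * Complex.I)) / 2 * d l (-m)) * B (k - l) i)
      (2 * Real.pi * Complex.I * dot k b *
      (Complex.exp (-(θ * Complex.I)) / 2 * d (-m) (-m)) * B (k - -m) i) := by
    refine hasSum_single (-m) fun l hl => ?_
    unfold d
    rw [if_neg hl]
    ring
  have h3 := (h1.add h2).tsum_eq
  have e : cvv (tc m θ b) B k i = ∑' l, (2 * Real.pi * Complex.I * dot k b *
      (Complex.exp (θ * Complex.I) / 2 * d l m) * B (k - l) i + 2 * Real.pi * Complex.I *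
      dot k b * (Complex.exp (-(θ * Complex.I)) / 2 * d l (-m)) * B (k - l) i) := by
    unfold cvv
    congr 1
    funext l
    have e1 : ∑ j, (k j : ℂ) * tc m θ b l j = dot k b * (Complex.exp (θ * Complex.I) / 2 * d l m +
        Complex.exp (-(θ * Complex.I)) / 2 * d l (-m)) := by
      unfold dot
      rw [Finset.sum_mul]
      refine Finset.sum_congr rfl fun j _ => ?_
      rw [tc_apply]
      ring
    rw [e1]
    ring
  rw [e, h3, sub_neg_eq_add]
  unfold d
  rw [if_pos rfl, if_pos rfl]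
  ring

theorem hI : Complex.exp ((Real.pi : ℂ) / 2 * Complex.I) = Complex.I := by
  rw [Complex.exp_mul_I, Complex.cos_pi_div_two, Complex.sin_pi_div_two]
  ring

theorem hI' : Complex.exp (-((Real.pi : ℂ) / 2 * Complex.I)) = -Complex.I := by
  rw [Complex.exp_neg, hI, Complex.inv_I]

/-- the factor of `b'` in the convolution -/
noncomputable def Γ (m m' : K3) (θ θ' : ℝ) (k : K3) : ℂ :=
  Complex.exp (θ * Complex.I) / 2 * (Complex.exp (θ' * Complex.I) / 2 * d k (m + m') +
      Complex.exp (-(θ' * Complex.I)) / 2 * d k (m - m')) +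
    Complex.exp (-(θ * Complex.I)) / 2 * (Complex.exp (θ' * Complex.I) / 2 * d k (-(m - m')) +
      Complex.exp (-(θ' * Complex.I)) / 2 * d k (-(m + m')))

theorem cvv_eq (m m' : K3) (θ θ' : ℝ) (b b' : Fin 3 → ℝ) (k : K3) (i : Fin 3) :
    cvv (tc m θ b) (tc m' θ' b') k i =
      2 * Real.pi * Complex.I * dot k b * Γ m m' θ θ' k * (b' i : ℂ) := by
  rw [cvv_tc, tc_apply, tc_apply, d1, d2, d3, d4]
  unfold Γ
  ring

/-- the product of a scalar product with `Γ` -/
theorem dot_Γ (m m' : K3) (θ θ' : ℝ) (b : Fin 3 → ℝ) (hb : dot m b = 0) (k : K3) :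
    dot k b * Γ m m' θ θ' k = dot m' b *
      (Complex.exp (θ * Complex.I) / 2 * (Complex.exp (θ' * Complex.I) / 2 * d k (m + m') -
        Complex.exp (-(θ' * Complex.I)) / 2 * d k (m - m')) +
      Complex.exp (-(θ * Complex.I)) / 2 * (Complex.exp (θ' * Complex.I) / 2 * d k (-(m - m')) -
        Complex.exp (-(θ' * Complex.I)) / 2 * d k (-(m + m')))) := by
  have h1 := dot_d k (m + m') b
  have h2 := dot_d k (m - m') b
  have h3 := dot_d k (-(m - m')) b
  have h4 := dot_d k (-(m + m')) b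
  rw [dot_add, hb] at h1
  rw [sub_eq_add_neg, dot_add, dot_neg, hb] at h2
  rw [dot_neg, sub_eq_add_neg, dot_add, dot_neg, hb] at h3
  rw [dot_neg, dot_add, hb] at h4
  rw [← sub_eq_add_neg] at h2 h3
  unfold Γ
  linear_combination Complex.exp (θ * Complex.I) / 2 * (Complex.exp (θ' * Complex.I) / 2) * h1 +
    Complex.exp (θ * Complex.I) / 2 * (Complex.exp (-(θ' * Complex.I)) / 2) * h2 +
    Complex.exp (-(θ * Complex.I)) / 2 * (Complex.exp (θ' * Complex.I) / 2) * h3 +
    Complex.exp (-(θ * Complex.I)) / 2 * (Complex.exp (-(θ' * Complex.I)) / 2) * h4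

theorem ntc_zero (m m' : K3) (θ θ' : ℝ) (b b' : Fin 3 → ℝ) (hb : dot m b = 0)
    (hb' : dot m' b = 0) (k : K3) : NN (tc m θ b) (tc m' θ' b') k = 0 := by
  have h : cvv (tc m θ b) (tc m' θ' b') k = 0 := by
    funext i
    have h1 := dot_Γ m m' θ θ' b hb k
    rw [hb', zero_mul] at h1
    rw [cvv_eq, mul_assoc (2 * Real.pi * Complex.I), h1]
    simp
  unfold NN
  rw [h]
  funext i
  unfold prj
  simp

theorem ntc_eq (m m' : K3) (θ θ' : ℝ) (b b' : Fin 3 → ℝ)
    (h1 : dot m b' = 0) (h2 : dot m' b' = 0) (k : K3) (i : Fin 3) :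
    NN (tc m θ b) (tc m' θ' b') k i =
      2 * Real.pi * Complex.I * dot k b * Γ m m' θ θ' k * (b' i : ℂ) := by
  unfold NN prj
  have h3 := dot_Γ m m' θ θ' b' h1 k
  rw [h2, zero_mul] at h3
  have h4 : ∑ j, (k j : ℂ) * cvv (tc m θ b) (tc m' θ' b') k j = 0 := by
    have e : ∀ j, (k j : ℂ) * cvv (tc m θ b) (tc m' θ' b') k j =
        2 * Real.pi * Complex.I * dot k b * Γ m m' θ θ' k * ((k j : ℂ) * (b' j : ℂ)) := by
      intro j
      rw [cvv_eq]
      ring
    simp only [e]
    rw [← Finset.mul_sum]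
    change 2 * Real.pi * Complex.I * dot k b * Γ m m' θ θ' k * dot k b' = 0
    linear_combination 2 * Real.pi * Complex.I * dot k b * h3
  rw [h4, cvv_eq]
  simp

end TC

open TC

/-- (TCF) -/
theorem t_TCF : S_TCF := fun m θ b => ⟨spv m θ b, fun _ => fv_CP m θ b, dv m θ b⟩

/-- (NTC) -/
theorem t_NTC : S_NTC := by
  intro m m' θ θ' b b' hb
  have hb0 : dot m b = 0 := by rw [dot_real, hb, Complex.ofReal_zero]
  refine ⟨fun h k => ?_, fun _ _ h1 h2 k => ?_⟩
  · exact ntc_zero m m' θ θ' b b' hb0 (by rw [dot_real, h, Complex.ofReal_zero]) k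
  · have g1 : dot m b' = 0 := by rw [dot_real, h1, Complex.ofReal_zero]
    have g2 : dot m' b' = 0 := by rw [dot_real, h2, Complex.ofReal_zero]
    funext i
    rw [ntc_eq m m' θ θ' b b' g1 g2 k i, Pi.smul_apply, Pi.add_apply, tc_apply, tc_apply,
      Complex.real_smul]
    have g3 := dot_Γ m m' θ θ' b hb0 k
    have g4 : (((-(Real.pi * ∑ j, (m' j : ℝ) * b j) : ℝ)) : ℂ) = -(Real.pi * dot m' b) := by
      rw [dot_real]
      push_cast
      rfl
    have x1 : Complex.exp (((θ + θ' - Real.pi / 2 : ℝ) : ℂ) * Complex.I) =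
        Complex.exp (θ * Complex.I) * Complex.exp (θ' * Complex.I) * (-Complex.I) := by
      rw [← hI', ← Complex.exp_add, ← Complex.exp_add]
      congr 1
      push_cast
      ring
    have x2 : Complex.exp (-(((θ + θ' - Real.pi / 2 : ℝ) : ℂ) * Complex.I)) =
        Complex.exp (-(θ * Complex.I)) * Complex.exp (-(θ' * Complex.I)) * Complex.I := by
      nth_rewrite 4 [← hI]
      rw [← Complex.exp_add, ← Complex.exp_add]
      congr 1
      push_cast
      ring
    have x3 : Complex.exp (((θ - θ' + Real.pi / 2 : ℝ) : ℂ) * Complex.I) =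
        Complex.exp (θ * Complex.I) * Complex.exp (-(θ' * Complex.I)) * Complex.I := by
      nth_rewrite 4 [← hI]
      rw [← Complex.exp_add, ← Complex.exp_add]
      congr 1
      push_cast
      ring
    have x4 : Complex.exp (-(((θ - θ' + Real.pi / 2 : ℝ) : ℂ) * Complex.I)) =
        Complex.exp (-(θ * Complex.I)) * Complex.exp (θ' * Complex.I) * (-Complex.I) := by
      rw [← hI', ← Complex.exp_add, ← Complex.exp_add]
      congr 1
      push_cast
      ring
    rw [g4, x1, x2, x3, x4]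
    linear_combination 2 * Real.pi * Complex.I * (b' i : ℂ) * g3

end Pool.Agent.N976.GD
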