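import Pool.Agent.N976.GD.Stm

/-!
The inequality for all modes (project GD of helper976; file by helper442).
-/

set_option autoImplicit false

open MeasureTheory Set Filter Topology

namespace Pool.Agent.N976.GD

open H459R3.NS Pool.Agent.N977.Q

namespace ZN

theorem one_le_len {k : K3} (hk : k ≠ 0) : 1 ≤ len k := by
  obtain ⟨i, hi⟩ := Function.ne_iff.1 hk
  unfold len
  rw [Real.one_le_sqrt]
  have h1 : (1 : ℝ) ≤ (k i : ℝ) ^ 2 := by
    have h2 : (1 : ℤ) ≤ k i ^ 2 := by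
      have h3 : k i ≠ 0 := hi
      have h4 : 0 < k i ^ 2 := by positivity
      omega
    exact_mod_cast h2
  exact h1.trans (Finset.single_le_sum (f := fun j => (k j : ℝ) ^ 2)
    (fun j _ => sq_nonneg _) (Finset.mem_univ i))

theorem norm_sq_le (v : C3) : ‖v‖ ^ 2 ≤ ∑ i, ‖v i‖ ^ 2 := by
  have h0 : 0 ≤ ∑ i, ‖v i‖ ^ 2 := Finset.sum_nonneg fun i _ => sq_nonneg _
  have h1 : ‖v‖ ≤ √(∑ i, ‖v i‖ ^ 2) := by
    rw [pi_norm_le_iff_of_nonneg (Real.sqrt_nonneg _)]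
    intro i
    apply Real.le_sqrt_of_sq_le
    exact Finset.single_le_sum (f := fun j => ‖v j‖ ^ 2) (fun j _ => sq_nonneg _)
      (Finset.mem_univ i)
  calc ‖v‖ ^ 2 ≤ (√(∑ i, ‖v i‖ ^ 2)) ^ 2 := by gcongr
    _ = _ := Real.sq_sqrt h0

/-- one mode, all components -/
theorem mode (hMOD : S_MOD) {Λ C₀ τ : ℝ} (hΛ : 0 < Λ) (hC : 0 ≤ C₀) (hτ : 0 ≤ τ) {k : K3}
    (hk : k ≠ 0) {r F : ℝ → C3} {G : ℝ → ℝ} (hr : ContinuousOn r (Icc 0 τ))
    (hd : ∀ t ∈ Ioo 0 τ, HasDerivAt r (-((Λ * len k ^ 2) • r t) + F t) t)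
    (hG : ContinuousOn G (Icc 0 τ)) (hG0 : ∀ t ∈ Icc 0 τ, 0 ≤ G t)
    (hF : ∀ t ∈ Ioo 0 τ, ‖F t‖ ≤ C₀ * (len k * G t)) :
    √(∫ t in (0:ℝ)..τ, ‖r t‖ ^ 2) ≤
      3 * ((‖r 0‖ + 2 * C₀ * ∫ t in (0:ℝ)..τ, G t) / √(2 * Λ)) := by
  have hl : 1 ≤ len k := one_le_len hk
  have hl0 : 0 < len k := by linarith
  have hI0 : 0 ≤ ∫ t in (0:ℝ)..τ, G t :=
    intervalIntegral.integral_nonneg hτ fun t ht => hG0 t ht
  have hs : 0 < √(2 * Λ) := Real.sqrt_pos.2 (by linarith)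
  set B := (‖r 0‖ + 2 * C₀ * ∫ t in (0:ℝ)..τ, G t) / √(2 * Λ) with hB
  have hB0 : 0 ≤ B := by positivity
  have hri : ∀ i, ContinuousOn (fun t => r t i) (Icc 0 τ) := fun i =>
    (continuous_apply i).comp_continuousOn hr
  have key : ∀ i, √(∫ t in (0:ℝ)..τ, ‖r t i‖ ^ 2) ≤ B := by
    intro i
    have h1 := hMOD (Λ * len k ^ 2) (C₀ * len k) τ (fun t => r t i) (fun t => F t i) G
      (by positivity) (by positivity) hτ (hri i)
      (fun t ht => by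
        have h2 := (hasDerivAt_pi.1 (hd t ht)) i
        have h3 : (-((Λ * len k ^ 2) • r t) + F t) i =
            -(((Λ * len k ^ 2 : ℝ) : ℂ) * r t i) + F t i := by
          simp [Complex.real_smul]
        rw [h3] at h2
        exact h2) hG hG0
      (fun t ht => by
        calc ‖F t i‖ ≤ ‖F t‖ := norm_le_pi_norm _ _
          _ ≤ C₀ * (len k * G t) := hF t ht
          _ = C₀ * len k * G t := by ring)
    refine h1.trans ?_
    have h4 : √(2 * (Λ * len k ^ 2)) = √(2 * Λ) * len k := by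
      rw [show 2 * (Λ * len k ^ 2) = (2 * Λ) * len k ^ 2 by ring,
        Real.sqrt_mul (by linarith), Real.sqrt_sq hl0.le]
    rw [h4, hB, div_le_div_iff₀ (by positivity) hs]
    have h5 : ‖r 0 i‖ ≤ ‖r 0‖ := norm_le_pi_norm _ _
    have h6 : ‖r 0‖ ≤ ‖r 0‖ * len k := by
      nlinarith [norm_nonneg (r 0)]
    have h7 : ‖r 0 i‖ + 2 * (C₀ * len k) * ∫ t in (0:ℝ)..τ, G t ≤
        (‖r 0‖ + 2 * C₀ * ∫ t in (0:ℝ)..τ, G t) * len k := by
      nlinarith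
    calc (‖r 0 i‖ + 2 * (C₀ * len k) * ∫ t in (0:ℝ)..τ, G t) * √(2 * Λ)
        ≤ ((‖r 0‖ + 2 * C₀ * ∫ t in (0:ℝ)..τ, G t) * len k) * √(2 * Λ) := by gcongr
      _ = (‖r 0‖ + 2 * C₀ * ∫ t in (0:ℝ)..τ, G t) * (√(2 * Λ) * len k) := by ring
  have hint : ∀ i, IntervalIntegrable (fun t => ‖r t i‖ ^ 2) volume 0 τ := fun i =>
    ContinuousOn.intervalIntegrable (by
      rw [uIcc_of_le hτ]
      exact ((hri i).norm).pow 2)
  have hint2 : IntervalIntegrable (fun t => ‖r t‖ ^ 2) volume 0 τ :=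
    ContinuousOn.intervalIntegrable (by
      rw [uIcc_of_le hτ]
      exact (hr.norm).pow 2)
  have h8 : ∫ t in (0:ℝ)..τ, ‖r t‖ ^ 2 ≤ ∑ i, ∫ t in (0:ℝ)..τ, ‖r t i‖ ^ 2 := by
    rw [← intervalIntegral.integral_finsetSum (fun i _ => hint i)]
    apply intervalIntegral.integral_mono_on hτ hint2
    · apply ContinuousOn.intervalIntegrable
      rw [uIcc_of_le hτ]
      exact continuousOn_finsetSum _ fun i _ => ((hri i).norm).pow 2
    · intro t _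
      exact norm_sq_le _
  have h9 : ∀ i, ∫ t in (0:ℝ)..τ, ‖r t i‖ ^ 2 ≤ B ^ 2 := by
    intro i
    have h10 : 0 ≤ ∫ t in (0:ℝ)..τ, ‖r t i‖ ^ 2 :=
      intervalIntegral.integral_nonneg hτ fun t _ => sq_nonneg _
    calc ∫ t in (0:ℝ)..τ, ‖r t i‖ ^ 2 = (√(∫ t in (0:ℝ)..τ, ‖r t i‖ ^ 2)) ^ 2 :=
          (Real.sq_sqrt h10).symm
      _ ≤ B ^ 2 := by
          gcongr
          exact key i
  rw [Real.sqrt_le_left (by positivity)]
  calc ∫ t in (0:ℝ)..τ, ‖r t‖ ^ 2 ≤ ∑ i, ∫ t in (0:ℝ)..τ, ‖r t i‖ ^ 2 := h8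
    _ ≤ ∑ _i : Fin 3, B ^ 2 := Finset.sum_le_sum fun i _ => h9 i
    _ = 3 * B ^ 2 := by simp
    _ ≤ (3 * B) ^ 2 := by nlinarith [sq_nonneg B]

end ZN

open ZN in
/-- (ZIN) all modes -/
theorem t_ZIN : S_ZIN := by
  intro hMOD hMIN Λ C₀ hΛ hC
  have hs : 0 < √(2 * Λ) := Real.sqrt_pos.2 (by linarith)
  refine ⟨3 * (1 + 2 * C₀) / √(2 * Λ), by positivity, ?_⟩
  intro τ r F G M M' hτ hM hM' hrM hrc hr0 hrd hGc hG hF
  have h0τ : (0 : ℝ) ∈ Icc 0 τ := ⟨le_rfl, hτ⟩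
  -- the bounds for the single modes
  have hI0 : ∀ k, 0 ≤ ∫ t in (0:ℝ)..τ, G t k := fun k =>
    intervalIntegral.integral_nonneg hτ fun t ht => (hG t ht k).1
  have hmode : ∀ k, √(∫ t in (0:ℝ)..τ, ‖r t k‖ ^ 2) ≤
      3 * ((‖r 0 k‖ + 2 * C₀ * ∫ t in (0:ℝ)..τ, G t k) / √(2 * Λ)) := by
    intro k
    by_cases hk : k = 0
    · subst hk
      have h1 : ∫ t in (0:ℝ)..τ, ‖r t 0‖ ^ 2 = 0 := by
        rw [intervalIntegral.integral_congr (g := fun _ => (0 : ℝ))]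
        · simp
        · intro t ht
          rw [uIcc_of_le hτ] at ht
          simp [hr0 t ht]
      rw [h1, Real.sqrt_zero]
      have := hI0 0
      positivity
    · exact mode hMOD hΛ hC hτ hk (hrc k) (fun t ht => hrd t ht k) (hGc k)
        (fun t ht => (hG t ht k).1) (fun t ht => hF t ht k)
  -- Minkowski
  obtain ⟨hsum, hmin⟩ := hMIN τ (fun k t => ‖r t k‖) M hτ hM (fun k => (hrc k).norm)
    (fun k t ht => ⟨norm_nonneg _, hrM t ht k⟩)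
  -- summability
  have hS1 : Summable fun k => ‖r 0 k‖ :=
    Summable.of_nonneg_of_le (fun k => norm_nonneg _) (fun k => hrM 0 h0τ k) hM
  have hS2 : HasSum (fun k => ∫ t in (0:ℝ)..τ, G t k) (∫ t in (0:ℝ)..τ, ∑' k, G t k) := by
    apply intervalIntegral.hasSum_integral_of_dominated_convergence (fun k _ => M' k)
    · intro k
      rw [uIoc_of_le hτ]
      exact (((hGc k).mono Ioc_subset_Icc_self).aestronglyMeasurable measurableSet_Ioc)
    · intro k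
      refine Filter.Eventually.of_forall fun t ht => ?_
      rw [uIoc_of_le hτ] at ht
      have := hG t (Ioc_subset_Icc_self ht) k
      rw [Real.norm_of_nonneg this.1]
      exact this.2
    · exact Filter.Eventually.of_forall fun t _ => hM'
    · exact intervalIntegrable_const
    · refine Filter.Eventually.of_forall fun t ht => ?_
      rw [uIoc_of_le hτ] at ht
      have := hG t (Ioc_subset_Icc_self ht)
      exact (Summable.of_nonneg_of_le (fun k => (this k).1) (fun k => (this k).2) hM').hasSum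
  have hS3 : Summable fun k => 3 * ((‖r 0 k‖ + 2 * C₀ * ∫ t in (0:ℝ)..τ, G t k) / √(2 * Λ)) :=
    ((hS1.add (hS2.summable.mul_left (2 * C₀))).div_const _).mul_left 3
  have hA0 : 0 ≤ An (r 0) := tsum_nonneg fun k => norm_nonneg _
  have hI : 0 ≤ ∫ t in (0:ℝ)..τ, ∑' k, G t k :=
    intervalIntegral.integral_nonneg hτ fun t ht => tsum_nonneg fun k => (hG t ht k).1
  calc √(∫ t in (0:ℝ)..τ, An (r t) ^ 2)
      ≤ ∑' k, √(∫ t in (0:ℝ)..τ, ‖r t k‖ ^ 2) := hmin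
    _ ≤ ∑' k, 3 * ((‖r 0 k‖ + 2 * C₀ * ∫ t in (0:ℝ)..τ, G t k) / √(2 * Λ)) :=
        hsum.tsum_le_tsum hmode hS3
    _ = 3 * ((An (r 0) + 2 * C₀ * ∫ t in (0:ℝ)..τ, ∑' k, G t k) / √(2 * Λ)) := by
        rw [tsum_mul_left, tsum_div_const, (hS1.tsum_add (hS2.summable.mul_left (2 * C₀))),
          tsum_mul_left, hS2.tsum_eq]
        rfl
    _ ≤ 3 * (1 + 2 * C₀) / √(2 * Λ) * (An (r 0) + ∫ t in (0:ℝ)..τ, ∑' k, G t k) := by
        rw [show 3 * ((An (r 0) + 2 * C₀ * ∫ t in (0:ℝ)..τ, ∑' k, G t k) / √(2 * Λ)) =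
          3 / √(2 * Λ) * (An (r 0) + 2 * C₀ * ∫ t in (0:ℝ)..τ, ∑' k, G t k) by ring,
          show 3 * (1 + 2 * C₀) / √(2 * Λ) * (An (r 0) + ∫ t in (0:ℝ)..τ, ∑' k, G t k) =
          3 / √(2 * Λ) * ((1 + 2 * C₀) * (An (r 0) + ∫ t in (0:ℝ)..τ, ∑' k, G t k)) by ring]
        have h10 : 0 ≤ C₀ * An (r 0) := mul_nonneg hC hA0
        have h11 : 0 ≤ 3 / √(2 * Λ) := by positivity
        apply mul_le_mul_of_nonneg_left _ h11
        nlinarith

end Pool.Agent.N976.GD
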