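import Pool.Agent.N976.GD.Asm5
import Pool.Agent.N976.GD.MinMod
import Pool.Agent.N976.GD.Zin
import Pool.Agent.N976.GD.Grw
import Pool.Agent.N976.GD.Nnb
import Pool.Agent.N976.GD.Stb2
import Pool.Agent.N976.GD.Fou
import Pool.Agent.N976.GD.Eng
import Pool.Agent.N976.GD.Lex
import Pool.Agent.N976.GD.Tcf
import Pool.Agent.N976.GD.Pkf
import Pool.Agent.N976.GD.Pkn
import Pool.Agent.N976.GD.Dec

/-!
All parts of the project GD.
-/

set_option autoImplicit false

namespace Pool.Agent.N976.GD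

theorem hh : AS.H2 where
  FOU := t_FOU
  ENG := t_ENG t_FOU t_NNB
  SUP := t_SUP
  LEX := t_LEX
  MOD := t_MOD
  MIN := t_MIN
  ZIN := t_ZIN
  GRW := t_GRW
  NNB := t_NNB
  STB := t_STB2
  TCF := t_TCF
  NTC := t_NTC
  PKF := t_PKF
  PKN := t_PKN
  DEC := t_DEC
  LAC := t_LAC

end Pool.Agent.N976.GD
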