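import Pool.Agent.N976.GD.Stm3

/-!
Project GD (helper976), part GAL: Galilean transformations (helper300).
The integrals of periodic functions over the period cell: copied from N976/EQ/E4.lean.
-/

set_option autoImplicit false

open MeasureTheory Set Filter Topology
open scoped ContDiff

namespace Pool.Agent.N976.GD

open H459R3.NS Pool.Agent.N977.Q

namespace GalA

theorem per_span {F : Type*} {f : V → F} (hf : Per f)
    (g : Submodule.span ℤ (Set.range (Pi.basisFun ℝ (Fin 3)))) (x : V) : f (g +ᵥ x) = f x := by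
  obtain ⟨v, hv⟩ := g
  have key : ∀ v ∈ Submodule.span ℤ (Set.range (Pi.basisFun ℝ (Fin 3))), ∀ x, f (v + x) = f x := by
    intro v hv
    induction hv using Submodule.span_induction with
    | mem v hv =>
      obtain ⟨i, rfl⟩ := hv
      intro x
      rw [Pi.basisFun_apply, add_comm]
      exact hf i x
    | zero => intro x; rw [zero_add]
    | add a b _ _ ha hb => intro x; rw [add_assoc, ha, hb]
    | smul n a _ ha =>
      intro x
      induction n using Int.induction_on generalizing x with
      | zero => rw [zero_smul, zero_add]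
      | succ k ih => rw [add_smul, one_smul, add_assoc, ih, ha]
      | pred k ih =>
        rw [sub_smul, one_smul]
        have h1 := ha ((-(k : ℤ)) • a - a + x)
        have e1 : a + ((-(k : ℤ)) • a - a + x) = (-(k : ℤ)) • a + x := by abel
        rw [e1, ih] at h1
        exact h1.symm
  exact key v hv x

/-- The half open cell. -/
def dom : Set V := ZSpan.fundamentalDomain (Pi.basisFun ℝ (Fin 3))

theorem dom_ae : dom =ᵐ[volume] cube := by
  have h1 : dom = Set.pi univ fun _ : Fin 3 => Ico (0 : ℝ) 1 := by
    ext x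
    simp [dom, ZSpan.mem_fundamentalDomain]
  have h2 : cube = Icc (0 : V) 1 := rfl
  rw [h1, h2]
  exact Measure.univ_pi_Ico_ae_eq_Icc (μ := fun _ : Fin 3 => (volume : Measure ℝ))
    (f := (0 : V)) (g := (1 : V))

theorem int_shift {G : Type*} [NormedAddCommGroup G] [NormedSpace ℝ G] {f : V → G} (hf : Per f)
    (h : V) : ∫ x in cube, f (x + h) = ∫ x in cube, f x := by
  have hD : IsAddFundamentalDomain (Submodule.span ℤ (Set.range (Pi.basisFun ℝ (Fin 3)))) dom
      (volume : Measure V) := ZSpan.isAddFundamentalDomain _ _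
  have hmp : MeasurePreserving (fun x : V => x - h) volume volume := measurePreserving_sub_right _ h
  have hinv : VAddInvariantMeasure (Submodule.span ℤ (Set.range (Pi.basisFun ℝ (Fin 3)))) V
      (volume : Measure V) := ⟨fun g s _ => measure_preimage_add volume (g : V) s⟩
  have hD' : IsAddFundamentalDomain (Submodule.span ℤ (Set.range (Pi.basisFun ℝ (Fin 3))))
      ((fun x : V => x - h) ⁻¹' dom) (volume : Measure V) := by
    refine hD.preimage_of_equiv hmp.quasiMeasurePreserving (e := id) Function.bijective_id ?_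
    intro g x
    simp only [id]
    show (g +ᵥ x) - h = g +ᵥ (x - h)
    rw [Submodule.vadd_def, Submodule.vadd_def, vadd_eq_add, vadd_eq_add]
    abel
  have h1 : ∫ x in dom, f x = ∫ x in (fun x : V => x - h) ⁻¹' dom, f x :=
    hD.setIntegral_eq hD' (per_span hf)
  have hmp2 : MeasurePreserving (fun x : V => x + h) volume volume := measurePreserving_add_right _ h
  have h2 := hmp2.setIntegral_preimage_emb (measurableEmbedding_addRight h) f
    ((fun x : V => x - h) ⁻¹' dom)
  have h3 : (fun x : V => x + h) ⁻¹' ((fun x : V => x - h) ⁻¹' dom) = dom := by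
    ext x; simp
  rw [h3] at h2
  rw [← setIntegral_congr_set dom_ae, ← setIntegral_congr_set dom_ae, h2, h1]

/-! ### The characters -/

theorem ee_cont (k : K3) : Continuous (ee k) := by
  unfold ee ph
  fun_prop

theorem ee_add (k : K3) (x y : V) : ee k (x + y) = ee k x * ee k y := by
  have h1 : ph k (x + y) = ph k x + ph k y := by
    unfold ph
    rw [← Finset.sum_add_distrib]
    refine Finset.sum_congr rfl fun j _ => ?_
    rw [Pi.add_apply]
    ring
  unfold ee
  rw [h1, ← Complex.exp_add]
  push_cast
  ring_nf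

theorem ee_norm (k : K3) (x : V) : ‖ee k x‖ = 1 := by
  unfold ee
  have h1 : 2 * (Real.pi : ℂ) * Complex.I * (ph k x : ℂ) =
      ((2 * Real.pi * ph k x : ℝ) : ℂ) * Complex.I := by
    push_cast
    ring
  rw [h1, Complex.norm_exp_ofReal_mul_I]

theorem ee_single (k : K3) (i : Fin 3) : ee k (Pi.single i 1) = 1 := by
  have h1 : ph k (Pi.single i 1) = (k i : ℝ) := by
    unfold ph
    rw [Finset.sum_eq_single i]
    · simp
    · intro j _ hj
      simp [hj]
    · simp
  unfold ee
  rw [h1]
  have h2 : 2 * (Real.pi : ℂ) * Complex.I * (((k i : ℤ) : ℝ) : ℂ) =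
      (k i : ℂ) * (2 * (Real.pi : ℂ) * Complex.I) := by
    push_cast
    ring
  rw [h2]
  exact Complex.exp_int_mul_two_pi_mul_I _

theorem ee_per (k : K3) : Per (ee k) := by
  intro i x
  rw [ee_add, ee_single, mul_one]

theorem int_cube {G : Type*} [NormedAddCommGroup G] {f : V → G} (hf : Continuous f) :
    IntegrableOn f cube volume := hf.continuousOn.integrableOn_compact isCompact_Icc

/-- part 2: translations -/
theorem fr_shift {f g : V → ℝ} (hf : Continuous f) (hg : Continuous g) (pf : Per f) (pg : Per g)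
    (y : V) (c : ℝ) (k : K3) : fr (fun x => f (x - y) + c) k - fr (fun x => g (x - y) + c) k =
      ee (-k) y * (fr f k - fr g k) := by
  have e1 : ∀ (h : V → ℝ), Continuous h → ∀ c : ℝ, IntegrableOn
      (fun x => ee (-k) x * ((h (x - y) + c : ℝ) : ℂ)) cube volume := fun h hh c =>
    int_cube ((ee_cont _).mul (by fun_prop))
  have e2 : ∀ (h : V → ℝ), Continuous h → IntegrableOn
      (fun x => ee (-k) x * (h x : ℂ)) cube volume := fun h hh =>
    int_cube ((ee_cont _).mul (by fun_prop))
  unfold fr fc
  rw [← integral_sub (e1 f hf c) (e1 g hg c), ← integral_sub (e2 f hf) (e2 g hg)]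
  have h1 : Per (fun x => ee (-k) x * (f x : ℂ) - ee (-k) x * (g x : ℂ)) := by
    intro i x
    show ee (-k) (x + Pi.single i 1) * (f (x + Pi.single i 1) : ℂ) -
      ee (-k) (x + Pi.single i 1) * (g (x + Pi.single i 1) : ℂ) = _
    rw [ee_per, pf, pg]
  rw [← int_shift h1 (-y), ← integral_const_mul]
  congr 1
  ext x
  have h2 : ee (-k) x = ee (-k) y * ee (-k) (x + -y) := by
    rw [← ee_add]
    congr 1
    abel
  rw [h2, ← sub_eq_add_neg]
  push_cast
  ring

theorem comp_cont {v : V → V} (hv : SPV v) (i : Fin 3) : Continuous (fun x => v x i) :=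
  (continuous_apply i).comp hv.1.continuous

theorem comp_per {v : V → V} (hv : SPV v) (i : Fin 3) : Per (fun x => v x i) := by
  intro j x
  show v (x + Pi.single j 1) i = v x i
  rw [hv.2]

theorem part2 (v w : V → V) (m y : V) (hv : SPV v) (hw : SPV w) :
    An (fv (fun x => v (x - y) + m) - fv (fun x => w (x - y) + m)) = An (fv v - fv w) := by
  unfold An
  refine tsum_congr fun k => ?_
  have h1 : (fv (fun x => v (x - y) + m) - fv (fun x => w (x - y) + m)) k =
      ee (-k) y • (fv v - fv w) k := by
    ext i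
    exact fr_shift (comp_cont hv i) (comp_cont hw i) (comp_per hv i) (comp_per hw i) y (m i) k
  rw [h1, norm_smul, ee_norm, one_mul]

/-! ### The mean value -/

theorem vol_cube : (volume : Measure V).real cube = 1 := by
  have h1 : (volume : Measure V) cube = 1 := by
    unfold cube
    rw [Real.volume_Icc_pi]
    simp
  rw [Measure.real, h1]
  simp

theorem part3 (v : V → V) (m : V) (hv : SPV v) (hd : Dv v) (hm : ∀ i, ∫ x in cube, v x i = m i) :
    SPV (fun x => v x - m) ∧ Dv (fun x => v x - m) ∧ (∀ i, ∫ x in cube, (v x - m) i = 0) ∧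
    fv (fun x => v x - m) 0 = 0 := by
  have h3 : ∀ i, ∫ x in cube, (v x - m) i = 0 := by
    intro i
    have e : ∀ x, (v x - m) i = v x i - m i := fun x => rfl
    simp_rw [e]
    have ei : IntegrableOn (fun _ : V => m i) cube volume := int_cube continuous_const
    rw [integral_sub (int_cube (comp_cont hv i)) ei, hm, setIntegral_const, vol_cube, one_smul,
      sub_self]
  refine ⟨⟨hv.1.sub contDiff_const, ?_⟩, ?_, h3, ?_⟩
  · intro i x
    show v (x + Pi.single i 1) - m = v x - m
    rw [hv.2]
  · intro x
    rw [← hd x]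
    refine Finset.sum_congr rfl fun i _ => ?_
    unfold pd
    have e : (fun y => (v y - m) i) = fun y => v y i - m i := rfl
    rw [e, fderiv_sub_const]
  · ext i
    show ∫ x in cube, ee (-0) x * (((v x - m) i : ℝ) : ℂ) = 0
    have e : ∀ x, ee (-0) x * (((v x - m) i : ℝ) : ℂ) = (((v x - m) i : ℝ) : ℂ) := by
      intro x
      have : ee (-0) x = 1 := by
        unfold ee ph
        simp
      rw [this, one_mul]
    simp_rw [e]
    rw [integral_complex_ofReal, h3 i]
    simp

/-! ### Solutions -/

theorem pd_shift (j : Fin 3) (f : V → ℝ) (y : V) (c : ℝ) (x : V) :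
    pd j (fun z => f (z - y) + c) x = pd j f (x - y) := by
  unfold pd
  rw [fderiv_add_const, fderiv_comp_sub]

theorem pd_shift0 (j : Fin 3) (f : V → ℝ) (y : V) (x : V) :
    pd j (fun z => f (z - y)) x = pd j f (x - y) := by
  unfold pd
  rw [fderiv_comp_sub]

theorem part1 (ν T : ℝ) (m : V) (u : ℝ → V → V) (p : ℝ → V → ℝ) (h : IsSol ν T u p) :
    IsSol ν T (gal m u) (galp m p) := by
  have hΦ : ContDiff ℝ ∞ (fun z : ℝ × V => (z.1, z.2 - z.1 • m)) := by fun_prop
  have hmt : MapsTo (fun z : ℝ × V => (z.1, z.2 - z.1 • m)) (Ico 0 T ×ˢ univ) (Ico 0 T ×ˢ univ) :=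
    fun z hz => ⟨hz.1, mem_univ _⟩
  constructor
  · have h1 := h.smooth_u.comp hΦ.contDiffOn hmt
    exact h1.add contDiffOn_const
  · exact h.smooth_p.comp hΦ.contDiffOn hmt
  · intro t ht i x
    show u t (x + Pi.single i 1 - t • m) + m = u t (x - t • m) + m
    have e : x + Pi.single i 1 - t • m = (x - t • m) + Pi.single i 1 := by abel
    rw [e, h.per_u t ht]
  · intro t ht i x
    show p t (x + Pi.single i 1 - t • m) = p t (x - t • m)
    have e : x + Pi.single i 1 - t • m = (x - t • m) + Pi.single i 1 := by abel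
    rw [e, h.per_p t ht]
  · intro t ht x
    rw [← h.divfree t ht (x - t • m)]
    refine Finset.sum_congr rfl fun i _ => ?_
    exact pd_shift i (fun y => u t y i) (t • m) (m i) x
  · intro t ht x i
    obtain ⟨z, hz⟩ : ∃ z : V, z = x - t • m := ⟨_, rfl⟩
    have a1 : ∀ j, pd j (fun y => gal m u t y i) x = pd j (fun y => u t y i) z := fun j => by
      rw [hz]
      exact pd_shift j (fun y => u t y i) (t • m) (m i) x
    have a2 : ∀ j, pd j (pd j (fun y => gal m u t y i)) x =
        pd j (pd j (fun y => u t y i)) z := fun j => by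
      have e : pd j (fun y => gal m u t y i) =
          fun y => pd j (fun y => u t y i) (y - t • m) := by
        funext y
        exact pd_shift j (fun y => u t y i) (t • m) (m i) y
      rw [e, hz]
      exact pd_shift0 j _ (t • m) x
    have a3 : pd i (galp m p t) x = pd i (p t) z := by
      rw [hz]
      exact pd_shift0 i (p t) (t • m) x
    -- the derivative in time
    have hnh : Ico 0 T ×ˢ (univ : Set V) ∈ 𝓝 (t, z) :=
      prod_mem_nhds (Ico_mem_nhds ht.1 ht.2) univ_mem
    have hd : DifferentiableAt ℝ (fun q : ℝ × V => u q.1 q.2 i) (t, z) := by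
      have h1 : ContDiffAt ℝ ∞ (fun q : ℝ × V => u q.1 q.2) (t, z) :=
        h.smooth_u.contDiffAt hnh
      have h2 : DifferentiableAt ℝ (fun q : ℝ × V => u q.1 q.2) (t, z) :=
        h1.differentiableAt (by simp)
      exact differentiableAt_pi.1 h2 i
    obtain ⟨F', hF'⟩ : ∃ F', HasFDerivAt (fun q : ℝ × V => u q.1 q.2 i) F' (t, z) :=
      ⟨_, hd.hasFDerivAt⟩
    have b1 : deriv (fun s => u s z i) t = F' (1, 0) := by
      have h1 : HasDerivAt (fun s : ℝ => (s, z)) ((1 : ℝ), (0 : V)) t :=
        (hasDerivAt_id t).prodMk (hasDerivAt_const t z)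
      exact (HasFDerivAt.comp_hasDerivAt t hF' h1).deriv
    have b2 : deriv (fun s => gal m u s x i) t = F' (1, -m) := by
      have h1 : HasDerivAt (fun s : ℝ => (s, x - s • m)) ((1 : ℝ), -m) t := by
        have h2 : HasDerivAt (fun s : ℝ => x - s • m) (-m) t := by
          have h3 := ((hasDerivAt_id t).smul_const m).const_sub x
          simpa using h3
        exact (hasDerivAt_id t).prodMk h2
      rw [hz] at hF'
      have h4 := (HasFDerivAt.comp_hasDerivAt t hF' h1).add_const (m i)
      exact h4.deriv
    have b3 : ∀ j, pd j (fun y => u t y i) z = F' (0, Pi.single j 1) := by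
      intro j
      have h1 : HasFDerivAt (fun y : V => (t, y)) (ContinuousLinearMap.inr ℝ ℝ V) z :=
        hasFDerivAt_prodMk_right t z
      have h2 : HasFDerivAt (fun y : V => u t y i) _ z := hF'.comp z h1
      unfold pd
      rw [h2.fderiv]
      simp
    have b4 : F' (1, -m) = F' (1, 0) - ∑ j, m j * F' (0, Pi.single j 1) := by
      have h1 : ((1 : ℝ), -m) = (1, 0) - ∑ j, m j • ((0 : ℝ), (Pi.single j 1 : V)) := by
        ext i
        · simp [Prod.fst_sum]
        · simp [Prod.snd_sum, Finset.sum_apply, Pi.single_apply]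
      rw [h1, map_sub, map_sum]
      simp only [map_smul, smul_eq_mul]
    have hmom := h.momentum t ht z i
    rw [a3, b2, b4, ← b1]
    simp_rw [a1, a2]
    rw [← hmom]
    have c1 : ∀ j, gal m u t x j = u t z j + m j := by
      intro j
      rw [hz]
      rfl
    simp_rw [c1, add_mul, Finset.sum_add_distrib, b3]
    ring

end GalA

/-- (GAL) Galilean transformations -/
theorem t_GAL : S_GAL := ⟨GalA.part1, GalA.part2, GalA.part3⟩

end Pool.Agent.N976.GD
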