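import Pool.Agent.N976.GD.Asm6
import Pool.Agent.N976.GD.Fin
import Pool.Agent.N976.GD.Dcy
import Pool.Agent.N976.GD.Gal

/-!
The theorem of the project GD.
-/

set_option autoImplicit false

open MeasureTheory Set Filter Topology
open scoped ContDiff

namespace Pool.Agent.N976.GD

open H459R3.NS Pool.Agent.N977.Q

theorem main {ν : ℝ} (hν : 0 < ν) {U : V → V}
    (hU : SPV U) (hD : Dv U) {v : ℝ → V → V} {r : ℝ → V → ℝ} (hv : ∀ T, IsSol ν T v r)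
    (hm : ∀ i, ∫ x in cube, v 0 x i = ∫ x in cube, U x i) {q ε : ℝ} (hq : 2 < q) (hε : 0 < ε)
    (K : ℕ) :
    ∃ u₀ : V → V, SPV u₀ ∧ Dv u₀ ∧ (∀ k, len k < K → fv (u₀ - U) k = 0) ∧
      (∀ t, 0 < t → √t * HA t (u₀ - U) ≤ ε) ∧
      (∫⁻ t in Ioi (0:ℝ), ENNReal.ofReal ((√t * HA t (u₀ - U)) ^ q / t) ≤ ENNReal.ofReal ε) ∧
      ∃ (u : ℝ → V → V) (p : ℝ → V → ℝ), u 0 = u₀ ∧ (∀ T, IsSol ν T u p) ∧
        ∀ τ, ε ≤ τ → ∫ t in ε..τ, An (fv (u t) - fv (v t)) ^ 2 ≤ ε :=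
  AS.final3 hh (t_DCY t_FOU t_NNB) t_GAL hν hU hD hv hm hq hε K

end Pool.Agent.N976.GD
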