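import Pool.Agent.N976.GD.Stm

/-!
# GD/STB: the stability theorem for Fourier coefficients
-/

set_option autoImplicit false

open MeasureTheory Set Filter Topology

namespace Pool.Agent.N976.GD

open H459R3.NS Pool.Agent.N977.Q

namespace SB

/-- families with a summable majorant, continuous in time -/
def Maj (s : Set ℝ) (a : ℝ → Cf) : Prop :=
  (∀ k, ContinuousOn (fun t => a t k) s) ∧
    ∃ M : K3 → ℝ, Summable M ∧ (∀ k, 0 ≤ M k) ∧ ∀ t ∈ s, ∀ k, ‖a t k‖ ≤ M k

/-- real nonnegative families with a summable majorant, continuous in time -/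
def RMaj (s : Set ℝ) (f : ℝ → K3 → ℝ) : Prop :=
  (∀ k, ContinuousOn (fun t => f t k) s) ∧
    ∃ M : K3 → ℝ, Summable M ∧ ∀ t ∈ s, ∀ k, 0 ≤ f t k ∧ f t k ≤ M k

/-- the first part of `S_NNB` -/
def P1 (C : ℝ) : Prop := ∀ a b : Cf, (Summable fun k => ‖a k‖) → (Summable fun k => ‖b k‖) →
    (∀ k, 0 ≤ cn a b k) ∧ Summable (cn a b) ∧ (∑' k, cn a b k = An a * An b) ∧
    (∀ k, Summable fun l => ‖a l‖ * ‖b (k - l)‖) ∧
    ∀ k, ‖NN a b k‖ ≤ C * (len k * cn a b k)

/-- the second part of `S_NNB` -/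
def P2 : Prop := ∀ a a' b : Cf, (Summable fun k => ‖a k‖) → (Summable fun k => ‖a' k‖) →
    (Summable fun k => ‖b k‖) → (∀ k, NN (a + a') b k = NN a b k + NN a' b k) ∧
      ∀ k, NN b (a + a') k = NN b a k + NN b a' k

section

variable {s : Set ℝ} {a b : ℝ → Cf}

theorem Maj.add (ha : Maj s a) (hb : Maj s b) : Maj s (fun t => a t + b t) := by
  obtain ⟨ha1, M, hM, hM0, haM⟩ := ha
  obtain ⟨hb1, M', hM', hM0', hbM⟩ := hb
  refine ⟨fun k => (ha1 k).add (hb1 k), fun k => M k + M' k, hM.add hM',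
    fun k => add_nonneg (hM0 k) (hM0' k), fun t ht k => ?_⟩
  exact (norm_add_le _ _).trans (add_le_add (haM t ht k) (hbM t ht k))

theorem Maj.sub (ha : Maj s a) (hb : Maj s b) : Maj s (fun t => a t - b t) := by
  obtain ⟨ha1, M, hM, hM0, haM⟩ := ha
  obtain ⟨hb1, M', hM', hM0', hbM⟩ := hb
  refine ⟨fun k => (ha1 k).sub (hb1 k), fun k => M k + M' k, hM.add hM',
    fun k => add_nonneg (hM0 k) (hM0' k), fun t ht k => ?_⟩
  exact (norm_sub_le _ _).trans (add_le_add (haM t ht k) (hbM t ht k))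

theorem Maj.summable (ha : Maj s a) {t : ℝ} (ht : t ∈ s) : Summable fun k => ‖a t k‖ := by
  obtain ⟨-, M, hM, -, haM⟩ := ha
  exact Summable.of_nonneg_of_le (fun k => norm_nonneg _) (haM t ht) hM

theorem Maj.continuousOn_An (ha : Maj s a) : ContinuousOn (fun t => An (a t)) s := by
  obtain ⟨h1, M, hM, -, haM⟩ := ha
  exact continuousOn_tsum (fun k => (h1 k).norm) hM
    (fun k t ht => by rw [norm_norm]; exact haM t ht k)

theorem RMaj.add {f f' : ℝ → K3 → ℝ} (hf : RMaj s f) (hf' : RMaj s f') :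
    RMaj s (fun t k => f t k + f' t k) := by
  obtain ⟨h1, M, hM, hfM⟩ := hf
  obtain ⟨h1', M', hM', hfM'⟩ := hf'
  refine ⟨fun k => (h1 k).add (h1' k), fun k => M k + M' k, hM.add hM', fun t ht k => ?_⟩
  exact ⟨add_nonneg (hfM t ht k).1 (hfM' t ht k).1, add_le_add (hfM t ht k).2 (hfM' t ht k).2⟩

theorem norm_cst {x : ℝ} (hx : 0 ≤ x) : ‖(fun _ => (x : ℂ) : C3)‖ = x := by
  rw [pi_norm_const, Complex.norm_real, Real.norm_of_nonneg hx]

theorem RMaj.cn {C : ℝ} (h : P1 C) (ha : Maj s a) (hb : Maj s b) :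
    RMaj s (fun t k => cn (a t) (b t) k) := by
  have hsa := fun (t : ℝ) (ht : t ∈ s) => ha.summable ht
  have hsb := fun (t : ℝ) (ht : t ∈ s) => hb.summable ht
  obtain ⟨ha1, M, hM, hM0, haM⟩ := ha
  obtain ⟨hb1, M', hM', hM0', hbM⟩ := hb
  let m : Cf := fun k _ => (M k : ℂ)
  let m' : Cf := fun k _ => (M' k : ℂ)
  have hm : ∀ k, ‖m k‖ = M k := fun k => norm_cst (hM0 k)
  have hm' : ∀ k, ‖m' k‖ = M' k := fun k => norm_cst (hM0' k)
  have hc := h m m' (by simpa only [hm] using hM) (by simpa only [hm'] using hM')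
  refine ⟨fun k => ?_, GD.cn m m', hc.2.1, fun t ht k =>
    ⟨(h (a t) (b t) (hsa t ht) (hsb t ht)).1 k, ?_⟩⟩
  · unfold GD.cn
    refine continuousOn_tsum (fun l => ((ha1 l).norm.mul (hb1 (k - l)).norm)) (hc.2.2.2.1 k)
      (fun l t ht => ?_)
    rw [norm_mul, norm_norm, norm_norm, hm, hm']
    exact mul_le_mul (haM t ht l) (hbM t ht _) (norm_nonneg _) (hM0 l)
  · unfold GD.cn
    refine Summable.tsum_le_tsum (fun l => ?_) ((h (a t) (b t) (hsa t ht) (hsb t ht)).2.2.2.1 k)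
      (hc.2.2.2.1 k)
    rw [hm, hm']
    exact mul_le_mul (haM t ht l) (hbM t ht _) (norm_nonneg _) (hM0 l)

end

section

variable {C : ℝ} {v w g r : Cf}

theorem summable_add (ha : Summable fun k => ‖v k‖) (hb : Summable fun k => ‖w k‖) :
    Summable fun k => ‖(v + w) k‖ :=
  Summable.of_nonneg_of_le (fun _ => norm_nonneg _) (fun _ => norm_add_le _ _) (ha.add hb)

theorem expand2 (h2 : P2) (ha : Summable fun k => ‖v k‖) (hb : Summable fun k => ‖w k‖) (k : K3) :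
    NN (v + w) (v + w) k = NN v v k + NN v w k + NN w v k + NN w w k := by
  have h3 := summable_add ha hb
  rw [(h2 v w (v + w) ha hb h3).1 k, (h2 v w v ha hb ha).2 k, (h2 v w w ha hb hb).2 k]
  abel

theorem key (h1 : P1 C) (hC : 0 < C) (h2 : P2) (hv : Summable fun k => ‖v k‖)
    (hw : Summable fun k => ‖w k‖) (hg : Summable fun k => ‖g k‖) (hr : Summable fun k => ‖r k‖)
    (μ R : ℝ) (k : K3) (hR : 0 ≤ R) (hww : ‖NN w w k - μ • g k‖ ≤ len k * R) :
    ‖NN (v + w + g + r) (v + w + g + r) k - NN v v k - μ • g k‖ ≤ (1 + C) * (len k *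
      (R + cn v w k + cn v g k + cn w v k + cn g v k + cn w g k + cn g w k + cn g g k +
        cn (v + w + g) r k + cn r (v + w + g) k + cn r r k)) := by
  have hvw := summable_add hv hw
  have hvwg := summable_add hvw hg
  have e : NN (v + w + g + r) (v + w + g + r) k - NN v v k - μ • g k =
      (NN w w k - μ • g k) + NN v w k + NN v g k + NN w v k + NN g v k + NN w g k + NN g w k +
        NN g g k + NN (v + w + g) r k + NN r (v + w + g) k + NN r r k := by
    rw [expand2 h2 hvwg hr, expand2 h2 hvw hg, expand2 h2 hv hw, (h2 v w g hv hw hg).1 k,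
      (h2 v w g hv hw hg).2 k]
    abel
  have hb : ∀ a b : Cf, (Summable fun k => ‖a k‖) → (Summable fun k => ‖b k‖) →
      ‖NN a b k‖ ≤ C * (len k * cn a b k) ∧ 0 ≤ len k * cn a b k := fun a b ha hb =>
    ⟨(h1 a b ha hb).2.2.2.2 k, mul_nonneg (Real.sqrt_nonneg _) ((h1 a b ha hb).1 k)⟩
  have i1 := hb v w hv hw
  have i2 := hb v g hv hg
  have i3 := hb w v hw hv
  have i4 := hb g v hg hv
  have i5 := hb w g hw hg
  have i6 := hb g w hg hw
  have i7 := hb g g hg hg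
  have i8 := hb (v + w + g) r hvwg hr
  have i9 := hb r (v + w + g) hr hvwg
  have i10 := hb r r hr hr
  rw [e]
  refine (norm_add_le_of_le (norm_add_le_of_le (norm_add_le_of_le (norm_add_le_of_le
    (norm_add_le_of_le (norm_add_le_of_le (norm_add_le_of_le (norm_add_le_of_le
    (norm_add_le_of_le (norm_add_le_of_le hww i1.1) i2.1) i3.1) i4.1) i5.1) i6.1) i7.1)
    i8.1) i9.1) i10.1).trans ?_
  have hR' : 0 ≤ len k * R := mul_nonneg (Real.sqrt_nonneg _) hR
  have hCR : 0 ≤ C * (len k * R) := mul_nonneg hC.le hR'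
  have e2 : (1 + C) * (len k *
      (R + cn v w k + cn v g k + cn w v k + cn g v k + cn w g k + cn g w k + cn g g k +
        cn (v + w + g) r k + cn r (v + w + g) k + cn r r k)) =
      (len k * R + C * (len k * R)) + (len k * cn v w k + C * (len k * cn v w k)) +
      (len k * cn v g k + C * (len k * cn v g k)) + (len k * cn w v k + C * (len k * cn w v k)) +
      (len k * cn g v k + C * (len k * cn g v k)) + (len k * cn w g k + C * (len k * cn w g k)) +
      (len k * cn g w k + C * (len k * cn g w k)) + (len k * cn g g k + C * (len k * cn g g k)) +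
      (len k * cn (v + w + g) r k + C * (len k * cn (v + w + g) r k)) +
      (len k * cn r (v + w + g) k + C * (len k * cn r (v + w + g) k)) +
      (len k * cn r r k + C * (len k * cn r r k)) := by ring
  rw [e2]
  linarith [i1.2, i2.2, i3.2, i4.2, i5.2, i6.2, i7.2, i8.2, i9.2, i10.2]

theorem hasSum_cn (h1 : P1 C) (ha : Summable fun k => ‖v k‖) (hb : Summable fun k => ‖w k‖) :
    HasSum (fun k => cn v w k) (An v * An w) := by
  have h := h1 v w ha hb
  rw [← h.2.2.1]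
  exact h.2.1.hasSum

theorem An_nonneg (a : Cf) : 0 ≤ An a := tsum_nonneg fun _ => norm_nonneg _

theorem sum_bound (h1 : P1 C) (hv : Summable fun k => ‖v k‖)
    (hw : Summable fun k => ‖w k‖) (hg : Summable fun k => ‖g k‖) (hr : Summable fun k => ‖r k‖)
    {R : K3 → ℝ} (hR : Summable R) {B C₁ N e : ℝ} (hC₁ : 0 ≤ C₁) (hB : 0 ≤ B)
    (he0 : 0 ≤ e) (he1 : e ≤ 1) (hN : 1 ≤ N) (hRs : ∑' k, R k ≤ C₁ * N * e) (hvB : An v ≤ B)
    (hwB : An w ≤ C₁ * N * e) (hgB : An g ≤ C₁ * e) :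
    ∑' k, (R k + cn v w k + cn v g k + cn w v k + cn g v k + cn w g k + cn g w k + cn g g k +
        cn (v + w + g) r k + cn r (v + w + g) k + cn r r k) ≤
      (C₁ + 4 * B * C₁ + 3 * C₁ ^ 2) * (N * e) +
        (2 * (An (v + w + g) * An r) + An r ^ 2) := by
  have hvwg := summable_add (summable_add hv hw) hg
  have hs := ((((((((((hR.hasSum.add (hasSum_cn h1 hv hw)).add (hasSum_cn h1 hv hg)).add
    (hasSum_cn h1 hw hv)).add (hasSum_cn h1 hg hv)).add (hasSum_cn h1 hw hg)).add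
    (hasSum_cn h1 hg hw)).add (hasSum_cn h1 hg hg)).add (hasSum_cn h1 hvwg hr)).add
    (hasSum_cn h1 hr hvwg)).add (hasSum_cn h1 hr hr))
  rw [hs.tsum_eq]
  have hx : e ≤ N * e := by nlinarith
  have hx0 : 0 ≤ N * e := he0.trans hx
  have hv0 := An_nonneg v
  have hw0 := An_nonneg w
  have hg0 := An_nonneg g
  have hw1 : An w ≤ C₁ * (N * e) := by rw [← mul_assoc]; exact hwB
  have hg1 : An g ≤ C₁ * (N * e) := hgB.trans (mul_le_mul_of_nonneg_left hx hC₁)
  have hg2 : An g ≤ C₁ := by nlinarith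
  have hCx : 0 ≤ C₁ * (N * e) := mul_nonneg hC₁ hx0
  have j1 : An v * An w ≤ B * (C₁ * (N * e)) := mul_le_mul hvB hw1 hw0 hB
  have j2 : An v * An g ≤ B * (C₁ * (N * e)) := mul_le_mul hvB hg1 hg0 hB
  have j3 : An w * An g ≤ (C₁ * (N * e)) * C₁ := mul_le_mul hw1 hg2 hg0 hCx
  have j4 : An g * An g ≤ (C₁ * (N * e)) * C₁ := mul_le_mul hg1 hg2 hg0 hCx
  have j5 : ∑' k, R k ≤ C₁ * (N * e) := by rw [← mul_assoc]; exact hRs
  have c1 : An w * An v = An v * An w := mul_comm _ _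
  have c2 : An g * An v = An v * An g := mul_comm _ _
  have c3 : An g * An w = An w * An g := mul_comm _ _
  have c4 : An r * An (v + w + g) = An (v + w + g) * An r := mul_comm _ _
  rw [c1, c2, c3, c4]
  have c5 : (C₁ + 4 * B * C₁ + 3 * C₁ ^ 2) * (N * e) =
      C₁ * (N * e) + 4 * (B * (C₁ * (N * e))) + 3 * ((C₁ * (N * e)) * C₁) := by ring
  rw [c5]
  have c6 : An r * An r = An r ^ 2 := (sq _).symm
  rw [c6]
  linarith

end

/-! ### Real analysis -/

theorem der_lin (c t : ℝ) : HasDerivAt (fun t : ℝ => -(c * t)) (-c) t := by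
  have h := (hasDerivAt_id' t).const_mul (-c)
  simpa [neg_mul] using h

theorem int_exp_le {c τ : ℝ} (hc : 0 < c) : ∫ t in (0 : ℝ)..τ, Real.exp (-(c * t)) ≤ 1 / c := by
  have h1 : ∀ t ∈ uIcc 0 τ, HasDerivAt (fun t => -(Real.exp (-(c * t)) / c))
      (Real.exp (-(c * t))) t := by
    intro t _
    have h3 := ((der_lin c t).exp.div_const c).fun_neg
    refine h3.congr_deriv ?_
    field_simp
  rw [intervalIntegral.integral_eq_sub_of_hasDerivAt h1
    ((by fun_prop : Continuous fun t : ℝ => Real.exp (-(c * t))).intervalIntegrable _ _)]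
  simp only [mul_zero, neg_zero, Real.exp_zero]
  have h4 : 0 ≤ Real.exp (-(c * τ)) / c := by positivity
  linarith

theorem int_le {f g : ℝ → ℝ} {τ : ℝ} (hτ : 0 ≤ τ) (hg : IntervalIntegrable g volume 0 τ)
    (hg0 : ∀ t ∈ Icc 0 τ, 0 ≤ g t) (h : ∀ t ∈ Icc 0 τ, f t ≤ g t) :
    ∫ t in (0 : ℝ)..τ, f t ≤ ∫ t in (0 : ℝ)..τ, g t := by
  by_cases hf : IntervalIntegrable f volume 0 τ
  · exact intervalIntegral.integral_mono_on hτ hf hg h
  · rw [intervalIntegral.integral_undef hf]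
    exact intervalIntegral.integral_nonneg hτ hg0

theorem contOn_Ico {f : ℝ → ℝ} {T : ℝ} (h : ∀ τ, τ < T → ContinuousOn f (Icc 0 τ)) :
    ContinuousOn f (Ico 0 T) := by
  intro t ht
  have hτ : (t + T) / 2 < T := by linarith [ht.2]
  have h1 := h _ hτ t ⟨ht.1, by linarith [ht.2]⟩
  refine h1.mono_of_mem_nhdsWithin ?_
  have h2 : Iio ((t + T) / 2) ∈ 𝓝 t := Iio_mem_nhds (by linarith [ht.2])
  filter_upwards [self_mem_nhdsWithin, mem_nhdsWithin_of_mem_nhds h2] with x hx hx'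
  exact ⟨hx.1, (mem_Iio.1 hx').le⟩

/-! ### The families -/

theorem summable_of_fin {a : Cf} (h : {k | a k ≠ 0}.Finite) : Summable fun k => ‖a k‖ := by
  refine summable_of_ne_finset_zero (s := h.toFinset) fun k hk => ?_
  have : a k = 0 := by
    by_contra h'
    exact hk (by simpa using h')
  rw [this, norm_zero]

theorem maj_exp {c : K3 → ℝ} {E : Cf} (hE : {k | E k ≠ 0}.Finite) (hc : ∀ k, 0 ≤ c k) {τ : ℝ}
    {a : ℝ → Cf} (ha : ∀ t k, a t k = Real.exp (-(c k * t)) • E k) : Maj (Icc 0 τ) a := by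
  refine ⟨fun k => ?_, fun k => ‖E k‖, summable_of_fin hE, fun k => norm_nonneg _,
    fun t ht k => ?_⟩
  · simp only [ha]
    exact (by fun_prop : Continuous fun t : ℝ => Real.exp (-(c k * t)) • E k).continuousOn
  · rw [ha, norm_smul, Real.norm_of_nonneg (Real.exp_pos _).le]
    have h1 : Real.exp (-(c k * t)) ≤ 1 := Real.exp_le_one_iff.2 (by
      have := mul_nonneg (hc k) ht.1
      linarith)
    nlinarith [norm_nonneg (E k)]

theorem der_exp {c : K3 → ℝ} {E : Cf} {a : ℝ → Cf}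
    (ha : ∀ t k, a t k = Real.exp (-(c k * t)) • E k) (t : ℝ) (k : K3) :
    HasDerivAt (fun s => a s k) (-(c k • a t k)) t := by
  have h1 : (fun s => a s k) = fun s => Real.exp (-(c k * s)) • E k := funext fun s => ha s k
  rw [h1, ha]
  have h3 := (der_lin (c k) t).exp.smul_const (E k)
  refine h3.congr_deriv ?_
  rw [smul_smul, ← neg_smul]
  congr 1
  ring

theorem rmaj_fin {R : ℝ → K3 → ℝ} (h1 : ∀ k, Continuous fun t => R t k)
    (h2 : ∃ F : Finset K3, ∀ t, ∀ k ∉ F, R t k = 0) (h3 : ∀ t k, 0 ≤ R t k) (τ : ℝ) :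
    RMaj (Icc 0 τ) R := by
  classical
  obtain ⟨F, hF⟩ := h2
  have hb : ∀ k, ∃ b, ∀ t ∈ Icc 0 τ, ‖R t k‖ ≤ b := fun k =>
    isCompact_Icc.exists_bound_of_continuousOn (h1 k).continuousOn
  choose b hb using hb
  refine ⟨fun k => (h1 k).continuousOn, fun k => if k ∈ F then b k else 0, ?_,
    fun t ht k => ⟨h3 t k, ?_⟩⟩
  · exact summable_of_ne_finset_zero (s := F) fun k hk => if_neg hk
  · change R t k ≤ if k ∈ F then b k else 0
    split_ifs with hk
    · exact (Real.le_norm_self _).trans (hb k t ht)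
    · exact (hF t k hk).le

theorem maj_sol {Λ T τ : ℝ} {c : ℝ → Cf} (h : FSol Λ T c) (hτ : τ < T) : Maj (Icc 0 τ) c := by
  obtain ⟨M, hM, hcM⟩ := h.dec τ hτ
  exact ⟨fun k => (h.cont k).mono (fun t ht => ⟨ht.1, ht.2.trans_lt hτ⟩), fun k => |M k|, hM.abs,
    fun k => abs_nonneg _, fun t ht k => (hcM t ht k).trans (le_abs_self _)⟩

/-- the bound for the force -/
noncomputable def GG (R : ℝ → K3 → ℝ) (v w g r : ℝ → Cf) (t : ℝ) (k : K3) : ℝ :=
  R t k + cn (v t) (w t) k + cn (v t) (g t) k + cn (w t) (v t) k + cn (g t) (v t) k +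
    cn (w t) (g t) k + cn (g t) (w t) k + cn (g t) (g t) k + cn (v t + w t + g t) (r t) k +
    cn (r t) (v t + w t + g t) k + cn (r t) (r t) k

theorem rmaj_GG {C : ℝ} (h1 : P1 C) {s : Set ℝ} {R : ℝ → K3 → ℝ} {v w g r : ℝ → Cf}
    (hR : RMaj s R) (hv : Maj s v) (hw : Maj s w) (hg : Maj s g) (hr : Maj s r) :
    RMaj s (GG R v w g r) :=
  (((((((((hR.add (RMaj.cn h1 hv hw)).add (RMaj.cn h1 hv hg)).add (RMaj.cn h1 hw hv)).add
    (RMaj.cn h1 hg hv)).add (RMaj.cn h1 hw hg)).add (RMaj.cn h1 hg hw)).add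
    (RMaj.cn h1 hg hg)).add (RMaj.cn h1 ((hv.add hw).add hg) hr)).add
    (RMaj.cn h1 hr ((hv.add hw).add hg))).add (RMaj.cn h1 hr hr)

theorem An_add_le {a b : Cf} (ha : Summable fun k => ‖a k‖) (hb : Summable fun k => ‖b k‖) :
    An (a + b) ≤ An a + An b := by
  unfold An
  rw [← ha.tsum_add hb]
  exact Summable.tsum_le_tsum (fun k => norm_add_le _ _) (summable_add ha hb) (ha.add hb)

end SB

open SB in
theorem t_STB : S_STB := by
  intro hMOD hMIN hZIN hGRW hNNB Λ hΛ v hv hQe hBe C₁ w g E P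
  obtain ⟨Q, hQ⟩ := hQe
  obtain ⟨B, hB⟩ := hBe
  obtain ⟨C, hC, h1, h2⟩ := hNNB
  have h1 : P1 C := h1
  have h2 : P2 := h2
  obtain ⟨κ, hκ, hZ⟩ := hZIN hMOD hMIN Λ (1 + C) hΛ (by positivity)
  have hC₁ := P.C0
  obtain ⟨Q0, hQ0, hQQ⟩ : ∃ Q0 : ℝ, 0 ≤ Q0 ∧ Q ≤ Q0 := ⟨max Q 0, le_max_right _ _, le_max_left _ _⟩
  obtain ⟨B0, hB0, hBB⟩ : ∃ B0 : ℝ, 0 ≤ B0 ∧ B ≤ B0 := ⟨max B 0, le_max_right _ _, le_max_left _ _⟩
  obtain ⟨A, hA⟩ : ∃ A : ℝ, A = 3 * (Q0 + C₁ ^ 2 / (2 * Λ) + C₁ ^ 2 / (2 * Λ)) := ⟨_, rfl⟩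
  have hA0 : 0 ≤ A := by rw [hA]; positivity
  obtain ⟨σ₀, CG, hσ₀, hCG, hG⟩ := hGRW κ A hκ hA0
  obtain ⟨K, hK⟩ : ∃ K : ℝ, K = C₁ + 4 * B0 * C₁ + 3 * C₁ ^ 2 := ⟨_, rfl⟩
  have hK0 : 0 ≤ K := by rw [hK]; positivity
  obtain ⟨N₀, hN₀⟩ := exists_nat_gt (K / (Λ * (σ₀ / 2)))
  refine ⟨N₀ + 1, σ₀ / 2, 2 * A + 2 * (CG * σ₀) ^ 2, by positivity,
    fun N hN T u hT hu hinit => ?_⟩
  have hN1 : 1 ≤ N := by omega
  have hNr : (1 : ℝ) ≤ N := by exact_mod_cast hN1
  have hN0 : (0 : ℝ) < N := by linarith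
  have hKN : K / (Λ * N) ≤ σ₀ / 2 := by
    have h3 : (N₀ : ℝ) ≤ N := by exact_mod_cast (by omega : N₀ ≤ N)
    have h4 : K / (Λ * (σ₀ / 2)) < N := lt_of_lt_of_le hN₀ h3
    rw [div_lt_iff₀ (by positivity)] at h4
    rw [div_le_iff₀ (by positivity)]
    linarith
  obtain ⟨μ, hμ, hgeq, R, hRc, hRF, hR0, hRww, hRs⟩ := P.g_eq N hN1
  obtain ⟨r, hr⟩ : ∃ r : ℝ → Cf, r = fun t => u t - (v t + w N t + g N t) := ⟨_, rfl⟩
  have hrt : ∀ t, r t = u t - (v t + w N t + g N t) := fun t => by rw [hr]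
  have hut : ∀ t, v t + w N t + g N t + r t = u t := fun t => by rw [hrt]; abel
  have hl0 : ∀ k, 0 ≤ Λ * len k ^ 2 := fun k => by positivity
  have mv : ∀ τ, Maj (Icc 0 τ) v := fun τ => maj_sol (hv (τ + 1)) (by linarith)
  have mw : ∀ τ, Maj (Icc 0 τ) (w N) := fun τ =>
    maj_exp (c := fun k => Λ * len k ^ 2) (P.wfin N hN1) hl0 (P.w_eq N hN1)
  have mg : ∀ τ, Maj (Icc 0 τ) (g N) := fun τ =>
    maj_exp (c := fun k => μ + Λ * len k ^ 2) P.Efin (fun k => add_nonneg hμ (hl0 k)) hgeq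
  have mu : ∀ τ, τ < T → Maj (Icc 0 τ) u := fun τ h => maj_sol hu h
  have mua : ∀ τ, Maj (Icc 0 τ) (fun t => v t + w N t + g N t) := fun τ =>
    ((mv τ).add (mw τ)).add (mg τ)
  have mr : ∀ τ, τ < T → Maj (Icc 0 τ) r := fun τ h => by
    rw [hr]; exact (mu τ h).sub (mua τ)
  have mG : ∀ τ, τ < T → RMaj (Icc 0 τ) (GG R v (w N) (g N) r) := fun τ h =>
    rmaj_GG h1 (rmaj_fin hRc hRF hR0 τ) (mv τ) (mw τ) (mg τ) (mr τ h)
  have hr0 : An (r 0) ≤ σ₀ / 2 := by
    refine le_trans (le_of_eq ?_) hinit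
    congr 1
    funext k
    rw [hrt]
    change u 0 k - (v 0 k + w N 0 k + g N 0 k) = u 0 k - (v 0 k + E k + w N 0 k)
    have h3 : g N 0 k = E k := by rw [hgeq]; simp
    rw [h3]
    abel
  -- the inequality for the difference
  have hzin : ∀ τ ∈ Ico 0 T, √(∫ t in (0:ℝ)..τ, An (r t) ^ 2) ≤
      κ * (An (r 0) + ∫ t in (0:ℝ)..τ, ∑' k, GG R v (w N) (g N) r t k) := by
    intro τ hτ
    obtain ⟨hrc, M, hM, -, hrM⟩ := mr τ hτ.2
    obtain ⟨hGc, M', hM', hGM⟩ := mG τ hτ.2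
    refine hZ τ r (fun t k => -(NN (u t) (u t) k - NN (v t) (v t) k - μ • g N t k))
      (GG R v (w N) (g N) r) M M' hτ.1 hM hM' hrM hrc ?_ ?_ hGc hGM ?_
    · intro t ht
      rw [hrt]
      change u t 0 - (v t 0 + w N t 0 + g N t 0) = 0
      rw [hu.zero t ⟨ht.1, ht.2.trans_lt hτ.2⟩, (hv (t + 1)).zero t ⟨ht.1, by linarith⟩,
        P.w_eq N hN1, hgeq, P.w0 N hN1, P.E0]
      simp
    · intro t ht k
      have d1 := hu.der t ⟨ht.1, ht.2.trans hτ.2⟩ k
      have d2 := (hv (τ + 1)).der t ⟨ht.1, by linarith [ht.2]⟩ k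
      have d3 := der_exp (c := fun k => Λ * len k ^ 2) (P.w_eq N hN1) t k
      have d4 := der_exp (c := fun k => μ + Λ * len k ^ 2) hgeq t k
      have d5 := d1.fun_sub ((d2.fun_add d3).fun_add d4)
      have e1 : (fun s => r s k) = fun s => u s k - (v s k + w N s k + g N s k) := by
        funext s; rw [hrt]; rfl
      rw [e1]
      refine d5.congr_deriv ?_
      have e2 : r t k = u t k - (v t k + w N t k + g N t k) := by rw [hrt]; rfl
      rw [e2]
      simp only [smul_sub, smul_add, add_smul]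
      abel
    · intro t ht k
      have ht' : t ∈ Icc 0 τ := ⟨ht.1.le, ht.2.le⟩
      rw [norm_neg]
      have h3 := key h1 hC h2 ((mv τ).summable ht') ((mw τ).summable ht') ((mg τ).summable ht')
        ((mr τ hτ.2).summable ht') μ (R t k) k (hR0 t k) (hRww t ht.1.le k)
      rw [hut] at h3
      exact h3
  -- the bound for the sum
  have hsum : ∀ τ, τ < T → ∀ t ∈ Icc 0 τ, ∑' k, GG R v (w N) (g N) r t k ≤
      K * (N * Real.exp (-(Λ * N ^ 2 * t))) +
        (2 * (An (v t + w N t + g N t) * An (r t)) + An (r t) ^ 2) := by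
    intro τ hτ t ht
    rw [hK]
    have hRsum : Summable (R t) := by
      obtain ⟨F, hF⟩ := hRF
      exact summable_of_ne_finset_zero (s := F) fun k hk => hF t k hk
    exact sum_bound h1 ((mv τ).summable ht) ((mw τ).summable ht) ((mg τ).summable ht)
      ((mr τ hτ).summable ht) hRsum hC₁ hB0 (Real.exp_pos _).le
      (Real.exp_le_one_iff.2 (by
        have : 0 ≤ Λ * N ^ 2 * t := mul_nonneg (by positivity) ht.1
        linarith)) hNr (hRs t ht.1) ((hB t ht.1).trans hBB) (P.wA N hN1 t ht.1)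
      (P.gA N hN1 t ht.1)
  have ca : ∀ τ, ContinuousOn (fun t => An (v t + w N t + g N t)) (Icc 0 τ) := fun τ =>
    (mua τ).continuousOn_An
  have cr : ∀ τ, τ < T → ContinuousOn (fun t => An (r t)) (Icc 0 τ) := fun τ h =>
    (mr τ h).continuousOn_An
  have hint : ∀ τ ∈ Ico 0 T, ∫ t in (0:ℝ)..τ, ∑' k, GG R v (w N) (g N) r t k ≤ K / (Λ * N) +
      ∫ t in (0:ℝ)..τ, (2 * (An (v t + w N t + g N t) * An (r t)) + An (r t) ^ 2) := by
    intro τ hτ
    have c1 : ContinuousOn (fun t => 2 * (An (v t + w N t + g N t) * An (r t)) + An (r t) ^ 2)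
        (Icc 0 τ) := (continuousOn_const.mul ((ca τ).mul (cr τ hτ.2))).add ((cr τ hτ.2).pow 2)
    have i1 : IntervalIntegrable (fun t => 2 * (An (v t + w N t + g N t) * An (r t)) +
        An (r t) ^ 2) volume 0 τ := c1.intervalIntegrable_of_Icc hτ.1
    have i2 : IntervalIntegrable (fun t : ℝ => K * (N * Real.exp (-(Λ * N ^ 2 * t)))) volume 0 τ :=
      (by fun_prop : Continuous fun t : ℝ =>
        K * (N * Real.exp (-(Λ * N ^ 2 * t)))).intervalIntegrable _ _
    refine (int_le hτ.1 (i2.add i1) ?_ (hsum τ hτ.2)).trans ?_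
    · intro t _
      have := An_nonneg (v t + w N t + g N t)
      have := An_nonneg (r t)
      positivity
    · rw [intervalIntegral.integral_add i2 i1]
      refine add_le_add ?_ le_rfl
      rw [intervalIntegral.integral_const_mul, intervalIntegral.integral_const_mul]
      have h3 := int_exp_le (c := Λ * N ^ 2) (τ := τ) (by positivity)
      calc K * (N * ∫ t in (0:ℝ)..τ, Real.exp (-(Λ * N ^ 2 * t))) ≤ K * (N * (1 / (Λ * N ^ 2))) :=
            mul_le_mul_of_nonneg_left (mul_le_mul_of_nonneg_left h3 hN0.le) hK0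
        _ = K / (Λ * N) := by field_simp
  have hinta : ∀ τ ∈ Ico 0 T, ∫ t in (0:ℝ)..τ, An (v t + w N t + g N t) ^ 2 ≤ A := by
    intro τ hτ
    have cv : ContinuousOn (fun t => An (v t) ^ 2) (Icc 0 τ) := ((mv τ).continuousOn_An).pow 2
    have i1 : IntervalIntegrable (fun t => An (v t) ^ 2) volume 0 τ :=
      cv.intervalIntegrable_of_Icc hτ.1
    have i2 : IntervalIntegrable (fun t : ℝ => C₁ ^ 2 * N ^ 2 * Real.exp (-(2 * Λ * N ^ 2 * t)))
        volume 0 τ := (by fun_prop : Continuous fun t : ℝ =>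
          C₁ ^ 2 * N ^ 2 * Real.exp (-(2 * Λ * N ^ 2 * t))).intervalIntegrable _ _
    have i3 : IntervalIntegrable (fun t : ℝ => C₁ ^ 2 * Real.exp (-(2 * Λ * N ^ 2 * t)))
        volume 0 τ := (by fun_prop : Continuous fun t : ℝ =>
          C₁ ^ 2 * Real.exp (-(2 * Λ * N ^ 2 * t))).intervalIntegrable _ _
    refine (int_le (g := fun t => 3 * (An (v t) ^ 2 +
      C₁ ^ 2 * N ^ 2 * Real.exp (-(2 * Λ * N ^ 2 * t)) +
      C₁ ^ 2 * Real.exp (-(2 * Λ * N ^ 2 * t)))) hτ.1 (((i1.add i2).add i3).const_mul 3)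
      ?_ ?_).trans ?_
    · intro t _
      positivity
    · intro t ht
      have a1 : An (v t + w N t + g N t) ≤ An (v t) + An (w N t) + An (g N t) := by
        have s1 := (mv τ).summable ht
        have s2 := (mw τ).summable ht
        have s3 := (mg τ).summable ht
        exact (An_add_le (summable_add s1 s2) s3).trans (add_le_add (An_add_le s1 s2) le_rfl)
      have a0 := An_nonneg (v t + w N t + g N t)
      have av := An_nonneg (v t)
      have aw := An_nonneg (w N t)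
      have ag := An_nonneg (g N t)
      have a2 := P.wA N hN1 t ht.1
      have a3 := P.gA N hN1 t ht.1
      have ee : Real.exp (-(2 * Λ * N ^ 2 * t)) = Real.exp (-(Λ * N ^ 2 * t)) ^ 2 := by
        rw [← Real.exp_nat_mul]; congr 1; push_cast; ring
      have b1 : An (v t + w N t + g N t) ^ 2 ≤ (An (v t) + An (w N t) + An (g N t)) ^ 2 :=
        pow_le_pow_left₀ a0 a1 2
      have b2 : An (w N t) ^ 2 ≤ C₁ ^ 2 * N ^ 2 * Real.exp (-(2 * Λ * N ^ 2 * t)) := by
        rw [ee, ← mul_pow, ← mul_pow]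
        exact pow_le_pow_left₀ aw a2 2
      have b3 : An (g N t) ^ 2 ≤ C₁ ^ 2 * Real.exp (-(2 * Λ * N ^ 2 * t)) := by
        rw [ee, ← mul_pow]
        exact pow_le_pow_left₀ ag a3 2
      have b4 : (An (v t) + An (w N t) + An (g N t)) ^ 2 ≤
          3 * (An (v t) ^ 2 + An (w N t) ^ 2 + An (g N t) ^ 2) := by
        nlinarith [sq_nonneg (An (v t) - An (w N t)), sq_nonneg (An (v t) - An (g N t)),
          sq_nonneg (An (w N t) - An (g N t))]
      linarith
    · rw [intervalIntegral.integral_const_mul, intervalIntegral.integral_add (i1.add i2) i3,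
        intervalIntegral.integral_add i1 i2, intervalIntegral.integral_const_mul,
        intervalIntegral.integral_const_mul, hA]
      have h3 := int_exp_le (c := 2 * Λ * N ^ 2) (τ := τ) (by positivity)
      have h4 : C₁ ^ 2 * N ^ 2 * ∫ t in (0:ℝ)..τ, Real.exp (-(2 * Λ * N ^ 2 * t)) ≤
          C₁ ^ 2 / (2 * Λ) := by
        calc C₁ ^ 2 * N ^ 2 * ∫ t in (0:ℝ)..τ, Real.exp (-(2 * Λ * N ^ 2 * t)) ≤
              C₁ ^ 2 * N ^ 2 * (1 / (2 * Λ * N ^ 2)) :=
              mul_le_mul_of_nonneg_left h3 (by positivity)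
          _ = C₁ ^ 2 / (2 * Λ) := by field_simp
      have h5 : C₁ ^ 2 * ∫ t in (0:ℝ)..τ, Real.exp (-(2 * Λ * N ^ 2 * t)) ≤
          C₁ ^ 2 / (2 * Λ) := by
        calc C₁ ^ 2 * ∫ t in (0:ℝ)..τ, Real.exp (-(2 * Λ * N ^ 2 * t)) ≤
              C₁ ^ 2 * (1 / (2 * Λ * N ^ 2)) :=
              mul_le_mul_of_nonneg_left h3 (by positivity)
          _ ≤ C₁ ^ 2 * (1 / (2 * Λ)) := by
              refine mul_le_mul_of_nonneg_left ?_ (by positivity)
              refine one_div_le_one_div_of_le (by positivity) ?_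
              have : 1 ≤ (N : ℝ) ^ 2 := one_le_pow₀ hNr
              nlinarith
          _ = C₁ ^ 2 / (2 * Λ) := by ring
      have h6 := hQ τ hτ.1
      have h7 : ∫ t in (0:ℝ)..τ, An (v t) ^ 2 ≤ Q0 := h6.trans hQQ
      linarith
  have hmain := hG T (An (r 0) + K / (Λ * N)) (fun t => An (v t + w N t + g N t))
    (fun t => An (r t)) (contOn_Ico fun τ _ => ca τ) (contOn_Ico cr) (fun t _ => An_nonneg _)
    (fun t _ => An_nonneg _) (add_nonneg (An_nonneg _) (by positivity)) (by linarith) hinta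
    (fun τ hτ => by
      refine (hzin τ hτ).trans (mul_le_mul_of_nonneg_left ?_ hκ.le)
      have := hint τ hτ
      linarith)
  intro τ hτ
  have h3 := hmain τ hτ
  have h4 : √(∫ t in (0:ℝ)..τ, An (r t) ^ 2) ≤ CG * σ₀ :=
    h3.trans (mul_le_mul_of_nonneg_left (by linarith) hCG)
  have h5 : ∫ t in (0:ℝ)..τ, An (r t) ^ 2 ≤ (CG * σ₀) ^ 2 := (Real.sqrt_le_iff.1 h4).2
  have i1 : IntervalIntegrable (fun t => An (v t + w N t + g N t) ^ 2) volume 0 τ :=
    ((ca τ).pow 2).intervalIntegrable_of_Icc hτ.1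
  have i2 : IntervalIntegrable (fun t => An (r t) ^ 2) volume 0 τ :=
    ((cr τ hτ.2).pow 2).intervalIntegrable_of_Icc hτ.1
  refine (int_le (g := fun t => 2 * (An (v t + w N t + g N t) ^ 2 + An (r t) ^ 2)) hτ.1
    ((i1.add i2).const_mul 2) (fun t _ => by positivity) ?_).trans ?_
  · intro t ht
    have s1 := (mua τ).summable ht
    have s2 := (mr τ hτ.2).summable ht
    have a1 : An (u t) ≤ An (v t + w N t + g N t) + An (r t) := by
      have := An_add_le s1 s2
      rwa [hut] at this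
    have a0 := An_nonneg (u t)
    have a2 : An (u t) ^ 2 ≤ (An (v t + w N t + g N t) + An (r t)) ^ 2 := pow_le_pow_left₀ a0 a1 2
    nlinarith [sq_nonneg (An (v t + w N t + g N t) - An (r t))]
  · rw [intervalIntegral.integral_const_mul, intervalIntegral.integral_add i1 i2]
    have := hinta τ hτ
    linarith

end Pool.Agent.N976.GD
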