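import Pool.Agent.N977.Q.Cls

/-!
Definitions and statements for the project GD: smooth data with global smooth solutions of the
Navier-Stokes equations are dense in the critical Besov space of order `-1`.
-/

set_option autoImplicit false

open MeasureTheory Set Filter Topology
open scoped ContDiff

namespace Pool.Agent.N976.GD

open H459R3.NS Pool.Agent.N977.Q

/-- complex vectors (supremum norm) -/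
abbrev C3 := Fin 3 → ℂ

/-- families of Fourier coefficients -/
abbrev Cf := K3 → C3

/-- the Fourier coefficients of a vector field -/
noncomputable def fv (v : V → V) : Cf := fun k i => fr (fun x => v x i) k

/-- the sum of the norms of the Fourier coefficients -/
noncomputable def An (a : Cf) : ℝ := ∑' k, ‖a k‖

/-- the Leray projection -/
noncomputable def prj (k : K3) (v : C3) : C3 :=
  fun i => v i - (k i : ℂ) * (∑ j, (k j : ℂ) * v j) / ((len k ^ 2 : ℝ) : ℂ)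

/-- the Fourier coefficients of `div (a ⊗ b)` -/
noncomputable def cvv (a b : Cf) (k : K3) : C3 :=
  fun i => ∑' l, (2 * Real.pi * Complex.I * ∑ j, (k j : ℂ) * a l j) * b (k - l) i

/-- the nonlinear term -/
noncomputable def NN (a b : Cf) (k : K3) : C3 := prj k (cvv a b k)

/-- convolution of the norms -/
noncomputable def cn (a b : Cf) (k : K3) : ℝ := ∑' l, ‖a l‖ * ‖b (k - l)‖

/-- a solution in terms of its Fourier coefficients, `Λ = 4 π² ν` -/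
structure FSol (Λ T : ℝ) (c : ℝ → Cf) : Prop where
  cont : ∀ k, ContinuousOn (fun t => c t k) (Ico 0 T)
  der : ∀ t ∈ Ioo 0 T, ∀ k, HasDerivAt (fun s => c s k)
    (-((Λ * len k ^ 2) • c t k) - NN (c t) (c t) k) t
  dec : ∀ T', T' < T → ∃ M : K3 → ℝ, Summable M ∧ ∀ t ∈ Icc 0 T', ∀ k, ‖c t k‖ ≤ M k
  zero : ∀ t ∈ Ico 0 T, c t 0 = 0

/-- divergence free -/
def Dv (v : V → V) : Prop := ∀ x, ∑ i, pd i (fun y => v y i) x = 0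

/-! ### Real analysis -/

/-- (MIN) Minkowski's inequality -/
def S_MIN : Prop := ∀ (τ : ℝ) (f : K3 → ℝ → ℝ) (M : K3 → ℝ), 0 ≤ τ → Summable M →
  (∀ k, ContinuousOn (f k) (Icc 0 τ)) → (∀ k, ∀ t ∈ Icc 0 τ, 0 ≤ f k t ∧ f k t ≤ M k) →
  (Summable fun k => √(∫ t in (0:ℝ)..τ, f k t ^ 2)) ∧
  √(∫ t in (0:ℝ)..τ, (∑' k, f k t) ^ 2) ≤ ∑' k, √(∫ t in (0:ℝ)..τ, f k t ^ 2)

/-- (MOD) one mode -/
def S_MOD : Prop := ∀ (lam C τ : ℝ) (r F : ℝ → ℂ) (G : ℝ → ℝ), 0 < lam → 0 ≤ C → 0 ≤ τ →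
  ContinuousOn r (Icc 0 τ) → (∀ t ∈ Ioo 0 τ, HasDerivAt r (-((lam : ℂ) * r t) + F t) t) →
  ContinuousOn G (Icc 0 τ) → (∀ t ∈ Icc 0 τ, 0 ≤ G t) → (∀ t ∈ Ioo 0 τ, ‖F t‖ ≤ C * G t) →
  √(∫ t in (0:ℝ)..τ, ‖r t‖ ^ 2) ≤ (‖r 0‖ + 2 * C * ∫ t in (0:ℝ)..τ, G t) / √(2 * lam)

/-- (ZIN) all modes -/
def S_ZIN : Prop := S_MOD → S_MIN → ∀ Λ C₀ : ℝ, 0 < Λ → 0 ≤ C₀ → ∃ C : ℝ, 0 < C ∧
  ∀ (τ : ℝ) (r F : ℝ → Cf) (G : ℝ → K3 → ℝ) (M M' : K3 → ℝ), 0 ≤ τ → Summable M → Summable M' →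
  (∀ t ∈ Icc 0 τ, ∀ k, ‖r t k‖ ≤ M k) → (∀ k, ContinuousOn (fun t => r t k) (Icc 0 τ)) →
  (∀ t ∈ Icc 0 τ, r t 0 = 0) →
  (∀ t ∈ Ioo 0 τ, ∀ k, HasDerivAt (fun s => r s k) (-((Λ * len k ^ 2) • r t k) + F t k) t) →
  (∀ k, ContinuousOn (fun t => G t k) (Icc 0 τ)) → (∀ t ∈ Icc 0 τ, ∀ k, 0 ≤ G t k ∧ G t k ≤ M' k) →
  (∀ t ∈ Ioo 0 τ, ∀ k, ‖F t k‖ ≤ C₀ * (len k * G t k)) →
  √(∫ t in (0:ℝ)..τ, An (r t) ^ 2) ≤ C * (An (r 0) + ∫ t in (0:ℝ)..τ, ∑' k, G t k)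

/-- (GRW) a nonlinear inequality of Gronwall's type -/
def S_GRW : Prop := ∀ κ A : ℝ, 0 < κ → 0 ≤ A → ∃ σ₀ C : ℝ, 0 < σ₀ ∧ 0 ≤ C ∧
  ∀ (T σ : ℝ) (a ρ : ℝ → ℝ), ContinuousOn a (Ico 0 T) → ContinuousOn ρ (Ico 0 T) →
  (∀ t ∈ Ico 0 T, 0 ≤ a t) → (∀ t ∈ Ico 0 T, 0 ≤ ρ t) → 0 ≤ σ → σ ≤ σ₀ →
  (∀ τ ∈ Ico 0 T, ∫ t in (0:ℝ)..τ, a t ^ 2 ≤ A) →
  (∀ τ ∈ Ico 0 T, √(∫ t in (0:ℝ)..τ, ρ t ^ 2)
    ≤ κ * (σ + ∫ t in (0:ℝ)..τ, (2 * (a t * ρ t) + ρ t ^ 2))) →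
  ∀ τ ∈ Ico 0 T, √(∫ t in (0:ℝ)..τ, ρ t ^ 2) ≤ C * σ

/-- (LAC) a lacunary sum -/
def S_LAC : Prop := ∀ l : List ℕ, l.Pairwise (fun a b => 2 * b ≤ a) → (∀ n ∈ l, 1 ≤ n) →
  ∀ y : ℝ, 0 ≤ y → (l.map fun n : ℕ => (n : ℝ) * y * Real.exp (-(4 * Real.pi ^ 2 * (n * y) ^ 2))).sum ≤ 2

/-! ### Sequences -/

/-- (NNB) the nonlinear term -/
def S_NNB : Prop := ∃ C : ℝ, 0 < C ∧
  (∀ a b : Cf, (Summable fun k => ‖a k‖) → (Summable fun k => ‖b k‖) →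
    (∀ k, 0 ≤ cn a b k) ∧ Summable (cn a b) ∧ (∑' k, cn a b k = An a * An b) ∧
    (∀ k, Summable fun l => ‖a l‖ * ‖b (k - l)‖) ∧
    ∀ k, ‖NN a b k‖ ≤ C * (len k * cn a b k)) ∧
  (∀ a a' b : Cf, (Summable fun k => ‖a k‖) → (Summable fun k => ‖a' k‖) →
    (Summable fun k => ‖b k‖) → (∀ k, NN (a + a') b k = NN a b k + NN a' b k) ∧
      ∀ k, NN b (a + a') k = NN b a k + NN b a' k)

/-- a packet: `w N` is the packet with the frequency of size `N`, `E` the mean velocity which it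
removes -/
structure Pkt (Λ C₁ : ℝ) (w g : ℕ → ℝ → Cf) (E : Cf) : Prop where
  C0 : 0 ≤ C₁
  w_eq : ∀ N, 1 ≤ N → ∀ t k, w N t k = Real.exp (-(Λ * len k ^ 2 * t)) • w N 0 k
  g_eq : ∀ N : ℕ, 1 ≤ N → ∃ μ : ℝ, 0 ≤ μ ∧
    (∀ t k, g N t k = Real.exp (-((μ + Λ * len k ^ 2) * t)) • E k) ∧
    ∃ R : ℝ → K3 → ℝ, (∀ k, Continuous fun t => R t k) ∧
      (∃ F : Finset K3, ∀ t, ∀ k ∉ F, R t k = 0) ∧ (∀ t k, 0 ≤ R t k) ∧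
      (∀ t, 0 ≤ t → ∀ k, ‖NN (w N t) (w N t) k - μ • g N t k‖ ≤ len k * R t k) ∧
      ∀ t, 0 ≤ t → ∑' k, R t k ≤ C₁ * N * Real.exp (-(Λ * N ^ 2 * t))
  wfin : ∀ N, 1 ≤ N → {k | w N 0 k ≠ 0}.Finite
  Efin : {k | E k ≠ 0}.Finite
  w0 : ∀ N, 1 ≤ N → w N 0 0 = 0
  E0 : E 0 = 0
  wA : ∀ N : ℕ, 1 ≤ N → ∀ t, 0 ≤ t → An (w N t) ≤ C₁ * N * Real.exp (-(Λ * N ^ 2 * t))
  gA : ∀ N : ℕ, 1 ≤ N → ∀ t, 0 ≤ t → An (g N t) ≤ C₁ * Real.exp (-(Λ * N ^ 2 * t))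

/-- (STB) stability -/
def S_STB : Prop := S_MOD → S_MIN → S_ZIN → S_GRW → S_NNB → ∀ Λ : ℝ, 0 < Λ → ∀ v : ℝ → Cf,
  (∀ T, FSol Λ T v) → (∃ Q, ∀ τ, 0 ≤ τ → ∫ t in (0:ℝ)..τ, An (v t) ^ 2 ≤ Q) →
  (∃ B, ∀ t, 0 ≤ t → An (v t) ≤ B) → ∀ (C₁ : ℝ) (w g : ℕ → ℝ → Cf) (E : Cf), Pkt Λ C₁ w g E →
  ∃ (N₀ : ℕ) (η Q' : ℝ), 0 < η ∧ ∀ N : ℕ, N₀ ≤ N → ∀ (T : ℝ) (u : ℝ → Cf), 0 < T → FSol Λ T u →
    An (fun k => u 0 k - (v 0 k + E k + w N 0 k)) ≤ η →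
    ∀ τ ∈ Ico 0 T, ∫ t in (0:ℝ)..τ, An (u t) ^ 2 ≤ Q'

/-! ### Solutions -/

/-- (FOU) the Fourier coefficients of a smooth solution -/
def S_FOU : Prop := ∀ (ν T : ℝ) (u : ℝ → V → V) (q : ℝ → V → ℝ), 0 < ν → IsSol ν T u q →
  (∀ i, ∫ x in cube, u 0 x i = 0) → FSol (4 * Real.pi ^ 2 * ν) T (fun t => fv (u t))

/-- (ENG) energy estimate of third order -/
def S_ENG : Prop := ∀ ν : ℝ, 0 < ν → ∃ C : ℝ, 0 ≤ C ∧ ∀ (T Q : ℝ) (u : ℝ → V → V) (q : ℝ → V → ℝ),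
  IsSol ν T u q → (∀ i, ∫ x in cube, u 0 x i = 0) →
  (∀ τ ∈ Ico 0 T, ∫ t in (0:ℝ)..τ, An (fv (u t)) ^ 2 ≤ Q) →
  ∀ t ∈ Ico 0 T, Hn 3 0 (u t) ≤ Real.exp (C * Q) * Hn 3 0 (u 0)

/-- (SUP) embedding -/
def S_SUP : Prop := ∃ C : ℝ, 0 ≤ C ∧ ∀ v : V → V, SPV v → fv v 0 = 0 →
  (Summable fun k => ‖fv v k‖) ∧ An (fv v) ≤ C * Hn 3 0 v

/-- (LEX) maximal solutions -/
def S_LEX : Prop := ∀ ν : ℝ, 0 < ν → ∀ v : V → V, SPV v → Dv v →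
  ∃ (u : ℝ → V → V) (q : ℝ → V → ℝ), u 0 = v ∧ ((∀ T, IsSol ν T u q) ∨
    ∃ T, 0 < T ∧ IsSol ν T u q ∧ ¬ ∃ M, ∀ t ∈ Ico 0 T, Hn 3 0 (u t) ≤ M)

/-! ### Packets -/

/-- the direction of the oscillations -/
def xi (k p : K3) : K3 := crossProduct k p

/-- the packet -/
noncomputable def WP (N : ℕ) (k p : K3) (α s : ℝ) (x : V) : V := fun i =>
  N * α * Real.cos (2 * Real.pi * (N * ph (xi k p) x)) *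
    (k i + Real.sin (2 * Real.pi * ph k x + s) * p i)

/-- the mean velocity which the packet removes -/
noncomputable def EP (ν : ℝ) (k p : K3) (α s : ℝ) (x : V) : V := fun i =>
  α ^ 2 / (8 * Real.pi * ν * len p ^ 2) * Real.cos (2 * Real.pi * ph k x + s) * p i

/-- a trigonometric field -/
noncomputable def CP (m : K3) (θ : ℝ) (b : Fin 3 → ℝ) (x : V) : V := fun i =>
  Real.cos (2 * Real.pi * ph m x + θ) * b i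

/-- its Fourier coefficients -/
noncomputable def tc (m : K3) (θ : ℝ) (b : Fin 3 → ℝ) : Cf :=
  Pi.single m (fun i => Complex.exp (θ * Complex.I) / 2 * (b i : ℂ)) +
    Pi.single (-m) (fun i => Complex.exp (-(θ * Complex.I)) / 2 * (b i : ℂ))

/-- (TCF) trigonometric fields -/
def S_TCF : Prop := ∀ (m : K3) (θ : ℝ) (b : Fin 3 → ℝ), SPV (CP m θ b) ∧
  (m ≠ 0 → fv (CP m θ b) = tc m θ b) ∧ (∑ j, (m j : ℝ) * b j = 0 → Dv (CP m θ b))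

/-- (NTC) the nonlinear term for trigonometric fields -/
def S_NTC : Prop := ∀ (m m' : K3) (θ θ' : ℝ) (b b' : Fin 3 → ℝ), ∑ j, (m j : ℝ) * b j = 0 →
  (∑ j, (m' j : ℝ) * b j = 0 → ∀ k, NN (tc m θ b) (tc m' θ' b') k = 0) ∧
  (m + m' ≠ 0 → m - m' ≠ 0 → ∑ j, (m j : ℝ) * b' j = 0 → ∑ j, (m' j : ℝ) * b' j = 0 →
    ∀ k, NN (tc m θ b) (tc m' θ' b') k = (-(Real.pi * ∑ j, (m' j : ℝ) * b j)) •
      (tc (m + m') (θ + θ' - Real.pi / 2) b' k + tc (m - m') (θ - θ' + Real.pi / 2) b' k))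

/-- (PKF) the Fourier coefficients of packets -/
def S_PKF : Prop := S_NNB → S_TCF → S_NTC → ∀ ν : ℝ, 0 < ν → ∀ k p : K3, k ≠ 0 → p ≠ 0 → ∑ j, k j * p j = 0 →
  ∀ α s : ℝ, ∃ (C₁ : ℝ) (w g : ℕ → ℝ → Cf),
    Pkt (4 * Real.pi ^ 2 * ν) C₁ w g (fv (EP ν k p α s)) ∧
    ∀ N, 1 ≤ N → w N 0 = fv (WP N k p α s)

/-- (PKN) packets as fields -/
def S_PKN : Prop := S_TCF → ∀ k p : K3, k ≠ 0 → p ≠ 0 → ∑ j, k j * p j = 0 → ∀ α s : ℝ,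
  (∀ N : ℕ, 1 ≤ N → SPV (WP N k p α s) ∧ Dv (WP N k p α s) ∧ fv (WP N k p α s) 0 = 0 ∧
    (Summable fun l => ‖fv (WP N k p α s) l‖) ∧
    ∀ t : ℝ, 0 ≤ t → ∑' l : K3, Real.exp (-(4 * Real.pi ^ 2 * len l ^ 2 * t)) *
      ‖fv (WP N k p α s) l‖ ≤
        |α| * N * (len k + len p) * 2 * Real.exp (-(4 * Real.pi ^ 2 * N ^ 2 * t))) ∧
  ∀ ν : ℝ, SPV (EP ν k p α s) ∧ Dv (EP ν k p α s) ∧ fv (EP ν k p α s) 0 = 0 ∧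
    Summable fun l => ‖fv (EP ν k p α s) l‖

/-- (DEC) decomposition of a field -/
def S_DEC : Prop := S_TCF → ∀ U : V → V, SPV U → Dv U → fv U 0 = 0 → ∀ η : ℝ, 0 < η →
  ∃ L : List (K3 × K3 × ℝ × ℝ),
    (∀ e ∈ L, e.1 ≠ 0 ∧ e.2.1 ≠ 0 ∧ ∑ j, e.1 j * e.2.1 j = 0 ∧ 0 ≤ e.2.2.1) ∧
    ∃ R : V → V, SPV R ∧ Dv R ∧ fv R 0 = 0 ∧ An (fv R) ≤ η ∧
      ∀ x i, U x i = R x i + (L.map fun e =>
        e.2.2.1 * Real.cos (2 * Real.pi * ph e.1 x + e.2.2.2) * (e.2.1 i : ℝ)).sum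

end Pool.Agent.N976.GD
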